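import Pool.Agent.H915.Stmts2
import Pool.Agent.W684.FM.Forced

/-!
# New coordinates
-/

set_option autoImplicit false

namespace Pool.Agent.H915.Ac

open Cardinal Set Pool.Agent.Helper669.Forcing


open Pool.Agent.W910.LC (Supercompact)
open Pool.Agent.W873.Tp (NormalFine)

/-! ### Conditions -/

section Basics

variable {K W : Type} [LinearOrder K] [Cod K]

theorem mem_fib {p : Pre K W} {c : Crd K W} {x : K} : x ∈ fib p c ↔ (c, x) ∈ p.top := by
  classical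
  simp only [fib, Finset.mem_image, Finset.mem_filter]
  constructor
  · rintro ⟨⟨c', x'⟩, ⟨h1, h2⟩, h3⟩
    simp only at h2 h3
    subst h2 h3
    exact h1
  · intro h
    exact ⟨(c, x), ⟨h, rfl⟩, rfl⟩

theorem fib_congr {p q : Pre K W} {c : Crd K W} (h : ∀ x, (c, x) ∈ p.top ↔ (c, x) ∈ q.top) :
    fib p c = fib q c := by
  ext x
  rw [mem_fib, mem_fib, h]

theorem vmono {S T : Set (Crd K W)} (h : S ⊆ T) {p : Pre K W} (hp : Valid S p) : Valid T p :=
  fun a ha => ⟨h (hp a ha).1, (hp a ha).2⟩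

theorem vof {S T : Set (Crd K W)} {p : Pre K W} (hp : Valid S p)
    (h : ∀ a ∈ p.top, a.1 ∈ T) : Valid T p := fun a ha => ⟨h a ha, (hp a ha).2⟩

theorem mem_restr {T : Set (Crd K W)} {p : Pre K W} {a : Crd K W × K} :
    a ∈ (restr T p).top ↔ a ∈ p.top ∧ a.1 ∈ T := by
  classical
  simp [restr]

theorem le_restr (T : Set (Crd K W)) (p : Pre K W) : p ≤ restr T p :=
  ⟨le_refl _, fun _ ha => (mem_restr.1 ha).1⟩

theorem restr_mono {T : Set (Crd K W)} {p q : Pre K W} (h : p ≤ q) : restr T p ≤ restr T q :=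
  ⟨h.1, fun a ha => by
    rw [mem_restr] at ha ⊢
    exact ⟨h.2 ha.1, ha.2⟩⟩

theorem restr_le {T : Set (Crd K W)} {p q : Pre K W} (h : p ≤ q) (hq : ∀ a ∈ q.top, a.1 ∈ T) :
    restr T p ≤ q := ⟨h.1, fun a ha => mem_restr.2 ⟨h.2 ha, hq a ha⟩⟩

theorem restr_self {T : Set (Crd K W)} {p : Pre K W} (hp : ∀ a ∈ p.top, a.1 ∈ T) :
    restr T p = p := by
  cases p with
  | mk b t =>
    have : (restr T ⟨b, t⟩).top = t := by
      ext a
      rw [mem_restr]
      exact ⟨fun h => h.1, fun h => ⟨h, hp a h⟩⟩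
    calc restr T ⟨b, t⟩ = ⟨b, (restr T ⟨b, t⟩).top⟩ := rfl
      _ = _ := by rw [this]

/-- adding a coordinate -/
theorem valid_addc {S : Set (Crd K W)} {c : Crd K W} (hc : c ∉ S) {u t s : Pre K W}
    (hu : Valid S u) {G : Finset K} (hs : s ∈ c.nm G) (hb : t.base ≤ u.base) (hts : t ≤ s)
    (hmem : ∀ d x, (d, x) ∈ t.top ↔ (d, x) ∈ u.top ∨ (d = c ∧ x ∈ G)) :
    Valid (S ∪ {c}) t := by
  rintro ⟨d, x⟩ hd
  by_cases hdc : d = c
  · subst hdc
    refine ⟨Or.inr rfl, s, ?_, hts⟩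
    have : fib t d = G := by
      ext y
      rw [mem_fib, hmem]
      constructor
      · rintro (h1 | ⟨_, h1⟩)
        · exact absurd (hu _ h1).1 hc
        · exact h1
      · exact fun h1 => Or.inr ⟨rfl, h1⟩
    rw [this]
    exact hs
  · have h1 : (d, x) ∈ u.top := by
      rcases (hmem d x).1 hd with h1 | ⟨h1, _⟩
      · exact h1
      · exact absurd h1 hdc
    obtain ⟨h2, s', hs', hle⟩ := hu _ h1
    refine ⟨Or.inl h2, s', ?_, hb.trans hle.1, fun b hb' => (hmem b.1 b.2).2 (Or.inl (hle.2 hb'))⟩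
    have : fib t d = fib u d := fib_congr fun y => by
      rw [hmem]
      constructor
      · rintro (h3 | ⟨h3, _⟩)
        · exact h3
        · exact absurd h3 hdc
      · exact Or.inl
    simp only at hs' ⊢
    rw [this]
    exact hs'

end Basics

/-! ### Stages -/

section Stages

variable {K W : Type} [LinearOrder K] [Cod K] [LinearOrder W]

theorem maxM_sub {α : W} {S₀ : Set (Crd K W)} :
    ∀ c ∈ maxM α S₀, c.st = α ∧ Proper c ∧ Small c := by
  intro c hc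
  by_cases h : ∃ M, Maximal (fun M => M ∈ Cand α S₀) M
  · rw [maxM, dif_pos h] at hc
    exact h.choose_spec.1.1 c hc
  · rw [maxM, dif_neg h] at hc
    exact absurd hc (Set.notMem_empty c)

variable [WellFoundedLT W]

theorem V_eq (α : W) : (V α : Set (Crd K W)) = maxM α (Slt α) := by
  rw [V, WellFounded.fix_eq]
  rfl

theorem V_sub {α : W} {c : Crd K W} (hc : c ∈ V α) : c.st = α ∧ Proper c ∧ Small c := by
  rw [V_eq] at hc
  exact maxM_sub c hc

theorem mem_Slt {α : W} {c : Crd K W} : c ∈ Slt α ↔ c.st < α ∧ c ∈ V c.st := by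
  rw [Slt, Set.mem_iUnion]
  constructor
  · rintro ⟨⟨β, hβ⟩, h⟩
    have h1 := (V_sub h).1
    simp only at h1 h
    subst h1
    exact ⟨hβ, h⟩
  · rintro ⟨h1, h2⟩
    exact ⟨⟨c.st, h1⟩, h2⟩

theorem mem_Sle {α : W} {c : Crd K W} : c ∈ Sle α ↔ c.st ≤ α ∧ c ∈ V c.st := by
  rw [Sle, Set.mem_union, mem_Slt]
  constructor
  · rintro (⟨h1, h2⟩ | h)
    · exact ⟨h1.le, h2⟩
    · have h1 := (V_sub h).1
      subst h1
      exact ⟨le_rfl, h⟩
  · rintro ⟨h1, h2⟩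
    rcases h1.lt_or_eq with h3 | h3
    · exact Or.inl ⟨h3, h2⟩
    · exact Or.inr (h3 ▸ h2)

theorem mem_Sall {c : Crd K W} : c ∈ (Sall : Set (Crd K W)) ↔ c ∈ V c.st := by
  rw [Sall, Set.mem_iUnion]
  constructor
  · rintro ⟨β, h⟩
    have h1 := (V_sub h).1
    subst h1
    exact h
  · exact fun h => ⟨_, h⟩

theorem proper_Sall {c : Crd K W} (hc : c ∈ (Sall : Set (Crd K W))) : Proper c :=
  (V_sub (mem_Sall.1 hc)).2.1

theorem Slt_sub_Sall (α : W) : Slt α ⊆ (Sall : Set (Crd K W)) := fun _ hc =>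
  mem_Sall.2 (mem_Slt.1 hc).2

theorem Sle_sub_Sall (α : W) : Sle α ⊆ (Sall : Set (Crd K W)) := fun _ hc =>
  mem_Sall.2 (mem_Sle.1 hc).2

theorem initial_Slt (α : W) : Initial (Slt α) (Sall : Set (Crd K W)) :=
  ⟨Slt_sub_Sall α, fun _ hc _ hc' hlt => mem_Slt.2 ⟨hlt.trans (mem_Slt.1 hc).1, mem_Sall.1 hc'⟩⟩

theorem initial_Sle (α : W) : Initial (Sle α) (Sall : Set (Crd K W)) :=
  ⟨Sle_sub_Sall α, fun _ hc _ hc' hlt =>
    mem_Sle.2 ⟨hlt.le.trans (mem_Sle.1 hc).1, mem_Sall.1 hc'⟩⟩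

theorem PP.memSlt {α : W} {a : PP K W} (h : ∀ b ∈ a.1.top, b.1.st < α) :
    ∀ b ∈ a.1.top, b.1 ∈ (Slt α : Set (Crd K W)) := fun b hb =>
  mem_Slt.2 ⟨h b hb, mem_Sall.1 (a.2 b hb).1⟩

theorem PP.memSle {α : W} {a : PP K W} (h : ∀ b ∈ a.1.top, b.1.st < α) :
    ∀ b ∈ a.1.top, b.1 ∈ (Sle α : Set (Crd K W)) := fun b hb =>
  Or.inl (PP.memSlt h b hb)

end Stages

/-! ### Countable closed sets -/

section Club

variable {Ω : Type}

theorem cc_mono {φ ψ : Set Ω → Prop} (h : CClub φ) (h' : ∀ N, φ N → ψ N) : CClub ψ := by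
  obtain ⟨f, hf⟩ := h
  exact ⟨f, fun N h1 h2 => h' N (hf N h1 h2)⟩

theorem cc_true [Nonempty Ω] : CClub (fun _ : Set Ω => True) :=
  ⟨fun _ _ => Classical.arbitrary Ω, fun _ _ _ => trivial⟩

theorem cc_imp [Nonempty Ω] (p : Prop) {φ : Set Ω → Prop} (h : p → CClub φ) :
    CClub (fun N => p → φ N) := by
  by_cases hp : p
  · exact cc_mono (h hp) fun N hN _ => hN
  · exact cc_mono cc_true fun N _ h' => absurd h' hp

theorem cc_and (hF : S_ccForall) {φ ψ : Set Ω → Prop} (h : CClub φ) (h' : CClub ψ) :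
    CClub (fun N => φ N ∧ ψ N) := by
  have := hF Ω (fun n N => if n = 0 then φ N else ψ N) (by
    intro n
    by_cases hn : n = 0
    · simp only [hn, if_true]; exact h
    · simp only [hn, if_false]; exact h')
  exact cc_mono this fun N hN => ⟨by simpa using hN 0, by simpa using hN 1⟩

theorem cc_sub [Nonempty Ω] {C : Set Ω} (hC : C.Countable) : CClub (fun N => C ⊆ N) := by
  rcases C.eq_empty_or_nonempty with rfl | hne
  · exact cc_mono cc_true fun N _ => Set.empty_subset N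
  · obtain ⟨g, hg⟩ := hC.exists_eq_range hne
    refine ⟨fun n _ => g n, fun N _ h => ?_⟩
    rw [hg]
    rintro _ ⟨n, rfl⟩
    exact h n [] (by simp)

end Club

/-! ### The chain condition for a new coordinate -/

section Step

variable {K W : Type} [LinearOrder K] [WellFoundedLT K] [Cod K] [LinearOrder W] [WellFoundedLT W]

/-- The data for a new coordinate. -/
structure Dt (α : W) (q0 : PP K W) (φ A : Finset K → Set (PP K W)) (c : Crd K W) : Prop where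
  fam : IsFam q0 φ
  hA : ∀ F, ∀ a ∈ A F, ∀ b ∈ a.1.top, b.1.st < α
  hAφ : ∀ F, A F ⊆ φ F
  hAd : ∀ F, ∀ p ∈ φ F, ∃ a ∈ A F, ∃ r, r ≤ p ∧ r ≤ a
  hst : c.st = α
  hnm : ∀ F s, s ∈ c.nm F ↔ ∃ a ∈ A F, s = a.1
  hq0 : ∀ b ∈ q0.1.top, b.1.st < α

variable {α : W} {q0 : PP K W} {φ A : Finset K → Set (PP K W)} {c : Crd K W}

omit [WellFoundedLT K] in
theorem Dt.proper (h : Dt α q0 φ A c) : Proper c := by
  intro F s hs a ha
  obtain ⟨t, ht, rfl⟩ := (h.hnm F s).1 hs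
  rw [h.hst]
  exact h.hA F t ht a ha

theorem Dt.rel (h : Dt α q0 φ A c) (hc : c ∉ (Sle α : Set (Crd K W))) [Nonempty K]
    (hVR : S_validRestr K W) (hAm : S_amalg K W) (hSle : S_relSle K W) (hPre : S_ccPre K W)
    (hIn : S_ccIn K W) (hFor : S_ccForall) (hDi : S_ccDiag) :
    RelCCC (Sle α ∪ {c} : Set (Crd K W)) := by
  classical
  intro E hE hd
  have hT : Nonempty (Tok K W) := ⟨Sum.inl (Classical.arbitrary K)⟩
  obtain ⟨S, hS⟩ : ∃ S : Set (Crd K W), S = Sle α := ⟨_, rfl⟩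
  have hprop : ∀ d ∈ S ∪ {c}, Proper d := by
    rw [hS]
    rintro d (hd | hd)
    · exact proper_Sall (Sle_sub_Sall α hd)
    · rw [Set.mem_singleton_iff.1 hd]
      exact h.proper
  have hinit : Initial S (S ∪ {c}) := by
    rw [hS]
    refine ⟨Set.subset_union_left, ?_⟩
    rintro d hd d' (hd' | hd') hlt
    · exact hd'
    · exfalso
      rw [Set.mem_singleton_iff.1 hd', h.hst] at hlt
      exact absurd (mem_Sle.1 hd).1 (not_le.2 hlt)
  have hSall : S ⊆ Sall := by rw [hS]; exact Sle_sub_Sall α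
  have hres : ∀ p, Valid Sall p → Valid S (restr S p) := by
    rw [hS]
    exact fun p hp => hVR (Sle α) Sall (fun d hd => proper_Sall hd) (initial_Sle α) p hp
  have hrel : RelCCC S := by rw [hS]; exact hSle α
  have hAS : ∀ F, ∀ a ∈ A F, ∀ b ∈ a.1.top, b.1 ∈ S := by
    rw [hS]
    exact fun F a ha => PP.memSle (h.hA F a ha)
  rw [← hS] at hc hE hd ⊢
  clear hS
  have hres' : ∀ p, Valid (S ∪ {c}) p → Valid S (restr S p) := hVR S (S ∪ {c}) hprop hinit
  -- the family on the conditions over `S`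
  obtain ⟨Φ, hΦ⟩ : ∃ Φ : Finset K → Pre K W → Prop, ∀ F u, Φ F u ↔
      ∃ hu : Valid Sall u, (⟨u, hu⟩ : PP K W) ∈ φ F := ⟨_, fun _ _ => Iff.rfl⟩
  have Φdown : ∀ F u v, Φ F u → Valid Sall v → v ≤ u → Φ F v := by
    intro F u v h1 hv hvu
    obtain ⟨hu, h1⟩ := (hΦ F u).1 h1
    exact (hΦ F v).2 ⟨hv, h.fam.down F _ h1 _ hvu⟩
  have Φher : ∀ F F' u, F ⊆ F' → Φ F' u → Φ F u := by
    intro F F' u hF h1
    obtain ⟨hu, h1⟩ := (hΦ F' u).1 h1
    exact (hΦ F u).2 ⟨hu, h.fam.her F F' hF h1⟩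
  have ΦA : ∀ F, ∀ a ∈ A F, ∀ v, Valid Sall v → v ≤ a.1 → Φ F v := by
    intro F a ha v hv hva
    exact (hΦ F v).2 ⟨hv, h.fam.down F _ (h.hAφ F ha) _ hva⟩
  have Φq : ∀ F u, Φ F u → u ≤ q0.1 := by
    intro F u h1
    obtain ⟨hu, h1⟩ := (hΦ F u).1 h1
    exact h.fam.le F _ h1
  have hbel : ∀ F u, Valid S u → Φ F u → ∃ v, Valid S v ∧ v ≤ u ∧ ∃ a ∈ A F, v ≤ a.1 := by
    intro F u hu h1
    obtain ⟨hu', h1⟩ := (hΦ F u).1 h1
    obtain ⟨a, ha, r, hr1, hr2⟩ := h.hAd F _ h1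
    exact ⟨restr S r.1, hres _ r.2, restr_le hr1 (fun b hb => (hu b hb).1), a, ha,
      restr_le hr2 (hAS F a ha)⟩
  -- the name of an antichain
  let ro : Finset K → Finset K → Prop := WellOrderingRel
  have hwf : WellFounded ro := IsWellFounded.wf
  obtain ⟨A', hA'⟩ : ∃ A' : Finset K → Set (Pre K W), ∀ F u, u ∈ A' F ↔
      ((Valid S u ∧ ∃ e ∈ E, fib e c = F ∧ u ≤ restr S e) ∧
        ∀ F', ro F' F → ∀ u' ≤ u, Valid S u' → ¬ (u' ∈ A' F' ∧ Φ (F ∪ F') u')) := by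
    refine ⟨hwf.fix fun F A'' => {u | (Valid S u ∧ ∃ e ∈ E, fib e c = F ∧ u ≤ restr S e) ∧
        ∀ F', ∀ hF : ro F' F, ∀ u' ≤ u, Valid S u' → ¬ (u' ∈ A'' F' hF ∧ Φ (F ∪ F') u')}, ?_⟩
    intro F u
    rw [WellFounded.fix_eq]
    rfl
  have A'down : ∀ F u v, u ∈ A' F → Valid S v → v ≤ u → v ∈ A' F := by
    intro F u v hu hv hvu
    rw [hA'] at hu ⊢
    obtain ⟨⟨_, e, he, h1, h2⟩, h3⟩ := hu
    exact ⟨⟨hv, e, he, h1, hvu.trans h2⟩, fun F' hF' u' hu' => h3 F' hF' u' (hu'.trans hvu)⟩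
  have A'anti : ∀ F F' u, F ≠ F' → Valid S u → u ∈ A' F → u ∈ A' F' → ¬ Φ (F ∪ F') u := by
    intro F F' u hne hv h1 h2 h3
    rcases trichotomous_of ro F F' with h4 | h4 | h4
    · rw [Finset.union_comm] at h3
      exact ((hA' F' u).1 h2).2 F h4 u le_rfl hv ⟨h1, h3⟩
    · exact hne h4
    · exact ((hA' F u).1 h1).2 F' h4 u le_rfl hv ⟨h2, h3⟩
  have A'max : ∀ F u, Valid S u → Φ F u → ∃ u' ≤ u, Valid S u' ∧ ∃ F', u' ∈ A' F' ∧
      Φ (F ∪ F') u' := by
    intro F u hu hF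
    obtain ⟨u1, hu1, hu1u, a, ha, hu1a⟩ := hbel F u hu hF
    let u2 : Pre K W := ⟨u1.base, u1.top ∪ F.image fun x => (c, x)⟩
    have hmem : ∀ d x, (d, x) ∈ u2.top ↔ (d, x) ∈ u1.top ∨ (d = c ∧ x ∈ F) := by
      intro d x
      simp only [u2, Finset.mem_union, Finset.mem_image, Prod.mk.injEq]
      constructor
      · rintro (h1 | ⟨y, hy, rfl, rfl⟩)
        · exact Or.inl h1
        · exact Or.inr ⟨rfl, hy⟩
      · rintro (h1 | ⟨rfl, h1⟩)
        · exact Or.inl h1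
        · exact Or.inr ⟨x, h1, rfl, rfl⟩
    have hu21 : u2 ≤ u1 := ⟨le_refl _, Finset.subset_union_left⟩
    have hv2 : Valid (S ∪ {c}) u2 := valid_addc hc hu1 ((h.hnm F _).2 ⟨a, ha, rfl⟩) (le_refl _)
      (hu21.trans hu1a) hmem
    obtain ⟨e, he, heu⟩ := hd u2 hv2
    have hFe : F ⊆ fib e c := by
      intro x hx
      rw [mem_fib]
      exact heu.2 ((hmem c x).2 (Or.inr ⟨rfl, hx⟩))
    have hv3 : Valid S (restr S e) := hres' e (hE e he)
    have hu3 : restr S e ≤ u1 := restr_le (heu.trans hu21) fun b hb => (hu1 b hb).1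
    have hΦ3 : Φ (fib e c) (restr S e) := by
      rcases (fib e c).eq_empty_or_nonempty with h1 | ⟨x, hx⟩
      · have h2 : F = fib e c := by
          rw [h1] at hFe ⊢
          exact Finset.subset_empty.1 hFe
        rw [← h2]
        exact Φdown F u _ hF (vmono hSall hv3) (hu3.trans hu1u)
      · rw [mem_fib] at hx
        obtain ⟨_, s, hs, hes⟩ := hE e he _ hx
        obtain ⟨a', ha', rfl⟩ := (h.hnm _ s).1 hs
        exact ΦA _ a' ha' _ (vmono hSall hv3) (restr_le hes (hAS _ a' ha'))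
    by_cases h3 : restr S e ∈ A' (fib e c)
    · refine ⟨restr S e, hu3.trans hu1u, hv3, fib e c, h3, ?_⟩
      rw [Finset.union_eq_right.2 hFe]
      exact hΦ3
    · rw [hA'] at h3
      push Not at h3
      obtain ⟨F', hF', u', hu', hv', h4, h5⟩ := h3 ⟨hv3, e, he, rfl, le_rfl⟩
      exact ⟨u', hu'.trans (hu3.trans hu1u), hv', F', h4,
        Φher _ _ _ (Finset.union_subset_union hFe (Finset.Subset.refl _)) h5⟩
  -- the three dense sets
  have D0 : CClub fun N : Set (Tok K W) => ∀ r, Valid S r → KN N ∈ r.base.Nd →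
      ∃ e ∈ {v | Valid S v ∧ ∃ e ∈ E, v ≤ restr S e}, InTok N e ∧
        ∃ u, Valid S u ∧ u ≤ r ∧ u ≤ e := by
    refine hrel _ (fun e he => he.1) fun r hr => ?_
    obtain ⟨e, he, her⟩ := hd r (vmono Set.subset_union_left hr)
    exact ⟨restr S e, ⟨hres' e (hE e he), e, he, le_rfl⟩, restr_le her fun b hb => (hr b hb).1⟩
  have D1 : CClub fun N : Set (Tok K W) => ∀ r, Valid S r → KN N ∈ r.base.Nd →
      ∃ e ∈ {v | Valid S v ∧ ((∃ Z : Set (Finset K), Z.Countable ∧ ∀ F ∉ Z, ∀ u' ≤ v, Valid S u' →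
        ¬ (u' ∈ A' F ∧ Φ F u')) ∨ ∀ u' ≤ v, Valid S u' → ¬ u' ≤ q0.1)}, InTok N e ∧
        ∃ u, Valid S u ∧ u ≤ r ∧ u ≤ e := by
    refine hrel _ (fun e he => he.1) fun r hr => ?_
    by_cases h1 : ∀ u' ≤ r, Valid S u' → ¬ u' ≤ q0.1
    · exact ⟨r, ⟨hr, Or.inr h1⟩, le_rfl⟩
    · push Not at h1
      obtain ⟨u', hu', hv', hq'⟩ := h1
      obtain ⟨q', hq'u, Z, hZ, hZ'⟩ := h.fam.ccc
        (fun F => {u : PP K W | restr S u.1 ∈ A' F ∧ u ∈ φ F})
        (fun F u hu v hvu => ⟨A'down F _ _ hu.1 (hres _ v.2) (restr_mono hvu),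
          h.fam.down F _ hu.2 _ hvu⟩)
        (fun F u hu => hu.2)
        (by
          rintro F F' hne u ⟨hu1, _⟩ ⟨hu2, _⟩ G hFG hF'G huG
          have h2 : u ∈ φ (F ∪ F') := h.fam.her _ _ (Finset.union_subset hFG hF'G) huG
          obtain ⟨a, ha, w, hwu, hwa⟩ := h.hAd _ u h2
          have h3 : Valid S (restr S w.1) := hres _ w.2
          exact A'anti F F' (restr S w.1) hne h3 (A'down F _ _ hu1 h3 (restr_mono hwu))
            (A'down F' _ _ hu2 h3 (restr_mono hwu))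
            (ΦA _ a ha _ (vmono hSall h3) (restr_le hwa (hAS _ a ha))))
        ⟨u', vmono hSall hv'⟩ hq'
      have hq'u' : q'.1 ≤ u' := hq'u
      refine ⟨restr S q'.1, ⟨hres _ q'.2, Or.inl ⟨Z, hZ, ?_⟩⟩,
        restr_le (hq'u'.trans hu') fun b hb => (hr b hb).1⟩
      rintro F hF v hvq hv ⟨hvA, hvΦ⟩
      have hvv : v ≤ restr S v := le_restr S v
      have hw := hAm S Sall hSall q'.1 v v q'.2 (vmono hSall hv) hv hvq hvv
        (fun a _ b hb hab => by rw [hab]; exact (hv b hb).1)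
      have hwq : (⟨v.base, v.top ∪ q'.1.top ∪ v.top⟩ : Pre K W) ≤ q'.1 :=
        ⟨hvq.1, fun b hb => by simp [hb]⟩
      have hwv : (⟨v.base, v.top ∪ q'.1.top ∪ v.top⟩ : Pre K W) ≤ v :=
        ⟨le_refl _, fun b hb => by simp [hb]⟩
      have hrw : restr S (⟨v.base, v.top ∪ q'.1.top ∪ v.top⟩ : Pre K W) ≤ v :=
        restr_le hwv fun b hb => (hv b hb).1
      refine hZ' F hF ⟨_, hw⟩ hwq ⟨A'down F v _ hvA (hres _ hw) hrw, ?_⟩
      obtain ⟨_, h4⟩ := (hΦ F _).1 (Φdown F v _ hvΦ hw hwv)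
      exact h4
  have D2 : ∀ F : Finset K, CClub fun N : Set (Tok K W) => ∀ r, Valid S r → KN N ∈ r.base.Nd →
      ∃ e ∈ {v | Valid S v ∧ ((∃ e ∈ E, fib e c = F ∧ v ≤ restr S e) ∨
        ∀ u' ≤ v, Valid S u' → u' ∉ A' F)}, InTok N e ∧ ∃ u, Valid S u ∧ u ≤ r ∧ u ≤ e := by
    intro F
    refine hrel _ (fun e he => he.1) fun r hr => ?_
    by_cases h1 : ∀ u' ≤ r, Valid S u' → u' ∉ A' F
    · exact ⟨r, ⟨hr, Or.inr h1⟩, le_rfl⟩
    · push Not at h1
      obtain ⟨u', hu', hv', hA2⟩ := h1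
      exact ⟨u', ⟨hv', Or.inl ((hA' F u').1 hA2).1.2⟩, hu'⟩
  -- choices
  have ch0 : ∀ v : Pre K W, ∃ e : Pre K W, (∃ e ∈ E, v ≤ restr S e) → e ∈ E ∧ v ≤ restr S e := by
    intro v
    by_cases h1 : ∃ e ∈ E, v ≤ restr S e
    · obtain ⟨e, he, h2⟩ := h1
      exact ⟨e, fun _ => ⟨he, h2⟩⟩
    · exact ⟨v, fun h2 => absurd h2 h1⟩
  choose e0 he0 using ch0
  have ch1 : ∀ v : Pre K W, ∃ Z : Set (Finset K), Z.Countable ∧
      ((∃ Z : Set (Finset K), Z.Countable ∧ ∀ F ∉ Z, ∀ u' ≤ v, Valid S u' →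
        ¬ (u' ∈ A' F ∧ Φ F u')) → ∀ F ∉ Z, ∀ u' ≤ v, Valid S u' → ¬ (u' ∈ A' F ∧ Φ F u')) := by
    intro v
    by_cases h1 : ∃ Z : Set (Finset K), Z.Countable ∧ ∀ F ∉ Z, ∀ u' ≤ v, Valid S u' →
        ¬ (u' ∈ A' F ∧ Φ F u')
    · obtain ⟨Z, h2, h3⟩ := h1
      exact ⟨Z, h2, fun _ => h3⟩
    · exact ⟨∅, Set.countable_empty, fun h2 => absurd h2 h1⟩
  choose Zf hZc hZf using ch1
  have ch2 : ∀ (F : Finset K) (v : Pre K W), ∃ e : Pre K W,
      (∃ e ∈ E, fib e c = F ∧ v ≤ restr S e) → e ∈ E ∧ fib e c = F ∧ v ≤ restr S e := by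
    intro F v
    by_cases h1 : ∃ e ∈ E, fib e c = F ∧ v ≤ restr S e
    · obtain ⟨e, he, h2⟩ := h1
      exact ⟨e, fun _ => ⟨he, h2⟩⟩
    · exact ⟨v, fun h2 => absurd h2 h1⟩
  choose e2 he2 using ch2
  have C0 : CClub fun N : Set (Tok K W) => ∀ v, InTok N v → InTok N (e0 v) :=
    hPre (fun v N => InTok N (e0 v)) inferInstance fun v => hIn inferInstance (e0 v)
  have C1 : CClub fun N : Set (Tok K W) => ∀ v, InTok N v →
      {x : Tok K W | ∃ F ∈ Zf v, ∃ k ∈ F, x = Sum.inl k} ⊆ N := by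
    refine hPre (fun v N => {x : Tok K W | ∃ F ∈ Zf v, ∃ k ∈ F, x = Sum.inl k} ⊆ N) inferInstance
      fun v => cc_sub ?_
    have : {x : Tok K W | ∃ F ∈ Zf v, ∃ k ∈ F, x = Sum.inl k} =
        ⋃ F ∈ Zf v, (Sum.inl '' (F : Set K) : Set (Tok K W)) := by
      ext x
      simp only [Set.mem_ofPred_eq, Set.mem_iUnion, Set.mem_image, Finset.mem_coe, exists_prop]
      constructor
      · rintro ⟨F, hF, k, hk, rfl⟩
        exact ⟨F, hF, k, hk, rfl⟩
      · rintro ⟨F, hF, k, hk, rfl⟩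
        exact ⟨F, hF, k, hk, rfl⟩
    rw [this]
    exact (hZc v).biUnion fun F _ => F.countable_toSet.image _
  have C2 : CClub fun N : Set (Tok K W) => ∀ F : Finset K,
      (∀ x ∈ F.toList.map (Sum.inl : K → Tok K W), x ∈ N) →
      ((∀ r, Valid S r → KN N ∈ r.base.Nd →
        ∃ e ∈ {v | Valid S v ∧ ((∃ e ∈ E, fib e c = F ∧ v ≤ restr S e) ∨
          ∀ u' ≤ v, Valid S u' → u' ∉ A' F)}, InTok N e ∧ ∃ u, Valid S u ∧ u ≤ r ∧ u ≤ e) ∧
        ∀ v, InTok N v → InTok N (e2 F v)) := by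
    refine hDi (Tok K W) (Finset K) _ (fun F => F.toList.map (Sum.inl : K → Tok K W)) ?_ hT ?_
    · intro l
      have : {F : Finset K | F.toList.map (Sum.inl : K → Tok K W) = l}.Subsingleton := by
        intro F hF F' hF'
        have h1 : F.toList.map (Sum.inl : K → Tok K W) = F'.toList.map Sum.inl := hF.trans hF'.symm
        have h2 := List.map_injective_iff.2 Sum.inl_injective h1
        rw [← Finset.toList_toFinset F, ← Finset.toList_toFinset F', h2]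
      exact this.countable
    · intro F
      exact cc_and hFor (D2 F) (hPre (fun v N => InTok N (e2 F v)) inferInstance
        fun v => hIn inferInstance (e2 F v))
  refine cc_mono (cc_and hFor D0 (cc_and hFor D1 (cc_and hFor C0 (cc_and hFor C1 C2)))) ?_
  rintro N ⟨H0, H1, H2, H3, H4⟩ r hr hN
  have hr' : Valid S (restr S r) := hres' r hr
  by_cases hcr : ∃ x, (c, x) ∈ r.top
  · -- the coordinate occurs in `r`
    obtain ⟨x0, hx0⟩ := hcr
    obtain ⟨_, s, hs, hrs⟩ := hr _ hx0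
    obtain ⟨a, ha, rfl⟩ := (h.hnm _ s).1 hs
    have hΦr : Φ (fib r c) (restr S r) :=
      ΦA _ a ha _ (vmono hSall hr') (restr_le hrs (hAS _ a ha))
    obtain ⟨v, ⟨hvS, hvk⟩, hvN, u0, hu0, hu0r, hu0v⟩ := H1 (restr S r) hr' hN
    have hΦ0 : Φ (fib r c) u0 := Φdown _ _ _ hΦr (vmono hSall hu0) hu0r
    have hvk1 : ∃ Z : Set (Finset K), Z.Countable ∧ ∀ F ∉ Z, ∀ u' ≤ v, Valid S u' →
        ¬ (u' ∈ A' F ∧ Φ F u') := by
      rcases hvk with h1 | h1
      · exact h1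
      · exact absurd (Φq _ _ hΦ0) (h1 u0 hu0v hu0)
    obtain ⟨u2, hu2, hv2, F', hF', hΦ2⟩ := A'max _ u0 hu0 hΦ0
    have hFZ : F' ∈ Zf v := by
      by_contra h1
      exact hZf v hvk1 F' h1 u2 (hu2.trans hu0v) hv2
        ⟨hF', Φher _ _ _ Finset.subset_union_right hΦ2⟩
    have hFN : ∀ x ∈ F'.toList.map (Sum.inl : K → Tok K W), x ∈ N := by
      intro x hx
      rw [List.mem_map] at hx
      obtain ⟨k, hk, rfl⟩ := hx
      exact H3 v hvN ⟨F', hFZ, k, Finset.mem_toList.1 hk, rfl⟩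
    obtain ⟨H5, H6⟩ := H4 F' hFN
    have hN2 : KN N ∈ u2.base.Nd := (hu2.trans hu0r).1.2 hN
    obtain ⟨w, ⟨hwS, hwk⟩, hwN, u3, hv3, hu32, hu3w⟩ := H5 u2 hv2 hN2
    have hwk1 : ∃ e ∈ E, fib e c = F' ∧ w ≤ restr S e := by
      rcases hwk with h1 | h1
      · exact h1
      · exact absurd (A'down _ _ _ hF' hv3 hu32) (h1 u3 hu3w hv3)
    obtain ⟨heE, hef, hwe⟩ := he2 F' w hwk1
    obtain ⟨u4, hv4, hu43, a4, ha4, hu4a⟩ := hbel (fib r c ∪ F') u3 hv3
      (Φdown _ _ _ hΦ2 (vmono hSall hv3) hu32)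
    let t : Pre K W := ⟨u4.base, u4.top ∪ (fib r c ∪ F').image fun x => (c, x)⟩
    have hmem : ∀ d x, (d, x) ∈ t.top ↔ (d, x) ∈ u4.top ∨ (d = c ∧ x ∈ fib r c ∪ F') := by
      intro d x
      simp only [t, Finset.mem_union, Finset.mem_image, Prod.mk.injEq]
      constructor
      · rintro (h1 | ⟨y, hy, rfl, rfl⟩)
        · exact Or.inl h1
        · exact Or.inr ⟨rfl, hy⟩
      · rintro (h1 | ⟨rfl, h1⟩)
        · exact Or.inl h1
        · exact Or.inr ⟨x, h1, rfl, rfl⟩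
    have ht4 : t ≤ u4 := ⟨le_refl _, Finset.subset_union_left⟩
    have hvt : Valid (S ∪ {c}) t := valid_addc hc hv4 ((h.hnm _ _).2 ⟨a4, ha4, rfl⟩) (le_refl _)
      (ht4.trans hu4a) hmem
    have htp : ∀ p, Valid (S ∪ {c}) p → fib p c ⊆ fib r c ∪ F' → u4 ≤ restr S p → t ≤ p := by
      intro p hp hpc hup
      refine ⟨hup.1, ?_⟩
      rintro ⟨d, x⟩ hdx
      rw [hmem]
      rcases (hp _ hdx).1 with h1 | h1
      · exact Or.inl (hup.2 (mem_restr.2 ⟨hdx, h1⟩))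
      · have h2 : d = c := h1
        subst h2
        exact Or.inr ⟨rfl, hpc (mem_fib.2 hdx)⟩
    refine ⟨e2 F' w, heE, H6 w hwN, t, hvt, htp r hr Finset.subset_union_left ?_,
      htp _ (hE _ heE) ?_ ?_⟩
    · exact hu43.trans (hu32.trans (hu2.trans hu0r))
    · rw [hef]
      exact Finset.subset_union_right
    · exact hu43.trans (hu3w.trans hwe)
  · -- the coordinate does not occur in `r`
    have hrS : ∀ b ∈ r.top, b.1 ∈ S := by
      rintro ⟨d, x⟩ hdx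
      rcases (hr _ hdx).1 with h1 | h1
      · exact h1
      · have h2 : d = c := h1
        subst h2
        exact absurd ⟨x, hdx⟩ hcr
    obtain ⟨v, ⟨hvS, hvk⟩, hvN, u0, hu0, hu0r, hu0v⟩ := H0 (restr S r) hr' hN
    obtain ⟨h1, h2⟩ := he0 v hvk
    have hw := hAm S (S ∪ {c}) Set.subset_union_left (e0 v) r u0 (hE _ h1) hr hu0
      (hu0v.trans h2) hu0r (fun a _ b hb hab => by rw [hab]; exact hrS b hb)
    refine ⟨e0 v, h1, H2 v hvN, _, hw, ⟨hu0r.1, fun b hb => by simp [hb]⟩,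
      ⟨(hu0v.trans h2).1, fun b hb => by simp [hb]⟩⟩

end Step

/-! ### The cardinal -/

section Card

theorem exists_predense {P : Type} [Preorder P] {κ : Cardinal.{0}} (hP : KCC κ P) (φ : Set P) :
    ∃ A : Set P, #A < κ ∧ A ⊆ φ ∧ ∀ p ∈ φ, ∃ a ∈ A, ∃ r, r ≤ p ∧ r ≤ a := by
  have : ∃ A, Maximal (fun A : Set P => A ⊆ φ ∧
      ∀ p ∈ A, ∀ q ∈ A, p ≠ q → ¬ ∃ r, r ≤ p ∧ r ≤ q) A := by
    apply zorn_subset {A : Set P | A ⊆ φ ∧ ∀ p ∈ A, ∀ q ∈ A, p ≠ q → ¬ ∃ r, r ≤ p ∧ r ≤ q}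
    intro c hc hchain
    refine ⟨⋃₀ c, ⟨Set.sUnion_subset fun A hA => (hc hA).1, ?_⟩,
      fun s hs => Set.subset_sUnion_of_mem hs⟩
    rintro p ⟨A, hA, hpA⟩ q ⟨B, hB, hqB⟩ hne
    rcases hchain.total hA hB with h | h
    · exact (hc hB).2 p (h hpA) q hqB hne
    · exact (hc hA).2 p hpA q (h hqB) hne
  obtain ⟨A, ⟨h1, h2⟩, hmax⟩ := this
  refine ⟨A, hP A h2, h1, fun p hp => ?_⟩
  by_contra hcon
  push Not at hcon
  have hpA : p ∉ A := fun h => hcon p h p le_rfl le_rfl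
  apply hpA
  refine hmax (y := insert p A) ⟨Set.insert_subset hp h1, ?_⟩ (Set.subset_insert p A)
    (Set.mem_insert p A)
  rintro x (rfl | hx) y (rfl | hy) hne
  · exact absurd rfl hne
  · rintro ⟨r, hr1, hr2⟩
    exact hcon y hy r hr1 hr2
  · rintro ⟨r, hr1, hr2⟩
    exact hcon x hx r hr2 hr1
  · exact h2 x hx y hy hne

theorem bdd_succ {κ : Cardinal.{0}} (hκ : ℵ₀ ≤ κ) (L : Set (Wp κ)) (hL : #L ≤ κ) :
    ∃ α, ∀ β ∈ L, β < α := by
  by_contra hcon
  push Not at hcon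
  have h1 : (Set.univ : Set (Wp κ)) ⊆ ⋃ β : L, insert β.1 (Set.Iio β.1) := by
    intro α _
    obtain ⟨β, hβ, h2⟩ := hcon α
    refine Set.mem_iUnion.2 ⟨⟨β, hβ⟩, ?_⟩
    rcases h2.lt_or_eq with h3 | h3
    · exact Or.inr h3
    · exact Or.inl h3
  have h2 : #(⋃ β : L, insert β.1 (Set.Iio β.1)) ≤ κ := by
    refine (Cardinal.mk_iUnion_le _).trans ?_
    calc #L * _ ≤ κ * κ := by
          apply mul_le_mul' hL
          apply ciSup_le'
          intro i
          refine (Cardinal.mk_insert_le).trans ?_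
          have h3 : #(Set.Iio i.1) ≤ κ := by
            have := Cardinal.mk_Iio_toType_ord_lt i.1
            exact Order.lt_succ_iff.1 this
          calc #(Set.Iio i.1) + 1 ≤ κ + κ :=
                add_le_add h3 ((Cardinal.one_le_aleph0).trans hκ)
            _ = κ := Cardinal.add_eq_self hκ
      _ = κ := Cardinal.mul_eq_self hκ
  have h3 := (Cardinal.mk_le_mk_of_subset h1).trans h2
  rw [Cardinal.mk_univ, Cardinal.mk_ord_toType] at h3
  exact absurd h3 (not_le.2 (Order.lt_succ _))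

end Card

theorem addCrd
    (h1 : ∀ (K W : Type) [LinearOrder K] [WellFoundedLT K] [Cod K] [LinearOrder W] [WellFoundedLT W],
      S_validRestr K W ∧ S_amalg K W ∧ S_code K W ∧ S_relSle K W ∧ S_memV K W ∧ S_ccPre K W ∧ S_ccIn K W)
    (h2 : S_ccForall) (h3 : S_ccDiag) (h4 : S_kcc) : S_addCrd := by
  classical
  intro κ _ hκ q0 φ hφ β
  have hreg : κ.IsRegular := hκ.1.isRegular
  have hal : ℵ₀ < κ := hκ.1.aleph0_lt
  have hK : #(Kp κ) = κ := Cardinal.mk_ord_toType κ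
  have hne : Nonempty (Kp κ) := by
    rw [← Cardinal.mk_ne_zero_iff, hK]
    exact hκ.1.ne_zero
  obtain ⟨hVR, hAm, hCode, hSle, hMem, hPre, hIn⟩ := h1 (Kp κ) (Wp κ)
  have hk := h4 κ hκ
  choose A hA1 hA2 hA3 using fun F => exists_predense hk (φ F)
  -- smallness
  have hsm : #{x : Finset (Kp κ) × Pre (Kp κ) (Wp κ) | ∃ a ∈ A x.1, x.2 = a.1} < κ := by
    have e1 : {x : Finset (Kp κ) × Pre (Kp κ) (Wp κ) | ∃ a ∈ A x.1, x.2 = a.1} =
        ⋃ F : {F : Finset (Kp κ) | (φ F).Nonempty}, (fun a : PP (Kp κ) (Wp κ) =>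
          ((F : Finset (Kp κ)), a.1)) '' A F := by
      ext ⟨F, p⟩
      simp only [Set.mem_ofPred_eq, Set.mem_iUnion, Set.mem_image, Prod.mk.injEq]
      constructor
      · rintro ⟨a, ha, rfl⟩
        exact ⟨⟨F, ⟨a, hA2 F ha⟩⟩, a, ha, rfl, rfl⟩
      · rintro ⟨F', a, ha, rfl, rfl⟩
        exact ⟨a, ha, rfl⟩
    rw [e1, Cardinal.card_iUnion_lt_iff_forall_of_isRegular hreg (by
      have := hφ.small
      rwa [hK] at this)]
    intro F
    exact (Cardinal.mk_image_le).trans_lt (hA1 F)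
  -- the stage
  obtain ⟨α, hα⟩ : ∃ α : Wp κ, ∀ γ ∈ ((⋃ x : {x : Finset (Kp κ) × Pre (Kp κ) (Wp κ) |
      ∃ a ∈ A x.1, x.2 = a.1}, (fun b : Crd (Kp κ) (Wp κ) × Kp κ => b.1.st) ''
        (x.1.2.top : Set (Crd (Kp κ) (Wp κ) × Kp κ))) ∪
      ((fun b : Crd (Kp κ) (Wp κ) × Kp κ => b.1.st) ''
        (q0.1.top : Set (Crd (Kp κ) (Wp κ) × Kp κ)) ∪ {β})), γ < α := by
    apply bdd_succ hal.le
    refine (Cardinal.mk_union_le _ _).trans (Cardinal.add_lt_of_lt hal.le ?_ ?_).le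
    · rw [Cardinal.card_iUnion_lt_iff_forall_of_isRegular hreg hsm]
      intro x
      refine lt_of_lt_of_le ?_ hal.le
      rw [Cardinal.lt_aleph0_iff_set_finite]
      exact (Finset.finite_toSet _).image _
    · refine lt_of_lt_of_le ?_ hal.le
      rw [Cardinal.lt_aleph0_iff_set_finite]
      exact ((Finset.finite_toSet _).image _).union (Set.finite_singleton _)
  obtain ⟨c, hcst, hcnm⟩ := hCode α (fun F => {s | ∃ a ∈ A F, s = a.1}) hne (by
    intro F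
    have e1 : {s : Pre (Kp κ) (Wp κ) | ∃ a ∈ A F, s = a.1} =
        (fun a : PP (Kp κ) (Wp κ) => a.1) '' A F := by
      ext s
      simp only [Set.mem_ofPred_eq, Set.mem_image]
      exact ⟨fun ⟨a, ha, h⟩ => ⟨a, ha, h.symm⟩, fun ⟨a, ha, h⟩ => ⟨a, ha, h.symm⟩⟩
    rw [e1, hK]
    exact (Cardinal.mk_image_le).trans (hA1 F).le)
  have hdt : Dt α q0 φ A c := by
    refine ⟨hφ, ?_, hA2, hA3, hcst, ?_, ?_⟩
    · intro F a ha b hb
      exact hα _ (Or.inl (Set.mem_iUnion.2 ⟨⟨(F, a.1), a, ha, rfl⟩, b, hb, rfl⟩))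
    · intro F s
      rw [hcnm]
      rfl
    · intro b hb
      exact hα _ (Or.inr (Or.inl ⟨b, hb, rfl⟩))
  have hβα : β < α := hα β (Or.inr (Or.inr rfl))
  have hsmall : Small c := by
    unfold Small
    rw [hK]
    refine lt_of_eq_of_lt ?_ hsm
    congr 1
    congr 1
    ext x
    simp only [Set.mem_ofPred_eq]
    exact hdt.hnm x.1 x.2
  have hcV : c ∈ (V α : Set (Crd (Kp κ) (Wp κ))) := by
    by_cases hc : c ∈ (Sle α : Set (Crd (Kp κ) (Wp κ)))
    · have := (mem_Sle.1 hc).2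
      rwa [hcst] at this
    · exact hMem α c hcst hdt.proper hsmall (hdt.rel hc hVR hAm hSle hPre hIn h2 h3)
  have hcS : c ∉ (Slt α : Set (Crd (Kp κ) (Wp κ))) := by
    intro hc
    have := (mem_Slt.1 hc).1
    rw [hcst] at this
    exact lt_irrefl _ this
  have hcall : c ∈ (Sall : Set (Crd (Kp κ) (Wp κ))) := by
    rw [mem_Sall, hcst]
    exact hcV
  refine ⟨c, hcall, by rw [hcst]; exact hβα.le, ?_, ?_, ?_⟩
  · rw [Finset.eq_empty_iff_forall_notMem]
    intro x hx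
    rw [mem_fib] at hx
    have := hdt.hq0 _ hx
    simp only at this
    rw [hcst] at this
    exact lt_irrefl _ this
  · intro u x hx
    obtain ⟨_, s, hs, hle⟩ := u.2 _ hx
    obtain ⟨a, ha, rfl⟩ := (hdt.hnm _ s).1 hs
    exact hφ.down _ _ (hA2 _ ha) _ hle
  · intro u w x hwu hw
    obtain ⟨a, ha, w2, hw2w, hw2a⟩ := hA3 _ _ hw
    have hw2w' : w2.1 ≤ w.1 := hw2w
    have hw2a' : w2.1 ≤ a.1 := hw2a
    have hwu' : w.1 ≤ u.1 := hwu
    obtain ⟨T, hT⟩ : ∃ T : Set (Crd (Kp κ) (Wp κ)), T = Slt α := ⟨_, rfl⟩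
    rw [← hT] at hcS
    have hTi : Initial T Sall := by rw [hT]; exact initial_Slt α
    have haT : ∀ b ∈ a.1.top, b.1 ∈ T := by
      rw [hT]
      exact PP.memSlt (hdt.hA _ a ha)
    have hTst : ∀ d ∈ T, ∀ d' ∈ (Sall : Set (Crd (Kp κ) (Wp κ))), d'.st < d.st → d' ∈ T := hTi.2
    let t : Pre (Kp κ) (Wp κ) := ⟨w2.1.base, (restr T w2.1).top ∪ (u.1.top ∪ {(c, x)})⟩
    have hmem : ∀ b, b ∈ t.top ↔ (b ∈ w2.1.top ∧ b.1 ∈ T) ∨ b ∈ u.1.top ∨ b = (c, x) := by
      intro b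
      simp only [t, Finset.mem_union, mem_restr, Finset.mem_singleton]
    have htu : t ≤ u.1 := ⟨hw2w'.1.trans hwu'.1, fun b hb => (hmem b).2 (Or.inr (Or.inl hb))⟩
    have hut : ∀ b ∈ u.1.top, b ∈ w2.1.top := fun b hb => hw2w'.2 (hwu'.2 hb)
    have hft : fib t c = insert x (fib u.1 c) := by
      ext y
      rw [mem_fib, hmem, Finset.mem_insert, mem_fib]
      constructor
      · rintro (⟨_, h5⟩ | h5 | h5)
        · exact absurd h5 hcS
        · exact Or.inr h5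
        · exact Or.inl (Prod.mk.inj h5).2
      · rintro (h5 | h5)
        · exact Or.inr (Or.inr (by rw [h5]))
        · exact Or.inr (Or.inl h5)
    have hvt : Valid Sall t := by
      intro b hb
      by_cases hbT : b.1 ∈ T
      · have hb2 : b ∈ w2.1.top := by
          rcases (hmem b).1 hb with h5 | h5 | h5
          · exact h5.1
          · exact hut b h5
          · rw [h5] at hbT
            exact absurd hbT hcS
        obtain ⟨h6, s, hs, hle⟩ := w2.2 b hb2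
        refine ⟨h6, s, ?_, hle.1, ?_⟩
        · have : fib t b.1 = fib w2.1 b.1 := fib_congr fun y => by
            rw [hmem]
            constructor
            · rintro (h7 | h7 | h7)
              · exact h7.1
              · exact hut _ h7
              · exfalso
                rw [(Prod.mk.inj h7).1] at hbT
                exact hcS hbT
            · exact fun h7 => Or.inl ⟨h7, hbT⟩
          rw [this]
          exact hs
        · intro b' hb'
          rw [hmem]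
          refine Or.inl ⟨hle.2 hb', hTst _ hbT _ (w2.2 b' (hle.2 hb')).1 ?_⟩
          exact proper_Sall h6 _ s hs b' hb'
      · by_cases hbc : b.1 = c
        · refine ⟨by rw [hbc]; exact hcall, a.1, ?_, hw2a'.1, ?_⟩
          · rw [hbc, hft]
            exact (hdt.hnm _ _).2 ⟨a, ha, rfl⟩
          · intro b' hb'
            rw [hmem]
            exact Or.inl ⟨hw2a'.2 hb', haT b' hb'⟩
        · have hb2 : b ∈ u.1.top := by
            rcases (hmem b).1 hb with h5 | h5 | h5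
            · exact absurd h5.2 hbT
            · exact h5
            · rw [h5] at hbc
              exact absurd rfl hbc
          obtain ⟨h6, s, hs, hle⟩ := u.2 b hb2
          refine ⟨h6, s, ?_, htu.trans hle⟩
          have : fib t b.1 = fib u.1 b.1 := fib_congr fun y => by
            rw [hmem]
            constructor
            · rintro (h7 | h7 | h7)
              · exact absurd h7.2 hbT
              · exact h7
              · exact absurd (Prod.mk.inj h7).1 hbc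
            · exact fun h7 => Or.inr (Or.inl h7)
          rw [this]
          exact hs
    refine ⟨⟨t, hvt⟩, htu, hft, (hmem _).2 (Or.inr (Or.inr rfl)), ?_⟩
    intro r hr
    have hr' : r.1 = restr T w.1 := by rw [hT, ← hcst]; exact hr
    show t ≤ r.1
    rw [hr']
    refine ⟨hw2w'.1, fun b hb => ?_⟩
    rw [mem_restr] at hb
    exact (hmem b).2 (Or.inl ⟨hw2w'.2 hb.1, hb.2⟩)

end Pool.Agent.H915.Ac
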