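import Pool.Agent.H915.Stmts2

/-!
# The continuum in the extension
-/

set_option autoImplicit false

namespace Pool.Agent.H915.Bi

open Cardinal Set Pool.Agent.Helper669.Forcing


open Pool.Agent.W910.LC (Supercompact)
open Pool.Agent.W873.Tp (NormalFine)

section Gen

variable {K W : Type} [LinearOrder K] [Cod K]

theorem mem_fib (p : Pre K W) (c : Crd K W) (y : K) : y ∈ fib p c ↔ (c, y) ∈ p.top := by
  classical
  unfold fib
  simp only [Finset.mem_image, Finset.mem_filter]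
  constructor
  · rintro ⟨a, ⟨ha, rfl⟩, rfl⟩
    exact ha
  · intro h
    exact ⟨(c, y), ⟨h, rfl⟩, rfl⟩

/-- `F` codes a finite partial function from `ℕ` to `ℕ` -/
def Co (e : ℕ × ℕ → K) (F : Finset K) : Prop :=
  (∀ y ∈ F, ∃ a, e a = y) ∧ ∀ n m m', e (n, m) ∈ F → e (n, m') ∈ F → m = m'

/-- the family of the finite partial functions -/
def Ph [LinearOrder W] [WellFoundedLT W] (e : ℕ × ℕ → K) (q0 : PP K W) (F : Finset K) :
    Set (PP K W) := {u | u ≤ q0 ∧ Co e F}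

theorem countable_co (e : ℕ × ℕ → K) : {F : Finset K | Co e F}.Countable := by
  classical
  have h : {F : Finset K | Co e F} ⊆ Set.range (fun s : Finset (ℕ × ℕ) => s.image e) := by
    intro F hF
    choose g hg using hF.1
    refine ⟨F.attach.image (fun y => g y.1 y.2), ?_⟩
    ext y
    simp only [Finset.mem_image, Finset.mem_attach, true_and, Subtype.exists]
    constructor
    · rintro ⟨_, ⟨z, hz, rfl⟩, rfl⟩
      rw [hg]
      exact hz
    · intro hy
      exact ⟨_, ⟨y, hy, rfl⟩, hg y hy⟩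
  exact (countable_range _).mono h

theorem isFam [LinearOrder W] [WellFoundedLT W] (e : ℕ × ℕ → K) (hK : ℵ₀ < #K) (q0 : PP K W) :
    IsFam q0 (Ph e q0) where
  down F u hu v hv := ⟨hv.trans hu.1, hu.2⟩
  le F u hu := hu.1
  her F F' h u hu := ⟨hu.1, fun y hy => hu.2.1 y (h hy), fun n m m' h1 h2 => hu.2.2 n m m' (h h1) (h h2)⟩
  small := by
    refine lt_of_le_of_lt ?_ hK
    refine (mk_le_mk_of_subset (t := {F : Finset K | Co e F}) ?_).trans
      (le_aleph0_iff_set_countable.2 (countable_co e))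
    rintro F ⟨u, hu⟩
    exact hu.2
  ccc A _ hA _ q _ := ⟨q, le_rfl, {F : Finset K | Co e F}, countable_co e,
    fun F hF u _ hu => hF (hA F hu).2⟩

end Gen

section Onto

variable {P : Type} [Preorder P] {K : Type} {κ : Cardinal.{0}}

theorem no_onto (hreg : κ.IsRegular) (h1 : ℵ₁ < κ) (hK : #K = κ) (hcc : KCC κ P)
    (r : P) (R : Om1 → K → Set P) (hf : r ∈ IsFun R) (ho : r ∈ IsOnto R) : False := by
  have hval : ∀ x : Om1, #{y : K | ∃ q ≤ r, q ∈ meets (R x y)} < κ := by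
    intro x
    choose g hg1 hg2 using fun y : {y : K | ∃ q ≤ r, q ∈ meets (R x y)} => y.2
    have hinj : ∀ y y' : {y : K | ∃ q ≤ r, q ∈ meets (R x y)}, (∃ s, s ≤ g y ∧ s ≤ g y') →
        y = y' := by
      rintro y y' ⟨s, hs1, hs2⟩
      exact Subtype.ext (IsFun.unique (down_IsFun R _ hf _ (hs1.trans (hg1 y)))
        (down_meets _ _ (hg2 y) _ hs1) (down_meets _ _ (hg2 y') _ hs2))
    have h2 : #(Set.range g) < κ := by
      refine hcc (Set.range g) ?_
      rintro _ ⟨y, rfl⟩ _ ⟨y', rfl⟩ hne hcomp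
      exact hne (congrArg g (hinj y y' hcomp))
    rwa [mk_range_eq g fun y y' h => hinj y y' ⟨g y, le_rfl, h.le⟩] at h2
  have hU : (⋃ x : Om1, {y : K | ∃ q ≤ r, q ∈ meets (R x y)}) = Set.univ := by
    refine Set.eq_univ_of_forall fun y => ?_
    obtain ⟨q, hq, x, hx⟩ := mem_fex.1 (ho y) r le_rfl
    exact Set.mem_iUnion.2 ⟨x, q, hq, hx⟩
  have hOm : #Om1 < κ := by
    rw [Cardinal.mk_ord_toType]
    exact h1
  have h3 := (card_iUnion_lt_iff_forall_of_isRegular hreg hOm).2 hval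
  rw [hU, mk_univ, hK] at h3
  exact lt_irrefl _ h3

end Onto

section Main

variable {K W : Type} [LinearOrder K] [Cod K] [LinearOrder W] [WellFoundedLT W]

theorem co_fib {e : ℕ × ℕ → K} {β : W} {q0 : PP K W} {c : Crd K W}
    (hc : IsCrd β q0 (Ph e q0) c) (u : PP K W) : Co e (fib u.1 c) := by
  rcases (fib u.1 c).eq_empty_or_nonempty with h | ⟨y, hy⟩
  · rw [h]
    exact ⟨fun y hy => absurd hy (Finset.notMem_empty y), fun n m m' h1 => absurd h1
      (Finset.notMem_empty _)⟩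
  · exact (hc.fam u y ((mem_fib u.1 c y).1 hy)).2

theorem co_insert {e : ℕ × ℕ → K} (he : Function.Injective e) {F G : Finset K} (hF : Co e F)
    {n m : ℕ} (hn : ∀ m', e (n, m') ∉ F) (hG : ∀ y, y ∈ G ↔ y = e (n, m) ∨ y ∈ F) : Co e G := by
  refine ⟨fun y hy => ?_, fun i j j' h1 h2 => ?_⟩
  · rcases (hG y).1 hy with h | h
    · exact ⟨_, h.symm⟩
    · exact hF.1 y h
  · rcases (hG _).1 h1 with h1 | h1 <;> rcases (hG _).1 h2 with h2 | h2
    · have := he (h1.trans h2.symm)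
      exact (Prod.mk.inj this).2
    · have h3 := (Prod.mk.inj (he h1)).1
      subst h3
      exact absurd h2 (hn _)
    · have h3 := (Prod.mk.inj (he h2)).1
      subst h3
      exact absurd h1 (hn _)
    · exact hF.2 i j j' h1 h2

/-- the Cohen real added at the coordinate -/
def Xn (e : ℕ × ℕ → K) (c : Crd K W) (n m : ℕ) : Set (PP K W) := {u | (c, e (n, m)) ∈ u.1.top}

theorem down_Xn (e : ℕ × ℕ → K) (c : Crd K W) (n m : ℕ) : Down (Xn (W := W) e c n m) :=
  fun _ hu _ hv => hv.2 hu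

theorem isFun_Xn {e : ℕ × ℕ → K} (he : Function.Injective e) {β : W} {q0 : PP K W} {c : Crd K W}
    (hc : IsCrd β q0 (Ph e q0) c) : q0 ∈ IsFun (Xn (W := W) e c) := by
  refine ⟨fun n => mem_fex.2 fun q hq => ?_, fun n m m' => mem_fimp.2 ?_⟩
  · by_cases h : ∃ m, e (n, m) ∈ fib q.1 c
    · obtain ⟨m, hm⟩ := h
      exact ⟨q, le_rfl, m, meets_of_mem ((mem_fib q.1 c _).1 hm)⟩
    · push Not at h
      obtain ⟨u', hu', -, hmem, -⟩ := hc.add q q (e (n, 0)) le_rfl
        ⟨hq, co_insert he (co_fib hc q) h fun y => Finset.mem_insert⟩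
      exact ⟨u', hu', 0, meets_of_mem hmem⟩
  · rintro q hq ⟨h1, h2⟩
    obtain ⟨r, hr, hr1⟩ := exists_of_meets (down_Xn e c n m) h1
    obtain ⟨r', hr', hr2⟩ := exists_of_meets (down_Xn e c n m') (down_meets _ _ h2 _ hr)
    refine ⟨q, le_rfl, ?_⟩
    exact (co_fib hc r').2 n m m' ((mem_fib r'.1 c _).2 (down_Xn e c n m _ hr1 _ hr'))
      ((mem_fib r'.1 c _).2 hr2)

theorem exists_free {e : ℕ × ℕ → K} (he : Function.Injective e) (F : Finset K) :
    ∃ n, ∀ m, e (n, m) ∉ F := by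
  by_contra hcon
  push Not at hcon
  choose g hg using hcon
  have hinj : Function.Injective fun n => e (n, g n) := by
    intro n n' h
    exact (Prod.mk.inj (he h)).1
  exact Set.infinite_of_injective_forall_mem hinj (s := (F : Set K)) (fun n => hg n)
    F.finite_toSet

end Main

theorem big (h1 : S_addCrd) (h2 : S_kcc) (h3 : S_small) (h4 : S_rlt)
    (h5 : ∀ (K W : Type) [LinearOrder K] [WellFoundedLT K] [Cod K] [LinearOrder W] [WellFoundedLT W], S_cov K W) : S_big := by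
  intro κ _ hsc u
  have hκ : κ.IsInaccessible := hsc.1
  have hmk : #(Kp κ) = κ := Cardinal.mk_ord_toType κ
  have hinf : ℵ₀ ≤ #(Kp κ) := by rw [hmk]; exact hκ.aleph0_lt.le
  have hne : Nonempty (Kp κ) := by
    rw [← mk_ne_zero_iff, hmk]
    exact hκ.ne_zero
  have hal : ℵ₁ < κ := by
    rw [← succ_aleph0]
    exact (Order.succ_le_of_lt (cantor ℵ₀)).trans_lt (hκ.isStrongLimit.two_power_lt hκ.aleph0_lt)
  obtain ⟨e⟩ : Nonempty (ℕ × ℕ ↪ Kp κ) := by
    rw [← Cardinal.le_def, mk_le_aleph0.antisymm (aleph0_le_mk (ℕ × ℕ))]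
    exact hinf
  refine mem_fex.2 fun q _ => ⟨q, le_rfl, Kp κ, hne, ?_, ?_⟩
  · intro q' _ hq'
    obtain ⟨r, _, R, hf, ho⟩ := mem_fex.1 hq' q' le_rfl
    exact no_onto hκ.isRegular hal hmk (h2 κ hsc) r R hf ho
  · intro q' _ hq'
    obtain ⟨q0, _, E, hE1, hE2⟩ := mem_fex.1 hq' q' le_rfl
    obtain ⟨β, hβ⟩ := h3 κ hsc (Kp κ × ℕ × ℕ) (fun i => E i.1 i.2.1 i.2.2) (by
      rw [mk_prod, lift_id, lift_id, hmk, mk_le_aleph0.antisymm (aleph0_le_mk (ℕ × ℕ))]
      exact (mul_aleph0_eq (hκ.aleph0_lt.le)).le)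
    obtain ⟨c, hc⟩ := h1 κ hsc q0 (Ph e q0) (isFam e (by rw [hmk]; exact hκ.aleph0_lt) q0) β
    obtain ⟨q1, hq1, hex⟩ := mem_fimp.1 (hE2 (Xn e c)) q0 le_rfl (isFun_Xn e.injective hc)
    obtain ⟨q2, hq2, k, hk⟩ := mem_fex.1 hex q1 le_rfl
    obtain ⟨n, hn⟩ := exists_free e.injective (fib q2.1 c)
    have hq20 : q2 ≤ q0 := hq2.trans hq1
    obtain ⟨w, hw, m, hm⟩ := IsFun.total (down_IsFun (E k) _ (hE1 k) _ hq20) n
    obtain ⟨u', hu', -, hmem, hr⟩ := hc.add q2 w (e (n, m + 1)) hw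
      ⟨hw.trans hq20, co_insert e.injective (co_fib hc q2) hn fun y => Finset.mem_insert⟩
    obtain ⟨r, hr1, _⟩ := h4 (Kp κ) (Wp κ) c.st w
    have h6 : u' ∈ meets (E k n m) :=
      down_meets _ _ (hβ (k, n, m) c.st hc.st w r hr1 hm) _ (hr r hr1)
    have h7 : u' ∈ meets (Xn e c n (m + 1)) := meets_of_mem hmem
    have h8 := SameReal.eq (down_SameReal _ _ _ hk _ hu') h7 h6
    omega

end Pool.Agent.H915.Bi
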