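import Pool.Agent.H915.Stmts2

/-!
# The theorem of Baumgartner, Malitz and Reinhardt in an extension
-/

set_option autoImplicit false

namespace Pool.Agent.H915.Bmr

open Cardinal Set Pool.Agent.Helper669.Forcing

section
variable {P : Type} [Preorder P] {T : Type}

/-- countably covered -/
def CC (q : P) (B : Finset (T × ℕ) → Set P) : Prop :=
  ∃ Z : Set (Finset (T × ℕ)), Z.Countable ∧ ∀ F ∉ Z, ∀ u ≤ q, u ∉ B F

/-- densely countably covered below `q` -/
def DC (q : P) (B : Finset (T × ℕ) → Set P) : Prop := ∀ q' ≤ q, ∃ q'' ≤ q', CC q'' B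

theorem CC.mono {q q' : P} {B : Finset (T × ℕ) → Set P} (h : CC q B) (hq : q' ≤ q) : CC q' B := by
  obtain ⟨Z, hZ, h⟩ := h
  exact ⟨Z, hZ, fun F hF u hu => h F hF u (hu.trans hq)⟩

theorem DC.mono {q q' : P} {B : Finset (T × ℕ) → Set P} (h : DC q B) (hq : q' ≤ q) : DC q' B :=
  fun r hr => h r (hr.trans hq)

/-- countable unions -/
theorem cov_union (hC : Cov P) {I : Type} (J : Set I) (hJ : J.Countable)
    (B : I → Finset (T × ℕ) → Set P) (q : P) (hd : ∀ i F, Down (B i F)) (h : ∀ i ∈ J, DC q (B i))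
    (Φ : Finset (T × ℕ) → Set P)
    (hsub : ∀ F, ∀ u ≤ q, u ∈ Φ F → ∃ i ∈ J, ∃ u' ≤ u, u' ∈ B i F) : DC q Φ := by
  intro q1 hq1
  rcases J.eq_empty_or_nonempty with hJe | hne
  · refine ⟨q1, le_rfl, ∅, countable_empty, fun F _ u hu huF => ?_⟩
    obtain ⟨i, hi, -⟩ := hsub F u (hu.trans hq1) huF
    rw [hJe] at hi
    exact hi
  · obtain ⟨f, hf⟩ := hJ.exists_eq_range hne
    obtain ⟨q', hq', C, hC1, hC2⟩ := hC (fun n => {e | CC e (B (f n))}) q1 (by
      intro n u hu
      have hn : f n ∈ J := by rw [hf]; exact mem_range_self n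
      obtain ⟨e, he, he2⟩ := h (f n) hn u (hu.trans hq1)
      exact ⟨e, he2, he⟩)
    have hch : ∀ n, ∀ e, ∃ Z : Set (Finset (T × ℕ)), Z.Countable ∧
        (e ∈ C n → ∀ F ∉ Z, ∀ u ≤ e, u ∉ B (f n) F) := by
      intro n e
      by_cases he : e ∈ C n
      · obtain ⟨Z, hZ, hZ2⟩ := (hC1 n).2 he
        exact ⟨Z, hZ, fun _ => hZ2⟩
      · exact ⟨∅, countable_empty, fun h => absurd h he⟩
    choose Z hZ hZ2 using hch
    refine ⟨q', hq', ⋃ n, ⋃ e ∈ C n, Z n e, ?_, ?_⟩
    · exact countable_iUnion fun n => (hC1 n).1.biUnion fun e _ => hZ n e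
    · intro F hF u hu huF
      obtain ⟨i, hi, u', hu', hB⟩ := hsub F u ((hu.trans hq').trans hq1) huF
      rw [hf] at hi
      obtain ⟨n, rfl⟩ := hi
      obtain ⟨e, he, v, hv, hve⟩ := hC2 n u' (hu'.trans hu)
      refine hZ2 n e he F ?_ v hve (hd _ _ u' hB v hv)
      intro hFZ
      apply hF
      rw [mem_iUnion]
      exact ⟨n, mem_biUnion he hFZ⟩

variable (q0 : P) (A : T → Set P) (lt : T → T → Set P)

/-- families as in the theorem -/
structure Fam (Φ : Finset (T × ℕ) → Set P) : Prop where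
  down : ∀ F, Down (Φ F)
  sub : ∀ F, Φ F ⊆ SpecF q0 A lt F
  anti : ∀ F F', F ≠ F' → ∀ u ∈ Φ F, u ∈ Φ F' → ∀ G, F ⊆ G → F' ⊆ G → u ∉ SpecF q0 A lt G

variable {q0 A lt}

theorem spec_anti {F G : Finset (T × ℕ)} (h : F ⊆ G) : SpecF q0 A lt G ⊆ SpecF q0 A lt F := by
  rintro u ⟨h1, h2, h3, h4⟩
  exact ⟨h1, fun x hx => h2 x (h hx), fun x hx y hy => h3 x (h hx) y (h hy),
    fun x hx y hy => h4 x (h hx) y (h hy)⟩

/-- the conflict of two members -/
theorem conflict {Φ : Finset (T × ℕ) → Set P} (hΦ : Fam q0 A lt Φ)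
    {F F' : Finset (T × ℕ)} (hne : F ≠ F') {u : P} (hu : u ∈ Φ F) (hu' : u ∈ Φ F') :
    ∃ v ≤ u, ∃ x ∈ F, ∃ y ∈ F', x.1 = y.1 ∨ v ∈ lt x.1 y.1 ∨ v ∈ lt y.1 x.1 := by
  classical
  by_contra hcon
  push Not at hcon
  apply hΦ.anti F F' hne u hu hu' (F ∪ F') Finset.subset_union_left Finset.subset_union_right
  obtain ⟨a1, a2, a3, a4⟩ := hΦ.sub F hu
  obtain ⟨b1, b2, b3, b4⟩ := hΦ.sub F' hu'
  refine ⟨a1, ?_, ?_, ?_⟩
  · intro x hx
    rcases Finset.mem_union.1 hx with hx | hx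
    · exact a2 x hx
    · exact b2 x hx
  · intro x hx y hy hxy
    rcases Finset.mem_union.1 hx with hx | hx
    · rcases Finset.mem_union.1 hy with hy | hy
      · exact a3 x hx y hy hxy
      · exact absurd hxy (hcon u le_rfl x hx y hy).1
    · rcases Finset.mem_union.1 hy with hy | hy
      · exact absurd hxy.symm (hcon u le_rfl y hy x hx).1
      · exact b3 x hx y hy hxy
  · intro x hx y hy hxy v hv hlt
    rcases Finset.mem_union.1 hx with hx | hx
    · rcases Finset.mem_union.1 hy with hy | hy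
      · exact a4 x hx y hy hxy v hv hlt
      · exact (hcon v hv x hx y hy).2.1 hlt
    · rcases Finset.mem_union.1 hy with hy | hy
      · exact (hcon v hv y hy x hx).2.2 hlt
      · exact b4 x hx y hy hxy v hv hlt

/-- the members containing a given element -/
theorem few_elt (n : ℕ)
    (ih : ∀ Φ : Finset (T × ℕ) → Set P, Fam q0 A lt Φ → (∀ F, (Φ F).Nonempty → F.card = n) →
      DC q0 Φ) {Φ : Finset (T × ℕ) → Set P} (hΦ : Fam q0 A lt Φ)
    (hc : ∀ F, (Φ F).Nonempty → F.card = n + 1) (x : T × ℕ) :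
    DC q0 (fun F => {u | u ∈ Φ F ∧ x ∈ F}) := by
  classical
  have h1 := ih (fun F => {u | u ∈ Φ (insert x F) ∧ x ∉ F}) ⟨by
      rintro F u ⟨hu, hx⟩ v hv
      exact ⟨hΦ.down _ u hu v hv, hx⟩, by
      rintro F u ⟨hu, hx⟩
      exact spec_anti (Finset.subset_insert x F) (hΦ.sub _ hu), by
      rintro F F' hne u ⟨hu, hx⟩ ⟨hu', hx'⟩ G hG hG' hs
      have hne' : insert x F ≠ insert x F' := by
        intro h
        apply hne
        rw [← Finset.erase_insert hx, h, Finset.erase_insert hx']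
      apply hΦ.anti _ _ hne' u hu hu' (insert x (F ∪ F'))
        (Finset.insert_subset_insert x Finset.subset_union_left)
        (Finset.insert_subset_insert x Finset.subset_union_right)
      obtain ⟨a1, a2, a3, a4⟩ := hΦ.sub _ hu
      obtain ⟨b1, b2, b3, b4⟩ := hΦ.sub _ hu'
      obtain ⟨c1, c2, c3, c4⟩ := spec_anti (Finset.union_subset hG hG') hs
      have hsp : ∀ y ∈ F ∪ F', insert x F ⊆ insert x F ∧ (y ∈ insert x F ∨ y ∈ insert x F') := by
        intro y hy
        refine ⟨Finset.Subset.refl _, ?_⟩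
        rcases Finset.mem_union.1 hy with hy | hy
        · exact Or.inl (Finset.mem_insert_of_mem hy)
        · exact Or.inr (Finset.mem_insert_of_mem hy)
      refine ⟨a1, ?_, ?_, ?_⟩
      · intro y hy
        rcases Finset.mem_insert.1 hy with rfl | hy
        · exact a2 y (Finset.mem_insert_self y F)
        · exact c2 y hy
      · intro y hy z hz hyz
        rcases Finset.mem_insert.1 hy with h0 | hy'
        · subst h0
          rcases Finset.mem_insert.1 hz with h1 | hz'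
          · exact h1 ▸ rfl
          · rcases (hsp z hz').2 with h | h
            · exact a3 y (Finset.mem_insert_self y F) z h hyz
            · exact b3 y (Finset.mem_insert_self y F') z h hyz
        · rcases Finset.mem_insert.1 hz with h1 | hz'
          · subst h1
            rcases (hsp y hy').2 with h | h
            · exact a3 y h z (Finset.mem_insert_self z F) hyz
            · exact b3 y h z (Finset.mem_insert_self z F') hyz
          · exact c3 y hy' z hz' hyz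
      · intro y hy z hz hyz
        rcases Finset.mem_insert.1 hy with h0 | hy'
        · subst h0
          rcases Finset.mem_insert.1 hz with h1 | hz'
          · subst h1
            exact a4 z (Finset.mem_insert_self z F) z (Finset.mem_insert_self z F) rfl
          · rcases (hsp z hz').2 with h | h
            · exact a4 y (Finset.mem_insert_self y F) z h hyz
            · exact b4 y (Finset.mem_insert_self y F') z h hyz
        · rcases Finset.mem_insert.1 hz with h1 | hz'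
          · subst h1
            rcases (hsp y hy').2 with h | h
            · exact a4 y h z (Finset.mem_insert_self z F) hyz
            · exact b4 y h z (Finset.mem_insert_self z F') hyz
          · exact c4 y hy' z hz' hyz⟩ (by
      rintro F ⟨u, hu, hx⟩
      have := hc _ ⟨u, hu⟩
      rw [Finset.card_insert_of_notMem hx] at this
      omega)
  intro q' hq'
  obtain ⟨q'', hq'', Z, hZ, hZ2⟩ := h1 q' hq'
  refine ⟨q'', hq'', (fun F => insert x F) '' Z, hZ.image _, ?_⟩
  rintro F hF u hu ⟨huF, hx⟩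
  have e : insert x (F.erase x) = F := Finset.insert_erase hx
  refine hZ2 (F.erase x) ?_ u hu ⟨by rw [e]; exact huF, Finset.notMem_erase x F⟩
  intro hmem
  exact hF ⟨_, hmem, e⟩

/-- the members whose domain contains a given point -/
theorem few_pt (hC : Cov P) {Φ : Finset (T × ℕ) → Set P} (hΦ : Fam q0 A lt Φ)
    (hf : ∀ x : T × ℕ, DC q0 (fun F => {u | u ∈ Φ F ∧ x ∈ F})) (t : T) :
    DC q0 (fun F => {u | u ∈ Φ F ∧ ∃ y ∈ F, y.1 = t}) := by
  refine cov_union hC (univ : Set ℕ) countable_univ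
    (fun k F => {u | u ∈ Φ F ∧ ((t, k) : T × ℕ) ∈ F}) q0 ?_ (fun k _ => hf (t, k)) _ ?_
  · rintro k F u ⟨hu, hk⟩ v hv
    exact ⟨hΦ.down _ u hu v hv, hk⟩
  · rintro F u _ ⟨hu, ⟨s, k⟩, hy, rfl⟩
    exact ⟨k, mem_univ _, u, le_rfl, hu, hy⟩

/-- the members whose domain has an element below a given point -/
theorem few_below (hC : Cov P) (ht : IsTree q0 A lt) {Φ : Finset (T × ℕ) → Set P}
    (hΦ : Fam q0 A lt Φ)
    (hf : ∀ t : T, DC q0 (fun F => {u | u ∈ Φ F ∧ ∃ y ∈ F, y.1 = t})) (t : T) {u : P}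
    (hu : u ≤ q0) (hut : u ∈ A t) :
    DC u (fun F => {v | v ∈ Φ F ∧ ∃ y ∈ F, v ∈ lt y.1 t}) := by
  intro q1 hq1
  obtain ⟨u', hu', Z, hZ, hZ2⟩ := ht.pred t q1 (hq1.trans hu) (ht.downA t u hut q1 hq1)
  have h1 : DC u' (fun F => {v | v ∈ Φ F ∧ ∃ y ∈ F, v ∈ lt y.1 t}) := by
    refine cov_union hC Z hZ (fun s F => {u | u ∈ Φ F ∧ ∃ y ∈ F, y.1 = s}) u' ?_
      (fun s _ => (hf s).mono (hu'.trans (hq1.trans hu))) _ ?_
    · rintro s F v ⟨hv, hy⟩ w hw
      exact ⟨hΦ.down _ v hv w hw, hy⟩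
    · rintro F v hv ⟨hvF, y, hy, hlt⟩
      exact ⟨y.1, hZ2 y.1 v hv ((hΦ.sub F hvF).2.1 y hy) hlt, v, le_rfl, hvF, y, hy, rfl⟩
  obtain ⟨q'', hq'', h2⟩ := h1 u' le_rfl
  exact ⟨q'', hq''.trans hu', h2⟩

/-! ### names for ultrafilters -/

/-- intersections of names with `Φ` -/
def Int (Φ : Finset (T × ℕ) → Set P) (L : List (P × (Finset (T × ℕ) → Set P)))
    (F : Finset (T × ℕ)) : Set P := {u | u ∈ Φ F ∧ ∀ a ∈ L, u ∈ a.2 F}

/-- the finite intersection property -/
def Fip (q : P) (Φ : Finset (T × ℕ) → Set P) (𝒱 : Set (P × (Finset (T × ℕ) → Set P))) : Prop :=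
  (∀ a ∈ 𝒱, ∀ F, Down (a.2 F)) ∧
  ∀ L : List (P × (Finset (T × ℕ) → Set P)), (∀ a ∈ L, a ∈ 𝒱) → ∀ q' ≤ q, (∀ a ∈ L, q' ≤ a.1) →
    ¬ CC q' (Int Φ L)

theorem exists_max (q : P) (Φ : Finset (T × ℕ) → Set P) (h : ∀ q' ≤ q, ¬ CC q' Φ) :
    ∃ 𝒱, Maximal (fun 𝒱 => 𝒱 ∈ {𝒱 | Fip q Φ 𝒱}) 𝒱 := by
  refine zorn_subset {𝒱 | Fip q Φ 𝒱} ?_
  intro c hc hchain
  refine ⟨⋃₀ c, ⟨?_, ?_⟩, fun s hs => subset_sUnion_of_mem hs⟩
  · rintro a ⟨s, hs, has⟩
    exact (hc hs).1 a has
  · intro L hL q' hq' hLq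
    rcases c.eq_empty_or_nonempty with rfl | hne
    · have : L = [] := by
        rcases L with _ | ⟨a, L⟩
        · rfl
        · obtain ⟨s, hs, -⟩ := hL a (by simp)
          exact absurd hs (notMem_empty s)
      subst this
      intro hcc
      refine h q' hq' ?_
      obtain ⟨Z, hZ, hZ2⟩ := hcc
      exact ⟨Z, hZ, fun F hF u hu huF => hZ2 F hF u hu ⟨huF, by simp⟩⟩
    · have : ∃ s ∈ c, ∀ a ∈ L, a ∈ s := by
        clear hLq
        induction L with
        | nil =>
          obtain ⟨s, hs⟩ := hne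
          exact ⟨s, hs, by simp⟩
        | cons a L ih =>
          obtain ⟨s, hs, hs2⟩ := ih fun b hb => hL b (by simp [hb])
          obtain ⟨s', hs', has⟩ := hL a (by simp)
          rcases hchain.total hs hs' with h1 | h1
          · refine ⟨s', hs', fun b hb => ?_⟩
            rcases List.mem_cons.1 hb with rfl | hb
            · exact has
            · exact h1 (hs2 b hb)
          · refine ⟨s, hs, fun b hb => ?_⟩
            rcases List.mem_cons.1 hb with rfl | hb
            · exact h1 has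
            · exact hs2 b hb
      obtain ⟨s, hs, hs2⟩ := this
      exact (hc hs).2 L hs2 q' hq' hLq

/-- if a pair is not in a maximal set then it is contradictory -/
theorem notMem_max {q : P} {Φ : Finset (T × ℕ) → Set P}
    {𝒱 : Set (P × (Finset (T × ℕ) → Set P))} (hm : Maximal (fun 𝒱 => 𝒱 ∈ {𝒱 | Fip q Φ 𝒱}) 𝒱)
    {p : P} {B : Finset (T × ℕ) → Set P} (hB : ∀ F, Down (B F)) (hn : (p, B) ∉ 𝒱) :
    ∃ L : List (P × (Finset (T × ℕ) → Set P)), (∀ a ∈ L, a ∈ 𝒱) ∧ ∃ q' ≤ q, q' ≤ p ∧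
      (∀ a ∈ L, q' ≤ a.1) ∧ CC q' (fun F => {u | u ∈ Int Φ L F ∧ u ∈ B F}) := by
  classical
  have h1 : ¬ Fip q Φ (insert (p, B) 𝒱) := by
    intro h
    exact hn (hm.le_of_ge h (subset_insert _ _) (mem_insert _ _))
  unfold Fip at h1
  rw [not_and_or] at h1
  rcases h1 with h1 | h1
  · exfalso
    apply h1
    intro a ha
    rcases mem_insert_iff.1 ha with rfl | ha
    · exact hB
    · exact hm.prop.1 a ha
  · push Not at h1
    obtain ⟨L, hL, q', hq', hLq, hcc⟩ := h1
    set L' := L.filter (fun a => a ∈ 𝒱) with hL'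
    refine ⟨L', ?_, ?_⟩
    · intro a ha
      have := (List.mem_filter.1 ha).2
      simpa using this
    · have hpL : (p, B) ∈ L := by
        by_contra hpL
        refine hm.prop.2 L ?_ q' hq' hLq hcc
        intro a ha
        rcases mem_insert_iff.1 (hL a ha) with rfl | h
        · exact absurd ha hpL
        · exact h
      refine ⟨q', hq', hLq (p, B) hpL, fun a ha => hLq a (List.mem_filter.1 ha).1, ?_⟩
      obtain ⟨Z, hZ, hZ2⟩ := hcc
      refine ⟨Z, hZ, fun F hF u hu huF => hZ2 F hF u hu ⟨huF.1.1, fun a ha => ?_⟩⟩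
      rcases mem_insert_iff.1 (hL a ha) with rfl | h
      · exact huF.2
      · exact huF.1.2 a (List.mem_filter.2 ⟨ha, by simpa using h⟩)

/-- the complement of a name -/
def co (B : Finset (T × ℕ) → Set P) (F : Finset (T × ℕ)) : Set P := {u | ∀ u' ≤ u, u' ∉ B F}

theorem down_co (B : Finset (T × ℕ) → Set P) (F : Finset (T × ℕ)) : Down (co B F) :=
  fun _ hp _ hq r hr => hp r (hr.trans hq)

theorem ultra {q : P} {Φ : Finset (T × ℕ) → Set P} (hΦ : ∀ F, Down (Φ F))
    {𝒱 : Set (P × (Finset (T × ℕ) → Set P))} (hm : Maximal (fun 𝒱 => 𝒱 ∈ {𝒱 | Fip q Φ 𝒱}) 𝒱)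
    {p : P} {B : Finset (T × ℕ) → Set P} (hB : ∀ F, Down (B F)) (hn : (p, B) ∉ 𝒱) :
    ∃ p' ≤ p, (p', co B) ∈ 𝒱 := by
  obtain ⟨L, hL, q', hq', hqp, hLq, Z, hZ, hZ2⟩ := notMem_max hm hB hn
  refine ⟨q', hqp, ?_⟩
  by_contra hn2
  obtain ⟨L2, hL2, r, hr, hrq, hL2r, Z2, hZ3, hZ4⟩ := notMem_max hm (down_co B) hn2
  refine hm.prop.2 (L ++ L2) ?_ r hr ?_ ⟨Z ∪ Z2, hZ.union hZ3, ?_⟩
  · intro a ha
    rcases List.mem_append.1 ha with ha | ha
    · exact hL a ha
    · exact hL2 a ha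
  · intro a ha
    rcases List.mem_append.1 ha with ha | ha
    · exact hrq.trans (hLq a ha)
    · exact hL2r a ha
  · rintro F hF u hu ⟨h1, h2⟩
    rw [mem_union, not_or] at hF
    by_cases h3 : ∃ u' ≤ u, u' ∈ B F
    · obtain ⟨u', hu', hu'B⟩ := h3
      refine hZ2 F hF.1 u' ((hu'.trans hu).trans hrq) ⟨⟨hΦ F u h1 u' hu', fun a ha => ?_⟩, hu'B⟩
      exact hm.prop.1 a (hL a ha) F u (h2 a (List.mem_append.2 (Or.inl ha))) u' hu'
    · push Not at h3
      exact hZ4 F hF.2 u hu ⟨⟨h1, fun a ha => h2 a (List.mem_append.2 (Or.inr ha))⟩, h3⟩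

/-! ### the induction step -/

/-- an enumeration of a finite set with `n + 1` elements -/
theorem exists_enum [Nonempty (T × ℕ)] (n : ℕ) (F : Finset (T × ℕ)) :
    ∃ e : Fin (n + 1) → T × ℕ,
      F.card = n + 1 → (∀ i, e i ∈ F) ∧ ∀ x ∈ F, ∃ i, e i = x := by
  by_cases h : F.card = n + 1
  · let e := F.equivFinOfCardEq h
    refine ⟨fun i => (e.symm i).1, fun _ => ⟨fun i => (e.symm i).2, fun x hx => ?_⟩⟩
    exact ⟨e ⟨x, hx⟩, by simp⟩
  · obtain ⟨x⟩ := ‹Nonempty (T × ℕ)›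
    exact ⟨fun _ => x, fun h2 => absurd h2 h⟩

/-- iterating `ultra` over a list -/
theorem ultra_list {q : P} {Φ : Finset (T × ℕ) → Set P} (hΦ : ∀ F, Down (Φ F))
    {𝒱 : Set (P × (Finset (T × ℕ) → Set P))} (hm : Maximal (fun 𝒱 => 𝒱 ∈ {𝒱 | Fip q Φ 𝒱}) 𝒱)
    {I : Type} (B : I → Finset (T × ℕ) → Set P) (hB : ∀ i F, Down (B i F)) (M : List I) (u : P)
    (hn : ∀ v ≤ u, ∀ i ∈ M, (v, B i) ∉ 𝒱) :
    ∃ v ≤ u, ∃ L : List (P × (Finset (T × ℕ) → Set P)), (∀ a ∈ L, a ∈ 𝒱) ∧ (∀ a ∈ L, v ≤ a.1) ∧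
      ∀ i ∈ M, ∃ p, (p, co (B i)) ∈ L := by
  induction M with
  | nil => exact ⟨u, le_rfl, [], by simp, by simp, by simp⟩
  | cons i M ih =>
    obtain ⟨v, hv, L, hL, hvL, hLM⟩ := ih fun w hw j hj => hn w hw j (by simp [hj])
    obtain ⟨p', hp', hp2⟩ := ultra hΦ hm (hB i) (hn v hv i (by simp))
    refine ⟨p', hp'.trans hv, (p', co (B i)) :: L, ?_, ?_, ?_⟩
    · intro a ha
      rcases List.mem_cons.1 ha with rfl | ha
      · exact hp2
      · exact hL a ha
    · intro a ha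
      rcases List.mem_cons.1 ha with rfl | ha
      · exact le_rfl
      · exact hp'.trans (hvL a ha)
    · intro j hj
      rcases List.mem_cons.1 hj with rfl | hj
      · exact ⟨p', by simp⟩
      · obtain ⟨p, hp⟩ := hLM j hj
        exact ⟨p, by simp [hp]⟩

/-- the induction -/
theorem main (hC : Cov P) (ht : IsTree q0 A lt) (n : ℕ) :
    ∀ Φ : Finset (T × ℕ) → Set P, Fam q0 A lt Φ → (∀ F, (Φ F).Nonempty → F.card = n) →
      DC q0 Φ := by
  classical
  induction n with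
  | zero =>
    intro Φ _ hc q' _
    refine ⟨q', le_rfl, {∅}, countable_singleton _, fun F hF u _ hu => ?_⟩
    exact hF (Finset.card_eq_zero.1 (hc F ⟨u, hu⟩))
  | succ n ih =>
    intro Φ hΦ hc
    rcases isEmpty_or_nonempty (T × ℕ) with hT | hT
    · intro q' _
      refine ⟨q', le_rfl, ∅, countable_empty, fun F _ u _ hu => ?_⟩
      have h1 := hc F ⟨u, hu⟩
      rw [Finset.eq_empty_of_isEmpty F] at h1
      simp at h1
    have hpt := few_pt hC hΦ (few_elt n ih hΦ hc)
    choose e he using fun F : Finset (T × ℕ) => exists_enum n F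
    by_contra hcon
    have hcon2 : ∃ q1 ≤ q0, ∀ q'' ≤ q1, ¬ CC q'' Φ := by
      unfold DC at hcon
      push Not at hcon
      exact hcon
    obtain ⟨q1, hq1, hcc⟩ := hcon2
    obtain ⟨𝒱, hm⟩ := exists_max q1 Φ hcc
    set S : T × Fin (n + 1) → Finset (T × ℕ) → Set P :=
      fun z F' => {v | v ∈ Φ F' ∧ v ∈ lt z.1 (e F' z.2).1} with hS
    have hSd : ∀ z F, Down (S z F) := by
      rintro z F u ⟨h1, h2⟩ v hv
      exact ⟨hΦ.down _ u h1 v hv, ht.downlt _ _ u h2 v hv⟩
    -- Claim 1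
    have claim1 : ∀ F, ∀ u ≤ q1, u ∈ Φ F → ∃ x ∈ F, ∃ j, ∃ v ≤ u, (v, S (x.1, j)) ∈ 𝒱 := by
      intro F u hu huF
      by_contra hno
      push Not at hno
      obtain ⟨v, hv, L, hL, hvL, hLM⟩ := ultra_list hΦ.down hm S hSd
        ((F ×ˢ (Finset.univ : Finset (Fin (n + 1)))).toList.map fun z => (z.1.1, z.2)) u (by
          intro v hv i hi
          obtain ⟨z, hz, rfl⟩ := List.mem_map.1 hi
          have hz' := Finset.mem_toList.1 hz
          exact hno z.1 (Finset.mem_product.1 hz').1 z.2 v hv)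
      have hD : DC v (Int Φ L) := by
        refine cov_union hC
          (I := Option ((T × ℕ) × Bool)) {o | ∀ z, o = some z → z.1 ∈ F} ?_
          (fun o F' => match o with
            | none => {w | F' = F}
            | some (x, true) => {w | w ∈ Φ F' ∧ ∃ y ∈ F', y.1 = x.1}
            | some (x, false) => {w | w ∈ Φ F' ∧ ∃ y ∈ F', w ∈ lt y.1 x.1}) v ?_ ?_ _ ?_
        · have : {o : Option ((T × ℕ) × Bool) | ∀ z, o = some z → z.1 ∈ F} ⊆
              ↑(insert none ((F ×ˢ (Finset.univ : Finset Bool)).image some)) := by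
            rintro (_ | z) ho
            · simp
            · simp only [Finset.coe_insert, Finset.coe_image, mem_insert_iff, mem_image,
                Finset.mem_coe, Finset.mem_product]
              exact Or.inr ⟨z, ⟨ho z rfl, Finset.mem_univ _⟩, rfl⟩
          exact (Finset.countable_toSet _).mono this
        · rintro (_ | ⟨x, _ | _⟩) F' w hw w' hw'
          · exact hw
          · obtain ⟨h1, y, hy, h2⟩ := hw
            exact ⟨hΦ.down _ w h1 w' hw', y, hy, ht.downlt _ _ w h2 w' hw'⟩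
          · obtain ⟨h1, y, hy, h2⟩ := hw
            exact ⟨hΦ.down _ w h1 w' hw', y, hy, h2⟩
        · rintro (_ | ⟨x, _ | _⟩) ho
          · intro q' _
            exact ⟨q', le_rfl, {F}, countable_singleton _, fun F' hF' _ _ h => hF' h⟩
          · have hx : x ∈ F := ho _ rfl
            exact (few_below hC ht hΦ hpt x.1 (hu.trans hq1) ((hΦ.sub F huF).2.1 x hx)).mono hv
          · exact (hpt x.1).mono (hv.trans (hu.trans hq1))
        · intro F' w hw hwI
          by_cases hFF : F' = F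
          · exact ⟨none, by intro z hz; simp at hz, w, le_rfl, hFF⟩
          · obtain ⟨w', hw', x, hx, y, hy, hxy⟩ := conflict hΦ (Ne.symm hFF)
              (hΦ.down F u huF w (hw.trans hv)) hwI.1
            rcases hxy with h | h | h
            · exact ⟨some (x, true), by rintro z hz; cases hz; exact hx, w', hw',
                hΦ.down _ w hwI.1 w' hw', y, hy, h.symm⟩
            · exfalso
              obtain ⟨j, hj⟩ := (he F' (hc F' ⟨w, hwI.1⟩)).2 y hy
              obtain ⟨p, hp⟩ := hLM (x.1, j) (List.mem_map.2 ⟨(x, j), Finset.mem_toList.2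
                (Finset.mem_product.2 ⟨hx, Finset.mem_univ _⟩), rfl⟩)
              have hco := hwI.2 _ hp
              refine hco w' hw' ⟨hΦ.down _ w hwI.1 w' hw', ?_⟩
              show w' ∈ lt x.1 (e F' j).1
              rw [hj]
              exact h
            · exact ⟨some (x, false), by rintro z hz; cases hz; exact hx, w', hw',
                hΦ.down _ w hwI.1 w' hw', y, hy, h⟩
      obtain ⟨v', hv', hv2⟩ := hD v le_rfl
      exact hm.prop.2 L hL v' (hv'.trans (hv.trans hu)) (fun a ha => hv'.trans (hvL a ha)) hv2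
    -- Claim 2
    set B : Fin (n + 1) × Fin (n + 1) → Finset (T × ℕ) → Set P := fun ij F =>
      {v | v ∈ Φ F ∧ v ≤ q1 ∧ ∃ p, v ≤ p ∧ (p, S ((e F ij.1).1, ij.2)) ∈ 𝒱} with hB
    have hBd : ∀ ij F, Down (B ij F) := by
      rintro ij F u ⟨h1, h2, p, h3, h4⟩ v hv
      exact ⟨hΦ.down _ u h1 v hv, hv.trans h2, p, hv.trans h3, h4⟩
    have claim3 : ∀ ij, DC q1 (B ij) := by
      intro ij q2 hq2
      obtain ⟨u', hu', Z, hZ, hZ2⟩ := ht.chain
        (fun t => {v | ∃ F, v ∈ B ij F ∧ t = (e F ij.1).1}) (by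
          rintro t u ⟨F, hF, rfl⟩ v hv
          exact ⟨F, hBd ij F u hF v hv, rfl⟩) (by
          rintro t u ⟨F, hF, rfl⟩
          exact (hΦ.sub F hF.1).2.1 _ ((he F (hc F ⟨u, hF.1⟩)).1 ij.1)) (by
          rintro v hv t t' ⟨F1, ⟨h1, h2, p1, h3, h4⟩, rfl⟩ ⟨F2, ⟨k1, k2, p2, k3, k4⟩, rfl⟩
          have hnc := hm.prop.2 [(p1, S ((e F1 ij.1).1, ij.2)), (p2, S ((e F2 ij.1).1, ij.2))]
            (by
              intro a ha
              simp only [List.mem_cons, List.not_mem_nil, or_false] at ha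
              rcases ha with rfl | rfl
              · exact h4
              · exact k4) v h2 (by
              intro a ha
              simp only [List.mem_cons, List.not_mem_nil, or_false] at ha
              rcases ha with rfl | rfl
              · exact h3
              · exact k3)
          have hex : ∃ F'', ∃ u ≤ v, u ∈ Int Φ [(p1, S ((e F1 ij.1).1, ij.2)),
              (p2, S ((e F2 ij.1).1, ij.2))] F'' := by
            by_contra hno
            push Not at hno
            exact hnc ⟨∅, countable_empty, fun F'' _ u hu => hno F'' u hu⟩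
          obtain ⟨F'', u, huv, huF, huL⟩ := hex
          have l1 : u ∈ S ((e F1 ij.1).1, ij.2) F'' :=
            huL (p1, S ((e F1 ij.1).1, ij.2)) (by simp)
          have l2 : u ∈ S ((e F2 ij.1).1, ij.2) F'' :=
            huL (p2, S ((e F2 ij.1).1, ij.2)) (by simp)
          rcases ht.tree u (huv.trans hv) (e F1 ij.1).1 (e F2 ij.1).1 (e F'' ij.2).1
            ((hΦ.sub F1 (hΦ.down _ v h1 u huv)).2.1 _ ((he F1 (hc F1 ⟨v, h1⟩)).1 ij.1))
            ((hΦ.sub F2 (hΦ.down _ v k1 u huv)).2.1 _ ((he F2 (hc F2 ⟨v, k1⟩)).1 ij.1))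
            ((hΦ.sub F'' huF).2.1 _ ((he F'' (hc F'' ⟨u, huF⟩)).1 ij.2)) l1.2 l2.2 with h | h
          · exact Or.inl h
          · obtain ⟨u', hu', h⟩ := h
            exact Or.inr ⟨u', hu'.trans huv, h⟩) q2 (hq2.trans hq1)
      have hD : DC u' (B ij) := by
        refine cov_union hC Z hZ (fun t F => {u | u ∈ Φ F ∧ ∃ y ∈ F, y.1 = t}) u' ?_
          (fun t _ => (hpt t).mono (hu'.trans (hq2.trans hq1))) _ ?_
        · rintro t F u ⟨h1, h2⟩ v hv
          exact ⟨hΦ.down _ u h1 v hv, h2⟩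
        · intro F u hu huB
          refine ⟨(e F ij.1).1, ?_, u, le_rfl, huB.1, e F ij.1,
            (he F (hc F ⟨u, huB.1⟩)).1 ij.1, rfl⟩
          by_contra hno
          exact hZ2 _ hno u hu ⟨F, huB, rfl⟩
      obtain ⟨q'', hq'', h2⟩ := hD u' le_rfl
      exact ⟨q'', hq''.trans hu', h2⟩
    have hfin : DC q1 Φ := by
      refine cov_union hC (univ : Set (Fin (n + 1) × Fin (n + 1))) (Set.to_countable _) B q1 hBd
        (fun ij _ => claim3 ij) Φ ?_
      intro F u hu huF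
      obtain ⟨x, hx, j, v, hv, hv2⟩ := claim1 F u hu huF
      obtain ⟨i, hi⟩ := (he F (hc F ⟨u, huF⟩)).2 x hx
      refine ⟨(i, j), mem_univ _, v, hv, hΦ.down _ u huF v hv, hv.trans hu, v, le_rfl, ?_⟩
      show (v, S ((e F i).1, j)) ∈ 𝒱
      rw [hi]
      exact hv2
    obtain ⟨q'', hq'', h2⟩ := hfin q1 le_rfl
    exact hcc q'' hq'' h2

end

theorem bmr : S_bmr := by
  intro P _ T q0 A lt hC ht Φ hdown hsub hanti q hq
  have hD : DC q0 Φ := by
    refine cov_union hC (univ : Set ℕ) countable_univ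
      (fun n F => {u | u ∈ Φ F ∧ F.card = n}) q0 ?_ ?_ Φ ?_
    · rintro n F u ⟨h1, h2⟩ v hv
      exact ⟨hdown F u h1 v hv, h2⟩
    · intro n _
      refine main hC ht n _ ⟨?_, ?_, ?_⟩ ?_
      · rintro F u ⟨h1, h2⟩ v hv
        exact ⟨hdown F u h1 v hv, h2⟩
      · rintro F u ⟨h1, -⟩
        exact hsub F h1
      · rintro F F' hne u ⟨h1, -⟩ ⟨h2, -⟩ G hG hG'
        exact hanti F F' hne u h1 h2 G hG hG'
      · rintro F ⟨u, -, h⟩
        exact h
    · intro F u _ hu
      exact ⟨F.card, mem_univ _, u, le_rfl, hu, rfl⟩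
  obtain ⟨q', hq', Z, hZ, h⟩ := hD q hq
  exact ⟨q', hq', Z, hZ, h⟩

end Pool.Agent.H915.Bmr
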