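import Pool.Agent.H915.Stmts2

/-!
# The branch lemma
-/

set_option autoImplicit false

namespace Pool.Agent.H915.Br

open Cardinal Set Pool.Agent.Helper669.Forcing

section eqon
variable {P : Type} [Preorder P] {L : Type}

theorem eq_mono {q q' : P} {a a' : Set L} {x y : L → Set P} (h : H915.EqOn q a x y)
    (hq : q' ≤ q) (ha : a' ⊆ a) : H915.EqOn q' a' x y :=
  fun l hl r hr => h l (ha hl) r (hr.trans hq)

theorem eq_symm {q : P} {a : Set L} {x y : L → Set P} (h : H915.EqOn q a x y) :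
    H915.EqOn q a y x := fun l hl r hr => (h l hl r hr).symm

theorem eq_trans {q : P} {a : Set L} {x y z : L → Set P} (h : H915.EqOn q a x y)
    (h' : H915.EqOn q a y z) : H915.EqOn q a x z :=
  fun l hl r hr => (h l hl r hr).trans (h' l hl r hr)

theorem eq_refl (q : P) (a : Set L) (x : L → Set P) : H915.EqOn q a x x :=
  fun _ _ _ _ => Iff.rfl

theorem meets_dense {N : Set P} {q : P} (h : ∀ q' ≤ q, ∃ q'' ≤ q', q'' ∈ meets N) :
    q ∈ meets N := by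
  intro r hr
  obtain ⟨q'', h1, h2⟩ := h r hr
  obtain ⟨s, hs, t, ht, hst⟩ := h2 q'' le_rfl
  exact ⟨s, hs.trans h1, t, ht, hst⟩

theorem not_meets {N : Set P} {q : P} (h : q ∉ meets N) : ∃ q' ≤ q, ∀ u ≤ q', u ∉ meets N := by
  simp only [meets, Set.mem_ofPred_eq, not_forall, not_exists, not_and] at h
  obtain ⟨q', hq', h'⟩ := h
  refine ⟨q', hq', fun u hu hm => ?_⟩
  obtain ⟨r, hr, s, hs, hrs⟩ := hm u le_rfl
  exact h' r (hr.trans hu) s hs hrs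

/-- `m` forces that `l` is in the first but not in the second set -/
def Diff (m : P) (l : L) (B B' : L → Set P) : Prop := m ∈ meets (B l) ∧ ∀ u ≤ m, u ∉ meets (B' l)

theorem Diff.mono {m m' : P} {l : L} {B B' : L → Set P} (h : Diff m l B B') (hm : m' ≤ m) :
    Diff m' l B B' := ⟨down_meets _ _ h.1 _ hm, fun u hu => h.2 u (hu.trans hm)⟩

theorem Diff.congr {m : P} {l : L} {B B' C C' : L → Set P} (h : Diff m l B B') {a : Set L}
    (hl : l ∈ a) (h1 : H915.EqOn m a B C) (h2 : H915.EqOn m a B' C') : Diff m l C C' :=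
  ⟨(h1 l hl m le_rfl).1 h.1, fun u hu hm => h.2 u hu ((h2 l hl u hu).2 hm)⟩

theorem Diff.not_eqOn {m : P} {l : L} {B B' : L → Set P} (h : Diff m l B B') {a : Set L}
    (hl : l ∈ a) : ¬ H915.EqOn m a B B' :=
  fun h' => h.2 m le_rfl ((h' l hl m le_rfl).1 h.1)

/-- if not equal, then densely forced to be different -/
theorem exists_diff {m : P} {a : Set L} {B B' : L → Set P} (h : ¬ H915.EqOn m a B B') :
    ∃ l ∈ a, ∃ m' ≤ m, Diff m' l B B' ∨ Diff m' l B' B := by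
  simp only [H915.EqOn, not_forall] at h
  obtain ⟨l, hl, q, hq, h⟩ := h
  refine ⟨l, hl, ?_⟩
  by_cases h1 : q ∈ meets (B l)
  · have h2 : q ∉ meets (B' l) := fun h2 => h ⟨fun _ => h2, fun _ => h1⟩
    obtain ⟨q', hq', h3⟩ := not_meets h2
    exact ⟨q', hq'.trans hq, Or.inl ⟨down_meets _ _ h1 _ hq', h3⟩⟩
  · have h2 : q ∈ meets (B' l) := by
      by_contra h2
      exact h ⟨fun h => absurd h h1, fun h => absurd h h2⟩
    obtain ⟨q', hq', h3⟩ := not_meets h1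
    exact ⟨q', hq'.trans hq, Or.inr ⟨down_meets _ _ h2 _ hq', h3⟩⟩

end eqon

/-- coverings for countable index types -/
theorem cov_countable {P : Type} [Preorder P] (hc : Cov P) {ι : Type} [Countable ι] [Nonempty ι]
    (E : ι → Set P) (q : P) (hE : ∀ n, ∀ u ≤ q, ∃ e ∈ E n, e ≤ u) :
    ∃ q' ≤ q, ∃ C : ι → Set P, (∀ n, (C n).Countable ∧ C n ⊆ E n) ∧
      ∀ n, ∀ u ≤ q', ∃ e ∈ C n, ∃ v, v ≤ u ∧ v ≤ e := by
  obtain ⟨f, hf⟩ := exists_surjective_nat ι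
  obtain ⟨q', hq', C, hC, hp⟩ := hc (fun n => E (f n)) q (fun n => hE (f n))
  choose g hg using hf
  refine ⟨q', hq', fun i => C (g i), fun i => ⟨(hC (g i)).1, ?_⟩, fun i => hp (g i)⟩
  have := (hC (g i)).2
  rw [hg] at this
  exact this

section card
variable {κ : Cardinal.{0}} {L : Type}

theorem small_union (hr : κ.IsRegular) {D D' : Set L} (h : #D < κ) (h' : #D' < κ) :
    #(D ∪ D' : Set L) < κ :=
  (mk_union_le D D').trans_lt (add_lt_of_lt hr.aleph0_le h h')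

theorem small_iUnion (hr : κ.IsRegular) {ι : Type} (hι : #ι < κ) (f : ι → Set L)
    (hf : ∀ i, #(f i) < κ) : #(⋃ i, f i) < κ :=
  (mk_iUnion_le_sum_mk).trans_lt (sum_lt_of_isRegular hr hι hf)

end card

/-- maximal antichains in a set -/
theorem exists_antichain {P : Type} [Preorder P] (G : Set P) :
    ∃ A : Set P, A ⊆ G ∧ (∀ p ∈ A, ∀ q ∈ A, p ≠ q → ¬ ∃ r, r ≤ p ∧ r ≤ q) ∧
      ∀ g ∈ G, ∃ a ∈ A, ∃ r, r ≤ g ∧ r ≤ a := by
  obtain ⟨A, hA⟩ := zorn_subset {A : Set P | A ⊆ G ∧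
    ∀ p ∈ A, ∀ q ∈ A, p ≠ q → ¬ ∃ r, r ≤ p ∧ r ≤ q} (by
      intro c hc hch
      refine ⟨⋃₀ c, ⟨sUnion_subset fun s hs => (hc hs).1, ?_⟩, fun s hs => subset_sUnion_of_mem hs⟩
      rintro p ⟨s, hs, hp⟩ q ⟨t, ht, hq⟩ hpq
      rcases hch.total hs ht with h | h
      · exact (hc ht).2 p (h hp) q hq hpq
      · exact (hc hs).2 p hp q (h hq) hpq)
  refine ⟨A, hA.prop.1, hA.prop.2, fun g hg => ?_⟩
  by_contra hcon
  push Not at hcon
  have h1 : insert g A ∈ {A : Set P | A ⊆ G ∧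
      ∀ p ∈ A, ∀ q ∈ A, p ≠ q → ¬ ∃ r, r ≤ p ∧ r ≤ q} := by
    refine ⟨insert_subset hg hA.prop.1, ?_⟩
    rintro p (rfl | hp) q (rfl | hq) hpq
    · exact absurd rfl hpq
    · rintro ⟨r, h1, h2⟩; exact hcon q hq r h1 h2
    · rintro ⟨r, h1, h2⟩; exact hcon p hp r h2 h1
    · exact hA.prop.2 p hp q hq hpq
  have h2 : insert g A ⊆ A := hA.le_of_ge h1 (subset_insert g A)
  exact hcon g (h2 (mem_insert g A)) g le_rfl le_rfl

structure Hy (κ : Cardinal.{0}) (P : Type) [Preorder P] (L : Type)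
    (T : Set L → (L → Set P) → P → Prop) (m1 : P) : Prop where
  reg : κ.IsRegular
  al : ℵ₁ < κ
  cov : Cov P
  kcc : KCC κ P
  mm : ∀ (D : Set L) B m m', m' ≤ m → T D B m → T D B m'
  mD : ∀ (D D' : Set L) B m, D' ⊆ D → T D B m → T D' B m
  cg : ∀ (D : Set L) B B' m, H915.EqOn m D B B' → T D B m → T D B' m
  dn : ∀ (D : Set L) B m, #D < κ → (∀ m' ≤ m, ∃ m'' ≤ m', T D B m'') → T D B m
  cap : ∀ D : Set L, #D < κ → ∀ m ≤ m1, ∃ m2 ≤ m, ∃ C : Set (L → Set P), C.Countable ∧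
    ∀ m' ≤ m2, ∀ B, T D B m' → ∃ m'' ≤ m', ∃ B' ∈ C, H915.EqOn m'' D B B'
  ex : ∀ D : Set L, #D < κ → ∀ m ≤ m1, ∃ m' ≤ m, ∃ B, T D B m'

section main
variable {κ : Cardinal.{0}} {P : Type} [Preorder P] {L : Type}
  {T : Set L → (L → Set P) → P → Prop} {m1 : P}

/-- extendibility -/
def Ext (κ : Cardinal.{0}) (T : Set L → (L → Set P) → P → Prop) (D : Set L) (B : L → Set P)
    (m : P) : Prop :=
  ∀ D' : Set L, D ⊆ D' → #D' < κ → ∀ m' ≤ m, ∃ m'' ≤ m', ∃ B', T D' B' m'' ∧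
    H915.EqOn m'' D B B'

theorem Ext.mono {D : Set L} {B : L → Set P} {m m' : P} (h : Ext κ T D B m) (hm : m' ≤ m) :
    Ext κ T D B m' := fun D' hD hc m'' hm'' => h D' hD hc m'' (hm''.trans hm)

theorem Ext.self (H : Hy κ P L T m1) {D : Set L} {B : L → Set P} {m : P} (h : Ext κ T D B m)
    (hD : #D < κ) : T D B m := by
  refine H.dn D B m hD fun m' hm' => ?_
  obtain ⟨m'', h1, B', h2, h3⟩ := h D Subset.rfl hD m' hm'
  exact ⟨m'', h1, H.cg D B' B m'' (eq_symm h3) h2⟩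

/-- capturing, with an enumeration -/
theorem cap' (H : Hy κ P L T m1) (D : Set L) (hD : #D < κ) (m : P) (hm : m ≤ m1) :
    ∃ m2 ≤ m, ∃ b : ℕ → L → Set P, ∀ m' ≤ m2, ∀ B, T D B m' →
      ∃ m'' ≤ m', ∃ n, H915.EqOn m'' D B (b n) := by
  obtain ⟨m2, h2, C, hC, h⟩ := H.cap D hD m hm
  obtain ⟨b, hb⟩ := ((hC.insert (fun _ => ∅)).exists_eq_range (insert_nonempty _ _))
  refine ⟨m2, h2, b, fun m' hm' B hT => ?_⟩
  obtain ⟨m'', h3, B', hB', h4⟩ := h m' hm' B hT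
  have h5 : B' ∈ range b := hb ▸ mem_insert_of_mem _ hB'
  obtain ⟨n, rfl⟩ := h5
  exact ⟨m'', h3, n, h4⟩

theorem E2 (H : Hy κ P L T m1) {D D' : Set L} {B : L → Set P} {m m' : P}
    (hm1 : m ≤ m1) (hE : Ext κ T D B m) (hDD : D ⊆ D') (hD' : #D' < κ) (hm : m' ≤ m) :
    ∃ m'' ≤ m', ∃ B', Ext κ T D' B' m'' ∧ H915.EqOn m'' D B B' := by
  obtain ⟨m2, h2, b, hb⟩ := cap' H D' hD' m' (hm.trans hm1)
  by_contra hcon
  push Not at hcon
  set E : ℕ → Set P := fun n => {e | e ≤ m2 ∧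
    ((∃ D'' : Set L, D' ⊆ D'' ∧ #D'' < κ ∧
      ∀ m3 ≤ e, ∀ B', ¬ (T D'' B' m3 ∧ H915.EqOn m3 D' (b n) B')) ∨
      ∀ e' ≤ e, ¬ H915.EqOn e' D B (b n))} with hEdef
  have hEd : ∀ n, ∀ u ≤ m2, ∃ e ∈ E n, e ≤ u := by
    intro n u hu
    by_cases h : ∀ e' ≤ u, ¬ H915.EqOn e' D B (b n)
    · exact ⟨u, ⟨hu, Or.inr h⟩, le_rfl⟩
    · push Not at h
      obtain ⟨e', he', h'⟩ := h
      have h3 : ¬ Ext κ T D' (b n) e' := fun h3 => hcon e' (he'.trans (hu.trans h2)) (b n) h3 h'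
      unfold Ext at h3
      push Not at h3
      obtain ⟨D'', hD1, hD2, m3, hm3, h4⟩ := h3
      exact ⟨m3, ⟨hm3.trans (he'.trans hu), Or.inl ⟨D'', hD1, hD2, fun m4 hm4 B' h5 =>
        h4 m4 hm4 B' h5.1 h5.2⟩⟩, hm3.trans he'⟩
  obtain ⟨m3, hm3, C, hC, hpre⟩ := H.cov E m2 hEd
  -- the union of the witnesses
  have hch : ∀ x : (n : ℕ) × C n, ∃ D'' : Set L, #D'' < κ ∧
      ((∀ m3 ≤ x.2.1, ∀ B', ¬ (T D'' B' m3 ∧ H915.EqOn m3 D' (b x.1) B')) ∨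
      ∀ e' ≤ x.2.1, ¬ H915.EqOn e' D B (b x.1)) := by
    rintro ⟨n, e, he⟩
    obtain ⟨-, h | h⟩ := (hC n).2 he
    · obtain ⟨D'', -, hD2, h⟩ := h
      exact ⟨D'', hD2, Or.inl h⟩
    · exact ⟨∅, by rw [mk_eq_zero]; exact H.reg.pos, Or.inr h⟩
  choose W hW1 hW2 using hch
  have : ∀ n, Countable (C n) := fun n => (hC n).1.to_subtype
  have hWU : #(⋃ x, W x) < κ :=
    small_iUnion H.reg ((mk_le_aleph0 (α := (n : ℕ) × C n)).trans_lt
      ((aleph0_lt_aleph_one).trans H.al)) W hW1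
  obtain ⟨m4, hm4, Bs, hT4, hE4⟩ := hE (D' ∪ ⋃ x, W x) (hDD.trans subset_union_left)
    (small_union H.reg hD' hWU) m3 (hm3.trans (h2.trans hm))
  obtain ⟨m5, hm5, n, hE5⟩ := hb m4 (hm4.trans hm3) Bs (H.mD _ _ _ _ subset_union_left hT4)
  obtain ⟨e, he, m6, hm6, hm6e⟩ := hpre n m5 (hm5.trans hm4)
  rcases hW2 ⟨n, e, he⟩ with h | h
  · refine h m6 hm6e Bs ⟨?_, ?_⟩
    · refine H.mm _ _ m4 m6 (hm6.trans hm5) (H.mD _ _ _ _ ?_ hT4)
      exact (subset_iUnion W ⟨n, e, he⟩).trans subset_union_right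
    · exact eq_symm (eq_mono hE5 hm6 Subset.rfl)
  · exact h m6 hm6e (eq_trans (eq_mono hE4 (hm6.trans hm5) Subset.rfl) (eq_mono hE5 hm6 hDD))

theorem E1 (H : Hy κ P L T m1) {D : Set L} (hD : #D < κ) {m : P} (hm : m ≤ m1) :
    ∃ m' ≤ m, ∃ B, Ext κ T D B m' := by
  have h0 : Ext κ T ∅ (fun _ => ∅) m1 := by
    intro D' _ hD' m' hm'
    obtain ⟨m'', h1, B, h2⟩ := H.ex D' hD' m' hm'
    exact ⟨m'', h1, B, h2, fun l hl => absurd hl (notMem_empty l)⟩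
  obtain ⟨m'', h1, B', h2, -⟩ := E2 H le_rfl h0 (empty_subset D) hD hm
  exact ⟨m'', h1, B', h2⟩

/-- a pair of extendible names which agree on `D0` and differ on `D` -/
def Sp (κ : Cardinal.{0}) (T : Set L → (L → Set P) → P → Prop) (D0 D : Set L) (m : P) : Prop :=
  ∃ B B', Ext κ T D B m ∧ Ext κ T D B' m ∧ H915.EqOn m D0 B B' ∧ ∃ l ∈ D, Diff m l B B'

theorem plus (H : Hy κ P L T m1)
    (hno : ∀ D0 : Set L, #D0 < κ → ∀ m2 ≤ m1, ∃ D : Set L, D0 ⊆ D ∧ #D < κ ∧ ∃ m ≤ m2,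
      Sp κ T D0 D m) (D0 : Set L) (hD0 : #D0 < κ) :
    ∃ D : Set L, #D < κ ∧ D0 ⊆ D ∧ ∀ u ≤ m1, ∃ m ≤ u, Sp κ T D0 D m := by
  obtain ⟨A, hAG, hanti, hmax⟩ := exists_antichain {m : P | m ≤ m1 ∧ ∃ D : Set L, D0 ⊆ D ∧
    #D < κ ∧ Sp κ T D0 D m}
  have hA := H.kcc A hanti
  have hch : ∀ a : A, ∃ D : Set L, D0 ⊆ D ∧ #D < κ ∧ Sp κ T D0 D a.1 := fun a => (hAG a.2).2
  choose W hW0 hW1 hW2 using hch
  have hU := small_union H.reg hD0 (small_iUnion H.reg hA W hW1)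
  refine ⟨D0 ∪ ⋃ a, W a, hU, subset_union_left, fun u hu => ?_⟩
  obtain ⟨D, hD, hDc, g, hg, hSp⟩ := hno D0 hD0 u hu
  obtain ⟨a, ha, v, hvg, hva⟩ := hmax g ⟨hg.trans hu, D, hD, hDc, hSp⟩
  obtain ⟨B, B', hB, hB', hEq, l, hl, hd⟩ := hW2 ⟨a, ha⟩
  have ham : a ≤ m1 := (hAG ha).1
  have hsub : W ⟨a, ha⟩ ⊆ D0 ∪ ⋃ a, W a :=
    (subset_iUnion W ⟨a, ha⟩).trans subset_union_right
  obtain ⟨v1, hv1, C, hC, hC'⟩ := E2 H ham hB hsub hU hva
  obtain ⟨v2, hv2, C', hC2, hC2'⟩ := E2 H ham hB' hsub hU (hv1.trans hva)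
  have hv2a : v2 ≤ a := hv2.trans (hv1.trans hva)
  refine ⟨v2, hv2.trans (hv1.trans (hvg.trans hg)), C, C', hC.mono hv2, hC2, ?_, l, hsub hl, ?_⟩
  · exact eq_trans (eq_symm (eq_mono hC' hv2 (hW0 ⟨a, ha⟩)))
      (eq_trans (eq_mono hEq hv2a Subset.rfl) (eq_mono hC2' le_rfl (hW0 ⟨a, ha⟩)))
  · exact (hd.mono hv2a).congr hl (eq_mono hC' hv2 Subset.rfl) hC2'

/-- the increasing sequence -/
theorem exists_seq {I : Type} [LinearOrder I] [WellFoundedLT I] (pl : Set L → Set L) :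
    ∃ d : I → Set L, ∀ i, d i = ⋃ j : {j // j < i}, pl (d j.1) := by
  refine ⟨WellFounded.fix (wellFounded_lt (α := I)) fun i r => ⋃ j : {j // j < i}, pl (r j.1 j.2),
    fun i => ?_⟩
  rw [WellFounded.fix_eq]

theorem E3 (H : Hy κ P L T m1) : ∃ D0 : Set L, #D0 < κ ∧ ∃ m2 ≤ m1, ∀ D : Set L, D0 ⊆ D →
    #D < κ → ∀ m ≤ m2, ∀ B B', Ext κ T D B m → Ext κ T D B' m → H915.EqOn m D0 B B' →
      H915.EqOn m D B B' := by
  by_contra hcon
  push Not at hcon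
  have hno : ∀ D0 : Set L, #D0 < κ → ∀ m2 ≤ m1, ∃ D : Set L, D0 ⊆ D ∧ #D < κ ∧ ∃ m ≤ m2,
      Sp κ T D0 D m := by
    intro D0 hD0 m2 hm2
    obtain ⟨D, hD, hDc, m, hm, B, B', hB, hB', hE, hne⟩ := hcon D0 hD0 m2 hm2
    obtain ⟨l, hl, m', hm', h | h⟩ := exists_diff hne
    · exact ⟨D, hD, hDc, m', hm'.trans hm, B, B', hB.mono hm', hB'.mono hm',
        eq_mono hE hm' Subset.rfl, l, hl, h⟩
    · exact ⟨D, hD, hDc, m', hm'.trans hm, B', B, hB'.mono hm', hB.mono hm',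
        eq_symm (eq_mono hE hm' Subset.rfl), l, hl, h⟩
  have hpl := plus H hno
  choose! pl hpl1 hpl2 hpl3 using hpl
  let I : Type := (ℵ₁ : Cardinal.{0}).ord.ToType
  have hI : #I = ℵ₁ := mk_ord_toType _
  obtain ⟨d, hd⟩ := exists_seq (I := I) pl
  have hdc : ∀ i, #(d i) < κ := by
    intro i
    induction i using WellFoundedLT.induction with
    | ind i ih =>
      rw [hd i]
      refine small_iUnion H.reg ?_ _ (fun j => hpl1 _ (ih j.1 j.2))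
      refine (mk_subtype_le _).trans_lt ?_
      rw [hI]
      exact H.al
  have hdm : ∀ i j, i < j → pl (d i) ⊆ d j := by
    intro i j hij
    rw [hd j]
    exact subset_iUnion (fun k : {k // k < j} => pl (d k.1)) ⟨i, hij⟩
  have hDs : #(⋃ i, pl (d i)) < κ :=
    small_iUnion H.reg (by rw [hI]; exact H.al) _ (fun i => hpl1 _ (hdc i))
  obtain ⟨m2, hm2, b, hb⟩ := cap' H (⋃ i, pl (d i)) hDs m1 le_rfl
  -- `v` forces the pair `x` for `i`
  set F : I → ℕ × ℕ → P → Prop := fun i x v => H915.EqOn v (d i) (b x.1) (b x.2) ∧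
    ∃ l ∈ pl (d i), Diff v l (b x.1) (b x.2) with hF
  have Fmono : ∀ i x v v', v' ≤ v → F i x v → F i x v' := by
    rintro i x v v' hv ⟨h1, l, hl, h2⟩
    exact ⟨eq_mono h1 hv Subset.rfl, l, hl, h2.mono hv⟩
  have Funiq : ∀ i j x v, F i x v → F j x v → i = j := by
    intro i j x v h1 h2
    rcases lt_trichotomy i j with h | h | h
    · obtain ⟨-, l, hl, h3⟩ := h1
      exact absurd h2.1 (h3.not_eqOn (hdm i j h hl))
    · exact h
    · obtain ⟨-, l, hl, h3⟩ := h2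
      exact absurd h1.1 (h3.not_eqOn (hdm j i h hl))
  have Fdense : ∀ i, ∀ u ≤ m2, ∃ v ≤ u, ∃ x, F i x v := by
    intro i u hu
    obtain ⟨m, hm, B, B', hB, hB', hE, l, hl, hdi⟩ := hpl3 (d i) (hdc i) u (hu.trans hm2)
    have hmm1 : m ≤ m1 := hm.trans (hu.trans hm2)
    have hsub : pl (d i) ⊆ ⋃ i, pl (d i) := subset_iUnion (fun i => pl (d i)) i
    have hdp : d i ⊆ pl (d i) := hpl2 _ (hdc i)
    obtain ⟨v1, hv1, C, hC, hC'⟩ := E2 H hmm1 hB hsub hDs le_rfl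
    obtain ⟨v2, hv2, C', hC2, hC2'⟩ := E2 H hmm1 hB' hsub hDs hv1
    obtain ⟨v3, hv3, n, hn⟩ := hb v2 (hv2.trans (hv1.trans (hm.trans hu))) C
      ((hC.mono hv2).self H hDs)
    obtain ⟨v4, hv4, k, hk⟩ := hb v3 (hv3.trans (hv2.trans (hv1.trans (hm.trans hu)))) C'
      ((hC2.mono hv3).self H hDs)
    have v4m : v4 ≤ m := hv4.trans (hv3.trans (hv2.trans hv1))
    have q1 : H915.EqOn v4 (pl (d i)) B (b n) :=
      eq_trans (eq_mono hC' (hv4.trans (hv3.trans hv2)) Subset.rfl) (eq_mono hn hv4 hsub)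
    have q2 : H915.EqOn v4 (pl (d i)) B' (b k) :=
      eq_trans (eq_mono hC2' (hv4.trans hv3) Subset.rfl) (eq_mono hk le_rfl hsub)
    refine ⟨v4, v4m.trans hm, (n, k), ?_, l, hl, ?_⟩
    · exact eq_trans (eq_symm (eq_mono q1 le_rfl hdp))
        (eq_trans (eq_mono hE v4m Subset.rfl) (eq_mono q2 le_rfl hdp))
    · exact (hdi.mono v4m).congr hl q1 q2
  obtain ⟨m3, hm3, C, hC, hpre⟩ := cov_countable H.cov (ι := ℕ × ℕ)
    (fun x => {e | e ≤ m2 ∧ ((∃ i, F i x e) ∨ ∀ e' ≤ e, ∀ i, ¬ F i x e')}) m2 (by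
      intro x u hu
      by_cases h : ∀ e' ≤ u, ∀ i, ¬ F i x e'
      · exact ⟨u, ⟨hu, Or.inr h⟩, le_rfl⟩
      · push Not at h
        obtain ⟨e', he', i, hi⟩ := h
        exact ⟨e', ⟨he'.trans hu, Or.inl ⟨i, hi⟩⟩, he'⟩)
  have hZ : (⋃ x : ℕ × ℕ, ⋃ e ∈ C x, {i | F i x e}).Countable := by
    refine countable_iUnion fun x => ((hC x).1.biUnion fun e _ => ?_)
    exact Set.Subsingleton.countable fun i hi j hj => Funiq i j x e hi hj
  obtain ⟨i, hi⟩ : ∃ i : I, i ∉ ⋃ x : ℕ × ℕ, ⋃ e ∈ C x, {i | F i x e} := by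
    by_contra hall
    push Not at hall
    have h1 : (univ : Set I).Countable := hZ.mono fun i _ => hall i
    have h2 : #I ≤ ℵ₀ := by
      rw [← mk_univ]
      exact h1.le_aleph0
    rw [hI] at h2
    exact absurd h2 (not_le.2 aleph0_lt_aleph_one)
  obtain ⟨m4, hm4, x, hx⟩ := Fdense i m3 hm3
  obtain ⟨e, he, v, hv, hve⟩ := hpre x m4 hm4
  obtain ⟨-, ⟨j, hj⟩ | h⟩ := (hC x).2 he
  · have h1 := Funiq i j x v (Fmono _ _ _ _ hv hx) (Fmono _ _ _ _ hve hj)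
    subst h1
    exact hi (mem_iUnion.2 ⟨x, mem_biUnion he hj⟩)
  · exact h v hve i (Fmono _ _ _ _ hv hx)

theorem final (H : Hy κ P L T m1) :
    ∃ m3 ≤ m1, ∃ B, ∀ D : Set L, #D < κ → T D B m3 := by
  obtain ⟨D0, hD0, m2, hm2, hu⟩ := E3 H
  obtain ⟨m3, hm3, B0, hB0⟩ := E1 H hD0 hm2
  have hm31 : m3 ≤ m1 := hm3.trans hm2
  set Bi : L → Set P := fun l => {m | m ≤ m3 ∧ ∃ D : Set L, l ∈ D ∧ D0 ⊆ D ∧ #D < κ ∧
    ∃ B, Ext κ T D B m ∧ H915.EqOn m D0 B0 B ∧ m ∈ meets (B l)} with hBi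
  -- the key claim
  have key : ∀ D : Set L, D0 ⊆ D → #D < κ → ∀ m ≤ m3, ∀ B, Ext κ T D B m →
      H915.EqOn m D0 B0 B → H915.EqOn m D Bi B := by
    intro D hD hDc m hm B hB hEq l hl q hq
    constructor
    · intro h
      refine meets_dense fun r hr => ?_
      obtain ⟨s, hs, t, ⟨htm, D', hlD', hD0', hD'c, B', hB', hEq', hmt⟩, hst⟩ := h r hr
      have hsm : s ≤ m := hs.trans (hr.trans hq)
      have hUc := small_union H.reg hDc hD'c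
      obtain ⟨s1, hs1, C, hC, hC'⟩ := E2 H (hsm.trans (hm.trans hm31)) (hB.mono hsm)
        (subset_union_left (t := D')) hUc le_rfl
      obtain ⟨s2, hs2, C', hC2, hC2'⟩ := E2 H (hst.trans (htm.trans hm31)) (hB'.mono hst)
        (subset_union_right (s := D)) hUc hs1
      have e1 : H915.EqOn s2 D0 C C' := by
        refine eq_trans (eq_symm (eq_mono hC' hs2 hD)) (eq_trans (eq_symm (eq_mono hEq
          (hs2.trans (hs1.trans hsm)) Subset.rfl)) (eq_trans (eq_mono hEq'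
          (hs2.trans (hs1.trans hst)) Subset.rfl) (eq_mono hC2' le_rfl hD0')))
      have e2 := hu (D ∪ D') (hD.trans subset_union_left) hUc s2
        (hs2.trans (hs1.trans (hsm.trans (hm.trans hm3)))) C C' (hC.mono hs2) hC2 e1
      refine ⟨s2, hs2.trans (hs1.trans hs), ?_⟩
      have f1 : s2 ∈ meets (B' l) := down_meets _ _ hmt _ (hs2.trans (hs1.trans hst))
      have f2 : s2 ∈ meets (C' l) := (hC2' l hlD' s2 le_rfl).1 f1
      have f3 : s2 ∈ meets (C l) := (e2 l (Or.inr hlD') s2 le_rfl).2 f2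
      exact (hC' l hl s2 hs2).2 f3
    · intro h
      refine meets_of_mem ⟨hq.trans hm, D, hl, hD, hDc, B, hB.mono hq,
        eq_mono hEq hq Subset.rfl, h⟩
  refine ⟨m3, hm31, Bi, fun D hD => ?_⟩
  have hUc := small_union H.reg hD hD0
  refine H.mD (D ∪ D0) D Bi m3 subset_union_left (H.dn _ _ _ hUc fun m' hm' => ?_)
  obtain ⟨m'', h1, B, h2, h3⟩ := E2 H hm31 hB0 (subset_union_right (s := D)) hUc hm'
  exact ⟨m'', h1, H.cg _ B Bi m'' (eq_symm (key (D ∪ D0) subset_union_right hUc m''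
    (h1.trans hm') B h2 h3)) (h2.self H hUc)⟩

end main

theorem branch : S_branch := by
  intro κ P _ L T m1 h1 h2 h3 h4 h5 h6 h7 h8 h9 h10
  exact final ⟨h1, h2, h3, h4, h5, h6, h7, h8, h9, h10⟩

end Pool.Agent.H915.Br
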