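import Pool.Agent.H915.Stmts1

/-!
# Countable closed sets
-/

set_option autoImplicit false

namespace Pool.Agent.H915.CC

open Cardinal Set Pool.Agent.Helper669.Forcing

theorem ccForall : S_ccForall := by
  intro Ω φ h
  choose f hf using h
  refine ⟨fun m l => f (Nat.unpair m).1 (Nat.unpair m).2 l, fun N hN hcl n => ?_⟩
  apply hf n N hN
  intro m l hl
  have := hcl (Nat.pair n m) l hl
  simpa only [Nat.unpair_pair] using this

theorem ccDiag : S_ccDiag := by
  classical
  intro Ω Z φ supp hc hne h
  choose f hf using h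
  have henc : ∀ l : List Ω, ∃ e : {z | supp z = l} → ℕ, Function.Injective e := fun l => by
    have := (hc l).to_subtype
    exact exists_injective_nat _
  choose e he using henc
  let g : List Ω → ℕ → ℕ → List Ω → Ω := fun l j m l' =>
    if h : ∃ z : {z | supp z = l}, e l z = j then f h.choose.1 m l' else Classical.choice hne
  have hg : ∀ (z : Z) (m : ℕ) (l' : List Ω), g (supp z) (e (supp z) ⟨z, rfl⟩) m l' = f z m l' := by
    intro z m l'
    have hex : ∃ w : {w | supp w = supp z}, e (supp z) w = e (supp z) ⟨z, rfl⟩ := ⟨_, rfl⟩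
    have h1 : hex.choose = ⟨z, rfl⟩ := he _ hex.choose_spec
    simp only [g]
    rw [dif_pos hex, h1]
  refine ⟨fun c l => g (l.take (Nat.unpair c).1) (Nat.unpair (Nat.unpair c).2).1
    (Nat.unpair (Nat.unpair c).2).2 (l.drop (Nat.unpair c).1), fun N hN hcl z hz => ?_⟩
  apply hf z N hN
  intro m l hl
  have := hcl (Nat.pair (supp z).length (Nat.pair (e (supp z) ⟨z, rfl⟩) m)) (supp z ++ l)
    (fun x hx => by
      rcases List.mem_append.1 hx with hx | hx
      · exact hz x hx
      · exact hl x hx)
  simp only [Nat.unpair_pair, List.take_left', List.drop_left', hg] at this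
  exact this

theorem ccMap : S_ccMap := by
  classical
  rintro Ω Ω' ι φ hι ⟨f, hf⟩
  refine ⟨fun n l => ι (f n (l.filterMap (Function.partialInv ι))), fun N hN hcl => ?_⟩
  apply hf _ (hN.preimage hι)
  intro n l hl
  have := hcl n (l.map ι) (fun x hx => by
    obtain ⟨y, hy, rfl⟩ := List.mem_map.1 hx
    exact hl y hy)
  have h1 : (l.map ι).filterMap (Function.partialInv ι) = l := by
    rw [List.filterMap_map]
    have : Function.partialInv ι ∘ ι = some := by
      funext x
      exact Function.partialInv_left hι x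
    rw [this, List.filterMap_some]
  simp only [h1] at this
  exact this

theorem ccExists : S_ccExists := by
  classical
  rintro Ω φ ⟨f, hf⟩ s hs
  obtain ⟨N, hN0, hN1⟩ : ∃ N : ℕ → Set Ω, N 0 = s ∧ ∀ k, N (k + 1) = N k ∪ Set.range
      (fun p : ℕ × List {x : Ω // x ∈ N k} => f p.1 (p.2.map Subtype.val)) :=
    ⟨fun k => Nat.rec (motive := fun _ => Set Ω) s (fun _ M => M ∪ Set.range
      (fun p : ℕ × List {x : Ω // x ∈ M} => f p.1 (p.2.map Subtype.val))) k, rfl, fun k => rfl⟩
  have hmono : Monotone N := monotone_nat_of_le_succ fun k => by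
    rw [hN1]
    exact subset_union_left
  have hctbl : ∀ k, (N k).Countable := by
    intro k
    induction k with
    | zero => exact hN0 ▸ hs
    | succ k ih =>
      rw [hN1]
      have h0 : Countable {x : Ω // x ∈ N k} := ih.to_subtype
      exact ih.union (Set.countable_range _)
  refine ⟨⋃ k, N k, hN0 ▸ Set.subset_iUnion N 0, Set.countable_iUnion hctbl, ?_⟩
  apply hf _ (Set.countable_iUnion hctbl)
  intro n l hl
  have h1 : ∀ l : List Ω, (∀ x ∈ l, x ∈ ⋃ k, N k) → ∃ k, ∀ x ∈ l, x ∈ N k := by
    intro l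
    induction l with
    | nil => exact fun _ => ⟨0, fun x hx => absurd hx List.not_mem_nil⟩
    | cons a l ih =>
      intro h
      obtain ⟨k, hk⟩ := ih fun x hx => h x (List.mem_cons_of_mem a hx)
      obtain ⟨k', hk'⟩ := Set.mem_iUnion.1 (h a List.mem_cons_self)
      refine ⟨max k k', fun x hx => ?_⟩
      rcases List.mem_cons.1 hx with rfl | hx
      · exact hmono (le_max_right _ _) hk'
      · exact hmono (le_max_left _ _) (hk x hx)
  obtain ⟨k, hk⟩ := h1 l hl
  refine Set.mem_iUnion.2 ⟨k + 1, ?_⟩
  rw [hN1]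
  right
  refine ⟨(n, l.attach.map fun x => ⟨x.1, hk x.1 x.2⟩), ?_⟩
  simp

end Pool.Agent.H915.CC
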