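import Pool.Agent.H915.Stmts1

/-!
# Closed sets give nodes; finite supports
-/

set_option autoImplicit false

namespace Pool.Agent.H915.CC2

open Cardinal Set Pool.Agent.Helper669.Forcing

/-! ### auxiliary lemmas -/

theorem cclub_sub {Ω : Type} [Nonempty Ω] (s : Set Ω) (hs : s.Countable) :
    CClub fun N : Set Ω => s ⊆ N := by
  rcases s.eq_empty_or_nonempty with h | h
  · exact ⟨fun _ _ => Classical.arbitrary Ω, fun N _ _ => by rw [h]; exact empty_subset N⟩
  · obtain ⟨e, he⟩ := hs.exists_eq_range h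
    refine ⟨fun n _ => e n, fun N _ hN => ?_⟩
    rw [he]
    rintro _ ⟨n, rfl⟩
    exact hN n [] (by simp)

theorem cclub_mem {Ω : Type} [Nonempty Ω] (x : Ω) : CClub fun N : Set Ω => x ∈ N := by
  obtain ⟨f, hf⟩ := cclub_sub ({x} : Set Ω) (countable_singleton x)
  exact ⟨f, fun N h1 h2 => singleton_subset_iff.1 (hf N h1 h2)⟩

theorem cclub_mono {Ω : Type} {φ ψ : Set Ω → Prop} (h : CClub φ)
    (hi : ∀ N : Set Ω, N.Countable → φ N → ψ N) : CClub ψ := by
  obtain ⟨f, hf⟩ := h
  exact ⟨f, fun N h1 h2 => hi N h1 (hf N h1 h2)⟩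

theorem cclub_true {Ω : Type} [Nonempty Ω] {φ : Set Ω → Prop} (h : ∀ N, φ N) : CClub φ :=
  cclub_mono (cclub_sub (∅ : Set Ω) countable_empty) fun N _ _ => h N

theorem cclub_and (h1 : S_ccForall) {Ω : Type} {φ ψ : Set Ω → Prop} (h : CClub φ)
    (h' : CClub ψ) : CClub fun N => φ N ∧ ψ N := by
  have h2 := h1 Ω (fun n => if n = 0 then φ else ψ) (fun n => by
    by_cases hn : n = 0
    · simpa [hn] using h
    · simpa [hn] using h')
  refine cclub_mono h2 fun N _ hN => ⟨?_, ?_⟩
  · have := hN 0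
    simpa using this
  · have := hN 1
    simpa using this

/-- diagonal intersection over elements -/
theorem cclub_diag (h2 : S_ccDiag) {Ω : Type} [Nonempty Ω] {φ : Ω → Set Ω → Prop}
    (h : ∀ z, CClub (φ z)) : CClub fun N => ∀ z ∈ N, φ z N := by
  have h3 := h2 Ω Ω φ (fun z => [z]) (fun l => by
    refine Set.Subsingleton.countable ?_
    intro a ha b hb
    have ha' : [a] = l := ha
    have hb' : [b] = l := hb
    rw [← hb'] at ha'
    exact (List.cons.inj ha').1) inferInstance h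
  exact cclub_mono h3 fun N _ hN z hz => hN z (by simpa using hz)

/-- the least countable ordinal that is not in a countable set -/
theorem exists_least {K : Type} [LinearOrder K] [Cod K] (s : Set K) (hs : s.Countable) :
    ∃ x : Om1, om x ∉ s ∧ ∀ y < x, (om y : K) ∈ s := by
  have h1 : {x : Om1 | om x ∉ s}.Nonempty := by
    by_contra hcon
    rw [not_nonempty_iff_eq_empty] at hcon
    have h2 : ∀ x : Om1, (om x : K) ∈ s := by
      intro x
      by_contra hx
      have : x ∈ ({x : Om1 | om x ∉ s} : Set Om1) := hx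
      rw [hcon] at this
      exact this
    have h3 : Countable Om1 := by
      have hinj : Function.Injective (fun x : Om1 => (⟨om x, h2 x⟩ : s)) := by
        intro x y hxy
        have := congrArg Subtype.val hxy
        exact (Cod.om_lt (K := K)).injective this
      haveI := hs.to_subtype
      exact hinj.countable
    have h4 : #Om1 ≤ ℵ₀ := Cardinal.mk_le_aleph0_iff.2 h3
    rw [Cardinal.mk_ord_toType] at h4
    have h5 : ℵ₀ < Cardinal.aleph 1 := Cardinal.aleph0_lt_aleph_one
    exact absurd h4 (not_le.2 h5)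
  obtain ⟨x, hx, hmin⟩ := WellFounded.has_min (wellFounded_lt (α := Om1)) _ h1
  refine ⟨x, hx, fun y hy => ?_⟩
  by_contra hcon
  exact hmin y hcon hy

theorem ccNode (h1 : S_ccForall) (h2 : S_ccDiag) : S_ccNode := by
  classical
  intro K _ _ _
  haveI : Nonempty K := ⟨om (Classical.arbitrary Om1)⟩
  -- decoding
  have c1 : CClub fun N : Set K => ∀ z ∈ N, ∀ s : Set K, s.Countable → cd s = z → s ⊆ N := by
    refine cclub_diag h2 fun z => ?_
    by_cases hz : ∃ s : Set K, s.Countable ∧ cd s = z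
    · obtain ⟨s, hs, rfl⟩ := hz
      refine cclub_mono (cclub_sub s hs) fun N _ hN t ht hst => ?_
      rw [Cod.cd_inj t s ht hs hst]
      exact hN
    · exact cclub_true fun N s hs hsz => absurd ⟨s, hs, hsz⟩ hz
  -- intersections
  have c2 : CClub fun N : Set K => ∀ z ∈ N, ∀ τ ∈ N, ∀ s : Set K, s.Countable → cd s = z →
      cd (s ∩ Iio τ) ∈ N := by
    have h3 := h2 K (K × K)
      (fun z N => ∀ s : Set K, s.Countable → cd s = z.1 → cd (s ∩ Iio z.2) ∈ N)
      (fun z => [z.1, z.2]) (fun l => by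
        refine Set.Subsingleton.countable ?_
        intro a ha b hb
        have ha' : [a.1, a.2] = l := ha
        have hb' : [b.1, b.2] = l := hb
        rw [← hb'] at ha'
        simp only [List.cons.injEq, and_true] at ha'
        exact Prod.ext ha'.1 ha'.2) inferInstance (fun z => by
        by_cases hz : ∃ s : Set K, s.Countable ∧ cd s = z.1
        · obtain ⟨s, hs, hsz⟩ := hz
          refine cclub_mono (cclub_mem (cd (s ∩ Iio z.2))) fun N _ hN t ht htz => ?_
          rw [Cod.cd_inj t s ht hs (htz.trans hsz.symm)]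
          exact hN
        · exact cclub_true fun N s hs hsz => absurd ⟨s, hs, hsz⟩ hz)
    refine cclub_mono h3 fun N _ hN z hz τ hτ s hs hsz => hN (z, τ) ?_ s hs hsz
    intro x hx
    simp only [List.mem_cons, List.not_mem_nil, or_false] at hx
    rcases hx with rfl | rfl
    · exact hz
    · exact hτ
  -- witnesses for the failure of transitivity
  have c3 : CClub fun N : Set K => ∀ ξ ∈ N, (∀ x : Om1, om x < ξ) → ¬ Tr ξ →
      ∃ s : Set K, s.Countable ∧ ¬ (s ⊆ Iio ξ ↔ cd s < ξ) ∧ cd s ∈ N := by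
    refine cclub_diag h2 fun ξ => ?_
    by_cases hξ : ∃ s : Set K, s.Countable ∧ ¬ (s ⊆ Iio ξ ↔ cd s < ξ)
    · obtain ⟨s, hs, hsx⟩ := hξ
      exact cclub_mono (cclub_mem (cd s)) fun N _ hN _ _ => ⟨s, hs, hsx, hN⟩
    · refine cclub_true fun N hom hn => absurd ⟨hom, fun s hs => ?_⟩ hn
      by_contra hcon
      exact hξ ⟨s, hs, hcon⟩
  -- heights
  have c4 : CClub fun N : Set K => ∀ z ∈ N, ∀ s : Set K, s.Countable → cd s = z →
      ∃ x : Om1, om x ∉ s ∧ (∀ y < x, om y ∈ s) ∧ om x ∈ N := by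
    refine cclub_diag h2 fun z => ?_
    by_cases hz : ∃ s : Set K, s.Countable ∧ cd s = z
    · obtain ⟨s, hs, rfl⟩ := hz
      obtain ⟨x, hx1, hx2⟩ := exists_least s hs
      refine cclub_mono (cclub_mem (om x : K)) fun N _ hN t ht hst => ?_
      rw [Cod.cd_inj t s ht hs hst]
      exact ⟨x, hx1, hx2, hN⟩
    · exact cclub_true fun N s hs hsz => absurd ⟨s, hs, hsz⟩ hz
  refine cclub_mono (cclub_and h1 (cclub_and h1 c1 c2) (cclub_and h1 c3 c4)) ?_
  rintro N hN ⟨⟨d1, d2⟩, d3, d4⟩
  refine ⟨hN, fun s hs hsN => d1 _ hsN s hs rfl, fun s hs hsN τ hτ => d2 _ hsN τ hτ s hs rfl,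
    ?_, fun s hs hsN => d4 _ hsN s hs rfl⟩
  intro τ hτ ξ hξ hle hmin
  by_contra hn
  obtain ⟨s, hs, hsx, hsN⟩ := d3 ξ hξ (fun x => (hτ.1 x).trans_le hle) hn
  have hlt : ∀ η ∈ N, η < ξ → η < τ := by
    intro η hη h
    by_contra hcon
    exact absurd (hmin η hη (not_lt.1 hcon)) (not_le.2 h)
  apply hsx
  constructor
  · intro hsub
    have h3 : s ⊆ Iio τ := fun η hη => hlt η (d1 _ hsN s hs rfl hη) (hsub hη)
    exact ((hτ.2 s hs).1 h3).trans_le hle
  · intro hcd
    have h3 : cd s < τ := hlt _ hsN hcd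
    exact ((hτ.2 s hs).2 h3).trans (Iio_subset_Iio hle)

section
variable (K W : Type) [LinearOrder K] [WellFoundedLT K] [Cod K]

theorem tokFin : S_tokFin K W := by
  intro l
  refine Set.Finite.countable ?_
  have hl : {x : Tok K W | x ∈ l}.Finite := List.finite_toSet l
  have hFA : {k : K | (Sum.inl k : Tok K W) ∈ l}.Finite :=
    hl.preimage (Sum.inl_injective.injOn)
  have hFC : {c : Crd K W | (Sum.inr c : Tok K W) ∈ l}.Finite :=
    hl.preimage (Sum.inr_injective.injOn)
  have hFN : {Q : Set K | Q.Countable ∧ (Sum.inl (cd Q) : Tok K W) ∈ l}.Finite := by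
    refine Set.Finite.of_injOn (f := fun Q : Set K => cd Q) (fun Q hQ => hQ.2) ?_ hFA
    intro Q hQ R hR h
    exact Cod.cd_inj Q R hQ.1 hR.1 h
  have hFt : {a : Crd K W × K | (Sum.inr a.1 : Tok K W) ∈ l ∧ (Sum.inl a.2 : Tok K W) ∈ l}.Finite :=
    (hFC.prod hFA).subset fun a ha => ha
  have hbig : ({A : Set K | A ⊆ {k : K | (Sum.inl k : Tok K W) ∈ l}} ×ˢ
      ({N : Set (Set K) | N ⊆ {Q : Set K | Q.Countable ∧ (Sum.inl (cd Q) : Tok K W) ∈ l}} ×ˢ
      {t : Set (Crd K W × K) | t ⊆
        {a : Crd K W × K | (Sum.inr a.1 : Tok K W) ∈ l ∧ (Sum.inl a.2 : Tok K W) ∈ l}})).Finite :=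
    hFA.finite_subsets.prod (hFN.finite_subsets.prod hFt.finite_subsets)
  refine Set.Finite.of_injOn
    (f := fun r : Pre K W => (r.base.A, r.base.Nd, (r.top : Set (Crd K W × K)))) ?_ ?_ hbig
  · intro r hr
    refine ⟨fun τ hτ => hr.1 τ hτ, fun Q hQ => ⟨(r.base.nd Q hQ).ctbl, hr.2.1 Q hQ⟩, ?_⟩
    intro a ha
    exact hr.2.2 a ha
  · intro r _ r' _ h
    obtain ⟨b, t⟩ := r
    obtain ⟨b', t'⟩ := r'
    simp only [Prod.mk.injEq, Finset.coe_inj] at h
    obtain ⟨hA, hN, ht⟩ := h
    have hb : b = b' := by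
      cases b
      cases b'
      simp only at hA hN
      subst hA hN
      rfl
    rw [hb, ht]

/-- the list of the tokens of a condition -/
noncomputable def supp {K W : Type} [LinearOrder K] [Cod K] (r : Pre K W) : List (Tok K W) :=
  (r.base.finA.toFinset.toList.map Sum.inl) ++
    ((r.base.finN.toFinset.toList.map fun Q => Sum.inl (cd Q)) ++
      r.top.toList.flatMap fun a => [Sum.inr a.1, Sum.inl a.2])

theorem supp_iff {K W : Type} [LinearOrder K] [Cod K] (r : Pre K W) (N : Set (Tok K W)) :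
    (∀ x ∈ supp r, x ∈ N) ↔ InTok N r := by
  unfold supp InTok
  constructor
  · intro h
    refine ⟨fun τ hτ => h _ ?_, fun Q hQ => h _ ?_, fun a ha => ⟨h _ ?_, h _ ?_⟩⟩
    · simp [hτ]
    · simp only [List.mem_append, List.mem_map]
      exact Or.inr (Or.inl ⟨Q, by simpa using hQ, rfl⟩)
    · simp only [List.mem_append, List.mem_flatMap]
      exact Or.inr (Or.inr ⟨a, by simpa using ha, by simp⟩)
    · simp only [List.mem_append, List.mem_flatMap]
      exact Or.inr (Or.inr ⟨a, by simpa using ha, by simp⟩)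
  · rintro ⟨h1, h2, h3⟩ x hx
    simp only [List.mem_append, List.mem_map, List.mem_flatMap] at hx
    rcases hx with ⟨τ, hτ, rfl⟩ | ⟨Q, hQ, rfl⟩ | ⟨a, ha, hx⟩
    · exact h1 τ (by simpa using hτ)
    · exact h2 Q (by simpa using hQ)
    · have ha' : a ∈ r.top := by simpa using ha
      simp only [List.mem_cons, List.not_mem_nil, or_false] at hx
      rcases hx with rfl | rfl
      · exact (h3 a ha').1
      · exact (h3 a ha').2

theorem ccPre (h2 : S_ccDiag) (h3 : S_tokFin K W) : S_ccPre K W := by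
  intro φ hK hφ
  have h4 := h2 (Tok K W) (Pre K W) φ supp (fun l => by
    refine (h3 l).mono ?_
    intro r hr
    have hr' : supp r = l := hr
    rw [← hr']
    exact (supp_iff r _).1 fun x hx => hx) ⟨Sum.inl (Classical.arbitrary K)⟩ hφ
  exact cclub_mono h4 fun N _ hN r hr => hN r ((supp_iff r N).2 hr)

theorem ccIn (h1 : S_ccForall) : S_ccIn K W := by
  intro hK e
  haveI : Nonempty (Tok K W) := ⟨Sum.inl (Classical.arbitrary K)⟩
  refine cclub_mono (cclub_sub {x : Tok K W | x ∈ supp e} (List.finite_toSet _).countable)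
    fun N _ hN => (supp_iff e N).1 fun x hx => hN hx

end

end Pool.Agent.H915.CC2
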