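import Pool.Agent.H915.Stmts2

/-!
# The collapse
-/

set_option autoImplicit false

namespace Pool.Agent.H915.Co

open Cardinal Set Pool.Agent.Helper669.Forcing


open Pool.Agent.W910.LC (Supercompact)
open Pool.Agent.W873.Tp (NormalFine)

/-- initial segments of `κ` have all sizes less than `κ` -/
theorem exists_Iio (κ : Cardinal.{0}) (Z : Type) (hZ : #Z < κ) : ∃ k : Kp κ, #Z ≤ #(Iio k) := by
  have h1 : (#Z).ord < Ordinal.type (· < · : Kp κ → Kp κ → Prop) := by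
    rw [Ordinal.type_toType]
    exact Cardinal.ord_lt_ord.2 hZ
  refine ⟨Ordinal.enum (· < ·) ⟨(#Z).ord, h1⟩, ?_⟩
  have h2 := Ordinal.card_typein (r := (· < · : Kp κ → Kp κ → Prop))
    (Ordinal.enum (· < ·) ⟨(#Z).ord, h1⟩)
  rw [Ordinal.typein_enum, Cardinal.card_ord] at h2
  exact h2.le

/-- a map onto a nonempty set of smaller size -/
theorem exists_onto {K Z : Type} [Nonempty Z] (s : Set K) (h : #Z ≤ #s) :
    ∃ f : K → Z, ∀ z, ∃ k ∈ s, f k = z := by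
  classical
  obtain ⟨e⟩ := h
  refine ⟨fun k => if hk : ∃ z, (e z : K) = k then hk.choose else Classical.arbitrary Z,
    fun z => ⟨e z, (e z).2, ?_⟩⟩
  have hk : ∃ z', (e z' : K) = e z := ⟨z, rfl⟩
  simp only [dif_pos hk]
  exact e.injective (Subtype.ext hk.choose_spec)

theorem exists_pair : ∃ π : Om1 → Om1 × ℕ, Function.Surjective π := by
  have h1 : #(Om1 × ℕ) = #Om1 := by
    rw [Cardinal.mk_prod]
    simp only [Cardinal.lift_uzero, Cardinal.mk_nat, Cardinal.mk_ord_toType]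
    exact Cardinal.mul_eq_left (Cardinal.aleph0_le_aleph 1) (Cardinal.aleph0_le_aleph 1)
      Cardinal.aleph0_ne_zero
  obtain ⟨e⟩ := Cardinal.eq.1 h1
  exact ⟨e.symm, e.symm.surjective⟩

theorem coll (h1 : S_tr) (h2 : ∀ (K W : Type) [LinearOrder K] [WellFoundedLT K] [Cod K] [LinearOrder W] [WellFoundedLT W], S_ct K W)
    (h3 : ∀ (K : Type) [LinearOrder K] [WellFoundedLT K] [Cod K], S_dl K) : S_coll := by
  classical
  intro κ _ hκ Z hZne hZ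
  obtain ⟨k₀, hk₀⟩ := exists_Iio κ Z hZ
  obtain ⟨τ, hk₀τ, hτ⟩ := h1 κ hκ k₀
  have hZτ : #Z ≤ #(Iio τ) := hk₀.trans (Cardinal.mk_le_mk_of_subset (Iio_subset_Iio hk₀τ.le))
  obtain ⟨f, hf⟩ := exists_onto (Iio τ) hZτ
  obtain ⟨π, hπ⟩ := exists_pair
  obtain ⟨c1, c2, c3, c4⟩ := h2 (Kp κ) (Wp κ)
  obtain ⟨-, d2, -⟩ := h3 (Kp κ)
  have he : ∀ N : Set (Kp κ), ∃ e : ℕ → Kp κ, N.Countable → N.Nonempty → N = range e := by
    intro N
    by_cases hN : N.Countable ∧ N.Nonempty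
    · obtain ⟨e, he⟩ := hN.1.exists_eq_range hN.2
      exact ⟨e, fun _ _ => he⟩
    · exact ⟨fun _ => τ, fun a b => absurd ⟨a, b⟩ hN⟩
  choose e he using he
  let z₀ : Z := Classical.arbitrary Z
  -- the condition determines the node of height `δ`
  let D : Om1 → Set (Kp κ) → PP (Kp κ) (Wp κ) → Prop := fun δ N u => u ∈ CT τ N ∧ dl N = δ
  have hDd : ∀ δ N u, D δ N u → ∀ v ≤ u, D δ N v := fun δ N u h v hv =>
    ⟨c1 τ N u h.1 v hv, h.2⟩
  have hDu : ∀ δ N N' u, D δ N u → D δ N' u → N = N' := by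
    intro δ N N' u h h'
    have n1 := (c2 τ N u hτ h.1).1
    have n2 := (c2 τ N' u hτ h'.1).1
    rcases c3 τ N N' u hτ h.1 h'.1 with h4 | h4 | h4
    · exact h4
    · exact absurd (d2 N N' n1 n2 h4) (by rw [h.2, h'.2]; exact lt_irrefl _)
    · exact absurd (d2 N' N n2 n1 h4) (by rw [h.2, h'.2]; exact lt_irrefl _)
  let g : Om1 → Z → Set (PP (Kp κ) (Wp κ)) := fun i z =>
    {u | (∃ N, D (π i).1 N u ∧ f (e N (π i).2) = z) ∨
      (z = z₀ ∧ ∀ v ≤ u, ∀ N, ¬ D (π i).1 N v)}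
  have hgd : ∀ i z, Down (g i z) := by
    rintro i z u (⟨N, hN, hz⟩ | ⟨hz, hN⟩) v hv
    · exact Or.inl ⟨N, hDd _ _ _ hN v hv, hz⟩
    · exact Or.inr ⟨hz, fun w hw => hN w (hw.trans hv)⟩
  refine ⟨g, fun u => ⟨⟨fun i => ?_, fun i z z' => ?_⟩, fun z => ?_⟩⟩
  · rw [mem_fex]
    intro q _
    by_cases hq : ∃ v ≤ q, ∃ N, D (π i).1 N v
    · obtain ⟨v, hv, N, hN⟩ := hq
      exact ⟨v, hv, _, meets_of_mem (Or.inl ⟨N, hN, rfl⟩)⟩
    · push Not at hq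
      exact ⟨q, le_rfl, z₀, meets_of_mem (Or.inr ⟨rfl, hq⟩)⟩
  · rw [mem_fimp]
    rintro q _ ⟨hz, hz'⟩
    refine ⟨q, le_rfl, ?_⟩
    obtain ⟨r, hr, hr1⟩ := exists_of_meets (hgd i z) hz
    obtain ⟨r', hr', hr2⟩ := exists_of_meets (hgd i z') (down_meets _ _ hz' _ hr)
    have hr1' := hgd i z r hr1 r' hr'
    change z = z'
    rcases hr1' with ⟨N, hN, hNz⟩ | ⟨hz0, hN⟩
    · rcases hr2 with ⟨N', hN', hNz'⟩ | ⟨_, hN'⟩
      · rw [← hNz, ← hNz', hDu _ _ _ _ hN hN']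
      · exact absurd hN (hN' r' le_rfl N)
    · rcases hr2 with ⟨N', hN', _⟩ | ⟨hz0', _⟩
      · exact absurd hN' (hN r' le_rfl N')
      · rw [hz0, hz0']
  · rw [mem_fex]
    intro q _
    obtain ⟨k, hk, hkz⟩ := hf z
    obtain ⟨v, hv, _, N, hN, hvN⟩ := c4 τ {k} q hτ (countable_singleton k)
      (singleton_subset_iff.2 hk)
    have hNn := (c2 τ N v hτ hvN).1
    have hkN : k ∈ N := hN rfl
    have hr := he N hNn.ctbl ⟨k, hkN⟩
    rw [hr] at hkN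
    obtain ⟨n, hn⟩ := hkN
    obtain ⟨i, hi⟩ := hπ (dl N, n)
    refine ⟨v, hv, i, meets_of_mem (Or.inl ⟨N, ⟨hvN, ?_⟩, ?_⟩)⟩
    · rw [hi]
    · rw [hi]
      simp only
      rw [hn, hkz]

end Pool.Agent.H915.Co
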