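import Pool.Agent.H915.Stmts2

/-!
# Coverings, and the chain of nodes
-/

set_option autoImplicit false

namespace Pool.Agent.H915.Dd

open Cardinal Set Pool.Agent.Helper669.Forcing

section aux

variable {K W : Type} [LinearOrder K] [Cod K]

theorem c0_ext {p q : C0 K} (h1 : p.A = q.A) (h2 : p.Nd = q.Nd) : p = q := by
  cases p; cases q; cases h1; cases h2; rfl

theorem pre_ext {p q : Pre K W} (h1 : p.base = q.base) (h2 : p.top = q.top) : p = q := by
  cases p; cases q; cases h1; cases h2; rfl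

/-- there are only countably many conditions with tokens in a countable set -/
theorem inTok_countable {N : Set (Tok K W)} (hN : N.Countable) :
    {r : Pre K W | InTok N r}.Countable := by
  have hK : (KN N).Countable := hN.preimage Sum.inl_injective
  have hC : {c : Crd K W | Sum.inr c ∈ N}.Countable := hN.preimage Sum.inr_injective
  have hP : ({c : Crd K W | Sum.inr c ∈ N} ×ˢ KN N).Countable := hC.prod hK
  set f : Pre K W → Set K × Set K × Set (Crd K W × K) :=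
    fun r => (r.base.A, cd '' r.base.Nd, (r.top : Set (Crd K W × K))) with hf
  have hT : ({t : Set K | t.Finite ∧ t ⊆ KN N} ×ˢ ({t : Set K | t.Finite ∧ t ⊆ KN N} ×ˢ
      {t : Set (Crd K W × K) | t.Finite ∧ t ⊆ {c : Crd K W | Sum.inr c ∈ N} ×ˢ KN N})).Countable :=
    (countable_ofPred_finite_subset hK).prod
      ((countable_ofPred_finite_subset hK).prod (countable_ofPred_finite_subset hP))
  refine MapsTo.countable_of_injOn (f := f) ?_ ?_ hT
  · intro r hr
    refine ⟨⟨r.base.finA, fun τ hτ => hr.1 τ hτ⟩, ⟨r.base.finN.image _, ?_⟩,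
      ⟨r.top.finite_toSet, ?_⟩⟩
    · rintro _ ⟨Q, hQ, rfl⟩
      exact hr.2.1 Q hQ
    · intro a ha
      exact ⟨(hr.2.2 a ha).1, (hr.2.2 a ha).2⟩
  · intro r _ r' _ h
    simp only [hf, Prod.mk.injEq] at h
    obtain ⟨h1, h2, h3⟩ := h
    have key : ∀ s t : Pre K W, cd '' s.base.Nd = cd '' t.base.Nd → s.base.Nd ⊆ t.base.Nd := by
      intro s t hst Q hQ
      have h4 : cd Q ∈ cd '' t.base.Nd := by rw [← hst]; exact mem_image_of_mem _ hQ
      obtain ⟨R, hR, hRQ⟩ := h4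
      have := Cod.cd_inj R Q (t.base.nd R hR).ctbl (s.base.nd Q hQ).ctbl hRQ
      rwa [← this]
    exact pre_ext (c0_ext h1 (Subset.antisymm (key r r' h2) (key r' r h2.symm)))
      (Finset.coe_injective h3)

/-- tokens of a side condition -/
def tokC (s : C0 K) : Set K := s.A ∪ cd '' s.Nd

theorem tokC_countable (s : C0 K) : (tokC s).Countable :=
  (s.finA.union (s.finN.image _)).countable

theorem tokC_inside {s : C0 K} {N : Set K} (h : tokC s ⊆ N) : s.Inside N :=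
  ⟨fun _ hx => h (Or.inl hx), fun _ hQ => h (Or.inr (mem_image_of_mem _ hQ))⟩

end aux

variable (K W : Type) [LinearOrder K] [WellFoundedLT K] [Cod K] [LinearOrder W] [WellFoundedLT W]

theorem dd (h1 : S_relSall K W) (h2 : S_ccForall) (h3 : S_ccMap) (h4 : S_ccExists) (h5 : S_ccNode) (h6 : S_addNode K) :
    S_dd K W := by
  intro E hE s
  have hcl : ∀ n, CClub fun N : Set (Tok K W) => ∀ r, Valid Sall r → KN N ∈ r.base.Nd →
      ∃ e ∈ (Subtype.val '' E n : Set (Pre K W)), InTok N e ∧ ∃ u, Valid Sall u ∧ u ≤ r ∧ u ≤ e := by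
    intro n
    apply h1
    · rintro _ ⟨e, _, rfl⟩
      exact e.2
    · intro r hr
      obtain ⟨e, he, her⟩ := hE n ⟨r, hr⟩
      exact ⟨e.1, ⟨e, he, rfl⟩, her⟩
  have hnode : CClub fun N : Set (Tok K W) => Node (KN N) :=
    h3 K (Tok K W) Sum.inl (fun N => Node N) Sum.inl_injective (h5 K)
  have hall : CClub fun N : Set (Tok K W) => ∀ n : ℕ, (match n with
      | 0 => Node (KN N)
      | n + 1 => ∀ r, Valid Sall r → KN N ∈ r.base.Nd →
        ∃ e ∈ (Subtype.val '' E n : Set (Pre K W)), InTok N e ∧ ∃ u, Valid Sall u ∧ u ≤ r ∧ u ≤ e) := by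
    refine h2 (Tok K W) (fun n N => match n with
      | 0 => Node (KN N)
      | n + 1 => ∀ r, Valid Sall r → KN N ∈ r.base.Nd →
        ∃ e ∈ (Subtype.val '' E n : Set (Pre K W)), InTok N e ∧
          ∃ u, Valid Sall u ∧ u ≤ r ∧ u ≤ e) ?_
    intro n
    cases n with
    | zero => exact hnode
    | succ n => exact hcl n
  obtain ⟨N, hsN, hNc, hN⟩ := h4 (Tok K W) _ hall (Sum.inl '' tokC s) ((tokC_countable s).image _)
  have hNnode : Node (KN N) := hN 0
  have hins : s.Inside (KN N) := tokC_inside fun x hx => hsN (mem_image_of_mem _ hx)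
  obtain ⟨s', hs', hNs'⟩ := h6 s (KN N) hNnode hins
  refine ⟨s', hs', fun n => {e : PP K W | e ∈ E n ∧ InTok N e.1}, ?_, ?_⟩
  · intro n
    refine ⟨?_, fun e he => he.1⟩
    have h7 := (inTok_countable hNc).preimage
      (f := (Subtype.val : PP K W → Pre K W)) Subtype.val_injective
    exact h7.mono fun e he => he.2
  · intro u hu n
    obtain ⟨e, ⟨e', he', rfl⟩, heN, v, hv, hvu, hve⟩ := hN (n + 1) u.1 u.2 (hu.2 hNs')
    exact ⟨e', ⟨he', heN⟩, ⟨v, hv⟩, hvu, hve⟩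

theorem cov (h1 : S_dd K W) (h2 : S_ext K W) : S_cov K W := by
  intro E q hE
  obtain ⟨s', hs', C', hC1, hC2⟩ := h1
    (fun n => E n ∪ {u : PP K W | ∀ u' ≤ u, ¬ u' ≤ q}) (by
      intro n u
      by_cases h : ∃ u' ≤ u, u' ≤ q
      · obtain ⟨u', h3, h4⟩ := h
        obtain ⟨e, he, heu⟩ := hE n u' h4
        exact ⟨e, Or.inl he, heu.trans h3⟩
      · push Not at h
        exact ⟨u, Or.inr h, le_rfl⟩) q.1.base
  obtain ⟨q', hq1, hq2⟩ := h2 q s' hs'
  have hq' : q' ≤ q := by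
    refine ⟨?_, ?_⟩
    · rw [hq1]; exact hs'
    · rw [hq2]
  refine ⟨q', hq', fun n => C' n ∩ E n, fun n => ⟨(hC1 n).1.mono inter_subset_left,
    inter_subset_right⟩, ?_⟩
  intro n u hu
  have hub : u.1.base ≤ s' := by
    rw [← hq1]; exact hu.1
  obtain ⟨e, he, v, hvu, hve⟩ := hC2 u hub n
  have heE : e ∈ E n := by
    rcases (hC1 n).2 he with h | h
    · exact h
    · exact absurd (hvu.trans (hu.trans hq')) (h v hve)
  exact ⟨e, ⟨he, heE⟩, v, hvu, hve⟩

theorem ct (h1 : S_chain K) (h2 : S_nodeRestr K) (h3 : S_ccNode) (h4 : S_ccExists) (h5 : S_addNode K) (h6 : S_ext K W) :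
    S_ct K W := by
  refine ⟨?_, ?_, ?_, ?_⟩
  · rintro τ N p ⟨Q, hQ, hτ, rfl⟩ q hqp
    exact ⟨Q, hqp.1.2 hQ, hτ, rfl⟩
  · rintro τ N u hτ ⟨Q, hQ, hτQ, rfl⟩
    exact ⟨h2 Q (u.1.base.nd Q hQ) τ hτ, inter_subset_right⟩
  · rintro τ N N' u hτ ⟨Q, hQ, hτQ, rfl⟩ ⟨R, hR, hτR, rfl⟩
    exact h1 u.1.base τ hτ Q hQ R hR hτQ hτR
  · intro τ b u hτ hb hbτ
    obtain ⟨Q, hsQ, hQc, hQ⟩ := h4 K _ (h3 K) (insert τ (b ∪ tokC u.1.base))
      ((hb.union (tokC_countable _)).insert τ)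
    have hins : u.1.base.Inside Q := tokC_inside fun x hx => hsQ (Or.inr (Or.inr hx))
    obtain ⟨s', hs', hQs'⟩ := h5 u.1.base Q hQ hins
    obtain ⟨v, hv1, hv2⟩ := h6 u s' hs'
    refine ⟨v, ⟨?_, ?_⟩, hv2, Q ∩ Iio τ, ?_, ⟨Q, ?_, hsQ (Or.inl rfl), rfl⟩⟩
    · rw [hv1]; exact hs'
    · rw [hv2]
    · exact fun x hx => ⟨hsQ (Or.inr (Or.inl hx)), hbτ hx⟩
    · rw [hv1]; exact hQs'

end Pool.Agent.H915.Dd
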