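import Mathlib
import Pool.Agent.Helper669.Forcing
import Pool.Agent.W684.FM.Defs
import Pool.Agent.W910.LC.Defs

/-!
# Two types of side conditions and a finite support iteration over them: definitions

`K` is a well-ordered set (later: a supercompact cardinal), with a coding of its countable subsets
by its elements and a copy of `ω₁`.
-/

set_option autoImplicit false

namespace Pool.Agent.H915

open Cardinal Set Pool.Agent.Helper669.Forcing

/-- The well-ordered set `ω₁` of the countable ordinals. -/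
abbrev Om1 : Type := Pool.Agent.W684.FM.Om1

instance : Nonempty Om1 := by
  rw [← Cardinal.mk_ne_zero_iff, Cardinal.mk_ord_toType]
  exact (Cardinal.aleph_pos 1).ne'

/-- A coding of the countable subsets of `K` by elements of `K`, and a copy of `ω₁` in `K`. -/
class Cod (K : Type) [LinearOrder K] where
  cd : Set K → K
  cd_inj : ∀ s t : Set K, s.Countable → t.Countable → cd s = cd t → s = t
  om : Om1 → K
  om_lt : StrictMono om

export Cod (cd om)

section Base

variable {K : Type} [LinearOrder K] [Cod K]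

/-- transitive nodes -/
def Tr (τ : K) : Prop :=
  (∀ x : Om1, om x < τ) ∧ ∀ s : Set K, s.Countable → (s ⊆ Iio τ ↔ cd s < τ)

/-- small nodes -/
structure Node (N : Set K) : Prop where
  ctbl : N.Countable
  sub : ∀ s : Set K, s.Countable → cd s ∈ N → s ⊆ N
  inter : ∀ s : Set K, s.Countable → cd s ∈ N → ∀ τ ∈ N, cd (s ∩ Iio τ) ∈ N
  gap : ∀ τ : K, Tr τ → ∀ ξ ∈ N, τ ≤ ξ → (∀ η ∈ N, τ ≤ η → ξ ≤ η) → Tr ξ
  omc : ∀ s : Set K, s.Countable → cd s ∈ N → ∃ x : Om1, om x ∉ s ∧ (∀ y < x, om y ∈ s) ∧ om x ∈ N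

/-- the height of a countable set: the least countable ordinal not in it -/
noncomputable def dl (N : Set K) : Om1 :=
  Classical.epsilon fun x : Om1 => om x ∉ N ∧ ∀ y < x, om y ∈ N

/-- base conditions: finite systems of transitive and small nodes -/
structure C0 (K : Type) [LinearOrder K] [Cod K] where
  A : Set K
  Nd : Set (Set K)
  finA : A.Finite
  finN : Nd.Finite
  tr : ∀ τ ∈ A, Tr τ
  nd : ∀ Q ∈ Nd, Node Q
  cl : ∀ Q ∈ Nd, ∀ τ ∈ A, Q ∩ Iio τ ∈ Nd
  gap : ∀ Q ∈ Nd, ∀ τ ∈ A, ∀ ξ ∈ Q, τ ≤ ξ → (∀ η ∈ Q, τ ≤ η → ξ ≤ η) → ξ ∈ A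
  cmp : ∀ Q ∈ Nd, ∀ R ∈ Nd, (∀ τ ∈ A, Q ⊆ Iio τ ↔ R ⊆ Iio τ) → Q = R ∨ cd Q ∈ R ∨ cd R ∈ Q

/-- stronger conditions are smaller -/
instance : Preorder (C0 K) where
  le p q := q.A ⊆ p.A ∧ q.Nd ⊆ p.Nd
  le_refl p := ⟨Subset.refl _, Subset.refl _⟩
  le_trans _ _ _ h h' := ⟨h'.1.trans h.1, h'.2.trans h.2⟩

theorem C0.le_def {p q : C0 K} : p ≤ q ↔ q.A ⊆ p.A ∧ q.Nd ⊆ p.Nd := Iff.rfl

/-- the empty condition -/
def C0.one : C0 K where
  A := ∅
  Nd := ∅
  finA := finite_empty
  finN := finite_empty
  tr := by simp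
  nd := by simp
  cl := by simp
  gap := by simp
  cmp := by simp

/-- the part of a condition below `α` -/
def C0.below (p : C0 K) (α : K) : C0 K where
  A := {τ | τ ∈ p.A ∧ τ < α}
  Nd := {Q | Q ∈ p.Nd ∧ Q ⊆ Iio α}
  finA := p.finA.subset fun _ h => h.1
  finN := p.finN.subset fun _ h => h.1
  tr := fun τ h => p.tr τ h.1
  nd := fun Q h => p.nd Q h.1
  cl := fun Q h τ h' => ⟨p.cl Q h.1 τ h'.1, inter_subset_left.trans h.2⟩
  gap := fun Q h τ h' ξ hξ h1 h2 => ⟨p.gap Q h.1 τ h'.1 ξ hξ h1 h2, h.2 hξ⟩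
  cmp := fun Q h R h' hs => p.cmp Q h.1 R h'.1 fun τ hτ => by
    rcases lt_or_ge τ α with h1 | h1
    · exact hs τ ⟨hτ, h1⟩
    · exact ⟨fun _ => h'.2.trans (Iio_subset_Iio h1), fun _ => h.2.trans (Iio_subset_Iio h1)⟩

/-- all nodes of `t` are elements of `N` -/
def C0.Inside (t : C0 K) (N : Set K) : Prop := t.A ⊆ N ∧ ∀ Q ∈ t.Nd, cd Q ∈ N

end Base

/-! ### Countable closed sets -/

/-- The property `φ` holds for all countable sets closed under certain countably many finitary
functions. -/
def CClub {Ω : Type} (φ : Set Ω → Prop) : Prop :=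
  ∃ f : ℕ → List Ω → Ω, ∀ N : Set Ω, N.Countable →
    (∀ n, ∀ l : List Ω, (∀ x ∈ l, x ∈ N) → f n l ∈ N) → φ N

/-! ### The iteration -/

/-- Codes of coordinates: a stage and a name for a family of finite subsets of `K`, which assigns
to each finite `F` a family of at most `#K` conditions. -/
inductive Code (K W B : Type) : Type
  | mk (st : W) (on : Finset K → K → Prop) (bs : Finset K → K → B) (len : Finset K → K → ℕ)
      (sub : (F : Finset K) → (k : K) → Fin (len F k) → Code K W B)
      (val : (F : Finset K) → (k : K) → Fin (len F k) → K) : Code K W B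

/-- the stage of a coordinate -/
def Code.st {K W B : Type} : Code K W B → W
  | .mk st _ _ _ _ _ => st

/-- coordinates -/
abbrev Crd (K W : Type) [LinearOrder K] [Cod K] : Type := Code K W (C0 K)

/-- conditions, before validity is imposed -/
structure Pre (K W : Type) [LinearOrder K] [Cod K] where
  base : C0 K
  top : Finset (Crd K W × K)

section Iter

variable {K W : Type} [LinearOrder K] [Cod K]

instance : Preorder (Pre K W) where
  le p q := p.base ≤ q.base ∧ q.top ⊆ p.top
  le_refl p := ⟨le_refl _, Finset.Subset.refl _⟩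
  le_trans _ _ _ h h' := ⟨h.1.trans h'.1, Finset.Subset.trans h'.2 h.2⟩

theorem Pre.le_def {p q : Pre K W} : p ≤ q ↔ p.base ≤ q.base ∧ q.top ⊆ p.top := Iff.rfl

open Classical in
/-- the name carried by a coordinate -/
noncomputable def Code.nm : Crd K W → Finset K → Set (Pre K W)
  | .mk _ on bs len sub val, F => {s | ∃ k, on F k ∧
      s = ⟨bs F k, Finset.univ.image fun i : Fin (len F k) => (sub F k i, val F k i)⟩}

open Classical in
/-- the finite set attached by a condition to a coordinate -/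
noncomputable def fib (p : Pre K W) (c : Crd K W) : Finset K :=
  (p.top.filter fun a => a.1 = c).image Prod.snd

/-- valid conditions: all coordinates are in `S`, and the finite set attached to a coordinate is
in the named family, as witnessed by a weaker condition -/
def Valid (S : Set (Crd K W)) (p : Pre K W) : Prop :=
  ∀ a ∈ p.top, a.1 ∈ S ∧ ∃ s ∈ a.1.nm (fib p a.1), p ≤ s

open Classical in
/-- restriction of a condition to a set of coordinates -/
noncomputable def restr (T : Set (Crd K W)) (p : Pre K W) : Pre K W :=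
  ⟨p.base, p.top.filter fun a => a.1 ∈ T⟩

/-- tokens: the objects of which conditions are made -/
abbrev Tok (K W : Type) [LinearOrder K] [Cod K] : Type := K ⊕ Crd K W

/-- all tokens of the condition are in `N` -/
def InTok (N : Set (Tok K W)) (r : Pre K W) : Prop :=
  (∀ τ ∈ r.base.A, Sum.inl τ ∈ N) ∧ (∀ Q ∈ r.base.Nd, Sum.inl (cd Q) ∈ N) ∧
    ∀ a ∈ r.top, Sum.inr a.1 ∈ N ∧ Sum.inl a.2 ∈ N

/-- the elements of `K` in `N` -/
def KN (N : Set (Tok K W)) : Set K := {k | Sum.inl k ∈ N}

/-- The conditions with coordinates in `S` are strongly proper over the countable models, relative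
to the base. -/
def RelCCC (S : Set (Crd K W)) : Prop :=
  ∀ E : Set (Pre K W), (∀ e ∈ E, Valid S e) → (∀ r, Valid S r → ∃ e ∈ E, e ≤ r) →
    CClub fun N : Set (Tok K W) => ∀ r, Valid S r → KN N ∈ r.base.Nd →
      ∃ e ∈ E, InTok N e ∧ ∃ u, Valid S u ∧ u ≤ r ∧ u ≤ e

section

variable [LinearOrder W]

/-- the name of the coordinate refers to earlier stages only -/
def Proper (c : Crd K W) : Prop := ∀ F, ∀ s ∈ c.nm F, ∀ a ∈ s.top, a.1.st < c.st

/-- the name of the coordinate is small -/
def Small (c : Crd K W) : Prop := #{x : Finset K × Pre K W | x.2 ∈ c.nm x.1} < #K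

/-- initial parts of sets of coordinates -/
def Initial (T S : Set (Crd K W)) : Prop :=
  T ⊆ S ∧ ∀ c ∈ T, ∀ c' ∈ S, c'.st < c.st → c' ∈ T

/-- the candidates for the set of the coordinates at stage `α` -/
def Cand (α : W) (S₀ : Set (Crd K W)) : Set (Set (Crd K W)) :=
  {M | (∀ c ∈ M, c.st = α ∧ Proper c ∧ Small c) ∧ RelCCC (S₀ ∪ M)}

open Classical in
/-- a maximal set of coordinates at stage `α` above `S₀` -/
noncomputable def maxM (α : W) (S₀ : Set (Crd K W)) : Set (Crd K W) :=
  if h : ∃ M, Maximal (fun M => M ∈ Cand α S₀) M then h.choose else ∅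

variable [WellFoundedLT W]

/-- the coordinates at stage `α` -/
noncomputable def V : W → Set (Crd K W) :=
  WellFounded.fix (wellFounded_lt (α := W)) fun α V' => maxM α (⋃ β : {β // β < α}, V' β.1 β.2)

/-- the coordinates before stage `α` -/
def Slt (α : W) : Set (Crd K W) := ⋃ β : {β : W // β < α}, V β.1

/-- the coordinates up to stage `α` -/
def Sle (α : W) : Set (Crd K W) := Slt α ∪ V α

/-- all coordinates -/
def Sall : Set (Crd K W) := ⋃ β : W, V β

end

variable (K W) in
/-- the poset of the iteration -/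
def PP [LinearOrder W] [WellFoundedLT W] : Type := {p : Pre K W // Valid Sall p}

instance [LinearOrder W] [WellFoundedLT W] : Preorder (PP K W) where
  le p q := p.1 ≤ q.1
  le_refl p := le_refl p.1
  le_trans _ _ _ h h' := le_trans h h'

theorem PP.le_def [LinearOrder W] [WellFoundedLT W] {p q : PP K W} : p ≤ q ↔ p.1 ≤ q.1 := Iff.rfl

end Iter

end Pool.Agent.H915
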