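import Mathlib
import Pool.Agent.Helper669.Forcing
import Pool.Agent.W684.FM.Defs
import Pool.Agent.W905.HalfCohenDefs
import Pool.Agent.H915.Defs

/-!
# Sentences of the forcing language

Martin's axiom for `ℵ₁` dense sets and the indestructible guessing model principle, as sentences of
the forcing language of `Pool.Agent.Helper669.Forcing`: a sentence is the set of the conditions
which force it, a name for a subset of the ground model set `L` is a map from `L` to the sets of
conditions. In the extension each set is in bijection with a set of the ground model.
-/

set_option autoImplicit false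

namespace Pool.Agent.H915

open Cardinal Set Pool.Agent.Helper669.Forcing
open Pool.Agent.W905.HalfCohen (PosetName)
open Pool.Agent.W684.FM (IsPreN CompatN IsDenseN IsFilterN OmegaOnePreserved)

section Sentences

variable {P : Type} [Preorder P] {L : Type}

/-- `φ` if and only if `ψ` -/
def fiff (φ ψ : Set P) : Set P := fand (fimp φ ψ) (fimp ψ φ)

/-- The sets named by `x` and `y` are equal. -/
def SEq (x y : L → Set P) : Set P := fall fun l : L => fiff (meets (x l)) (meets (y l))

/-- the name for the intersection -/
def inter (x y : L → Set P) : L → Set P := fun l => fand (meets (x l)) (meets (y l))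

/-- the name for `{l}` -/
def sing (l : L) : L → Set P := fun l' => fground (l' = l)

/-- The set named by `x` is countable: there is a partial function from `ℕ` onto it. -/
def CtblN (x : L → Set P) : Set P :=
  fex fun g : ℕ → L → Set P => fand
    (fall fun n : ℕ => fall fun l : L => fall fun l' : L =>
      fimp (fand (meets (g n l)) (meets (g n l'))) (fground (l = l')))
    (fall fun l : L => fimp (meets (x l)) (fex fun n : ℕ => meets (g n l)))

/-! ### Martin's axiom -/

/-- The set named by `A` is an antichain: two compatible elements of it are equal. -/
def AntiN (R : L → L → Set P) (A : L → Set P) : Set P :=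
  fall fun x : L => fall fun y : L =>
    fimp (fand (meets (A x)) (fand (meets (A y)) (CompatN R x y))) (fground (x = y))

/-- The countable chain condition: all antichains are countable. -/
def CCCA (R : L → L → Set P) : Set P := fall fun A : L → Set P => fimp (AntiN R A) (CtblN A)

/-- Martin's axiom for `ℵ₁` dense sets: for each nonempty preordered set with the countable chain
condition and each family of `ℵ₁` dense sets there is a filter which meets all of them. -/
def MAN (P : Type) [Preorder P] : Set P :=
  fall fun X : Type => fall fun R : X → X → Set P => fall fun D : Om1 → X → Set P =>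
    fimp (fand (fground (Nonempty X)) (fand (IsPreN R) (fand (CCCA R)
      (fall fun i => IsDenseN R (D i)))))
      (fex fun F : X → Set P => fand (IsFilterN R F)
        (fall fun i => fex fun x => fand (meets (F x)) (meets (D i x))))

/-! ### Guessing -/

/-- A name for a family of `ℵ₁` finitary functions on the power set of `L`, as a map on names. -/
abbrev FnN (L P : Type) : Type := Om1 → (n : ℕ) → (Fin n → L → Set P) → L → Set P

/-- The values depend only on the sets, and not on the names. -/
def IsExtN (F : FnN L P) : Set P :=
  fall fun i : Om1 => fall fun n : ℕ => fall fun s : Fin n → L → Set P =>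
    fall fun t : Fin n → L → Set P =>
      fimp (fall fun k : Fin n => SEq (s k) (t k)) (SEq (F i n s) (F i n t))

/-- The family `{Y j : j < ω₁}` of subsets of `L` is closed under the functions. -/
def IsClosedN (F : FnN L P) (Y : Om1 → L → Set P) : Set P :=
  fall fun i : Om1 => fall fun n : ℕ => fall fun s : Fin n → L → Set P =>
    fimp (fall fun k : Fin n => fex fun j : Om1 => SEq (s k) (Y j))
      (fex fun j : Om1 => SEq (F i n s) (Y j))

/-- `d` is `ω₁`-approximated by the family: `d ∩ a` is in the family for each countable `a` in the
family. -/
def ApproxN (Y : Om1 → L → Set P) (d : L → Set P) : Set P :=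
  fall fun j : Om1 => fimp (CtblN (Y j)) (fex fun k : Om1 => SEq (inter d (Y j)) (Y k))

/-- `d` is guessed by the family: some `e` in the family has the same elements as `d` among the
`l : L` such that `{l}` is in the family. -/
def GuessedN (Y : Om1 → L → Set P) (d : L → Set P) : Set P :=
  fex fun k : Om1 => fall fun l : L => fimp (fex fun j : Om1 => SEq (Y j) (sing l))
    (fiff (meets (d l)) (meets (Y k l)))

/-- each subset of `L` approximated by the family is guessed by it -/
def GuessingN (Y : Om1 → L → Set P) : Set P :=
  fall fun d : L → Set P => fimp (ApproxN Y d) (GuessedN Y d)

/-- the `P`-name `y` as a name for the two-step iteration -/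
def liftN {Q : PosetName P} (y : L → Set P) : L → Set Q.Iter := fun l => {x | x.fst ∈ y l}

/-- The family `Y` is indestructibly guessing: for each forcing notion `Q` of the extension, if all
conditions of `Q` force that `ω₁` is preserved, then all conditions of `Q` force that `Y` is
guessing. (The conditions below `p` of the two-step iteration are the pairs `(p', q)` with
`p' ≤ p`.) -/
def IndestrN (Y : Om1 → L → Set P) : Set P :=
  {p | ∀ Q : PosetName P, ∀ p' ≤ p,
    (∀ x : Q.Iter, x.fst ≤ p' → x ∈ OmegaOnePreserved Q.Iter) →
      ∀ x : Q.Iter, x.fst ≤ p' → x ∈ GuessingN fun j => liftN (Q := Q) (Y j)}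

/-- The principle `IGMP(ω₂, ω₁)` in the extension: for each set `L` and each family of `ℵ₁`
finitary functions on the power set of `L` there is a family of (at most) `ℵ₁` subsets of `L` which
is closed under the functions and indestructibly guessing. -/
def IGMPN (P : Type) [Preorder P] : Set P :=
  fall fun L : Type => fall fun F : FnN L P => fimp (IsExtN F)
    (fex fun Y : Om1 → L → Set P => fand (IsClosedN F Y) (IndestrN Y))

/-- The continuum is larger than `ℵ₂`: for some nonempty set `Y` there is no map from `ω₁` onto
`Y` and no map from `Y` onto the set of the functions from `ℕ` to `ℕ`. -/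
def BigContinuumN (P : Type) [Preorder P] : Set P :=
  fex fun Y : Type => fand (fground (Nonempty Y))
    (fand (fnot (fex fun R : Om1 → Y → Set P => fand (IsFun R) (IsOnto R)))
      (fnot (ContinuumLe P Y)))

end Sentences

end Pool.Agent.H915
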