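import Mathlib
import Pool.Agent.H915.Defs

/-!
# Statements, part 1: side conditions, countable closed sets, the iteration
-/

set_option autoImplicit false

namespace Pool.Agent.H915

open Cardinal Set Pool.Agent.Helper669.Forcing

/-! ### Side conditions -/

section
variable (K : Type) [LinearOrder K] [WellFoundedLT K] [Cod K]

def S_irrefl : Prop := ∀ Q : Set K, Node Q → cd Q ∉ Q

/-- the height of a node, and its monotonicity -/
def S_dl : Prop := (∀ Q : Set K, Node Q → om (dl Q) ∉ Q ∧ ∀ y < dl Q, om y ∈ Q) ∧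
  (∀ Q R : Set K, Node Q → Node R → cd Q ∈ R → dl Q < dl R) ∧
  ∀ (Q : Set K) (τ : K), Tr τ → Node Q → dl (Q ∩ Iio τ) = dl Q

def S_nodeRestr : Prop := ∀ Q : Set K, Node Q → ∀ τ : K, Tr τ → Node (Q ∩ Iio τ)

/-- Lemma R -/
def S_relRestr : Prop := ∀ Q R : Set K, Node Q → Node R → cd Q ∈ R → ∀ τ : K, Tr τ →
  cd (Q ∩ Iio τ) ∈ R ∩ Iio τ

/-- Lemma T -/
def S_amalgT : Prop := ∀ (p q : C0 K) (α : K), α ∈ p.A → (∀ τ ∈ q.A, τ < α) →
  (∀ Q ∈ q.Nd, Q ⊆ Iio α) → q ≤ p.below α → ∃ r : C0 K, r.A = p.A ∪ q.A ∧ r.Nd = p.Nd ∪ q.Nd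

/-- residues -/
def S_res : Prop := ∀ (s : C0 K) (N : Set K), N ∈ s.Nd →
  ∃ r : C0 K, r.A = s.A ∩ N ∧ r.Nd = {Q | Q ∈ s.Nd ∧ cd Q ∈ N}

/-- Lemma S -/
def S_amalgS : Prop := ∀ (s t : C0 K) (N : Set K), N ∈ s.Nd → t.Inside N → s.A ∩ N ⊆ t.A →
  (∀ Q ∈ s.Nd, cd Q ∈ N → Q ∈ t.Nd) →
  ∃ r : C0 K, r.A = s.A ∪ t.A ∧
    r.Nd = s.Nd ∪ t.Nd ∪ {X | ∃ Q ∈ s.Nd, ∃ τ ∈ t.A, X = Q ∩ Iio τ}

/-- Lemma N -/
def S_addNode : Prop := ∀ (t : C0 K) (N : Set K), Node N → t.Inside N → ∃ r ≤ t, N ∈ r.Nd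

/-- Lemma A -/
def S_addTr : Prop := ∀ (p : C0 K) (α : K), Tr α → ∃ r ≤ p, α ∈ r.A

/-- the nodes of a condition containing `τ`, restricted to `τ`, form a chain -/
def S_chain : Prop := ∀ (p : C0 K) (τ : K), Tr τ → ∀ Q ∈ p.Nd, ∀ R ∈ p.Nd, τ ∈ Q → τ ∈ R →
  Q ∩ Iio τ = R ∩ Iio τ ∨ cd (Q ∩ Iio τ) ∈ R ∩ Iio τ ∨ cd (R ∩ Iio τ) ∈ Q ∩ Iio τ

end

/-! ### Countable closed sets -/

def S_ccForall : Prop := ∀ (Ω : Type) (φ : ℕ → Set Ω → Prop), (∀ n, CClub (φ n)) →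
  CClub fun N => ∀ n, φ n N

/-- Diagonal intersections. The elements `z` of `Z` are controlled by their finite supports. -/
def S_ccDiag : Prop := ∀ (Ω Z : Type) (φ : Z → Set Ω → Prop) (supp : Z → List Ω),
  (∀ l : List Ω, {z | supp z = l}.Countable) → Nonempty Ω → (∀ z, CClub (φ z)) →
  CClub fun N => ∀ z, (∀ x ∈ supp z, x ∈ N) → φ z N

def S_ccMap : Prop := ∀ (Ω Ω' : Type) (ι : Ω → Ω') (φ : Set Ω → Prop), Function.Injective ι →
  CClub φ → CClub fun N' => φ (ι ⁻¹' N')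

def S_ccExists : Prop := ∀ (Ω : Type) (φ : Set Ω → Prop), CClub φ → ∀ s : Set Ω, s.Countable →
  ∃ N, s ⊆ N ∧ N.Countable ∧ φ N

def S_ccNode : Prop := ∀ (K : Type) [LinearOrder K] [WellFoundedLT K] [Cod K],
  CClub fun N : Set K => Node N

/-! ### The iteration -/

section
variable (K W : Type) [LinearOrder K] [WellFoundedLT K] [Cod K]

/-- Countable models closed under the decoding of conditions: each condition all of whose tokens
are in a given finite set of tokens is one of countably many. -/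
def S_tokFin : Prop := ∀ l : List (Tok K W), {r : Pre K W | InTok {x | x ∈ l} r}.Countable

/-- diagonal intersections over the conditions with tokens in `N` -/
def S_ccPre : Prop := ∀ φ : Pre K W → Set (Tok K W) → Prop, Nonempty K → (∀ r, CClub (φ r)) →
  CClub fun N => ∀ r, InTok N r → φ r N

/-- the tokens of a given condition are in `N` -/
def S_ccIn : Prop := Nonempty K → ∀ e : Pre K W, CClub fun N : Set (Tok K W) => InTok N e

def S_code : Prop := ∀ (α : W) (N : Finset K → Set (Pre K W)), Nonempty K → (∀ F, #(N F) ≤ #K) →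
  ∃ c : Crd K W, c.st = α ∧ c.nm = N

def S_relEmpty : Prop := RelCCC (∅ : Set (Crd K W))

variable [LinearOrder W]

def S_validRestr : Prop := ∀ (T S : Set (Crd K W)), (∀ c ∈ S, Proper c) → Initial T S →
  ∀ p : Pre K W, Valid S p → Valid T (restr T p)

open Classical in
/-- amalgamation of two conditions over an initial part -/
def S_amalg : Prop := ∀ (T S : Set (Crd K W)), T ⊆ S → ∀ p p' q : Pre K W, Valid S p →
  Valid S p' → Valid T q → q ≤ restr T p → q ≤ restr T p' →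
  (∀ a ∈ p.top, ∀ b ∈ p'.top, a.1 = b.1 → a.1 ∈ T) →
  Valid S ⟨q.base, q.top ∪ p.top ∪ p'.top⟩

/-- the limit lemma -/
def S_relParts : Prop := ∀ S : Set (Crd K W), (∀ c ∈ S, Proper c) →
  (∀ r : Finset (Crd K W), (∀ c ∈ r, c ∈ S) →
    ∃ T, Initial T S ∧ (∀ c ∈ r, c ∈ T) ∧ RelCCC T) → RelCCC S

variable [WellFoundedLT W]

def S_relSle : Prop := ∀ α : W, RelCCC (Sle α : Set (Crd K W))
def S_relSlt : Prop := ∀ α : W, RelCCC (Slt α : Set (Crd K W))
def S_relSall : Prop := RelCCC (Sall : Set (Crd K W))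

/-- maximality -/
def S_memV : Prop := ∀ (α : W) (c : Crd K W), c.st = α → Proper c → Small c →
  RelCCC (Sle α ∪ {c}) → c ∈ (V α : Set (Crd K W))

end

end Pool.Agent.H915
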