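import Mathlib
import Pool.Agent.H915.Stmts1
import Pool.Agent.H915.Sent
import Pool.Agent.W873.Tp.Large

/-!
# Definitions, part 2: coverings, families for new coordinates, traces of models
-/

set_option autoImplicit false

namespace Pool.Agent.H915

open Cardinal Set Pool.Agent.Helper669.Forcing

/-! ### General preorders of conditions -/

section
variable {P : Type} [Preorder P] {L : Type}

/-- Each name for a sequence of ground model objects is covered: for dense sets `E n` below `q`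
there is `q' ≤ q` and countable sets `C n ⊆ E n` which are predense below `q'`. -/
def Cov (P : Type) [Preorder P] : Prop :=
  ∀ (E : ℕ → Set P) (q : P), (∀ n, ∀ u ≤ q, ∃ e ∈ E n, e ≤ u) →
    ∃ q' ≤ q, ∃ C : ℕ → Set P, (∀ n, (C n).Countable ∧ C n ⊆ E n) ∧
      ∀ n, ∀ u ≤ q', ∃ e ∈ C n, ∃ v, v ≤ u ∧ v ≤ e

/-- antichains have size less than `κ` -/
def KCC (κ : Cardinal.{0}) (P : Type) [Preorder P] : Prop :=
  ∀ A : Set P, (∀ p ∈ A, ∀ q ∈ A, p ≠ q → ¬ ∃ r, r ≤ p ∧ r ≤ q) → #A < κ

/-- `q` forces that the sets named by `x` and `y` have the same elements in `a` -/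
def EqOn (q : P) (a : Set L) (x y : L → Set P) : Prop :=
  ∀ l ∈ a, ∀ q' ≤ q, (q' ∈ meets (x l) ↔ q' ∈ meets (y l))

end

/-! ### The poset -/

section
variable {K W : Type} [LinearOrder K] [Cod K] [LinearOrder W] [WellFoundedLT W]

/-- A name for a family of finite subsets of `K`, given by the sets `φ F` of the conditions which
force that `F` belongs to the family: it is closed under subsets, small, and has the countable
chain condition. -/
structure IsFam (q0 : PP K W) (φ : Finset K → Set (PP K W)) : Prop where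
  down : ∀ F, Down (φ F)
  le : ∀ F, ∀ u ∈ φ F, u ≤ q0
  her : ∀ F F' : Finset K, F ⊆ F' → φ F' ⊆ φ F
  small : #{F : Finset K | (φ F).Nonempty} < #K
  ccc : ∀ A : Finset K → Set (PP K W), (∀ F, Down (A F)) → (∀ F, A F ⊆ φ F) →
    (∀ F F' : Finset K, F ≠ F' → ∀ u ∈ A F, u ∈ A F' → ∀ G, F ⊆ G → F' ⊆ G → u ∉ φ G) →
    ∀ q ≤ q0, ∃ q' ≤ q, ∃ Z : Set (Finset K), Z.Countable ∧ ∀ F ∉ Z, ∀ u ≤ q', u ∉ A F

/-- `r` is the restriction of `w` to the coordinates of stages before `α` -/
def IsRlt (α : W) (w r : PP K W) : Prop := r.1 = restr (Slt α) w.1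

open Classical in
/-- `c` is a coordinate of stage at least `β` for the family `φ` -/
structure IsCrd (β : W) (q0 : PP K W) (φ : Finset K → Set (PP K W)) (c : Crd K W) : Prop where
  mem : c ∈ (Sall : Set (Crd K W))
  st : β ≤ c.st
  ff : fib q0.1 c = ∅
  fam : ∀ u : PP K W, ∀ x, (c, x) ∈ u.1.top → u ∈ φ (fib u.1 c)
  add : ∀ (u w : PP K W) (x : K), w ≤ u → w ∈ φ (insert x (fib u.1 c)) →
    ∃ u' : PP K W, u' ≤ u ∧ fib u'.1 c = insert x (fib u.1 c) ∧ (c, x) ∈ u'.1.top ∧
      ∀ r : PP K W, IsRlt c.st w r → u' ≤ r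

/-- The traces of a model: tokens, an ordinal, elements of `L`, names for subsets of `L`. -/
structure Trace (K W L : Type) [LinearOrder K] [Cod K] [LinearOrder W] [WellFoundedLT W] where
  M : Set (Tok K W)
  α : K
  mL : Set L
  mN : Set (L → Set (PP K W))

variable {L : Type}

/-- elementarity of the traces -/
structure Trace.Ok (t : Trace K W L) : Prop where
  ini : ∀ k : K, Sum.inl k ∈ t.M ↔ k < t.α
  tr : Tr t.α
  crd : ∀ c ∈ (Sall : Set (Crd K W)), Sum.inr c ∈ t.M → ∀ F, ∀ s ∈ c.nm F, InTok t.M s ∧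
    ∀ x ∈ F, x < t.α
  nam : ∀ y ∈ t.mN, ∀ l ∈ t.mL, ∀ m : PP K W, InTok t.M m.1 → m ∉ meets (y l) →
    ∃ m' ≤ m, InTok t.M m'.1 ∧ ∀ u ≤ m', u ∉ meets (y l)

open Classical in
/-- the trace of a condition -/
noncomputable def trc (t : Trace K W L) (r : Pre K W) : Pre K W :=
  ⟨r.base.below t.α, r.top.filter fun a => Sum.inr a.1 ∈ t.M⟩

/-- `s` is compatible with the condition `m` in the model: `s` contains `α` and the part of `s`
below `α` is in `m` -/
def Comp (t : Trace K W L) (m : PP K W) (s : C0 K) : Prop :=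
  t.α ∈ s.A ∧ m.1.base ≤ s.below t.α

/-- the conditions in the model -/
def Trace.In (t : Trace K W L) (m : PP K W) : Prop := InTok t.M m.1

/-- `m` and `s` force that it is possible that `d ∩ a = y ∩ a` -/
def Psi (t : Trace K W L) (p : PP K W) (d : L → Set (PP K W)) (m : PP K W) (s : C0 K)
    (a : Set L) (y : L → Set (PP K W)) : Prop :=
  ∀ m' ≤ m, t.In m' → ∀ s' ≤ s, Comp t m' s' →
    ∃ q' : PP K W, q' ≤ p ∧ q' ≤ m' ∧ q'.1.base ≤ s' ∧ EqOn q' a d y

/-- `q` forces that `d` is approximated by the model -/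
def Trace.Approx (t : Trace K W L) (q : PP K W) (d : L → Set (PP K W)) : Prop :=
  ∀ a : Set L, a.Countable → a ⊆ t.mL → ∀ q' ≤ q, ∃ q'' ≤ q', ∃ y ∈ t.mN, EqOn q'' a d y

/-- the model guesses -/
def Trace.Guess (t : Trace K W L) : Prop :=
  ∀ (q : PP K W) (d : L → Set (PP K W)), t.Approx q d → ∀ q' ≤ q, ∃ q'' ≤ q', ∃ y ∈ t.mN,
    EqOn q'' t.mL d y

/-- the nodes of the chain at `τ`: `u` forces that `N` belongs to the chain -/
def CT (τ : K) (N : Set K) : Set (PP K W) :=
  {u | ∃ Q ∈ u.1.base.Nd, τ ∈ Q ∧ N = Q ∩ Iio τ}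

end

/-! ### The cardinal -/

/-- the ordinals below `κ` -/
abbrev Kp (κ : Cardinal.{0}) : Type := κ.ord.ToType

/-- the stages: the ordinals below `κ⁺` -/
abbrev Wp (κ : Cardinal.{0}) : Type := (Order.succ κ).ord.ToType

/-- the objects over which the models are taken -/
abbrev Uni (K W L : Type) [LinearOrder K] [Cod K] [LinearOrder W] [WellFoundedLT W] : Type :=
  Tok K W ⊕ PP K W ⊕ L ⊕ Set L ⊕ (L → Set (PP K W))

section
variable {K W L : Type} [LinearOrder K] [WellFoundedLT K] [Cod K] [LinearOrder W] [WellFoundedLT W]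

open Classical in
/-- the trace of a set of objects -/
noncomputable def trU [Nonempty K] (X : Set (Uni K W L)) : Trace K W L where
  M := {x | Sum.inl x ∈ X}
  α := Classical.epsilon fun α : K => ∀ k : K, Sum.inl (Sum.inl k) ∈ X ↔ k < α
  mL := {l | Sum.inr (Sum.inr (Sum.inl l)) ∈ X}
  mN := {y | Sum.inr (Sum.inr (Sum.inr (Sum.inr y))) ∈ X}

end

end Pool.Agent.H915
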