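import Pool.Agent.H915.Stmts3

/-!
# The family given by a model
-/

set_option autoImplicit false

namespace Pool.Agent.H915.Fa

open Cardinal Set Pool.Agent.Helper669.Forcing

open Pool.Agent.W910.LC (Supercompact)
open Pool.Agent.W873.Tp (NormalFine)

/-- closure under a function of finitely many arguments -/
theorem closedFin {κ : Cardinal.{0}} {X : Type} {U : Ultrafilter (Set X)}
    (h : NormalFine κ X U) : ∀ (n : ℕ) (Q : (Fin n → X) → Set X → Prop),
    (∀ s, ∀ᶠ x in (U : Filter (Set X)), Q s x) →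
    ∀ᶠ x in (U : Filter (Set X)), ∀ s : Fin n → X, (∀ k, s k ∈ x) → Q s x := by
  intro n
  induction n with
  | zero =>
    intro Q hQ
    filter_upwards [hQ Fin.elim0] with x hx s _
    rw [show s = Fin.elim0 from funext fun k => k.elim0]
    exact hx
  | succ n ih =>
    intro Q hQ
    have h1 : ∀ a : X, ∀ᶠ x in (U : Filter (Set X)), ∀ s : Fin n → X, (∀ k, s k ∈ x) →
        Q (Fin.cons a s : Fin (n + 1) → X) x := fun a =>
      ih (fun s x => Q (Fin.cons a s : Fin (n + 1) → X) x) fun s => hQ _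
    filter_upwards [h.diag h1] with x hx s hs
    have h2 := hx (s 0) (hs 0) (fun k => s k.succ) fun k => hs k.succ
    have h3 : (Fin.cons (s 0) (fun k : Fin n => s k.succ) : Fin (n + 1) → X) = s :=
      Fin.cons_self_tail s
    rw [h3] at h2
    exact h2

theorem down_fiff {P : Type} [Preorder P] (φ ψ : Set P) : Down (fiff φ ψ) :=
  down_fand (down_fimp _ _) (down_fimp _ _)

theorem down_SEq {P : Type} [Preorder P] {L : Type} (x y : L → Set P) : Down (SEq x y) :=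
  down_fall fun _ => down_fiff _ _

theorem sing_unique {P : Type} [Preorder P] {L : Type} {y : L → Set P} {l l' : L} {r : P}
    (h : r ∈ SEq y (sing l)) (h' : r ∈ SEq y (sing l')) : l = l' := by
  obtain ⟨r1, hr1, h1⟩ := mem_fimp.1 (h l).2 r le_rfl (meets_of_mem (show r ∈ sing l l from rfl))
  obtain ⟨r2, hr2, h2⟩ := mem_fimp.1 (h' l).1 r1 hr1 h1
  obtain ⟨_, _, s, hs, _⟩ := h2 r2 le_rfl
  exact hs

theorem card_sing {κ : Cardinal.{0}} {P : Type} [Preorder P] (hk : KCC κ P) {L : Type}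
    (y : L → Set P) : #{l : L // ∃ u, u ∈ SEq y (sing l)} < κ := by
  choose u hu using fun l : {l : L // ∃ u, u ∈ SEq y (sing l)} => l.2
  have hinj : Function.Injective u := by
    intro l l' hl
    refine Subtype.ext (sing_unique (hu l) ?_)
    rw [hl]
    exact hu l'
  refine (mk_range_eq u hinj).symm.trans_lt (hk (range u) ?_)
  rintro _ ⟨l, rfl⟩ _ ⟨l', rfl⟩ hne ⟨r, h1, h2⟩
  apply hne
  have : l.1 = l'.1 := sing_unique (down_SEq _ _ _ (hu l) _ h1) (down_SEq _ _ _ (hu l') _ h2)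
  rw [Subtype.ext this]

/-- the name of the `j`-th set -/
def Yn {P : Type} [Preorder P] {L : Type} {mN : Set (L → Set P)} (g : Om1 → mN → Set P)
    (j : Om1) (l : L) : Set P := {u | ∃ z : mN, u ∈ meets (g j z) ∧ u ∈ meets (z.1 l)}

theorem Yn_eq {P : Type} [Preorder P] {L : Type} {mN : Set (L → Set P)} {g : Om1 → mN → Set P}
    {j : Om1} {u : P} (hf : u ∈ IsFun g) {z : mN} (hz : u ∈ meets (g j z)) :
    u ∈ SEq (Yn g j) z.1 := by
  intro l
  constructor
  · rw [mem_fimp]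
    intro q hq h
    obtain ⟨r, hr, s, ⟨z', h1, h2⟩, hrs⟩ := h q le_rfl
    have h3 : z' = z := IsFun.unique (down_IsFun _ _ hf _ (hr.trans hq))
      (down_meets _ _ h1 _ hrs) (down_meets _ _ hz _ (hr.trans hq))
    refine ⟨r, hr, ?_⟩
    rw [← h3]
    exact down_meets _ _ h2 _ hrs
  · rw [mem_fimp]
    intro q hq h
    exact ⟨q, le_rfl, meets_of_mem ⟨z, down_meets _ _ hz _ hq, h⟩⟩

theorem Yn_onto {P : Type} [Preorder P] {L : Type} {mN : Set (L → Set P)}
    {g : Om1 → mN → Set P} (hg : ∀ u, u ∈ IsFun g ∧ u ∈ IsOnto g) :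
    ∀ y ∈ mN, ∀ u, ∃ u' ≤ u, ∃ j, u' ∈ SEq (Yn g j) y := by
  intro y hy u
  have h1 := mem_fall.1 (hg u).2 ⟨y, hy⟩
  obtain ⟨u', hu', j, hj⟩ := mem_fex.1 h1 u le_rfl
  have h2 := Yn_eq (hg u').1 hj
  exact ⟨u', hu', j, h2⟩

theorem Yn_total {P : Type} [Preorder P] {L : Type} {mN : Set (L → Set P)}
    {g : Om1 → mN → Set P} (hg : ∀ u, u ∈ IsFun g ∧ u ∈ IsOnto g) :
    ∀ j u, ∃ u' ≤ u, ∃ y ∈ mN, u' ∈ SEq (Yn g j) y := by
  intro j u
  obtain ⟨u', hu', z, hz⟩ := IsFun.total (hg u).1 j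
  exact ⟨u', hu', z.1, z.2, Yn_eq (hg u').1 hz⟩

/-- a transitive node with many predecessors -/
theorem exists_tr {κ : Cardinal.{0}} [Cod (Kp κ)] (h : ∀ k : Kp κ, ∃ α, k < α ∧ Tr α)
    {μ : Cardinal.{0}} (hμ : μ < κ) : ∃ τ : Kp κ, Tr τ ∧ μ ≤ #(Iio τ) := by
  have h1 : μ.ord < Ordinal.type (α := Kp κ) (· < ·) := by
    rw [Ordinal.type_toType]
    exact ord_lt_ord.2 hμ
  obtain ⟨k, hk⟩ := Ordinal.typein_surj (α := Kp κ) (· < ·) h1
  obtain ⟨α, hα, htr⟩ := h k
  refine ⟨α, htr, ?_⟩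
  have h2 : μ = #(Iio k) := by
    have := congrArg Ordinal.card hk
    rw [card_ord] at this
    rw [← this]
    rfl
  rw [h2]
  exact mk_le_mk_of_subset (Iio_subset_Iio hα.le)

theorem family (h1 : S_guess) (h2 : S_ok) (h3 : S_tr) (h4 : S_kcc) (h5 : S_coll) (h6 : S_spec) (h7 : S_isTree) (h8 : S_ind) :
    S_family := by
  classical
  intro κ _ hκ L F q0
  have hin := hκ.1
  have hal : ℵ₀ < κ := hin.aleph0_lt
  have hne : Nonempty (Kp κ) := by
    rw [← mk_ne_zero_iff, mk_ord_toType]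
    exact (aleph0_pos.trans hal).ne'
  obtain ⟨U, hU1, hU2, hU3, hU4⟩ := hκ.2 (Uni (Kp κ) (Wp κ) L)
  have hU : NormalFine κ _ U := by
    refine ⟨hU1, ?_, hU3, hU4⟩
    intro ι A hι hA
    have := hU2 ι (fun i => {x | A i x}) hι hA
    filter_upwards [this] with x hx
    exact mem_iInter.1 hx
  have hom : #(Om1 × ℕ) < κ := by
    have ha1 : ℵ₁ < κ := by
      refine lt_of_le_of_lt ?_ (hin.isStrongLimit.isStrongPrelimit hal)
      rw [← succ_aleph0]
      exact Order.succ_le_of_lt (cantor ℵ₀)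
    rw [mk_prod, lift_id, lift_id]
    refine mul_lt_of_lt hal.le ?_ ?_
    · rw [mk_ord_toType]
      exact ha1
    · simpa using hal
  -- closure under the functions
  have hF : ∀ᶠ X in (U : Filter (Set (Uni (Kp κ) (Wp κ) L))), ∀ p : Om1 × ℕ,
      ∀ s : Fin p.2 → Uni (Kp κ) (Wp κ) L, (∀ k, s k ∈ X) →
        ∀ s' : Fin p.2 → L → Set (PP (Kp κ) (Wp κ)),
          (∀ k, s k = Sum.inr (Sum.inr (Sum.inr (Sum.inr (s' k))))) →
            Sum.inr (Sum.inr (Sum.inr (Sum.inr (F p.1 p.2 s')))) ∈ X := by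
    refine hU.complete _ _ hom fun p => closedFin hU _ _ fun s => ?_
    by_cases hs : ∃ s' : Fin p.2 → L → Set (PP (Kp κ) (Wp κ)),
        ∀ k, s k = Sum.inr (Sum.inr (Sum.inr (Sum.inr (s' k))))
    · obtain ⟨s0, hs0⟩ := hs
      filter_upwards [hU.fine (Sum.inr (Sum.inr (Sum.inr (Sum.inr (F p.1 p.2 s0)))))] with X hX s' hs'
      have : s' = s0 := by
        funext k
        have := (hs' k).symm.trans (hs0 k)
        simpa using this
      rw [this]
      exact hX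
    · filter_upwards with X s' hs'
      exact absurd ⟨s', hs'⟩ hs
  -- the names of the sets in the model
  have hset : ∀ᶠ X in (U : Filter (Set (Uni (Kp κ) (Wp κ) L))), ∀ z ∈ X, ∀ a : Set L,
      z = Sum.inr (Sum.inr (Sum.inr (Sum.inl a))) →
        Sum.inr (Sum.inr (Sum.inr (Sum.inr (fun l : L => {_u | l ∈ a})))) ∈ X := by
    refine hU.diag fun z => ?_
    by_cases hz : ∃ a : Set L, z = Sum.inr (Sum.inr (Sum.inr (Sum.inl a)))
    · obtain ⟨a, rfl⟩ := hz
      filter_upwards [hU.fine (Sum.inr (Sum.inr (Sum.inr (Sum.inr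
        (fun l : L => {_u : PP (Kp κ) (Wp κ) | l ∈ a})))))] with X hX a' ha'
      have : a' = a := by
        simpa using ha'.symm
      rw [this]
      exact hX
    · filter_upwards with X a ha
      exact absurd ⟨a, ha⟩ hz
  -- singletons
  have hsing : ∀ᶠ X in (U : Filter (Set (Uni (Kp κ) (Wp κ) L))), ∀ z ∈ X,
      ∀ y : L → Set (PP (Kp κ) (Wp κ)), z = Sum.inr (Sum.inr (Sum.inr (Sum.inr y))) →
        ∀ l : {l : L // ∃ u, u ∈ SEq y (sing l)}, Sum.inr (Sum.inr (Sum.inl l.1)) ∈ X := by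
    refine hU.diag fun z => ?_
    by_cases hz : ∃ y : L → Set (PP (Kp κ) (Wp κ)), z = Sum.inr (Sum.inr (Sum.inr (Sum.inr y)))
    · obtain ⟨y, rfl⟩ := hz
      filter_upwards [hU.complete {l : L // ∃ u, u ∈ SEq y (sing l)}
        (fun l X => Sum.inr (Sum.inr (Sum.inl l.1)) ∈ X) (card_sing (h4 κ hκ) y)
        fun l => hU.fine _] with X hX y' hy'
      have : y' = y := by
        simpa using hy'.symm
      rw [this]
      exact hX
    · filter_upwards with X y hy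
      exact absurd ⟨y, hy⟩ hz
  obtain ⟨X, hXs, hXg, ⟨hXo, -, hXc⟩, hXF, hXset, hXsing⟩ :=
    (hU.small.and ((h1 κ hκ L U hU).and ((h2 κ hκ L U hU).and
      (hF.and (hset.and hsing))))).exists
  have hctb : ∀ a : Set L, a.Countable → a ⊆ (trU X).mL →
      (fun l : L => {_u : PP (Kp κ) (Wp κ) | l ∈ a}) ∈ (trU X).mN := by
    intro a ha hsub
    exact hXset _ (hXc a ha hsub) a rfl
  have hNne : Nonempty (trU X).mN := ⟨⟨_, hctb ∅ countable_empty (empty_subset _)⟩⟩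
  -- the enumeration
  let E : Set (L ⊕ (L → Set (PP (Kp κ) (Wp κ)))) :=
    {z | (∀ l, z = Sum.inl l → l ∈ (trU X).mL) ∧ ∀ y, z = Sum.inr y → y ∈ (trU X).mN}
  have hEne : Nonempty E := ⟨⟨Sum.inr hNne.some.1, by simp, by
    intro y hy
    rw [← Sum.inr.inj hy]
    exact hNne.some.2⟩⟩
  have hEc : #E < κ := by
    refine lt_of_le_of_lt ?_ hXs
    refine mk_le_of_injective (f := fun z : E => (⟨Sum.elim
      (fun l => Sum.inr (Sum.inr (Sum.inl l)))
      (fun y => Sum.inr (Sum.inr (Sum.inr (Sum.inr y)))) z.1, ?_⟩ : X)) ?_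
    · rcases hz : z.1 with l | y
      · exact z.2.1 l hz
      · exact z.2.2 y hz
    · intro ⟨z, hz⟩ ⟨z', hz'⟩ h
      have h' := congrArg Subtype.val h
      refine Subtype.ext ?_
      rcases z with l | y <;> rcases z' with l' | y'
      · exact congrArg Sum.inl (Sum.inl.inj (Sum.inr.inj (Sum.inr.inj h')))
      · exact absurd (Sum.inr.inj (Sum.inr.inj h')) Sum.inl_ne_inr
      · exact absurd (Sum.inr.inj (Sum.inr.inj h')) Sum.inr_ne_inl
      · exact congrArg Sum.inr (Sum.inr.inj (Sum.inr.inj (Sum.inr.inj (Sum.inr.inj h'))))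
  obtain ⟨τ, hτ, hτc⟩ := exists_tr (h3 κ hκ) hEc
  obtain ⟨f, hf⟩ : ∃ f : Iio τ → E, Function.Surjective f := by
    obtain ⟨e⟩ := hτc
    exact ⟨Function.invFun e, Function.invFun_surjective e.injective⟩
  let D : Dat (Kp κ) (Wp κ) L :=
    ⟨trU X, τ, fun k => if hk : k < τ then (f ⟨k, hk⟩).1 else hEne.some.1⟩
  have hDh : ∀ k (hk : k < τ), D.h k = (f ⟨k, hk⟩).1 := fun k hk => dif_pos hk
  have hD : D.Ok := by
    refine ⟨hτ, ?_, ?_, ?_, ?_, hXg⟩
    · intro l hl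
      obtain ⟨k, hk⟩ := hf ⟨Sum.inl l, fun l' hl' => (Sum.inl.inj hl') ▸ hl, by simp⟩
      exact ⟨k.1, k.2, (hDh k.1 k.2).trans (congrArg Subtype.val hk)⟩
    · intro y hy
      obtain ⟨k, hk⟩ := hf ⟨Sum.inr y, by simp, fun y' hy' => (Sum.inr.inj hy') ▸ hy⟩
      exact ⟨k.1, k.2, (hDh k.1 k.2).trans (congrArg Subtype.val hk)⟩
    · intro k hk l hl
      rw [hDh k hk] at hl
      exact (f ⟨k, hk⟩).2.1 l hl
    · intro k hk y hy
      rw [hDh k hk] at hy
      exact (f ⟨k, hk⟩).2.2 y hy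
  have hT : #D.T < κ := by
    have hle : #D.T ≤ #(Set (Iio τ) × Iio τ) := by
      refine mk_le_of_injective (f := fun x : D.T =>
        (({k | k.1 ∈ x.1.1}, ⟨x.1.2, x.2.2.2⟩) : Set (Iio τ) × Iio τ)) ?_
      rintro ⟨⟨s, k⟩, h⟩ ⟨⟨s', k'⟩, h'⟩ heq
      have e1 := congrArg Prod.fst heq
      have e2 := congrArg Subtype.val (congrArg Prod.snd heq)
      simp only at e1
      refine Subtype.ext (Prod.ext ?_ e2)
      ext x
      constructor
      · intro hx
        have : (⟨x, h.2.1 hx⟩ : Iio τ) ∈ {k : Iio τ | k.1 ∈ s} := hx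
        rw [e1] at this
        exact this
      · intro hx
        have : (⟨x, h'.2.1 hx⟩ : Iio τ) ∈ {k : Iio τ | k.1 ∈ s'} := hx
        rw [← e1] at this
        exact this
    have hτκ : #(Iio τ) < κ := by
      have := mk_Iio_lt τ (by rw [mk_ord_toType, Ordinal.type_toType])
      rwa [mk_ord_toType] at this
    refine hle.trans_lt ?_
    rw [mk_prod, lift_id, lift_id, mk_set]
    exact mul_lt_of_lt hal.le (hin.isStrongLimit.isStrongPrelimit hτκ) hτκ
  have htree := h7 (Kp κ) (Wp κ) L D hD q0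
  obtain ⟨σ, hσ1, hσ2, hσ3⟩ := h6 κ hκ D.T q0 D.A D.lt hT htree
  have hind := h8 (Kp κ) (Wp κ) L D hD q0 σ hσ1 hσ2 hσ3
  -- the family
  have hNc : #((trU X).mN) < κ := by
    refine lt_of_le_of_lt ?_ hXs
    refine mk_le_of_injective (f := fun y : (trU X).mN =>
      (⟨Sum.inr (Sum.inr (Sum.inr (Sum.inr y.1))), y.2⟩ : X)) ?_
    intro ⟨y, hy⟩ ⟨y', hy'⟩ h
    exact Subtype.ext (Sum.inr.inj (Sum.inr.inj (Sum.inr.inj (Sum.inr.inj
      (congrArg Subtype.val h)))))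
  obtain ⟨g, hg⟩ := h5 κ hκ (trU X).mN hNne hNc
  refine ⟨(trU X).mL, (trU X).mN, Yn g, Yn_onto hg, Yn_total hg, ?_, ?_, hctb, hind⟩
  · intro i n s hs
    exact hXF (i, n) (fun k => Sum.inr (Sum.inr (Sum.inr (Sum.inr (s k))))) hs s fun k => rfl
  · intro y hy l u hu
    exact hXsing _ hy y rfl ⟨l, u, hu⟩

end Pool.Agent.H915.Fa
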