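import Pool.Agent.H915.Stmts3

/-!
# The guessing theorem
-/

set_option autoImplicit false

namespace Pool.Agent.H915.Gu

open Cardinal Set Pool.Agent.Helper669.Forcing


open Pool.Agent.W910.LC (Supercompact)
open Pool.Agent.W873.Tp (NormalFine)

theorem guess (h1 : S_setup) (h2 : S_tt) (h3 : S_ttst) (h4 : S_T5) (h5 : S_branch) (h6 : S_kcc)
    (h7 : ∀ (K W : Type) [LinearOrder K] [WellFoundedLT K] [Cod K] [LinearOrder W] [WellFoundedLT W], S_cov K W) : S_guess := by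
  intro κ _ _ hκ L U hU
  by_contra hcon
  obtain ⟨p, d, s, m1, hS, hno⟩ := h1 κ hκ L U hU hcon
  obtain ⟨t1, t2, t3, t4, t5, -, -⟩ := h2 κ hκ L U p d s m1 hS
  have hreg : κ.IsRegular := hκ.1.isRegular
  have hal : ℵ₁ < κ := by
    have h : (2 : Cardinal.{0}) ^ ℵ₀ < κ := hκ.1.isStrongLimit.two_power_lt hκ.1.aleph0_lt
    refine lt_of_le_of_lt ?_ h
    rw [two_power_aleph0]
    exact aleph_one_le_continuum
  obtain ⟨m3, hm3, B, hB⟩ := h5 κ (PP (Kp κ) (Wp κ)) L (TT U p d s) m1 hreg hal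
    (h7 (Kp κ) (Wp κ)) (h6 κ hκ) t1 t2 t3 (fun D B m _ h => t4 D B m h) t5
    (h4 κ hκ L U p d s m1 hS)
  have hPsi := (h3 κ hκ L U p d s m1 hS B m3 hm3).2 (fun a ha => hB a
    (lt_of_le_of_lt ha.le_aleph0 hκ.1.aleph0_lt))
  have hf1 := hU.fine (Sum.inr (Sum.inl m3))
  have hf2 := hU.fine (Sum.inr (Sum.inr (Sum.inr (Sum.inr B))))
  obtain ⟨X, hX1, hX2, hX3, hX4, hX5, hX6⟩ :=
    (hno.and (hPsi.and (hf1.and (hf2.and (hS.mem.and hS.cmp))))).exists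
  have hIn : (trU X).In m3 := (hX5 m3).1 hX3
  have hcmp : Comp (trU X) m3 (s X) := by
    refine ⟨hX6.1, le_trans ?_ hX6.2⟩
    exact hm3.1
  obtain ⟨q', hq1, -, -, hq4⟩ := hX2 m3 le_rfl hIn (s X) le_rfl hcmp
  have hB' : B ∈ (trU X).mN := hX4
  apply hX1 q' hq1 B hB'
  intro l hl q'' hq''
  exact hq4 l hl q'' hq''

end Pool.Agent.H915.Gu
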