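import Pool.Agent.H915.Stmts3

/-!
# The principle in the extension
-/

set_option autoImplicit false

namespace Pool.Agent.H915.Ig

open Cardinal Set Pool.Agent.Helper669.Forcing


open Pool.Agent.W910.LC (Supercompact)
open Pool.Agent.W873.Tp (NormalFine)
open Pool.Agent.W905.HalfCohen (PosetName)

section General

variable {P : Type} [Preorder P] {L : Type}

theorem meets_reg {N : Set P} {p : P} (h : ∀ q ≤ p, ∃ r ≤ q, r ∈ meets N) : p ∈ meets N := by
  intro q hq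
  obtain ⟨r, hr, hr'⟩ := h q hq
  obtain ⟨r', hr1, s, hs, hle⟩ := hr' r le_rfl
  exact ⟨r', hr1.trans hr, s, hs, hle⟩

theorem mem_fimp_meets {A B : Set P} {u : P} :
    u ∈ fimp (meets A) (meets B) ↔ ∀ q ≤ u, q ∈ meets A → q ∈ meets B := by
  rw [mem_fimp]
  constructor
  · intro h q hq hA
    apply meets_reg
    intro q' hq'
    exact h q' (hq'.trans hq) (down_meets _ _ hA _ hq')
  · intro h q hq hA
    exact ⟨q, le_rfl, h q hq hA⟩

theorem mem_fiff_meets {A B : Set P} {u : P} :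
    u ∈ fiff (meets A) (meets B) ↔ ∀ q ≤ u, (q ∈ meets A ↔ q ∈ meets B) := by
  unfold fiff
  rw [mem_fand, mem_fimp_meets, mem_fimp_meets]
  constructor
  · rintro ⟨h1, h2⟩ q hq
    exact ⟨h1 q hq, h2 q hq⟩
  · intro h
    exact ⟨fun q hq => (h q hq).1, fun q hq => (h q hq).2⟩

theorem mem_SEq {x y : L → Set P} {u : P} :
    u ∈ SEq x y ↔ ∀ l, ∀ q ≤ u, (q ∈ meets (x l) ↔ q ∈ meets (y l)) := by
  unfold SEq
  rw [mem_fall]
  simp only [mem_fiff_meets]

theorem SEq_symm {x y : L → Set P} {u : P} (h : u ∈ SEq x y) : u ∈ SEq y x := by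
  rw [mem_SEq] at h ⊢
  exact fun l q hq => (h l q hq).symm

theorem SEq_trans {x y z : L → Set P} {u : P} (h : u ∈ SEq x y) (h' : u ∈ SEq y z) :
    u ∈ SEq x z := by
  rw [mem_SEq] at h h' ⊢
  exact fun l q hq => (h l q hq).trans (h' l q hq)

theorem down_SEq (x y : L → Set P) : Down (SEq x y) := by
  intro p hp q hq
  rw [mem_SEq] at hp ⊢
  exact fun l r hr => hp l r (hr.trans hq)

theorem meets_ground {h : Prop} {p : P} : p ∈ meets (fground (P := P) h) ↔ h := by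
  constructor
  · intro hp
    obtain ⟨_, _, s, hs, _⟩ := hp p le_rfl
    exact hs
  · intro hh
    exact meets_of_mem hh

theorem meets_inter {A B : Set P} {p : P} :
    p ∈ meets (fand (meets A) (meets B)) ↔ p ∈ meets A ∧ p ∈ meets B := by
  constructor
  · intro hp
    constructor
    · apply meets_reg
      intro q hq
      obtain ⟨r, hr, s, hs, hle⟩ := hp q hq
      exact ⟨r, hr, down_meets _ _ hs.1 _ hle⟩
    · apply meets_reg
      intro q hq
      obtain ⟨r, hr, s, hs, hle⟩ := hp q hq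
      exact ⟨r, hr, down_meets _ _ hs.2 _ hle⟩
  · rintro ⟨h1, h2⟩
    exact meets_of_mem ⟨h1, h2⟩

theorem fin_dense {n : ℕ} {Φ : Fin n → P → Prop} (hd : ∀ k p q, q ≤ p → Φ k p → Φ k q)
    {q1 : P} (h : ∀ k, ∀ r ≤ q1, ∃ r' ≤ r, Φ k r') : ∃ r ≤ q1, ∀ k, Φ k r := by
  have key : ∀ m : ℕ, ∃ r ≤ q1, ∀ k : Fin n, (k : ℕ) < m → Φ k r := by
    intro m
    induction m with
    | zero => exact ⟨q1, le_rfl, fun k hk => absurd hk (Nat.not_lt_zero _)⟩
    | succ m ih =>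
      obtain ⟨r, hr, hk⟩ := ih
      by_cases hm : m < n
      · obtain ⟨r', hr', h'⟩ := h ⟨m, hm⟩ r hr
        refine ⟨r', hr'.trans hr, fun k hkm => ?_⟩
        rcases Nat.lt_succ_iff_lt_or_eq.1 hkm with h1 | h1
        · exact hd _ _ _ hr' (hk k h1)
        · have : k = ⟨m, hm⟩ := Fin.ext h1
          rw [this]
          exact h'
      · refine ⟨r, hr, fun k _ => hk k ?_⟩
        have := k.2
        omega
  obtain ⟨r, hr, hk⟩ := key n
  exact ⟨r, hr, fun k => hk k k.2⟩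

variable {Q : PosetName P}

theorem le_fst {x : Q.Iter} {v : P} (hv : v ≤ x.fst) : (⟨v, x.snd⟩ : Q.Iter) ≤ x :=
  ⟨hv, Q.refl _ _⟩

theorem meets_lift {y : L → Set P} {l : L} {x : Q.Iter} :
    x ∈ meets (liftN (Q := Q) y l) ↔ x.fst ∈ meets (y l) := by
  constructor
  · intro h v hv
    obtain ⟨r, hr, s, hs, hle⟩ := h ⟨v, x.snd⟩ (le_fst hv)
    exact ⟨r.fst, hr.1, s.fst, hs, hle.1⟩
  · intro h z hz
    obtain ⟨r, hr, s, hs, hle⟩ := h z.fst hz.1
    exact ⟨⟨r, z.snd⟩, le_fst hr, ⟨s, z.snd⟩, hs, hle, Q.refl _ _⟩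

theorem lift_SEq {y z : L → Set P} {x : Q.Iter} :
    x ∈ SEq (liftN (Q := Q) y) (liftN z) ↔ x.fst ∈ SEq y z := by
  rw [mem_SEq, mem_SEq]
  constructor
  · intro h l v hv
    have := h l ⟨v, x.snd⟩ (le_fst hv)
    rw [meets_lift, meets_lift] at this
    exact this
  · intro h l q hq
    rw [meets_lift, meets_lift]
    exact h l q.fst hq.1

theorem lift_sing (l : L) : liftN (Q := Q) (sing (P := P) l) = sing (P := Q.Iter) l := rfl

end General

/-- the ground model set is countable in the extension -/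
theorem ctbl_of {P : Type} [Preorder P] {L : Type} {a : Set L} (ha : a.Countable)
    {x : L → Set P} {u : P} (hu : ∀ l, ∀ q ≤ u, q ∈ meets (x l) → l ∈ a) : u ∈ CtblN x := by
  obtain ⟨f, hf⟩ := Set.countable_iff_exists_injOn.1 ha
  refine mem_fex_of_mem (fun n l => fground (l ∈ a ∧ f l = n)) ?_ ?_
  · exact down_fand (down_fall fun _ => down_fall fun _ => down_fall fun _ => down_fimp _ _)
      (down_fall fun _ => down_fimp _ _)
  · constructor
    · intro n l l'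
      rw [mem_fimp]
      intro q _ hq
      have h1 := meets_ground.1 hq.1
      have h2 := meets_ground.1 hq.2
      exact ⟨q, le_rfl, hf h1.1 h2.1 (h1.2.trans h2.2.symm)⟩
    · intro l
      rw [mem_fimp]
      intro q hq hql
      refine ⟨q, le_rfl, ?_⟩
      exact mem_fex_of_mem (f l) (down_meets _) (meets_ground.2 ⟨hu l q hq hql, rfl⟩)

theorem igmp (h1 : S_family) : S_igmp := by
  intro κ _ hκ u L F
  rw [mem_fimp]
  intro q0 _ hext
  refine ⟨q0, le_rfl, ?_⟩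
  obtain ⟨mL, mN, Y, c1, c2, c3, c4, c5, c6⟩ := h1 κ hκ L F q0
  refine mem_fex_of_mem Y ?_ ⟨?_, ?_⟩
  · apply down_fand
    · exact down_fall fun _ => down_fall fun _ => down_fall fun _ => down_fimp _ _
    · intro p hp q hq Q p' hp'
      exact hp Q p' (hp'.trans hq)
  · -- closure under the functions
    intro i n s
    rw [mem_fimp]
    intro q1 hq1 hs
    obtain ⟨r, hr, hk⟩ : ∃ r ≤ q1, ∀ k : Fin n, ∃ y ∈ mN, r ∈ SEq (s k) y := by
      refine fin_dense (Φ := fun k r => ∃ y ∈ mN, r ∈ SEq (s k) y) ?_ ?_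
      · rintro k p q hq ⟨y, hy, h⟩
        exact ⟨y, hy, down_SEq _ _ _ h _ hq⟩
      · intro k r hr
        obtain ⟨r1, hr1, j, hj⟩ := mem_fex.1 (hs k) r hr
        obtain ⟨r2, hr2, y, hy, hyj⟩ := c2 j r1
        exact ⟨r2, hr2.trans hr1, y, hy, SEq_trans (down_SEq _ _ _ hj _ hr2) hyj⟩
    choose y hy hys using hk
    obtain ⟨r1, hr1, h2⟩ := mem_fimp.1 (hext i n s y) r (hr.trans hq1) hys
    obtain ⟨r2, hr2, j, hj⟩ := c1 _ (c3 i n y hy) r1
    refine ⟨r2, (hr2.trans hr1).trans hr, ?_⟩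
    exact mem_fex_of_mem j (down_SEq _ _) (SEq_trans (down_SEq _ _ _ h2 _ hr2) (SEq_symm hj))
  · -- indestructibility
    intro Q p' hp' hom x hx d
    rw [mem_fimp]
    intro x1 hx1 happ
    have hx1' : x1.fst ≤ p' := hx1.1.trans hx
    obtain ⟨x2, hx2, y, hy, hyd⟩ := c6 Q p' hp' hom x1 hx1' d (by
      intro a ha haL x' hx'
      obtain ⟨u', hu', j, hj⟩ := c1 _ (c5 a ha haL) x'.fst
      have hj' : (⟨u', x'.snd⟩ : Q.Iter) ∈ SEq (liftN (Q := Q) (Y j))
          (liftN fun l : L => {_u | l ∈ a}) := lift_SEq.2 hj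
      have hle : (⟨u', x'.snd⟩ : Q.Iter) ≤ x' := le_fst hu'
      have hmem : ∀ l, ∀ q ≤ (⟨u', x'.snd⟩ : Q.Iter),
          (q ∈ meets (liftN (Q := Q) (Y j) l) ↔ l ∈ a) := by
        intro l q hq
        rw [(mem_SEq.1 hj') l q hq]
        exact meets_ground (P := Q.Iter) (h := l ∈ a)
      have hc : (⟨u', x'.snd⟩ : Q.Iter) ∈ CtblN (liftN (Q := Q) (Y j)) :=
        ctbl_of ha fun l q hq h => (hmem l q hq).1 h
      obtain ⟨x3, hx3, h3⟩ := mem_fimp.1 (happ j) _ (hle.trans hx') hc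
      obtain ⟨x4, hx4, k, hk⟩ := mem_fex.1 h3 x3 le_rfl
      obtain ⟨u5, hu5, y, hy, hyk⟩ := c2 k x4.fst
      have hle5 : (⟨u5, x4.snd⟩ : Q.Iter) ≤ x4 := le_fst hu5
      have hyk' : (⟨u5, x4.snd⟩ : Q.Iter) ∈ SEq (liftN (Q := Q) (Y k)) (liftN y) :=
        lift_SEq.2 hyk
      refine ⟨⟨u5, x4.snd⟩, ((hle5.trans hx4).trans hx3).trans hle, y, hy, ?_⟩
      intro l hl q hq
      rw [← (mem_SEq.1 hyk') l q hq, ← (mem_SEq.1 hk) l q (hq.trans hle5)]
      unfold inter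
      rw [meets_inter, hmem l q (((hq.trans hle5).trans hx4).trans hx3)]
      exact ⟨fun h => ⟨h, hl⟩, fun h => h.1⟩) x1 le_rfl
    obtain ⟨u3, hu3, k, hk⟩ := c1 y hy x2.fst
    have hle3 : (⟨u3, x2.snd⟩ : Q.Iter) ≤ x2 := le_fst hu3
    have hk' : (⟨u3, x2.snd⟩ : Q.Iter) ∈ SEq (liftN (Q := Q) (Y k)) (liftN y) := lift_SEq.2 hk
    refine ⟨⟨u3, x2.snd⟩, hle3.trans hx2, ?_⟩
    refine mem_fex_of_mem k (down_fall fun _ => down_fimp _ _) ?_
    intro l
    rw [mem_fimp]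
    intro q hq hqs
    obtain ⟨q1, hq1, j, hj⟩ := mem_fex.1 hqs q le_rfl
    obtain ⟨u4, hu4, y', hy', hyj⟩ := c2 j q1.fst
    have hle4 : (⟨u4, q1.snd⟩ : Q.Iter) ≤ q1 := le_fst hu4
    have h5 : (⟨u4, q1.snd⟩ : Q.Iter) ∈ SEq (liftN (Q := Q) y') (liftN (sing l)) :=
      SEq_trans (SEq_symm (lift_SEq.2 hyj)) (down_SEq _ _ _ hj _ hle4)
    have hl : l ∈ mL := c4 y' hy' l u4 (lift_SEq.1 h5)
    refine ⟨q, le_rfl, ?_⟩
    rw [mem_fiff_meets]
    intro w hw
    rw [hyd l hl w ((hw.trans hq).trans hle3), (mem_SEq.1 hk') l w (hw.trans hq)]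

end Pool.Agent.H915.Ig
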