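import Pool.Agent.H915.Stmts3

/-!
# Indestructibility from a specialized tree
-/

set_option autoImplicit false

namespace Pool.Agent.H915.Ind

open Cardinal Set Pool.Agent.Helper669.Forcing
open Pool.Agent.W684.FM (OmegaOnePreserved)
open Pool.Agent.W905.HalfCohen (PosetName)

section lift

variable {P : Type} [Preorder P] {Q : PosetName P} {L : Type}

theorem mk_le (r : Q.Iter) {u : P} (h : u ≤ r.fst) : (⟨u, r.snd⟩ : Q.Iter) ≤ r :=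
  ⟨h, Q.refl _ _⟩

theorem meets_liftN (y : L → Set P) (l : L) (r : Q.Iter) :
    r ∈ meets (liftN (Q := Q) y l) ↔ r.fst ∈ meets (y l) := by
  constructor
  · intro h u hu
    obtain ⟨r', hr', s, hs, hrs⟩ := h ⟨u, r.snd⟩ (mk_le r hu)
    exact ⟨r'.fst, hr'.1, s.fst, hs, hrs.1⟩
  · intro h q hq
    obtain ⟨r', hr', s, hs, hrs⟩ := h q.fst hq.1
    exact ⟨⟨r', q.snd⟩, mk_le q hr', ⟨s, q.snd⟩, hs, ⟨hrs, Q.refl _ _⟩⟩

theorem eqOn_liftN (y y' : L → Set P) (a : Set L) (r : Q.Iter) :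
    EqOn r a (liftN (Q := Q) y) (liftN (Q := Q) y') ↔ EqOn r.fst a y y' := by
  constructor
  · intro h l hl u hu
    have := h l hl ⟨u, r.snd⟩ (mk_le r hu)
    rwa [meets_liftN, meets_liftN] at this
  · intro h l hl q hq
    rw [meets_liftN, meets_liftN]
    exact h l hl q.fst hq.1

end lift

section gen

variable {P : Type} [Preorder P] {L : Type}

theorem eqOn_mono {q q' : P} {a : Set L} {x y : L → Set P}
    (h : q' ≤ q) (he : EqOn q a x y) : EqOn q' a x y :=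
  fun l hl r hr => he l hl r (hr.trans h)

theorem eqOn_sub {q : P} {a b : Set L} {x y : L → Set P}
    (h : b ⊆ a) (he : EqOn q a x y) : EqOn q b x y :=
  fun l hl r hr => he l (h hl) r hr

theorem eqOn_symm {q : P} {a : Set L} {x y : L → Set P}
    (he : EqOn q a x y) : EqOn q a y x :=
  fun l hl r hr => (he l hl r hr).symm

theorem eqOn_trans {q : P} {a : Set L} {x y z : L → Set P}
    (he : EqOn q a x y) (he' : EqOn q a y z) : EqOn q a x z :=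
  fun l hl r hr => (he l hl r hr).trans (he' l hl r hr)

theorem not_meets {X : Set P} {u : P} (h : u ∉ meets X) :
    ∃ v ≤ u, ∀ w ≤ v, w ∉ meets X := by
  simp only [meets, Set.mem_ofPred_eq, not_forall] at h
  obtain ⟨v, hv, hn⟩ := h
  refine ⟨v, hv, fun w hw hm => hn ?_⟩
  obtain ⟨r, hr, s, hs, hrs⟩ := hm w le_rfl
  exact ⟨r, hr.trans hw, s, hs, hrs⟩

/-- `r` forces that `x` and `y` disagree at `l` -/
def Dis (r : P) (l : L) (x y : L → Set P) : Prop :=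
  ∀ s ≤ r, ¬ (s ∈ meets (x l) ↔ s ∈ meets (y l))

theorem dis_mono {r s : P} (h : s ≤ r) {l : L} {x y : L → Set P} (hd : Dis r l x y) :
    Dis s l x y := fun s' hs' => hd s' (hs'.trans h)

theorem exists_dis {r : P} {a : Set L} {x y : L → Set P} (h : ¬ EqOn r a x y) :
    ∃ l ∈ a, ∃ s ≤ r, Dis s l x y := by
  simp only [EqOn, not_forall] at h
  obtain ⟨l, hl, q, hq, hn⟩ := h
  by_cases h1 : q ∈ meets (x l)
  · have h2 : q ∉ meets (y l) := fun h2 => hn ⟨fun _ => h2, fun _ => h1⟩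
    obtain ⟨v, hv, hvn⟩ := not_meets h2
    refine ⟨l, hl, v, hv.trans hq, fun s hs hiff => hvn s hs (hiff.1 ?_)⟩
    exact down_meets _ _ h1 _ (hs.trans hv)
  · have h2 : q ∈ meets (y l) := by
      by_contra h2
      exact hn ⟨fun h => absurd h h1, fun h => absurd h h2⟩
    obtain ⟨v, hv, hvn⟩ := not_meets h1
    refine ⟨l, hl, v, hv.trans hq, fun s hs hiff => hvn s hs (hiff.2 ?_)⟩
    exact down_meets _ _ h2 _ (hs.trans hv)

end gen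

theorem om1_Iic_countable (δ : Om1) : (Iic δ).Countable := by
  have h : (Iio δ).Countable := by
    rw [Cardinal.countable_iff_lt_aleph_one]
    exact Cardinal.mk_Iio_toType_ord_lt δ
  rw [← Iio_insert]
  exact h.insert δ

section main

variable {K W L : Type} [LinearOrder K] [WellFoundedLT K] [Cod K] [LinearOrder W] [WellFoundedLT W]
variable (D : Dat K W L) {Q : PosetName (PP K W)} (d : L → Set Q.Iter)

theorem aN_mono {N N' : Set K} (h : N ⊆ N') : D.aN N ⊆ D.aN N' :=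
  fun _ ⟨k, hk, hkl⟩ => ⟨k, h hk, hkl⟩

/-- `r` forces that the index `ξ` represents the intersection of `d` with `aN N` -/
def RepI (r : Q.Iter) (N : Set K) (ξ : K) : Prop :=
  ∃ y, D.h ξ = Sum.inr y ∧ EqOn r (D.aN N) d (liftN y)

theorem repI_mono {r r' : Q.Iter} {N N' : Set K} {ξ : K} (hr : r' ≤ r) (hN : N' ⊆ N)
    (h : RepI D d r N ξ) : RepI D d r' N' ξ := by
  obtain ⟨y, hy, hyr⟩ := h
  exact ⟨y, hy, eqOn_mono hr (eqOn_sub (aN_mono D hN) hyr)⟩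

theorem rep_of_repI {r : Q.Iter} {N : Set K} {ξ ξ' : K} (h : RepI D d r N ξ)
    (h' : RepI D d r N ξ') : D.Rep r.fst N ξ ξ' := by
  obtain ⟨y, hy, hyr⟩ := h
  obtain ⟨y', hy', hyr'⟩ := h'
  exact ⟨y, y', hy, hy', (eqOn_liftN y y' _ r).1 (eqOn_trans (eqOn_symm hyr) hyr')⟩

theorem repI_of_rep {r : Q.Iter} {N : Set K} {ξ ξ' : K} (h : RepI D d r N ξ)
    (h' : D.Rep r.fst N ξ' ξ) : RepI D d r N ξ' := by
  obtain ⟨y, hy, hyr⟩ := h
  obtain ⟨z, y', hz, hy', hzy⟩ := h'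
  have : y = y' := by rw [hy] at hy'; exact Sum.inr.inj hy'
  subst this
  exact ⟨z, hz, eqOn_trans hyr (eqOn_symm ((eqOn_liftN z y _ r).2 hzy))⟩

theorem rep_mono {u u' : PP K W} {N : Set K} {ξ ξ' : K} (hu : u' ≤ u) (h : D.Rep u N ξ ξ') :
    D.Rep u' N ξ ξ' := by
  obtain ⟨y, y', hy, hy', he⟩ := h
  exact ⟨y, y', hy, hy', eqOn_mono hu he⟩

theorem rep_symm {u : PP K W} {N : Set K} {ξ ξ' : K} (h : D.Rep u N ξ ξ') :
    D.Rep u N ξ' ξ := by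
  obtain ⟨y, y', hy, hy', he⟩ := h
  exact ⟨y', y, hy', hy, eqOn_symm he⟩

theorem down_A (h1 : S_ct K W) (x : D.T) : Down (D.A x) := by
  rintro u ⟨a1, a2, a3, a4, a5⟩ v hv
  exact ⟨h1.1 _ _ u a1 v hv, a2, fun u' hu' => a3 u' (hu'.trans hv),
    fun u' hu' => a4 u' (hu'.trans hv), fun u' hu' => a5 u' (hu'.trans hv)⟩

/-- the canonicity clauses -/
def Can (u : PP K W) (N : Set K) (ξ : K) : Prop :=
  (∀ u' ≤ u, ∀ ξ', u' ∈ D.Lt ξ' ξ → ¬ D.Rep u' N ξ' ξ) ∧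
    (∀ u' ≤ u, ∀ ξ' < ξ, D.Rep u' N ξ' ξ → ∃ u'' ≤ u', u'' ∈ D.Lt ξ ξ')

/-- (1): canonical indices -/
theorem exists_can (h1 : S_ct K W) (h4 : S_dl K) (hD : D.Ok) {r : Q.Iter} {N : Set K} {ξ0 : K}
    (hξ0 : ξ0 < D.τ) (hrep : RepI D d r N ξ0) :
    ∃ r' ≤ r, ∃ ξ, RepI D d r' N ξ ∧ Can D r'.fst N ξ ∧ ∃ N1, ξ ∈ N1 ∧ r'.fst ∈ CT D.τ N1 := by
  classical
  -- minimal height
  let S : Set Om1 := {δ | ∃ r1 ≤ r, ∃ ξ1 N1, r1.fst ∈ CT D.τ N1 ∧ ξ1 ∈ N1 ∧ RepI D d r1 N ξ1 ∧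
    dl N1 = δ}
  have hS : S.Nonempty := by
    obtain ⟨v, hv, _, N1, hN1, hvN⟩ := h1.2.2.2 D.τ {ξ0} r.fst hD.tr (countable_singleton _)
      (by simpa using hξ0)
    exact ⟨dl N1, ⟨v, r.snd⟩, mk_le r hv, ξ0, N1, hvN, hN1 rfl,
      repI_mono D d (mk_le r hv) subset_rfl hrep, rfl⟩
  obtain ⟨δ, ⟨r1, hr1, ξ1, N1, hc1, hξ1, hrep1, hδ⟩, hmin⟩ :=
    (wellFounded_lt (α := Om1)).has_min S hS
  let X : Set K := {ξ | ξ ∈ N1 ∧ ∃ r2 ≤ r1, RepI D d r2 N ξ}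
  obtain ⟨ξ, ⟨hξN, r2, hr2, hrep2⟩, hminξ⟩ :=
    (wellFounded_lt (α := K)).has_min X ⟨ξ1, hξ1, r1, le_rfl, hrep1⟩
  have hc2 : r2.fst ∈ CT D.τ N1 := h1.1 _ _ _ hc1 _ hr2.1
  refine ⟨r2, hr2.trans hr1, ξ, hrep2, ⟨?_, ?_⟩, N1, hξN, hc2⟩
  · rintro u' hu' ξ' ⟨N2, hN2, hξ', hξn⟩ hR
    have hc3 : u' ∈ CT D.τ N1 := h1.1 _ _ _ hc2 _ hu'
    have hnode := (h1.2.1 D.τ N2 u' hD.tr hN2).1
    have hnode1 := (h1.2.1 D.τ N1 u' hD.tr hc3).1
    rcases h1.2.2.1 D.τ N1 N2 u' hD.tr hc3 hN2 with h | h | h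
    · exact hξn (h ▸ hξN)
    · exact hξn (hnode.sub N1 hnode1.ctbl h hξN)
    · have hlt : dl N2 < dl N1 := h4.2.1 N2 N1 hnode hnode1 h
      refine hmin (dl N2) ⟨⟨u', r2.snd⟩, (mk_le r2 hu').trans (hr2.trans hr1), ξ', N2, hN2, hξ',
        ?_, rfl⟩ (hδ ▸ hlt)
      exact repI_of_rep D d (repI_mono D d (mk_le r2 hu') subset_rfl hrep2) hR
  · intro u' hu' ξ' hξ' hR
    refine ⟨u', le_rfl, N1, h1.1 _ _ _ hc2 _ hu', hξN, fun hmem => ?_⟩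
    refine hminξ ξ' ⟨hmem, ⟨u', r2.snd⟩, (mk_le r2 hu').trans hr2, ?_⟩ hξ'
    exact repI_of_rep D d (repI_mono D d (mk_le r2 hu') subset_rfl hrep2) hR

/-- nodes on the branch of `d` -/
def J (r : Q.Iter) (x : D.T) : Prop := r.fst ∈ D.A x ∧ RepI D d r x.1.1 x.1.2

theorem J_mono (h1 : S_ct K W) {r r' : Q.Iter} {x : D.T} (hr : r' ≤ r) (h : J D d r x) :
    J D d r' x := ⟨down_A D h1 x _ h.1 _ hr.1, repI_mono D d hr subset_rfl h.2⟩

theorem can_unique {u : PP K W} {N : Set K} {ξ ξ' : K} (h : Can D u N ξ) (h' : Can D u N ξ')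
    (hR : D.Rep u N ξ' ξ) : ¬ ξ' < ξ := by
  intro hlt
  obtain ⟨u'', hu'', hL⟩ := h.2 u le_rfl ξ' hlt hR
  exact h'.1 u'' hu'' ξ hL (rep_symm D (rep_mono D hu'' hR))

theorem J_cmp (h1 : S_ct K W) (hD : D.Ok) {r : Q.Iter} {x y : D.T} (hx : J D d r x)
    (hy : J D d r y) : x = y ∨ r.fst ∈ D.lt x y ∨ r.fst ∈ D.lt y x := by
  have hcx := hx.1.1
  have hcy := hy.1.1
  rcases h1.2.2.1 D.τ _ _ r.fst hD.tr hcx hcy with h | h | h
  · left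
    have hy2 : RepI D d r x.1.1 y.1.2 := by rw [h]; exact hy.2
    have hcanx : Can D r.fst x.1.1 x.1.2 := ⟨hx.1.2.2.1, hx.1.2.2.2.1⟩
    have hcany : Can D r.fst x.1.1 y.1.2 := by rw [h]; exact ⟨hy.1.2.2.1, hy.1.2.2.2.1⟩
    have e1 := can_unique D hcanx hcany (rep_of_repI D d hy2 hx.2)
    have e2 := can_unique D hcany hcanx (rep_of_repI D d hx.2 hy2)
    exact Subtype.ext (Prod.ext h (le_antisymm (not_lt.1 e1) (not_lt.1 e2)))
  · right; left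
    have hsub : x.1.1 ⊆ y.1.1 :=
      (h1.2.1 D.τ _ _ hD.tr hcy).1.sub _ (h1.2.1 D.τ _ _ hD.tr hcx).1.ctbl h
    exact ⟨hcx, hcy, h, rep_of_repI D d hx.2 (repI_mono D d le_rfl hsub hy.2)⟩
  · right; right
    have hsub : y.1.1 ⊆ x.1.1 :=
      (h1.2.1 D.τ _ _ hD.tr hcx).1.sub _ (h1.2.1 D.τ _ _ hD.tr hcy).1.ctbl h
    exact ⟨hcy, hcx, h, rep_of_repI D d hy.2 (repI_mono D d le_rfl hsub hx.2)⟩

end main

theorem ind (h1 : ∀ (K W : Type) [LinearOrder K] [WellFoundedLT K] [Cod K] [LinearOrder W] [WellFoundedLT W], S_ct K W) (h2 : S_bl)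
    (h3 : ∀ (K : Type) [LinearOrder K] [WellFoundedLT K] [Cod K], S_irrefl K) (h4 : ∀ (K : Type) [LinearOrder K] [WellFoundedLT K] [Cod K], S_dl K) : S_ind := by
  intro K W L _ _ _ _ _ D hD q0 σ hσd hσt hσl Q p' hp' hpres x hx d happ x' hx'
  have ct := h1 K W
  have sdl := h4 K
  by_contra hcon
  push Not at hcon
  have hτ := hD.tr
  -- approximation by indices
  have approx : ∀ N : Set K, N.Countable → N ⊆ Iio D.τ → ∀ r ≤ x', ∃ r' ≤ r, ∃ ξ < D.τ,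
      RepI D d r' N ξ := by
    intro N hN hNτ r hr
    have hc : (D.aN N).Countable := by
      have : D.aN N ⊆ ((fun k => D.h k) '' N).preimage Sum.inl := by
        rintro l ⟨k, hk, hkl⟩
        exact ⟨k, hk, hkl⟩
      exact ((hN.image _).preimage_of_injOn Sum.inl_injective.injOn).mono this
    have hs : D.aN N ⊆ D.t.mL := by
      rintro l ⟨k, hk, hkl⟩
      exact hD.hL' k (hNτ hk) l hkl
    obtain ⟨r', hr', y, hy, he⟩ := happ _ hc hs r (hr.trans hx')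
    obtain ⟨ξ, hξ, hξy⟩ := hD.hN y hy
    exact ⟨r', hr', ξ, hξ, y, hξy, he⟩
  have hxq : ∀ r ≤ x', r.fst ≤ q0 := fun r hr => ((hr.trans hx').1.trans hx).trans hp'
  have hxp : ∀ r ≤ x', r ∈ OmegaOnePreserved Q.Iter := fun r hr =>
    hpres r ((hr.trans hx').1.trans hx)
  -- (2)
  have bound : ∃ r1 ≤ x', ∃ δ0 : Om1, ∀ r ≤ r1, ∀ t : D.T, J D d r t → dl t.1.1 ≤ δ0 := by
    obtain ⟨r1, hr1, δ0, hδ⟩ := h2 Q.Iter x' hxp
      (fun n δ => {r | (∃ t : D.T, J D d r t ∧ r.fst ∈ σ t n ∧ dl t.1.1 = δ) ∨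
        ∀ r' ≤ r, ∀ t : D.T, ¬ (J D d r' t ∧ r'.fst ∈ σ t n)})
      (by
        rintro n δ r (⟨t, hJ, hσ, hdl⟩ | h) s hs
        · exact Or.inl ⟨t, J_mono D d ct hs hJ, hσd t n _ hσ _ hs.1, hdl⟩
        · exact Or.inr fun r' hr' => h r' (hr'.trans hs))
      (by
        intro n r _
        by_cases h : ∃ r' ≤ r, ∃ t : D.T, J D d r' t ∧ r'.fst ∈ σ t n
        · obtain ⟨r', hr', t, hJ, hσ⟩ := h
          exact ⟨r', hr', dl t.1.1, Or.inl ⟨t, hJ, hσ, rfl⟩⟩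
        · push Not at h
          exact ⟨r, le_rfl, Classical.arbitrary Om1, Or.inr fun r' hr' t ht =>
            h r' hr' t ht.1 ht.2⟩)
    refine ⟨r1, hr1, δ0, fun r hr t hJ => ?_⟩
    obtain ⟨u', hu', n, hn⟩ := hσt t r.fst (hxq r (hr.trans hr1)) hJ.1
    have hr' : (⟨u', r.snd⟩ : Q.Iter) ≤ r := mk_le r hu'
    obtain ⟨r'', hr'', δ, hδle, h⟩ := hδ n ⟨u', r.snd⟩ (hr'.trans hr)
    have hJ'' : J D d r'' t := J_mono D d ct (hr''.trans hr') hJ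
    have hσ'' : r''.fst ∈ σ t n := hσd t n _ hn _ hr''.1
    rcases h with ⟨t', hJ', hσ', hdl⟩ | h
    · have hq : r''.fst ≤ q0 := hxq r'' (((hr''.trans hr').trans hr).trans hr1)
      rcases J_cmp D d ct hD hJ'' hJ' with e | e | e
      · rw [e, hdl]; exact hδle
      · exact absurd e (hσl t t' n _ hq hσ'' hσ')
      · exact absurd e (hσl t' t n _ hq hσ' hσ'')
    · exact absurd ⟨hJ'', hσ''⟩ (h r'' le_rfl t)
  obtain ⟨r1, hr1, δ0, hδ0⟩ := bound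
  -- (3)
  have high : ∀ δ : Om1, ∀ r : Q.Iter, ∃ r2 ≤ r, ∃ N, r2.fst ∈ CT D.τ N ∧ δ < dl N := by
    intro δ r
    obtain ⟨v, hv, _, N, hN, hvN⟩ := ct.2.2.2 D.τ (om '' Iic δ) r.fst hτ
      ((om1_Iic_countable δ).image _) (by rintro _ ⟨y, _, rfl⟩; exact hτ.1 y)
    refine ⟨⟨v, r.snd⟩, mk_le r hv, N, hvN, ?_⟩
    by_contra h
    push Not at h
    exact (sdl.1 N (ct.2.1 D.τ N v hτ hvN).1).1 (hN ⟨dl N, h, rfl⟩)
  obtain ⟨r2, hr2, Ns, hNs, hNsδ⟩ := high δ0 r1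
  have hNsn := ct.2.1 D.τ Ns _ hτ hNs
  obtain ⟨r3, hr3, ξs, hξs, hreps⟩ := approx Ns hNsn.1.ctbl hNsn.2 r2 (hr2.trans hr1)
  obtain ⟨v4, hv4, _, No, hNo, hv4N⟩ := ct.2.2.2 D.τ {ξs} r3.fst hτ (countable_singleton _)
    (by simpa using hξs)
  have hr4 : (⟨v4, r3.snd⟩ : Q.Iter) ≤ r3 := mk_le r3 hv4
  set r4 : Q.Iter := ⟨v4, r3.snd⟩ with hr4def
  have hNo4 : r4.fst ∈ CT D.τ No := hv4N
  have hξsNo : ξs ∈ No := hNo rfl
  have hr41 : r4 ≤ r1 := (hr4.trans hr3).trans hr2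
  have hr4x : r4 ≤ x' := hr41.trans hr1
  -- (4)
  have claim : ∀ (δ : Om1) (N : Set K) (r : Q.Iter), dl N = δ → r ≤ r4 → r.fst ∈ CT D.τ N →
      ∃ r' ≤ r, ∃ ξ ∈ No, RepI D d r' N ξ := by
    intro δ
    induction δ using WellFoundedLT.induction with
    | ind δ ih =>
      intro N r hdl hr hc
      have hNn := ct.2.1 D.τ N _ hτ hc
      have hrs : RepI D d r Ns ξs := repI_mono D d (hr.trans hr4) subset_rfl hreps
      have hcs : r.fst ∈ CT D.τ Ns := ct.1 _ _ _ hNs _ (hr.trans (hr4.trans hr3)).1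
      rcases ct.2.2.1 D.τ N Ns r.fst hτ hc hcs with h | h | h
      · exact ⟨r, le_rfl, ξs, hξsNo, h ▸ hrs⟩
      · exact ⟨r, le_rfl, ξs, hξsNo, repI_mono D d le_rfl (hNsn.1.sub N hNn.1.ctbl h) hrs⟩
      · have hgt : δ0 < dl N := hNsδ.trans (sdl.2.1 Ns N hNsn.1 hNn.1 h)
        obtain ⟨ra, hra, ξ0, hξ0, hrep0⟩ := approx N hNn.1.ctbl hNn.2 r (hr.trans hr4x)
        obtain ⟨rb, hrb, ξ, hrepξ, hcan, N1, hξN1, hcN1⟩ :=
          exists_can D d ct sdl hD hξ0 hrep0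
        have hcb : rb.fst ∈ CT D.τ N := ct.1 _ _ _ hc _ (hrb.trans hra).1
        have hξτ : ξ < D.τ := (ct.2.1 D.τ N1 _ hτ hcN1).2 hξN1
        have hbr4 : rb ≤ r4 := (hrb.trans hra).trans hr
        by_cases hjump : ∀ u' ≤ rb.fst, ∀ N' : Set K, N'.Countable → cd N' ∈ N →
            u' ∈ CT D.τ N' → ∃ u'' ≤ u', ∃ ξ', u'' ∈ D.Lt ξ' ξ ∧ D.Rep u'' N' ξ' ξ
        · exfalso
          have hJ : J D d rb ⟨(N, ξ), hNn.1.ctbl, hNn.2, hξτ⟩ := by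
            obtain ⟨y, hy, _⟩ := id hrepξ
            exact ⟨⟨hcb, ⟨y, hy⟩, hcan.1, hcan.2, hjump⟩, hrepξ⟩
          exact absurd (hδ0 rb (hbr4.trans hr41) _ hJ) (not_le.2 hgt)
        · push Not at hjump
          obtain ⟨u', hu', N', hN'c, hcdN', hcN', hno⟩ := hjump
          have hN'n := ct.2.1 D.τ N' _ hτ hcN'
          have hlt : dl N' < δ := hdl ▸ sdl.2.1 N' N hN'n.1 hNn.1 hcdN'
          have hrcb : (⟨u', rb.snd⟩ : Q.Iter) ≤ rb := mk_le rb hu'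
          obtain ⟨re, hre, ξ', hξ', hrep'⟩ := ih (dl N') hlt N' ⟨u', rb.snd⟩ rfl
            (hrcb.trans hbr4) hcN'
          have hrepN' : RepI D d re N' ξ :=
            repI_mono D d (hre.trans hrcb) (hNn.1.sub N' hN'c hcdN') hrepξ
          refine ⟨re, ((hre.trans hrcb).trans hrb).trans hra, ξ, ?_,
            repI_mono D d (hre.trans hrcb) subset_rfl hrepξ⟩
          by_contra hξNo
          refine hno re.fst hre.1 ξ' ⟨No, ?_, hξ', hξNo⟩ (rep_of_repI D d hrep' hrepN')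
          exact ct.1 _ _ _ hNo4 _ (hre.trans (hrcb.trans hbr4)).1
  -- (5)
  have hNon := ct.2.1 D.τ No _ hτ hNo4
  obtain ⟨e, he⟩ := hNon.1.ctbl.exists_eq_range ⟨ξs, hξsNo⟩
  obtain ⟨r5, hr5, δ1, hδ1⟩ := h2 Q.Iter r4 (fun r hr => hxp r (hr.trans hr4x))
    (fun n δ => {r | (∀ y, D.h (e n) ≠ Sum.inr y) ∨ ∃ l N k y, D.h (e n) = Sum.inr y ∧
      D.h k = Sum.inl l ∧ k ∈ N ∧ r.fst ∈ CT D.τ N ∧ dl N = δ ∧ Dis r l d (liftN y)})
    (by
      rintro n δ r (h | ⟨l, N, k, y, a1, a2, a3, a4, a5, a6⟩) s hs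
      · exact Or.inl h
      · exact Or.inr ⟨l, N, k, y, a1, a2, a3, ct.1 _ _ _ a4 _ hs.1, a5, dis_mono hs a6⟩)
    (by
      intro n r hr
      by_cases h : ∃ y, D.h (e n) = Sum.inr y
      · obtain ⟨y, hy⟩ := h
        have heNo : e n ∈ No := by rw [he]; exact mem_range_self n
        have hymN : y ∈ D.t.mN := hD.hN' (e n) (hNon.2 heNo) y hy
        obtain ⟨l, hl, s, hs, hdis⟩ := exists_dis (hcon r (hr.trans hr4x) y hymN)
        obtain ⟨k, hk, hkl⟩ := hD.hL l hl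
        obtain ⟨v, hv, _, N, hN, hvN⟩ := ct.2.2.2 D.τ {k} s.fst hτ (countable_singleton _)
          (by simpa using hk)
        exact ⟨⟨v, s.snd⟩, (mk_le s hv).trans hs, dl N, Or.inr ⟨l, N, k, y, hy, hkl, hN rfl,
          hvN, rfl, dis_mono (mk_le s hv) hdis⟩⟩
      · push Not at h
        exact ⟨r, le_rfl, Classical.arbitrary Om1, Or.inl h⟩)
  obtain ⟨r6, hr6, Nt, hNt, hNtδ⟩ := high δ1 r5
  obtain ⟨r7, hr7, ξ, hξNo, hrep7⟩ := claim _ Nt r6 rfl (hr6.trans hr5) hNt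
  obtain ⟨n, hn⟩ : ∃ n, e n = ξ := by
    have : ξ ∈ range e := he ▸ hξNo
    exact this
  obtain ⟨r8, hr8, δ, hδle, h8⟩ := hδ1 n r7 (hr7.trans hr6)
  obtain ⟨y, hy, hye⟩ := hrep7
  rcases h8 with h8 | ⟨l, N, k, y', a1, a2, a3, a4, a5, a6⟩
  · exact h8 y (hn ▸ hy)
  · have hyy : y' = y := by
      rw [hn, hy] at a1
      exact (Sum.inr.inj a1).symm
    subst hyy
    have hc8 : r8.fst ∈ CT D.τ Nt := ct.1 _ _ _ hNt _ (hr8.trans hr7).1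
    have hNn := ct.2.1 D.τ N _ hτ a4
    have hNtn := ct.2.1 D.τ Nt _ hτ hc8
    have hsub : N ⊆ Nt := by
      rcases ct.2.2.1 D.τ N Nt _ hτ a4 hc8 with h | h | h
      · exact h.subset
      · exact hNtn.1.sub N hNn.1.ctbl h
      · have := sdl.2.1 Nt N hNtn.1 hNn.1 h
        rw [a5] at this
        exact absurd (this.trans_le hδle) (not_lt.2 hNtδ.le)
    exact a6 r8 le_rfl (hye l ⟨k, hsub a3, a2⟩ r8 hr8)

end Pool.Agent.H915.Ind
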