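import Pool.Agent.H915.Stmts1
import Pool.Agent.W684.FM.Val

/-!
# The iteration: codes, valid conditions, amalgamation
-/

set_option autoImplicit false

namespace Pool.Agent.H915.It1

open Cardinal Set Pool.Agent.Helper669.Forcing

section Aux

variable {K W : Type} [LinearOrder K] [Cod K]

theorem mem_fib {p : Pre K W} {c : Crd K W} {x : K} : x ∈ fib p c ↔ (c, x) ∈ p.top := by
  classical
  simp only [fib, Finset.mem_image, Finset.mem_filter]
  constructor
  · rintro ⟨⟨c', x'⟩, ⟨h1, h2⟩, h3⟩
    simp only at h2 h3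
    subst h2 h3
    exact h1
  · intro h
    exact ⟨(c, x), ⟨h, rfl⟩, rfl⟩

theorem fib_congr {p q : Pre K W} {c : Crd K W} (h : ∀ x, (c, x) ∈ p.top ↔ (c, x) ∈ q.top) :
    fib p c = fib q c := by
  ext x
  rw [mem_fib, mem_fib, h]

theorem mem_restr {T : Set (Crd K W)} {p : Pre K W} {a : Crd K W × K} :
    a ∈ (restr T p).top ↔ a ∈ p.top ∧ a.1 ∈ T := by
  classical
  simp [restr]

theorem restr_base (T : Set (Crd K W)) (p : Pre K W) : (restr T p).base = p.base := rfl

theorem exists_code [Nonempty K] (α : W) (N : Finset K → Set (Pre K W))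
    (hN : ∀ F, #(N F) ≤ #K) : ∃ c : Crd K W, c.st = α ∧ c.nm = N := by
  classical
  have h1 : ∀ F, ∃ g : K → Option (Pre K W), ∀ s, s ∈ N F ↔ ∃ n, g n = some s := by
    intro F
    rcases (N F).eq_empty_or_nonempty with h | h
    · exact ⟨fun _ => none, fun s => by simp [h]⟩
    · obtain ⟨f⟩ : Nonempty (N F ↪ K) := (Cardinal.le_def _ _).1 (hN F)
      have : Nonempty (N F) := h.to_subtype
      refine ⟨fun n => some (Function.invFun f n).1, fun s => ⟨fun hs => ⟨f ⟨s, hs⟩, ?_⟩, ?_⟩⟩
      · show some (Function.invFun f (f ⟨s, hs⟩)).1 = some s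
        rw [Function.leftInverse_invFun f.injective ⟨s, hs⟩]
      · rintro ⟨n, hn⟩
        rw [Option.some.injEq] at hn
        rw [← hn]
        exact (Function.invFun f n).2
  choose g hg using h1
  let e : (F : Finset K) → (n : K) → Pre K W := fun F n => (g F n).getD ⟨C0.one, ∅⟩
  refine ⟨.mk α (fun F n => g F n ≠ none) (fun F n => (e F n).base) (fun F n => (e F n).top.card)
    (fun F n i => ((e F n).top.equivFin.symm i).1.1)
    (fun F n i => ((e F n).top.equivFin.symm i).1.2), rfl, ?_⟩
  funext F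
  ext s
  rw [hg]
  have himg : ∀ n, (⟨(e F n).base, Finset.univ.image fun i : Fin (e F n).top.card =>
      (((e F n).top.equivFin.symm i).1.1, ((e F n).top.equivFin.symm i).1.2)⟩ : Pre K W) =
      e F n := by
    intro n
    have : (Finset.univ.image fun i : Fin (e F n).top.card =>
      (((e F n).top.equivFin.symm i).1.1, ((e F n).top.equivFin.symm i).1.2)) = (e F n).top := by
      ext a
      simp only [Finset.mem_image, Finset.mem_univ, true_and]
      constructor
      · rintro ⟨i, rfl⟩
        exact ((e F n).top.equivFin.symm i).2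
      · intro ha
        exact ⟨(e F n).top.equivFin ⟨a, ha⟩, by simp⟩
    rw [this]
  have hmem : s ∈ (Code.nm (.mk α (fun F n => g F n ≠ none) (fun F n => (e F n).base)
      (fun F n => (e F n).top.card) (fun F n i => ((e F n).top.equivFin.symm i).1.1)
      (fun F n i => ((e F n).top.equivFin.symm i).1.2) : Crd K W) F) ↔
      ∃ n, g F n ≠ none ∧ s = e F n := by
    rw [Code.nm]
    constructor
    · rintro ⟨n, h1, h2⟩
      exact ⟨n, h1, by rw [h2]; convert himg n⟩
    · rintro ⟨n, h1, h2⟩
      exact ⟨n, h1, by rw [h2]; convert (himg n).symm⟩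
  rw [hmem]
  constructor
  · rintro ⟨n, h1, h2⟩
    obtain ⟨t, ht⟩ := Option.ne_none_iff_exists'.1 h1
    refine ⟨n, ?_⟩
    rw [h2]
    simp [e, ht]
  · rintro ⟨n, hn⟩
    exact ⟨n, by rw [hn]; simp, by simp [e, hn]⟩

end Aux

variable (K W : Type) [LinearOrder K] [WellFoundedLT K] [Cod K] [LinearOrder W] [WellFoundedLT W]

theorem code : S_code K W := fun α N hK hN =>
  haveI := hK
  exists_code α N hN

theorem validRestr : S_validRestr K W := by
  intro T S hS hT p hp a ha
  rw [mem_restr] at ha
  refine ⟨ha.2, ?_⟩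
  obtain ⟨h1, s, hs, hsp⟩ := hp a ha.1
  have h2 : fib (restr T p) a.1 = fib p a.1 := fib_congr fun x => by
    rw [mem_restr]
    exact ⟨fun h => h.1, fun h => ⟨h, ha.2⟩⟩
  refine ⟨s, by rw [h2]; exact hs, hsp.1, fun b hb => ?_⟩
  rw [mem_restr]
  exact ⟨hsp.2 hb, hT.2 _ ha.2 _ (hp b (hsp.2 hb)).1 (hS _ h1 _ s hs b hb)⟩

theorem amalg : S_amalg K W := by
  classical
  intro T S hT p p' q hp hp' hq h h' hd a ha
  have hmem : ∀ b : Crd K W × K, b ∈ q.top ∪ p.top ∪ p'.top ↔
      (b ∈ q.top ∨ b ∈ p.top) ∨ b ∈ p'.top := fun b => by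
    rw [Finset.mem_union, Finset.mem_union]
  have ha' : (a ∈ q.top ∨ a ∈ p.top) ∨ a ∈ p'.top := by
    have := (hmem a).1 (by convert ha)
    exact this
  by_cases haT : a.1 ∈ T
  · have haq : a ∈ q.top := by
      rcases ha' with (h2 | h2) | h2
      · exact h2
      · exact h.2 (mem_restr.2 ⟨h2, haT⟩)
      · exact h'.2 (mem_restr.2 ⟨h2, haT⟩)
    obtain ⟨h1, s, hs, hsq⟩ := hq a haq
    refine ⟨hT h1, s, ?_, hsq.1, hsq.2.trans fun b hb => ?_⟩
    · have h2 : fib ⟨q.base, q.top ∪ p.top ∪ p'.top⟩ a.1 = fib q a.1 := fib_congr fun x => by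
        rw [hmem]
        constructor
        · rintro ((h3 | h3) | h3)
          · exact h3
          · exact h.2 (mem_restr.2 ⟨h3, haT⟩)
          · exact h'.2 (mem_restr.2 ⟨h3, haT⟩)
        · exact fun h3 => Or.inl (Or.inl h3)
      rw [← h2] at hs
      convert hs
    · have := (hmem b).2 (Or.inl (Or.inl hb))
      convert this
  · have hnq : ∀ x, (a.1, x) ∉ q.top := fun x hx => haT (hq _ hx).1
    by_cases hap : ∃ x, (a.1, x) ∈ p.top
    · have hnp' : ∀ x, (a.1, x) ∉ p'.top := by
        intro x hx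
        obtain ⟨y, hy⟩ := hap
        exact haT (hd (a.1, y) hy _ hx rfl)
      obtain ⟨y, hy⟩ := hap
      obtain ⟨h1, s, hs, hsp⟩ := hp _ hy
      refine ⟨h1, s, ?_, h.1.trans hsp.1, hsp.2.trans fun b hb => ?_⟩
      · have h2 : fib ⟨q.base, q.top ∪ p.top ∪ p'.top⟩ a.1 = fib p a.1 := fib_congr fun x => by
          rw [hmem]
          constructor
          · rintro ((h3 | h3) | h3)
            · exact absurd h3 (hnq x)
            · exact h3
            · exact absurd h3 (hnp' x)
          · exact fun h3 => Or.inl (Or.inr h3)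
        rw [← h2] at hs
        convert hs
      · have := (hmem b).2 (Or.inl (Or.inr hb))
        convert this
    · push Not at hap
      have hap' : a ∈ p'.top := by
        rcases ha' with (h2 | h2) | h2
        · exact absurd h2 (hnq a.2)
        · exact absurd h2 (hap a.2)
        · exact h2
      obtain ⟨h1, s, hs, hsp⟩ := hp' _ hap'
      refine ⟨h1, s, ?_, h'.1.trans hsp.1, hsp.2.trans fun b hb => ?_⟩
      · have h2 : fib ⟨q.base, q.top ∪ p.top ∪ p'.top⟩ a.1 = fib p' a.1 := fib_congr fun x => by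
          rw [hmem]
          constructor
          · rintro ((h3 | h3) | h3)
            · exact absurd h3 (hnq x)
            · exact absurd h3 (hap x)
            · exact h3
          · exact fun h3 => Or.inr h3
        rw [← h2] at hs
        convert hs
      · have := (hmem b).2 (Or.inr hb)
        convert this

end Pool.Agent.H915.It1
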