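import Pool.Agent.H915.Stmts1
import Pool.Agent.W684.FM.Stages

/-!
# The iteration: relative chain condition, limits, stages
-/

set_option autoImplicit false

namespace Pool.Agent.H915.It2

open Cardinal Set Pool.Agent.Helper669.Forcing

section cc

variable {Ω : Type}

theorem CClub.mono {φ ψ : Set Ω → Prop} (h : CClub φ) (h' : ∀ N, φ N → ψ N) : CClub ψ := by
  obtain ⟨f, hf⟩ := h
  exact ⟨f, fun N hN hc => h' N (hf N hN hc)⟩

theorem CClub.triv [Nonempty Ω] {φ : Set Ω → Prop} (h : ∀ N, φ N) : CClub φ :=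
  ⟨fun _ _ => Classical.arbitrary Ω, fun N _ _ => h N⟩

theorem CClub.and (h0 : S_ccForall) {φ ψ : Set Ω → Prop} (h : CClub φ) (h' : CClub ψ) :
    CClub fun N => φ N ∧ ψ N := by
  refine CClub.mono (h0 Ω (fun n => Nat.casesOn n φ fun _ => ψ) ?_) ?_
  · rintro (_ | n)
    · exact h
    · exact h'
  · intro N hN
    exact ⟨hN 0, hN 1⟩

theorem CClub.imp [Nonempty Ω] {p : Prop} {φ : Set Ω → Prop} (h : p → CClub φ) :
    CClub fun N => p → φ N := by
  by_cases hp : p
  · exact CClub.mono (h hp) fun N hN _ => hN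
  · exact CClub.triv fun N hp' => absurd hp' hp

end cc

section mid

variable {K W : Type} [LinearOrder K] [Cod K]

theorem valid_mono {S T : Set (Crd K W)} (h : S ⊆ T) {p : Pre K W} (hp : Valid S p) :
    Valid T p := fun a ha => ⟨h (hp a ha).1, (hp a ha).2⟩

theorem valid_empty_top {p : Pre K W} (hp : Valid (∅ : Set (Crd K W)) p) : p.top = ∅ := by
  rw [Finset.eq_empty_iff_forall_notMem]
  intro a ha
  exact (hp a ha).1

theorem valid_of_top {S : Set (Crd K W)} {p : Pre K W} (hp : p.top = ∅) : Valid S p := by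
  intro a ha
  rw [hp] at ha
  exact absurd ha (Finset.notMem_empty a)

theorem mem_restr {T : Set (Crd K W)} {p : Pre K W} {a : Crd K W × K} :
    a ∈ (restr T p).top ↔ a ∈ p.top ∧ a.1 ∈ T := by simp [restr]

end mid

variable (K W : Type) [LinearOrder K] [WellFoundedLT K] [Cod K] [LinearOrder W] [WellFoundedLT W]

theorem relEmpty (h1 : S_ccForall) (h2 : S_ccPre K W) (h3 : S_ccIn K W) (h4 : S_res K) (h5 : S_amalgS K)
    (h6 : S_ccNode) (h7 : S_ccMap) (h8 : Nonempty K) : S_relEmpty K W := by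
  classical
  intro E hE hd
  obtain ⟨k0⟩ := h8
  haveI : Nonempty (Tok K W) := ⟨Sum.inl k0⟩
  have hch : ∀ t : Pre K W, ∃ e : Pre K W, Valid (∅ : Set (Crd K W)) t → e ∈ E ∧ e ≤ t := by
    intro t
    by_cases ht : Valid (∅ : Set (Crd K W)) t
    · obtain ⟨e, he, hle⟩ := hd t ht
      exact ⟨e, fun _ => ⟨he, hle⟩⟩
    · exact ⟨t, fun h => absurd h ht⟩
  choose e he using hch
  refine CClub.mono (h2 (fun t N => InTok N (e t)) ⟨k0⟩ fun t => h3 ⟨k0⟩ (e t)) ?_
  intro N hN r hr hKN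
  obtain ⟨t0, ht0A, ht0N⟩ := h4 r.base (KN N) hKN
  have hvt : Valid (∅ : Set (Crd K W)) (⟨t0, ∅⟩ : Pre K W) := valid_of_top rfl
  have hin : InTok N (⟨t0, ∅⟩ : Pre K W) := by
    refine ⟨?_, ?_, ?_⟩
    · intro τ hτ
      rw [show (⟨t0, ∅⟩ : Pre K W).base.A = t0.A from rfl, ht0A] at hτ
      exact hτ.2
    · intro Q hQ
      rw [show (⟨t0, ∅⟩ : Pre K W).base.Nd = t0.Nd from rfl, ht0N] at hQ
      exact hQ.2
    · intro a ha
      exact absurd ha (Finset.notMem_empty a)
  have hNe := hN _ hin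
  obtain ⟨heE, hele⟩ := he _ hvt
  obtain ⟨r', hr'A, hr'N⟩ := h5 r.base (e ⟨t0, ∅⟩).base (KN N) hKN ⟨hNe.1, hNe.2.1⟩
    (fun τ hτ => hele.1.1 (by rw [ht0A]; exact hτ))
    (fun Q hQ hcQ => hele.1.2 (by rw [ht0N]; exact ⟨hQ, hcQ⟩))
  refine ⟨e ⟨t0, ∅⟩, heE, hNe, ⟨r', ∅⟩, valid_of_top rfl, ⟨⟨?_, ?_⟩, ?_⟩, ⟨?_, ?_⟩, ?_⟩
  · rw [hr'A]; exact subset_union_left
  · rw [hr'N]; exact subset_union_left.trans subset_union_left
  · rw [valid_empty_top hr]
  · rw [hr'A]; exact subset_union_right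
  · rw [hr'N]; exact subset_union_right.trans subset_union_left
  · rw [valid_empty_top (hE _ heE)]

theorem relParts (h0 : S_ccForall) (h1 : S_ccDiag) (h2 : S_ccPre K W) (h3 : S_ccIn K W) (h4 : S_validRestr K W)
    (h5 : S_amalg K W) (h8 : Nonempty K) : S_relParts K W := by
  classical
  intro S hS hT E hE hd
  obtain ⟨k0⟩ := h8
  haveI : Nonempty (Tok K W) := ⟨Sum.inl k0⟩
  have hT' : ∀ x : Finset (Crd K W), ∃ T : Set (Crd K W), (∀ c ∈ x, c ∈ S) →
      Initial T S ∧ (∀ c ∈ x, c ∈ T) ∧ RelCCC T := by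
    intro x
    by_cases hx : ∀ c ∈ x, c ∈ S
    · obtain ⟨T, h⟩ := hT x hx
      exact ⟨T, fun _ => h⟩
    · exact ⟨∅, fun h => absurd h hx⟩
  choose T hTs using hT'
  -- the dense sets
  let EE : Finset (Crd K W) → Set (Pre K W) := fun x =>
    {v | Valid (T x) v ∧ ∃ e ∈ E, v ≤ restr (T x) e}
  have hch : ∀ (x : Finset (Crd K W)) (v : Pre K W), ∃ e : Pre K W, v ∈ EE x →
      e ∈ E ∧ v ≤ restr (T x) e := by
    intro x v
    by_cases hv : v ∈ EE x
    · obtain ⟨e, he, hle⟩ := hv.2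
      exact ⟨e, fun _ => ⟨he, hle⟩⟩
    · exact ⟨v, fun h => absurd h hv⟩
  choose g hg using hch
  let φ : Finset (Crd K W) → Set (Tok K W) → Prop := fun x N => (∀ c ∈ x, c ∈ S) →
    ((∀ r, Valid (T x) r → KN N ∈ r.base.Nd →
      ∃ e ∈ EE x, InTok N e ∧ ∃ u, Valid (T x) u ∧ u ≤ r ∧ u ≤ e) ∧
      ∀ v, InTok N v → InTok N (g x v))
  have hφ : ∀ x, CClub (φ x) := by
    intro x
    refine CClub.imp fun hx => ?_
    obtain ⟨hT1, hT2, hT3⟩ := hTs x hx
    refine CClub.and h0 (hT3 (EE x) (fun e he => he.1) ?_) ?_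
    · intro r hr
      obtain ⟨e, he, hle⟩ := hd r (valid_mono hT1.1 hr)
      refine ⟨restr (T x) e, ⟨h4 (T x) S hS hT1 e (hE e he), e, he, le_refl _⟩, hle.1, ?_⟩
      intro a ha
      exact mem_restr.2 ⟨hle.2 ha, (hr a ha).1⟩
    · exact h2 (fun v N => InTok N (g x v)) ⟨k0⟩ fun v => h3 ⟨k0⟩ (g x v)
  have hdiag := h1 (Tok K W) (Finset (Crd K W)) φ (fun x => x.toList.map Sum.inr) ?_
    inferInstance hφ
  · refine CClub.mono hdiag ?_
    intro N hN r hr hKN
    let x : Finset (Crd K W) := (r.top.image Prod.fst).filter fun c => Sum.inr c ∈ N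
    have hxS : ∀ c ∈ x, c ∈ S := by
      intro c hc
      obtain ⟨hc1, hc2⟩ := Finset.mem_filter.1 hc
      obtain ⟨a, ha, rfl⟩ := Finset.mem_image.1 hc1
      exact (hr a ha).1
    have hxN : ∀ t ∈ (x.toList.map Sum.inr : List (Tok K W)), t ∈ N := by
      intro t ht
      obtain ⟨c, hc, rfl⟩ := List.mem_map.1 ht
      rw [Finset.mem_toList] at hc
      exact (Finset.mem_filter.1 hc).2
    obtain ⟨hT1, hT2, hT3⟩ := hTs x hxS
    obtain ⟨hN1, hN2⟩ := hN x hxN hxS
    obtain ⟨v, hv, hvN, u, hu, hur, huv⟩ := hN1 (restr (T x) r) (h4 (T x) S hS hT1 r hr) hKN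
    obtain ⟨heE, hve⟩ := hg x v hv
    have heN := hN2 v hvN
    have hue : u ≤ restr (T x) (g x v) := le_trans huv hve
    refine ⟨g x v, heE, heN, ⟨u.base, u.top ∪ r.top ∪ (g x v).top⟩, ?_, ?_, ?_⟩
    · refine h5 (T x) S hT1.1 r (g x v) u hr (hE _ heE) hu hur hue ?_
      intro a ha b hb hab
      refine hT2 _ (Finset.mem_filter.2 ⟨Finset.mem_image_of_mem _ ha, ?_⟩)
      rw [hab]
      exact (heN.2.2 b hb).1
    · exact ⟨hur.1, fun a ha => Finset.mem_union_left _ (Finset.mem_union_right _ ha)⟩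
    · exact ⟨hue.1, fun a ha => Finset.mem_union_right _ ha⟩
  · intro l
    refine Set.Subsingleton.countable ?_
    intro x hx y hy
    have hxy : x.toList = y.toList :=
      List.map_injective_iff.2 Sum.inr_injective
        ((show x.toList.map Sum.inr = l from hx).trans (show y.toList.map Sum.inr = l from hy).symm)
    ext c
    rw [← Finset.mem_toList, hxy, Finset.mem_toList]

section stages

variable {K W}

theorem exists_max (hE : S_relEmpty K W) (hP : S_relParts K W) (α : W) (S₀ : Set (Crd K W))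
    (h₀ : ∀ c ∈ S₀, c.st < α ∧ Proper c) (hc : RelCCC S₀) :
    ∃ M, Maximal (fun M => M ∈ Cand α S₀) M := by
  classical
  apply zorn_subset
  intro 𝒞 h𝒞 hchain
  rcases 𝒞.eq_empty_or_nonempty with he | hne
  · subst he
    refine ⟨∅, ⟨by simp, by simpa using hc⟩, by simp⟩
  · refine ⟨⋃₀ 𝒞, ⟨?_, ?_⟩, fun s hs => Set.subset_sUnion_of_mem hs⟩
    · rintro c ⟨M, hM, hcM⟩
      exact (h𝒞 hM).1 c hcM
    · apply hP
      · rintro c (h | ⟨M, hM, hcM⟩)
        · exact (h₀ c h).2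
        · exact ((h𝒞 hM).1 c hcM).2.1
      · intro r hr
        have : ∃ M ∈ 𝒞, ∀ c ∈ r, c ∈ S₀ ∪ M := by
          induction r using Finset.induction_on with
          | empty =>
            obtain ⟨M, hM⟩ := hne
            exact ⟨M, hM, by simp⟩
          | insert c r _ ih =>
            obtain ⟨M, hM, h1⟩ := ih fun d hd => hr d (Finset.mem_insert_of_mem hd)
            rcases hr c (Finset.mem_insert_self _ _) with h2 | ⟨M', hM', h2⟩
            · refine ⟨M, hM, fun d hd => ?_⟩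
              rcases Finset.mem_insert.1 hd with h3 | h3
              · rw [h3]
                exact Or.inl h2
              · exact h1 d h3
            · rcases hchain.total hM hM' with h4 | h4
              · refine ⟨M', hM', fun d hd => ?_⟩
                rcases Finset.mem_insert.1 hd with h3 | h3
                · rw [h3]
                  exact Or.inr h2
                · exact (h1 d h3).imp id fun h => h4 h
              · refine ⟨M, hM, fun d hd => ?_⟩
                rcases Finset.mem_insert.1 hd with h3 | h3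
                · rw [h3]
                  exact Or.inr (h4 h2)
                · exact h1 d h3
        obtain ⟨M, hM, h1⟩ := this
        refine ⟨S₀ ∪ M, ⟨Set.union_subset_union_right _ (Set.subset_sUnion_of_mem hM), ?_⟩,
          h1, (h𝒞 hM).2⟩
        rintro c hcS c' (h2 | ⟨M', hM', h2⟩) hlt
        · exact Or.inl h2
        · exfalso
          have h3 : c'.st = α := ((h𝒞 hM').1 c' h2).1
          have h4 : c.st ≤ α := by
            rcases hcS with h | h
            · exact (h₀ c h).1.le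
            · exact ((h𝒞 hM).1 c h).1.le
          rw [h3] at hlt
          exact absurd h4 (not_le.2 hlt)

theorem maxM_spec (hE : S_relEmpty K W) (hP : S_relParts K W) {α : W} {S₀ : Set (Crd K W)}
    (h₀ : ∀ c ∈ S₀, c.st < α ∧ Proper c)
    (hc : RelCCC S₀) : Maximal (fun M => M ∈ Cand α S₀) (maxM α S₀) := by
  have h := exists_max hE hP α S₀ h₀ hc
  rw [maxM, dif_pos h]
  exact h.choose_spec

theorem maxM_sub {α : W} {S₀ : Set (Crd K W)} :
    ∀ c ∈ maxM α S₀, c.st = α ∧ Proper c ∧ Small c := by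
  intro c hc
  by_cases h : ∃ M, Maximal (fun M => M ∈ Cand α S₀) M
  · rw [maxM, dif_pos h] at hc
    exact h.choose_spec.1.1 c hc
  · rw [maxM, dif_neg h] at hc
    exact absurd hc (Set.notMem_empty c)

theorem V_eq (α : W) : (V α : Set (Crd K W)) = maxM α (Slt α) := by
  rw [V, WellFounded.fix_eq]
  rfl

theorem V_sub {α : W} {c : Crd K W} (hc : c ∈ V α) : c.st = α ∧ Proper c ∧ Small c := by
  rw [V_eq] at hc
  exact maxM_sub c hc

theorem mem_Slt {α : W} {c : Crd K W} : c ∈ Slt α ↔ c.st < α ∧ c ∈ V c.st := by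
  rw [Slt, Set.mem_iUnion]
  constructor
  · rintro ⟨⟨β, hβ⟩, h⟩
    have h1 := (V_sub h).1
    simp only at h1 h
    subst h1
    exact ⟨hβ, h⟩
  · rintro ⟨h1, h2⟩
    exact ⟨⟨c.st, h1⟩, h2⟩

theorem mem_Sle {α : W} {c : Crd K W} : c ∈ Sle α ↔ c.st ≤ α ∧ c ∈ V c.st := by
  rw [Sle, Set.mem_union, mem_Slt]
  constructor
  · rintro (⟨h1, h2⟩ | h)
    · exact ⟨h1.le, h2⟩
    · have h1 := (V_sub h).1
      subst h1
      exact ⟨le_rfl, h⟩
  · rintro ⟨h1, h2⟩
    rcases h1.lt_or_eq with h3 | h3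
    · exact Or.inl ⟨h3, h2⟩
    · exact Or.inr (h3 ▸ h2)

theorem mem_Sall {c : Crd K W} : c ∈ (Sall : Set (Crd K W)) ↔ c ∈ V c.st := by
  rw [Sall, Set.mem_iUnion]
  constructor
  · rintro ⟨β, h⟩
    have h1 := (V_sub h).1
    subst h1
    exact h
  · exact fun h => ⟨_, h⟩

theorem proper_Sall {c : Crd K W} (hc : c ∈ (Sall : Set (Crd K W))) : Proper c :=
  (V_sub (mem_Sall.1 hc)).2.1

theorem Slt_sub_Sall (α : W) : Slt α ⊆ (Sall : Set (Crd K W)) := fun _ hc =>
  mem_Sall.2 (mem_Slt.1 hc).2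

theorem Sle_sub_Sall (α : W) : Sle α ⊆ (Sall : Set (Crd K W)) := fun _ hc =>
  mem_Sall.2 (mem_Sle.1 hc).2

theorem initial_Sle (α : W) : Initial (Sle α) (Sall : Set (Crd K W)) :=
  ⟨Sle_sub_Sall α, fun _ hc _ hc' hlt =>
    mem_Sle.2 ⟨hlt.le.trans (mem_Sle.1 hc).1, mem_Sall.1 hc'⟩⟩

theorem initial_of_subset {T S S' : Set (Crd K W)} (h : Initial T S') (h1 : T ⊆ S)
    (h2 : S ⊆ S') : Initial T S :=
  ⟨h1, fun c hc c' hc' hlt => h.2 c hc c' (h2 hc') hlt⟩

/-- the relative chain condition of a part determined by a set of stages closed downwards -/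
theorem rel_stages (hE : S_relEmpty K W) (hP : S_relParts K W) (S : Set (Crd K W))
    (hS : S ⊆ Sall) (L : Set W)
    (hL : ∀ c ∈ S, c.st ∈ L) (hS' : ∀ α ∈ L, Sle α ⊆ S)
    (h : ∀ α ∈ L, RelCCC (Sle α : Set (Crd K W))) : RelCCC S := by
  apply hP S fun c hc => proper_Sall (hS hc)
  intro r hr
  rcases r.eq_empty_or_nonempty with rfl | hne
  · exact ⟨∅, ⟨Set.empty_subset _, fun c hc => absurd hc (Set.notMem_empty c)⟩, by simp,
      hE⟩
  · obtain ⟨c0, hc0, hmax⟩ := Finset.exists_max_image r Code.st hne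
    have hα : c0.st ∈ L := hL c0 (hr c0 hc0)
    refine ⟨Sle c0.st, initial_of_subset (initial_Sle _) (hS' _ hα) hS, fun c hc => ?_, h _ hα⟩
    exact mem_Sle.2 ⟨hmax c hc, mem_Sall.1 (hS (hr c hc))⟩

end stages

theorem relSle (h1 : S_relEmpty K W) (h2 : S_relParts K W) : S_relSle K W := by
  intro α
  induction α using WellFoundedLT.induction with
  | ind α ih =>
    have h3 : RelCCC (Slt α : Set (Crd K W)) := by
      apply rel_stages h1 h2 _ (Slt_sub_Sall α) (Set.Iio α)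
      · intro c hc
        exact (mem_Slt.1 hc).1
      · intro β hβ c hc
        exact mem_Slt.2 ⟨(mem_Sle.1 hc).1.trans_lt hβ, (mem_Sle.1 hc).2⟩
      · intro β hβ
        exact ih β hβ
    have h4 := maxM_spec h1 h2 (α := α) (S₀ := Slt α) (fun c hc =>
      ⟨(mem_Slt.1 hc).1, (V_sub (mem_Slt.1 hc).2).2.1⟩) h3
    rw [Sle, V_eq]
    exact h4.1.2

theorem relSlt (h1 : S_relEmpty K W) (h2 : S_relParts K W) : S_relSlt K W := by
  intro α
  apply rel_stages h1 h2 _ (Slt_sub_Sall α) (Set.Iio α)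
  · intro c hc
    exact (mem_Slt.1 hc).1
  · intro β hβ c hc
    exact mem_Slt.2 ⟨(mem_Sle.1 hc).1.trans_lt hβ, (mem_Sle.1 hc).2⟩
  · intro β _
    exact relSle K W h1 h2 β

theorem relSall (h1 : S_relEmpty K W) (h2 : S_relParts K W) : S_relSall K W := by
  apply rel_stages h1 h2 _ (Set.Subset.refl _) Set.univ
  · exact fun _ _ => trivial
  · exact fun β _ => Sle_sub_Sall β
  · exact fun β _ => relSle K W h1 h2 β

theorem memV (h1 : S_relEmpty K W) (h2 : S_relParts K W) : S_memV K W := by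
  intro α c hst hp hs h3
  have hm := maxM_spec h1 h2 (α := α) (S₀ := (Slt α : Set (Crd K W))) (fun c hc =>
      ⟨(mem_Slt.1 hc).1, (V_sub (mem_Slt.1 hc).2).2.1⟩) (relSlt K W h1 h2 α)
  rw [← V_eq] at hm
  have h4 : V α ∪ {c} ∈ Cand α (Slt α : Set (Crd K W)) := by
    refine ⟨?_, ?_⟩
    · rintro d (hd | hd)
      · exact V_sub hd
      · rw [Set.mem_singleton_iff.1 hd]
        exact ⟨hst, hp, hs⟩
    · rw [← Set.union_assoc]
      exact h3
  exact hm.2 h4 Set.subset_union_left (Or.inr rfl)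

end Pool.Agent.H915.It2
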