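import Pool.Agent.H915.Stmts2

/-!
# The argument for a single model
-/

set_option autoImplicit false

namespace Pool.Agent.H915.K1

open Cardinal Set Pool.Agent.Helper669.Forcing

section general

/-! ### General closure lemmas -/

theorem cc_mono {Ω : Type} {φ ψ : Set Ω → Prop} (h : ∀ N, φ N → ψ N) (hφ : CClub φ) : CClub ψ := by
  obtain ⟨f, hf⟩ := hφ
  exact ⟨f, fun N hN hc => h N (hf N hN hc)⟩

theorem cc_const {Ω : Type} (x : Ω) : CClub fun N : Set Ω => x ∈ N :=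
  ⟨fun _ _ => x, fun N _ hc => hc 0 [] (by simp)⟩

theorem cc_true {Ω : Type} {φ : Set Ω → Prop} [Nonempty Ω] (h : ∀ N, φ N) : CClub φ :=
  ⟨fun _ _ => Classical.arbitrary Ω, fun N _ _ => h N⟩

theorem cc_set {Ω L : Type} [Nonempty Ω] (g : L → Ω) (a : Set L) (ha : a.Countable) :
    CClub fun N : Set Ω => ∀ l ∈ a, g l ∈ N := by
  rcases a.eq_empty_or_nonempty with rfl | hne
  · exact cc_true (by simp)
  · obtain ⟨f, rfl⟩ := ha.exists_eq_range hne
    refine ⟨fun n _ => g (f n), fun N _ hc => ?_⟩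
    rintro _ ⟨n, rfl⟩
    exact hc n [] (by simp)

theorem cc_and (h2 : S_ccForall) {Ω : Type} {φ ψ : Set Ω → Prop} (h : CClub φ) (h' : CClub ψ) :
    CClub fun N => φ N ∧ ψ N := by
  have := h2 Ω (fun n => if n = 0 then φ else ψ) (by
    intro n
    by_cases hn : n = 0
    · simpa [hn] using h
    · simpa [hn] using h')
  refine cc_mono (fun N hN => ⟨by simpa using hN 0, by simpa using hN 1⟩) this

end general

variable (K W : Type) [LinearOrder K] [WellFoundedLT K] [Cod K] [LinearOrder W] [WellFoundedLT W]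

section tokens

variable {K W}

/-- the finite set of the tokens of a condition -/
def tset (r : Pre K W) : Set (Tok K W) :=
  (Sum.inl '' r.base.A) ∪ ((fun Q => Sum.inl (cd Q)) '' r.base.Nd) ∪
    (((fun a : Crd K W × K => (Sum.inr a.1 : Tok K W)) '' (r.top : Set (Crd K W × K))) ∪
      ((fun a : Crd K W × K => (Sum.inl a.2 : Tok K W)) '' (r.top : Set (Crd K W × K))))

theorem tset_fin (r : Pre K W) : (tset r).Finite :=
  ((r.base.finA.image _).union (r.base.finN.image _)).union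
    (((Finset.finite_toSet _).image _).union ((Finset.finite_toSet _).image _))

theorem tset_sub {r : Pre K W} {N : Set (Tok K W)} : tset r ⊆ N ↔ InTok N r := by
  constructor
  · intro h
    refine ⟨fun τ hτ => h (Or.inl (Or.inl ⟨τ, hτ, rfl⟩)), fun Q hQ => h (Or.inl (Or.inr ⟨Q, hQ, rfl⟩)),
      fun a ha => ⟨h (Or.inr (Or.inl ⟨a, ha, rfl⟩)), h (Or.inr (Or.inr ⟨a, ha, rfl⟩))⟩⟩
  · rintro ⟨h1, h2, h3⟩ x ((⟨τ, hτ, rfl⟩ | ⟨Q, hQ, rfl⟩) | (⟨a, ha, rfl⟩ | ⟨a, ha, rfl⟩))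
    · exact h1 τ hτ
    · exact h2 Q hQ
    · exact (h3 a ha).1
    · exact (h3 a ha).2

/-- the list of the tokens of a condition -/
noncomputable def toks (r : Pre K W) : List (Tok K W) := (tset_fin r).toFinset.toList

theorem mem_toks {r : Pre K W} {x : Tok K W} : x ∈ toks r ↔ x ∈ tset r := by
  simp [toks]

end tokens

section model

variable {K W}
variable {L : Type}

/-- the objects of the countable models -/
abbrev Obj (K W L : Type) [LinearOrder K] [Cod K] [LinearOrder W] [WellFoundedLT W] : Type :=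
  Tok K W ⊕ Set L ⊕ (L → Set (PP K W)) ⊕ L

/-- the parameters of the diagonal intersections -/
abbrev Par (K W L : Type) [LinearOrder K] [Cod K] [LinearOrder W] [WellFoundedLT W] : Type :=
  PP K W × PP K W × Set L × (L → Set (PP K W))

/-- the support of a parameter -/
noncomputable def supp (z : Par K W L) : List (Obj K W L) :=
  (toks z.1.1).map Sum.inl ++ ((toks z.2.1.1).map Sum.inl ++
    [Sum.inr (Sum.inl z.2.2.1), Sum.inr (Sum.inr (Sum.inl z.2.2.2))])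

/-- the tokens in a model -/
def NT (N : Set (Obj K W L)) : Set (Tok K W) := Sum.inl ⁻¹' N

theorem supp_iff {z : Par K W L} {N : Set (Obj K W L)} : (∀ x ∈ supp z, x ∈ N) ↔
    InTok (NT N) z.1.1 ∧ InTok (NT N) z.2.1.1 ∧ Sum.inr (Sum.inl z.2.2.1) ∈ N ∧
      Sum.inr (Sum.inr (Sum.inl z.2.2.2)) ∈ N := by
  rw [← tset_sub, ← tset_sub]
  constructor
  · intro h
    refine ⟨fun x hx => h _ ?_, fun x hx => h _ ?_, h _ ?_, h _ ?_⟩
    · simp only [supp, List.mem_append, List.mem_map]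
      exact Or.inl ⟨x, mem_toks.2 hx, rfl⟩
    · simp only [supp, List.mem_append, List.mem_map]
      exact Or.inr (Or.inl ⟨x, mem_toks.2 hx, rfl⟩)
    · simp [supp]
    · simp [supp]
  · rintro ⟨h1, h2, h3, h4⟩ x hx
    simp only [supp, List.mem_append, List.mem_map, List.mem_cons, List.not_mem_nil, or_false] at hx
    rcases hx with ⟨y, hy, rfl⟩ | ⟨y, hy, rfl⟩ | rfl | rfl
    · exact h1 (mem_toks.1 hy)
    · exact h2 (mem_toks.1 hy)
    · exact h3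
    · exact h4

theorem supp_countable (h17 : S_tokFin K W) (l : List (Obj K W L)) :
    {z : Par K W L | supp z = l}.Countable := by
  classical
  have hX : {u : PP K W | InTok {x | Sum.inl x ∈ l} u.1}.Countable := by
    have h := h17 (l.filterMap Sum.getLeft?)
    have h' := h.preimage_of_injOn (f := (Subtype.val : PP K W → Pre K W))
      (Subtype.val_injective.injOn)
    refine h'.mono ?_
    intro u hu
    have : {x : Tok K W | x ∈ l.filterMap Sum.getLeft?} = {x | Sum.inl x ∈ l} := by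
      ext x
      simp only [List.mem_filterMap, Set.mem_ofPred_eq]
      constructor
      · rintro ⟨y, hy, hxy⟩
        rcases y with y | y
        · simp only [Sum.getLeft?_inl, Option.some.injEq] at hxy
          exact hxy ▸ hy
        · simp at hxy
      · intro hx
        exact ⟨_, hx, rfl⟩
    show InTok _ u.1
    rw [this]
    exact hu
  have hfin : {x : Obj K W L | x ∈ l}.Finite := List.finite_toSet l
  have hY : {a : Set L | (Sum.inr (Sum.inl a) : Obj K W L) ∈ l}.Countable :=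
    (hfin.preimage (f := fun a : Set L => (Sum.inr (Sum.inl a) : Obj K W L))
      (fun a _ b _ hab => by simpa using hab)).countable
  have hY' : {y : L → Set (PP K W) | (Sum.inr (Sum.inr (Sum.inl y)) : Obj K W L) ∈ l}.Countable :=
    (hfin.preimage (f := fun a : L → Set (PP K W) => (Sum.inr (Sum.inr (Sum.inl a)) : Obj K W L))
      (fun a _ b _ hab => by simpa using hab)).countable
  refine (hX.prod (hX.prod (hY.prod hY'))).mono ?_
  intro z hz
  have h := (supp_iff (z := z) (N := {x | x ∈ l})).1 (by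
    intro x hx
    rw [hz] at hx
    exact hx)
  exact ⟨h.1, h.2.1, h.2.2.1, h.2.2.2⟩

/-- relative properness for one set of conditions -/
def RelE (E : Set (PP K W)) (N : Set (Obj K W L)) : Prop :=
  ∀ r : PP K W, KN (NT N) ∈ r.1.base.Nd → ∃ e : PP K W, (e ∈ E ∨ ∀ v ≤ e, v ∉ E) ∧
    InTok (NT N) e.1 ∧ ∃ u : PP K W, u ≤ r ∧ u ≤ e

theorem cc_relE (h1 : S_relSall K W) (h4 : S_ccMap) (E : Set (PP K W)) :
    CClub fun N : Set (Obj K W L) => RelE E N := by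
  have h := h1 (Subtype.val '' (E ∪ {e : PP K W | ∀ v ≤ e, v ∉ E})) (by
    rintro _ ⟨e, _, rfl⟩
    exact e.2) (by
    intro r hr
    by_cases hv : ∃ v : PP K W, v ≤ ⟨r, hr⟩ ∧ v ∈ E
    · obtain ⟨v, hv, hvE⟩ := hv
      exact ⟨v.1, ⟨v, Or.inl hvE, rfl⟩, hv⟩
    · push Not at hv
      exact ⟨r, ⟨⟨r, hr⟩, Or.inr hv, rfl⟩, le_refl _⟩)
  have h' := h4 (Tok K W) (Obj K W L) Sum.inl _ Sum.inl_injective h
  refine cc_mono ?_ h'
  intro N hN r hr
  obtain ⟨_, ⟨e, he, rfl⟩, heN, u, hu, hur, hue⟩ := hN r.1 r.2 hr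
  exact ⟨e, he, heN, ⟨u, hu⟩, hur, hue⟩

theorem cc_inTok (h4 : S_ccMap) (h8 : S_ccIn K W) (hK : Nonempty K) (e : Pre K W) :
    CClub fun N : Set (Obj K W L) => InTok (NT N) e :=
  h4 (Tok K W) (Obj K W L) Sum.inl _ Sum.inl_injective (h8 hK e)

theorem cc_inside (h4 : S_ccMap) (h8 : S_ccIn K W) (hK : Nonempty K) (s : C0 K) :
    CClub fun N : Set (Obj K W L) => s.Inside (KN (NT N)) := by
  refine cc_mono ?_ (cc_inTok h4 h8 hK (⟨s, ∅⟩ : Pre K W))
  intro N hN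
  exact ⟨fun τ hτ => hN.1 τ hτ, fun Q hQ => hN.2.1 Q hQ⟩

theorem cc_node (h4 : S_ccMap) (h6 : S_ccNode) :
    CClub fun N : Set (Obj K W L) => Node (KN (NT N)) := by
  have h := h4 K (Obj K W L) (fun k => Sum.inl (Sum.inl k)) _
    (fun a b hab => by simpa using hab) (h6 K)
  exact cc_mono (fun N hN => hN) h

/-- the condition with a given base and no top -/
def ofBase (s : C0 K) : PP K W := ⟨⟨s, ∅⟩, fun a ha => absurd ha (by simp)⟩

theorem inTok_ofBase {s : C0 K} {N : Set (Tok K W)} :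
    InTok N (ofBase (W := W) s).1 ↔ s.Inside (KN N) := by
  constructor
  · intro h
    exact ⟨fun τ hτ => h.1 τ hτ, fun Q hQ => h.2.1 Q hQ⟩
  · intro h
    exact ⟨fun τ hτ => h.1 hτ, fun Q hQ => h.2 Q hQ, fun a ha => absurd ha (by simp [ofBase])⟩

variable (t : Trace K W L) (p : PP K W) (d : L → Set (PP K W))

/-- the conditions which decide the intersection of `d` with `a` -/
def E0 (a : Set L) : Set (PP K W) := {u | u ≤ p ∧ ∃ y ∈ t.mN, EqOn u a d y}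

/-- `s'` refutes the possibility of `y` -/
def Bad (s : C0 K) (a : Set L) (y : L → Set (PP K W)) (μ : PP K W) (s' : C0 K) : Prop :=
  s' ≤ s ∧ Comp t μ s' ∧ ¬ ∃ q' : PP K W, q' ≤ p ∧ q' ≤ μ ∧ q'.1.base ≤ s' ∧ EqOn q' a d y

/-- the conditions whose trace is refuted -/
def E1 (s : C0 K) (a : Set L) (y : L → Set (PP K W)) : Set (PP K W) :=
  {u | t.α ∈ u.1.base.A ∧ ∃ μ : PP K W, μ.1 = trc t u.1 ∧ ∃ s', Bad t p d s a y μ s'}

/-- the countable set `a` has no possible value below `μ` -/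
def No (s : C0 K) (μ : PP K W) (a : Set L) : Prop :=
  a.Countable ∧ a ⊆ t.mL ∧ ∀ μ' ≤ μ, t.In μ' → ∀ y ∈ t.mN, ¬ Psi t p d μ' s a y

/-- the conditions whose trace has no possible value for some countable set -/
def E2 (s : C0 K) : Set (PP K W) :=
  {u | t.α ∈ u.1.base.A ∧ ∃ μ : PP K W, μ.1 = trc t u.1 ∧ ∃ a, No t p d s μ a}

/-- the closure property of the countable models -/
structure Cl (N : Set (Obj K W L)) (z : Par K W L) : Prop where
  c1 : z.2.2.1.Countable → ∀ l ∈ z.2.2.1, Sum.inr (Sum.inr (Sum.inr l)) ∈ N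
  c2 : RelE (E0 t p d z.2.2.1) N
  c3 : z.2.1 ∈ E0 t p d z.2.2.1 → ∃ y ∈ t.mN, EqOn z.2.1 z.2.2.1 d y ∧
    Sum.inr (Sum.inr (Sum.inl y)) ∈ N
  c4 : RelE (E1 t p d z.1.1.base z.2.2.1 z.2.2.2) N
  c5 : z.2.1 ∈ E1 t p d z.1.1.base z.2.2.1 z.2.2.2 → ∃ μ : PP K W, μ.1 = trc t z.2.1.1 ∧
    ∃ s', Bad t p d z.1.1.base z.2.2.1 z.2.2.2 μ s' ∧ s'.Inside (KN (NT N))
  c6 : RelE (E2 t p d z.1.1.base) N
  c7 : z.2.1 ∈ E2 t p d z.1.1.base → ∃ μ : PP K W, μ.1 = trc t z.2.1.1 ∧ ∃ a,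
    No t p d z.1.1.base μ a ∧ Sum.inr (Sum.inl a) ∈ N

theorem cc_imp {Ω : Type} [Nonempty Ω] {A : Prop} {φ : Set Ω → Prop} (h : A → CClub φ) :
    CClub fun N => A → φ N := by
  by_cases hA : A
  · exact cc_mono (fun N hN _ => hN) (h hA)
  · exact cc_true fun N h => absurd h hA

theorem cc_cl (h1 : S_relSall K W) (h2 : S_ccForall) (h4 : S_ccMap) (h8 : S_ccIn K W)
    (z : Par K W L) : CClub fun N : Set (Obj K W L) => Cl t p d N z := by
  have hK : Nonempty K := ⟨t.α⟩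
  have c1 : CClub fun N : Set (Obj K W L) => z.2.2.1.Countable →
      ∀ l ∈ z.2.2.1, Sum.inr (Sum.inr (Sum.inr l)) ∈ N :=
    cc_imp fun h => cc_set (fun l : L => (Sum.inr (Sum.inr (Sum.inr l)) : Obj K W L)) _ h
  have c3 : CClub fun N : Set (Obj K W L) => z.2.1 ∈ E0 t p d z.2.2.1 → ∃ y ∈ t.mN,
      EqOn z.2.1 z.2.2.1 d y ∧ Sum.inr (Sum.inr (Sum.inl y)) ∈ N :=
    cc_imp fun h => by
      obtain ⟨_, y, hy, hyd⟩ := h
      exact cc_mono (fun N hN => ⟨y, hy, hyd, hN⟩)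
        (cc_const (Sum.inr (Sum.inr (Sum.inl y)) : Obj K W L))
  have c5 : CClub fun N : Set (Obj K W L) => z.2.1 ∈ E1 t p d z.1.1.base z.2.2.1 z.2.2.2 →
      ∃ μ : PP K W, μ.1 = trc t z.2.1.1 ∧
        ∃ s', Bad t p d z.1.1.base z.2.2.1 z.2.2.2 μ s' ∧ s'.Inside (KN (NT N)) :=
    cc_imp fun h => by
      obtain ⟨_, μ, hμ, s', hs'⟩ := h
      exact cc_mono (fun N hN => ⟨μ, hμ, s', hs', hN⟩) (cc_inside h4 h8 hK s')
  have c7 : CClub fun N : Set (Obj K W L) => z.2.1 ∈ E2 t p d z.1.1.base → ∃ μ : PP K W,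
      μ.1 = trc t z.2.1.1 ∧ ∃ a, No t p d z.1.1.base μ a ∧ Sum.inr (Sum.inl a) ∈ N :=
    cc_imp fun h => by
      obtain ⟨_, μ, hμ, a, ha⟩ := h
      exact cc_mono (fun N hN => ⟨μ, hμ, a, ha, hN⟩)
        (cc_const (Sum.inr (Sum.inl a) : Obj K W L))
  refine cc_mono ?_ (cc_and h2 c1 (cc_and h2 (cc_relE h1 h4 (E0 t p d z.2.2.1)) (cc_and h2 c3
    (cc_and h2 (cc_relE h1 h4 (E1 t p d z.1.1.base z.2.2.1 z.2.2.2)) (cc_and h2 c5
      (cc_and h2 (cc_relE h1 h4 (E2 t p d z.1.1.base)) c7))))))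
  rintro N ⟨a1, a2, a3, a4, a5, a6, a7⟩
  exact ⟨a1, a2, a3, a4, a5, a6, a7⟩

/-- existence of the countable model -/
theorem exists_model (h1 : S_relSall K W) (h2 : S_ccForall) (h3 : S_ccDiag) (h4 : S_ccMap)
    (h5 : S_ccExists) (h6 : S_ccNode) (h8 : S_ccIn K W) (h17 : S_tokFin K W) :
    ∃ N : Set (Obj K W L), N.Countable ∧ Node (KN (NT N)) ∧ InTok (NT N) p.1 ∧
      Sum.inr (Sum.inl ∅) ∈ N ∧ Sum.inr (Sum.inr (Sum.inl fun _ => ∅)) ∈ N ∧
      ∀ z : Par K W L, (∀ x ∈ supp z, x ∈ N) → Cl t p d N z := by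
  have hK : Nonempty K := ⟨t.α⟩
  have hd := h3 (Obj K W L) (Par K W L) (fun z N => Cl t p d N z) supp
    (supp_countable h17) ⟨Sum.inl (Sum.inl t.α)⟩ (cc_cl t p d h1 h2 h4 h8)
  obtain ⟨N, hs, hN, hn, hp, hz⟩ := h5 _ _ (cc_and h2 (cc_node (W := W) (L := L) h4 h6)
    (cc_and h2 (cc_inTok h4 h8 hK p.1) hd))
    {Sum.inr (Sum.inl ∅), Sum.inr (Sum.inr (Sum.inl fun _ => ∅))} (by simp)
  exact ⟨N, hN, hn, hp, hs (by simp), hs (by simp), hz⟩

theorem meets_down {P : Type} [Preorder P] {X : Set P} {u v : P} (h : v ≤ u)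
    (hu : u ∈ meets X) : v ∈ meets X := fun q hq => hu q (hq.trans h)

theorem not_meets {P : Type} [Preorder P] {X : Set P} {u : P} (h : u ∉ meets X) :
    ∃ v ≤ u, ∀ w ≤ v, w ∉ meets X := by
  simp only [meets, Set.mem_ofPred_eq, not_forall] at h
  obtain ⟨v, hv, hn⟩ := h
  refine ⟨v, hv, fun w hw hm => hn ?_⟩
  obtain ⟨r, hr, s, hs, hrs⟩ := hm w le_rfl
  exact ⟨r, hr.trans hw, s, hs, hrs⟩

theorem eqOn_mono {P : Type} [Preorder P] {q q' : P} {a : Set L} {x y : L → Set P}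
    (h : q' ≤ q) (he : EqOn q a x y) : EqOn q' a x y :=
  fun l hl r hr => he l hl r (hr.trans h)

theorem eqOn_sub {P : Type} [Preorder P] {q : P} {a b : Set L} {x y : L → Set P}
    (h : b ⊆ a) (he : EqOn q a x y) : EqOn q b x y :=
  fun l hl r hr => he l (h hl) r hr

theorem eqOn_symm {P : Type} [Preorder P] {q : P} {a : Set L} {x y : L → Set P}
    (he : EqOn q a x y) : EqOn q a y x :=
  fun l hl r hr => (he l hl r hr).symm

theorem eqOn_trans {P : Type} [Preorder P] {q : P} {a : Set L} {x y z : L → Set P}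
    (he : EqOn q a x y) (he' : EqOn q a y z) : EqOn q a x z :=
  fun l hl r hr => (he l hl r hr).trans (he' l hl r hr)

theorem trc_mono {u v : Pre K W} (h : v ≤ u) : trc t v ≤ trc t u := by
  classical
  refine ⟨⟨fun τ hτ => ⟨h.1.1 hτ.1, hτ.2⟩, fun Q hQ => ⟨h.1.2 hQ.1, hQ.2⟩⟩, ?_⟩
  intro a ha
  simp only [trc, Finset.mem_filter] at ha ⊢
  exact ⟨h.2 ha.1, ha.2⟩

theorem le_trc (u : Pre K W) : u ≤ trc t u := by
  classical
  refine ⟨⟨fun τ hτ => hτ.1, fun Q hQ => hQ.1⟩, ?_⟩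
  intro a ha
  simp only [trc, Finset.mem_filter] at ha
  exact ha.1

theorem trc_le (ht : t.Ok) {v m : PP K W} (hm : t.In m) (h : v ≤ m) : trc t v.1 ≤ m.1 := by
  classical
  refine ⟨⟨fun τ hτ => ⟨h.1.1 hτ, ?_⟩, fun Q hQ => ⟨h.1.2 hQ, ?_⟩⟩, ?_⟩
  · exact (ht.ini τ).1 (hm.1 τ hτ)
  · exact (ht.tr.2 Q (m.1.base.nd Q hQ).ctbl).2 ((ht.ini _).1 (hm.2.1 Q hQ))
  · intro a ha
    simp only [trc, Finset.mem_filter]
    exact ⟨h.2 ha, (hm.2.2 a ha).1⟩

theorem comp_mono {m m' : PP K W} {s : C0 K} (h : m' ≤ m) (hc : Comp t m s) : Comp t m' s :=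
  ⟨hc.1, h.1.trans hc.2⟩

theorem eqOn_trc (h12 : S_g1 K W) (h13 : S_g2 K W) (h14 : S_g3 K W) (h16 : S_nam K W)
    (ht : t.Ok) {v μ : PP K W} (hv : t.α ∈ v.1.base.A) (hμ : μ.1 = trc t v.1) {a : Set L}
    (ha : a ⊆ t.mL) {y y' : L → Set (PP K W)} (hy : y ∈ t.mN) (hy' : y' ∈ t.mN)
    (he : EqOn v a y y') : EqOn μ a y y' := by
  have key : ∀ {y y' : L → Set (PP K W)}, y ∈ t.mN → y' ∈ t.mN → EqOn v a y y' →
      ∀ l ∈ a, ∀ q' ≤ μ, q' ∈ meets (y l) → q' ∈ meets (y' l) := by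
    intro y y' hy hy' he l hl q' hq' hm
    by_contra hcon
    obtain ⟨q0, hq0, hn⟩ := not_meets hcon
    obtain ⟨q1, hq1, hα, _⟩ := h14 q0 t.α ht.tr
    obtain ⟨μ1, hμ1, hin⟩ := h12 L t ht q1 hα
    have hle : μ1 ≤ μ := by
      show μ1.1 ≤ μ.1
      rw [hμ1]
      have hinμ : t.In μ := by
        obtain ⟨m, hm, hin⟩ := h12 L t ht v hv
        have : m = μ := Subtype.ext (hm.trans hμ.symm)
        exact this ▸ hin
      exact trc_le t ht hinμ ((hq1.trans hq0).trans hq')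
    have hm1 : μ1 ∈ meets (y l) := (h16 L t ht y hy l (ha hl) q1 μ1 hα hμ1).1
      (meets_down (hq1.trans hq0) hm)
    have hm2 : μ1 ∉ meets (y' l) := fun h =>
      hn q1 hq1 ((h16 L t ht y' hy' l (ha hl) q1 μ1 hα hμ1).2 h)
    obtain ⟨μ2, hμ2, hin2, hn2⟩ := ht.nam y' hy' l (ha hl) μ1 hin hm2
    obtain ⟨w, hw, hwμ⟩ := h13 L t ht v hv μ2 hin2 (by
      have h : μ2.1 ≤ μ.1 := hμ2.trans hle
      rwa [hμ] at h)
    exact hn2 w hwμ ((he l hl w hw).1 (meets_down (hwμ.trans hμ2) hm1))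
  intro l hl q' hq'
  exact ⟨key hy hy' he l hl q' hq', key hy' hy (eqOn_symm he) l hl q' hq'⟩

end model

theorem k1 (h1 : S_relSall K W) (h2 : S_ccForall) (h3 : S_ccDiag) (h4 : S_ccMap) (h5 : S_ccExists) (h6 : S_ccNode)
    (h7 : S_ccPre K W) (h8 : S_ccIn K W) (h9 : S_addNode K) (h10 : S_res K) (h11 : S_ext K W) (h12 : S_g1 K W) (h13 : S_g2 K W)
    (h14 : S_g3 K W) (h15 : S_g5 K W) (h16 : S_nam K W) (h17 : S_tokFin K W) : S_K1 K W := by
  intro L t ht p d hpα hap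
  obtain ⟨N, hNc, hNode, hNp, hN0, hNy, hcl⟩ := exists_model t p d h1 h2 h3 h4 h5 h6 h8 h17
  have hcl' : ∀ (s : C0 K) (e : PP K W) (a : Set L) (y : L → Set (PP K W)),
      s.Inside (KN (NT N)) → InTok (NT N) e.1 → Sum.inr (Sum.inl a) ∈ N →
        Sum.inr (Sum.inr (Sum.inl y)) ∈ N → Cl t p d N (ofBase s, e, a, y) := by
    intro s e a y hs he ha hy
    exact hcl _ (supp_iff.2 ⟨inTok_ofBase.2 hs, he, ha, hy⟩)
  have hαN : t.α ∈ KN (NT N) := hNp.1 _ hpα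
  -- add the node
  obtain ⟨r0, hr0, hr0N⟩ := h9 p.1.base (KN (NT N)) hNode
    ⟨fun τ hτ => hNp.1 τ hτ, fun Q hQ => hNp.2.1 Q hQ⟩
  obtain ⟨pN, hpNb, hpNt⟩ := h11 p r0 hr0
  have hpN : pN ≤ p := by
    show pN.1 ≤ p.1
    refine ⟨by rw [hpNb]; exact hr0, by rw [hpNt]⟩
  -- decide d on the model
  have haN : {l : L | l ∈ t.mL ∧ Sum.inr (Sum.inr (Sum.inr l)) ∈ N}.Countable := by
    have h := hNc.preimage_of_injOn (f := fun l : L => (Sum.inr (Sum.inr (Sum.inr l)) : Obj K W L))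
      (fun a _ b _ hab => by simpa using hab)
    exact h.mono fun l hl => hl.2
  obtain ⟨q, hq, y, hy, hqy⟩ := hap _ haN (fun l hl => hl.1) pN hpN
  have hqN : KN (NT N) ∈ q.1.base.Nd := hq.1.2 (by rw [hpNb]; exact hr0N)
  have hqp : q ≤ p := hq.trans hpN
  have hqα : t.α ∈ q.1.base.A := hqp.1.1 hpα
  obtain ⟨s, hsA, hsN⟩ := h10 q.1.base (KN (NT N)) hqN
  obtain ⟨m, hm, hmin⟩ := h12 L t ht q hqα
  have hsin : s.Inside (KN (NT N)) := by
    refine ⟨?_, ?_⟩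
    · rw [hsA]; exact inter_subset_right
    · intro Q hQ
      rw [hsN] at hQ
      exact hQ.2
  have hqs : q.1.base ≤ s := by
    refine ⟨?_, ?_⟩
    · rw [hsA]; exact inter_subset_left
    · rw [hsN]; exact fun Q hQ => hQ.1
  -- the amalgamation
  have club : ∀ s2 ≤ s, s2.Inside (KN (NT N)) → ∀ m' : PP K W, m' ≤ m → t.In m' →
      Comp t m' s2 → ∃ u : PP K W, u ≤ q ∧ u ≤ m' ∧ u.1.base ≤ s2 := by
    intro s2 hs2 hin m' hm' hinm' hc
    refine h15 L t ht q (KN (NT N)) hqα hqN s2 hin ?_ ?_ m' hinm' ?_ hc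
    · rw [← hsA]; exact hs2.1
    · intro Q hQ hQN
      refine hs2.2 ?_
      rw [hsN]
      exact ⟨hQ, hQN⟩
    · rw [← hm]; exact hm'
  -- traces of conditions below q
  have trm : ∀ v : PP K W, v ≤ q → ∃ μ : PP K W, μ.1 = trc t v.1 ∧ t.In μ ∧ μ ≤ m ∧ v ≤ μ ∧
      ∀ m' : PP K W, t.In m' → v ≤ m' → μ ≤ m' := by
    intro v hv
    obtain ⟨μ, hμ, hin⟩ := h12 L t ht v (hv.1.1 hqα)
    refine ⟨μ, hμ, hin, ?_, ?_, ?_⟩
    · show μ.1 ≤ m.1
      rw [hμ, hm]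
      exact trc_mono t hv
    · show v.1 ≤ μ.1
      rw [hμ]
      exact le_trc t v.1
    · intro m' hm' hvm'
      show μ.1 ≤ m'.1
      rw [hμ]
      exact trc_le t ht hm' hvm'
  -- the case of a in the model
  have inN : ∀ a : Set L, a.Countable → a ⊆ t.mL → Sum.inr (Sum.inl a) ∈ N → ∀ m' ≤ m, t.In m' →
      ∃ m'' ≤ m', t.In m'' ∧ ∃ y ∈ t.mN, Psi t p d m'' s a y := by
    intro a hac haL haN' m' hm' hinm'
    have hcl1 := hcl' s p a _ hsin hNp haN' hNy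
    have hasub : a ⊆ {l : L | l ∈ t.mL ∧ Sum.inr (Sum.inr (Sum.inr l)) ∈ N} :=
      fun l hl => ⟨haL hl, hcl1.c1 hac l hl⟩
    obtain ⟨u, huq, hum'⟩ := h13 L t ht q hqα m' hinm' (by rw [← hm]; exact hm')
    obtain ⟨e, he, heN, v, hvu, hve⟩ := hcl1.c2 u (huq.1.2 hqN)
    have hvq : v ≤ q := hvu.trans huq
    have heE : e ∈ E0 t p d a := by
      rcases he with he | he
      · exact he
      · exfalso
        obtain ⟨q'', hq'', z, hz, hqz⟩ := hap a hac haL v (hvq.trans hqp)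
        exact he q'' (hq''.trans hve) ⟨(hq''.trans hvq).trans hqp, z, hz, hqz⟩
    obtain ⟨ye, hye, hed, hyeN⟩ := (hcl' s e a _ hsin heN haN' hNy).c3 heE
    -- the trace of v knows that y and ye agree on a
    obtain ⟨m1, hm1, hin1, hm1m, hvm1, hm1'⟩ := trm v hvq
    have hvyye : EqOn v a y ye := eqOn_trans
      (eqOn_symm (eqOn_mono hvq (eqOn_sub hasub hqy))) (eqOn_mono hve hed)
    have hm1y : EqOn m1 a y ye :=
      eqOn_trc t h12 h13 h14 h16 ht (hvq.1.1 hqα) hm1 haL hy hye hvyye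
    -- second dense set
    have hcl2 := hcl' s e a ye hsin heN haN' hyeN
    obtain ⟨e', he', he'N, v', hv'v, hv'e'⟩ := hcl2.c4 v (hvq.1.2 hqN)
    have hv'q : v' ≤ q := hv'v.trans hvq
    obtain ⟨m2, hm2, hin2, hm2m, hv'm2, hm2'⟩ := trm v' hv'q
    have hm2m1 : m2 ≤ m1 := hm2' m1 hin1 (hv'v.trans hvm1)
    refine ⟨m2, hm2' m' hinm' ((hv'v.trans hvu).trans hum'), hin2, ye, hye, ?_⟩
    rcases he' with he' | he'
    · exfalso
      obtain ⟨μ, hμ, s', ⟨hs's, hcomp, hno⟩, hs'in⟩ := (hcl' s e' a ye hsin he'N haN' hyeN).c5 he'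
      have hm2μ : m2 ≤ μ := by
        show m2.1 ≤ μ.1
        rw [hm2, hμ]
        exact trc_mono t hv'e'
      obtain ⟨w, hwq, hwm2, hws'⟩ := club s' hs's hs'in m2 hm2m hin2 (comp_mono t hm2μ hcomp)
      refine hno ⟨w, hwq.trans hqp, hwm2.trans hm2μ, hws', ?_⟩
      exact eqOn_trans (eqOn_mono hwq (eqOn_sub hasub hqy))
        (eqOn_mono (hwm2.trans hm2m1) hm1y)
    · intro m3 hm3 hin3 s' hs's hcomp
      by_contra hno
      obtain ⟨w, hwv', hwm3⟩ := h13 L t ht v' (hv'q.1.1 hqα) m3 hin3 (by rw [← hm2]; exact hm3)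
      have hwq : w ≤ q := hwv'.trans hv'q
      obtain ⟨μ, hμ, hinμ, hμm, hwμ, hμ'⟩ := trm w hwq
      have hμ3 : μ ≤ m3 := hμ' m3 hin3 hwm3
      refine he' w (hwv'.trans hv'e') ⟨hwq.1.1 hqα, μ, hμ, s', hs's, comp_mono t hμ3 hcomp, ?_⟩
      rintro ⟨q', h1', h2', h3', h4'⟩
      exact hno ⟨q', h1', h2'.trans hμ3, h3', h4'⟩
  refine ⟨s, m, hmin, ⟨?_, ?_⟩, ?_⟩
  · rw [hsA]; exact ⟨hqα, hαN⟩
  · rw [hm]
    exact ⟨fun τ hτ => ⟨hqs.1 hτ.1, hτ.2⟩, fun Q hQ => ⟨hqs.2 hQ.1, hQ.2⟩⟩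
  · intro a hac haL m' hm' hinm'
    by_contra hcon
    push Not at hcon
    obtain ⟨u, huq, hum'⟩ := h13 L t ht q hqα m' hinm' (by rw [← hm]; exact hm')
    obtain ⟨e, he, heN, v, hvu, hve⟩ := (hcl' s p ∅ _ hsin hNp hN0 hNy).c6 u (huq.1.2 hqN)
    have hvq : v ≤ q := hvu.trans huq
    obtain ⟨m1, hm1, hin1, hm1m, hvm1, hm1'⟩ := trm v hvq
    have hm1m' : m1 ≤ m' := hm1' m' hinm' (hvu.trans hum')
    rcases he with he | he
    · obtain ⟨μ, hμ, b, ⟨hbc, hbL, hb⟩, hbN⟩ := (hcl' s e ∅ _ hsin heN hN0 hNy).c7 he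
      obtain ⟨m2, hm2, hin2, z, hz, hpsi⟩ := inN b hbc hbL hbN m1 hm1m hin1
      have hm1μ : m1 ≤ μ := by
        show m1.1 ≤ μ.1
        rw [hm1, hμ]
        exact trc_mono t hve
      exact hb m2 (hm2.trans hm1μ) hin2 z hz hpsi
    · exact he v hve ⟨hvq.1.1 hqα, m1, hm1, a, hac, haL, fun μ' hμ' hin' z hz =>
        hcon μ' (hμ'.trans hm1m') hin' z hz⟩

end Pool.Agent.H915.K1
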