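import Pool.Agent.H915.Lit

/-!
# The typed form of `IGMP(ω₂, ω₁)` and the sentence of the forcing language over one condition
-/

set_option autoImplicit false

namespace Pool.Agent.H915.L1

open Cardinal Set Pool.Agent.Helper669.Forcing
open Pool.Agent.W905.HalfCohen (PosetName)
open Pool.Agent.W684.FM (OmegaOnePreserved)

/-! ### General facts on the forcing language -/

section General

universe v

variable {P : Type} [Preorder P]

/-- regular sets of conditions -/
def Reg (φ : Set P) : Prop := ∀ p, (∀ q ≤ p, ∃ r ≤ q, r ∈ φ) → p ∈ φ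

theorem reg_fnot {φ : Set P} (h : Down φ) : Reg (fnot φ) := by
  intro p hp q hq hqφ
  obtain ⟨r, hr, hr'⟩ := hp q hq
  exact hr' r le_rfl (h q hqφ r hr)

theorem reg_fand {φ ψ : Set P} (h : Reg φ) (h' : Reg ψ) : Reg (fand φ ψ) := by
  intro p hp
  refine ⟨h p fun q hq => ?_, h' p fun q hq => ?_⟩
  · obtain ⟨r, hr, hr'⟩ := hp q hq
    exact ⟨r, hr, hr'.1⟩
  · obtain ⟨r, hr, hr'⟩ := hp q hq
    exact ⟨r, hr, hr'.2⟩

theorem reg_fall {ι : Sort v} {φ : ι → Set P} (h : ∀ i, Reg (φ i)) : Reg (fall φ) := by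
  intro p hp i
  refine h i p fun q hq => ?_
  obtain ⟨r, hr, hr'⟩ := hp q hq
  exact ⟨r, hr, hr' i⟩

theorem reg_fimp (φ ψ : Set P) (h : Down φ) : Reg (fimp φ ψ) :=
  reg_fnot (down_fand h (down_fnot _))

theorem reg_fex {ι : Sort v} (φ : ι → Set P) : Reg (fex φ) :=
  reg_fnot (down_fall fun _ => down_fnot _)

theorem reg_fground (h : Prop) : Reg (fground (P := P) h) := by
  intro p hp
  obtain ⟨r, _, hr⟩ := hp p le_rfl
  exact hr

theorem reg_meets (N : Set P) : Reg (meets N) := by
  intro p hp q hq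
  obtain ⟨r, hr, hr'⟩ := hp q hq
  obtain ⟨s, hs, t, ht, hst⟩ := hr' r le_rfl
  exact ⟨s, hs.trans hr, t, ht, hst⟩

theorem down_fiff (φ ψ : Set P) : Down (fiff φ ψ) := down_fand (down_fimp _ _) (down_fimp _ _)

theorem reg_fiff {φ ψ : Set P} (h : Down φ) (h' : Down ψ) : Reg (fiff φ ψ) :=
  reg_fand (reg_fimp _ _ h) (reg_fimp _ _ h')

theorem meets_eq {φ : Set P} (h : Down φ) (h' : Reg φ) : meets φ = φ := by
  ext p
  constructor
  · intro hp
    refine h' p fun q hq => ?_
    obtain ⟨r, hr, s, hs, hrs⟩ := hp q hq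
    exact ⟨r, hr, h s hs r hrs⟩
  · intro hp
    exact meets_of_mem hp

theorem meets_fground (h : Prop) : meets (fground (P := P) h) = fground h :=
  meets_eq (down_fground h) (reg_fground h)

theorem fimp_fground_left (a : Prop) (φ : Set P) (hd : Down φ) (hr : Reg φ) :
    fimp (fground a) φ = fall fun _ : a => φ := by
  ext p
  rw [mem_fimp, mem_fall]
  constructor
  · intro h ha
    exact hr p fun q hq => h q hq ha
  · intro h q hq ha
    exact ⟨q, le_rfl, hd p (h ha) q hq⟩

theorem fimp_fground (a b : Prop) : fimp (fground (P := P) a) (fground b) = fground (a → b) := by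
  ext p
  rw [mem_fimp, mem_fground]
  constructor
  · intro h ha
    obtain ⟨r, _, hr⟩ := h p le_rfl ha
    exact hr
  · intro h q _ ha
    exact ⟨q, le_rfl, h ha⟩

theorem fiff_fground (a b : Prop) :
    fiff (P := P) (fground a) (fground b) = fground (a ↔ b) := by
  unfold fiff
  rw [fimp_fground, fimp_fground]
  ext p
  rw [mem_fand, mem_fground, mem_fground, mem_fground]
  exact ⟨fun h => ⟨h.1, h.2⟩, fun h => ⟨h.1, h.2⟩⟩

omit [Preorder P] in
theorem fall_fground {ι : Sort v} (a : ι → Prop) :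
    fall (fun i => fground (P := P) (a i)) = fground (∀ i, a i) := by
  ext p
  exact Iff.rfl

theorem fex_fground {ι : Sort v} (a : ι → Prop) :
    fex (fun i => fground (P := P) (a i)) = fground (∃ i, a i) := by
  ext p
  rw [mem_fex, mem_fground]
  constructor
  · intro h
    obtain ⟨r, _, i, hr⟩ := h p le_rfl
    exact ⟨i, hr⟩
  · rintro ⟨i, hi⟩ q _
    exact ⟨q, le_rfl, i, hi⟩

/-! ### Ground model sets which are forced to be countable -/

theorem ctblN_of_countable {L : Type} {S : Set L} (hS : S.Countable) (q : P) :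
    q ∈ CtblN (fun l : L => fground (P := P) (l ∈ S)) := by
  classical
  obtain ⟨f, hf⟩ := Set.countable_iff_exists_injOn.1 hS
  unfold CtblN
  refine mem_fex_of_mem (fun n l => fground (l ∈ S ∧ f l = n)) ?_ ?_
  · refine down_fand (down_fall fun _ => down_fall fun _ => down_fall fun _ => down_fimp _ _)
      (down_fall fun _ => down_fimp _ _)
  · refine ⟨fun n l l' => ?_, fun l => ?_⟩
    · rw [mem_fimp]
      rintro r _ ⟨h1, h2⟩
      rw [meets_fground, mem_fground] at h1 h2
      exact ⟨r, le_rfl, hf h1.1 h2.1 (h1.2.trans h2.2.symm)⟩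
    · rw [mem_fimp]
      intro r _ h1
      rw [meets_fground, mem_fground] at h1
      refine ⟨r, le_rfl, mem_fex_of_mem (f l) (down_meets _) ?_⟩
      rw [meets_fground]
      exact ⟨h1, rfl⟩

theorem countable_of_ctblN {L : Type} {S : Set L} (q : P) (hq : q ∈ OmegaOnePreserved P)
    (h : q ∈ CtblN (fun l : L => fground (P := P) (l ∈ S))) : S.Countable := by
  classical
  by_contra hS
  -- an injection of `ω₁` into `S`
  have hcard : ℵ₁ ≤ #S := by
    rw [← Cardinal.succ_aleph0]
    apply Order.succ_le_of_lt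
    rw [← not_le]
    intro h1
    exact hS ((Cardinal.le_aleph0_iff_set_countable).1 h1)
  have hinj : #Om1 ≤ #S := by
    have : #Om1 = ℵ₁ := Cardinal.mk_ord_toType _
    rw [this]
    exact hcard
  obtain ⟨j⟩ := hinj
  obtain ⟨p, hpq, g, hg1, hg2⟩ := mem_fex.1 h q le_rfl
  -- the enumeration of `ω₁`
  obtain ⟨a0⟩ : Nonempty Om1 := inferInstance
  let R : ℕ → Om1 → Set P := fun n a =>
    {r | r ∈ meets (g n (j a)) ∨ (a = a0 ∧ ∀ b, r ∈ fnot (meets (g n (j b))))}
  have hRd : ∀ n a, Down (R n a) := by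
    intro n a r hr s hs
    rcases hr with hr | ⟨h1, h2⟩
    · exact Or.inl (down_meets _ r hr s hs)
    · exact Or.inr ⟨h1, fun b => down_fnot _ r (h2 b) s hs⟩
  apply hq p hpq
  refine mem_fex_of_mem R (down_fand (down_IsFun _) (down_IsOnto _)) ⟨⟨fun n => ?_, ?_⟩, ?_⟩
  · rw [mem_fex]
    intro r hr
    by_cases hex : ∃ s ≤ r, ∃ a, s ∈ meets (g n (j a))
    · obtain ⟨s, hs, a, ha⟩ := hex
      exact ⟨s, hs, a, meets_of_mem (Or.inl ha)⟩
    · push Not at hex
      refine ⟨r, le_rfl, a0, meets_of_mem (Or.inr ⟨rfl, fun b s hs => hex s hs b⟩)⟩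
  · intro n a a'
    rw [mem_fimp]
    rintro r hr ⟨h1, h2⟩
    obtain ⟨s, hs, hs1⟩ := exists_of_meets (hRd n a) h1
    obtain ⟨t, ht, ht1⟩ := exists_of_meets (hRd n a') (down_meets _ r h2 s hs)
    have hs2 := hRd n a s hs1 t ht
    have key : a = a' := by
      rcases hs2 with h3 | ⟨h3, h3'⟩
      · rcases ht1 with h4 | ⟨h4, h4'⟩
        · obtain ⟨u, _, hu⟩ := mem_fimp.1 (hg1 n (j a) (j a')) t (ht.trans (hs.trans hr)) ⟨h3, h4⟩
          exact j.injective (Subtype.ext hu)
        · exact absurd h3 (h4' a t le_rfl)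
      · rcases ht1 with h4 | ⟨h4, h4'⟩
        · exact absurd h4 (h3' a' t le_rfl)
        · rw [h3, h4]
    exact ⟨t, ht.trans hs, key⟩
  · intro a
    rw [mem_fex]
    intro r hr
    have h1 : r ∈ meets (fground (P := P) ((j a : L) ∈ S)) := by
      rw [meets_fground]
      exact (j a).2
    obtain ⟨s, hs, hs1⟩ := mem_fimp.1 (hg2 (j a)) r hr h1
    obtain ⟨t, ht, n, hn⟩ := mem_fex.1 hs1 s le_rfl
    exact ⟨t, ht.trans hs, n, meets_of_mem (Or.inl hn)⟩

/-! ### Guessing, typed form -/

/-- the typed form of the approximation property -/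
def TA {L : Type} (Y : Om1 → Set L) (d : L → Set P) : Set P :=
  fall fun j : Om1 => fall fun _ : (Y j).Countable => fex fun k : Om1 =>
    fall fun l : L => fiff (fand (meets (d l)) (fground (l ∈ Y j))) (fground (l ∈ Y k))

/-- the typed form of the guessing property -/
def TG {L : Type} (Y : Om1 → Set L) (d : L → Set P) : Set P :=
  fex fun k : Om1 => fall fun l : L => fall fun _ : (∃ j, Y j = {l}) =>
    fiff (meets (d l)) (fground (l ∈ Y k))

theorem approx_eq {L : Type} (hP : ∀ q : P, q ∈ OmegaOnePreserved P) (Y : Om1 → Set L)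
    (d : L → Set P) : ApproxN (fun j l => fground (P := P) (l ∈ Y j)) d = TA Y d := by
  unfold ApproxN TA
  congr 1
  funext j
  have h1 : CtblN (fun l : L => fground (P := P) (l ∈ Y j)) = fground (Y j).Countable := by
    ext q
    constructor
    · intro hq
      exact countable_of_ctblN q (hP q) hq
    · intro hq
      exact ctblN_of_countable hq q
  rw [h1, fimp_fground_left _ _ (down_fex _) (reg_fex _)]
  congr 1
  funext _
  congr 1
  funext k
  unfold SEq
  congr 1
  funext l
  unfold inter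
  rw [meets_fground, meets_fground, meets_eq]
  · exact down_fand (down_meets _) (down_fground _)
  · exact reg_fand (reg_meets _) (reg_fground _)

theorem guessed_eq {L : Type} (Y : Om1 → Set L) (d : L → Set P) :
    GuessedN (fun j l => fground (P := P) (l ∈ Y j)) d = TG Y d := by
  unfold GuessedN TG
  congr 1
  funext k
  congr 1
  funext l
  have h1 : (fex fun j : Om1 => SEq (fun l => fground (P := P) (l ∈ Y j)) (sing l)) =
      fground (∃ j, Y j = {l}) := by
    rw [← fex_fground]
    congr 1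
    funext j
    unfold SEq sing
    simp only [meets_fground, fiff_fground, fall_fground]
    congr 1
    apply propext
    rw [Set.ext_iff]
    exact Iff.rfl
  rw [h1, meets_fground, fimp_fground_left]
  · exact down_fiff _ _
  · exact reg_fiff (down_meets _) (down_fground _)

theorem guessing_iff {L : Type} (hP : ∀ q : P, q ∈ OmegaOnePreserved P) (Y : Om1 → Set L)
    (q : P) : q ∈ GuessingN (fun j l => fground (P := P) (l ∈ Y j)) ↔
      ∀ d : L → Set P, q ∈ fimp (TA Y d) (TG Y d) := by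
  unfold GuessingN
  rw [mem_fall]
  simp only [approx_eq hP, guessed_eq]

end General

/-! ### Isomorphic preorders -/

section Iso

universe v

variable {P P' : Type} [Preorder P] [Preorder P'] (e : P ≃ P') (he : ∀ p q, e p ≤ e q ↔ p ≤ q)

include he

theorem pull_fnot (φ : Set P') : e ⁻¹' (fnot φ) = fnot (e ⁻¹' φ) := by
  ext p
  constructor
  · intro h q hq hq'
    exact h (e q) ((he q p).2 hq) hq'
  · intro h q hq hq'
    have h1 : e (e.symm q) = q := e.apply_symm_apply q
    refine h (e.symm q) ?_ ?_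
    · rw [← he, h1]
      exact hq
    · show e (e.symm q) ∈ φ
      rw [h1]
      exact hq'

omit [Preorder P] [Preorder P'] he in
theorem pull_fand (φ ψ : Set P') : e ⁻¹' (fand φ ψ) = fand (e ⁻¹' φ) (e ⁻¹' ψ) := rfl

omit [Preorder P] [Preorder P'] he in
theorem pull_fall {ι : Sort v} (φ : ι → Set P') : e ⁻¹' (fall φ) = fall fun i => e ⁻¹' (φ i) := rfl

theorem pull_fimp (φ ψ : Set P') : e ⁻¹' (fimp φ ψ) = fimp (e ⁻¹' φ) (e ⁻¹' ψ) := by
  unfold fimp
  rw [pull_fnot e he, pull_fand, pull_fnot e he]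

theorem pull_fex {ι : Sort v} (φ : ι → Set P') : e ⁻¹' (fex φ) = fex fun i => e ⁻¹' (φ i) := by
  unfold fex
  rw [pull_fnot e he, pull_fall]
  congr 2
  funext i
  rw [pull_fnot e he]

omit [Preorder P] [Preorder P'] he in
theorem pull_fground (h : Prop) : e ⁻¹' (fground (P := P') h) = fground h := rfl

theorem pull_fiff (φ ψ : Set P') : e ⁻¹' (fiff φ ψ) = fiff (e ⁻¹' φ) (e ⁻¹' ψ) := by
  unfold fiff
  rw [pull_fand, pull_fimp e he, pull_fimp e he]

theorem pull_meets (N : Set P') : e ⁻¹' (meets N) = meets (e ⁻¹' N) := by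
  ext p
  constructor
  · intro h q hq
    obtain ⟨r, hr, s, hs, hrs⟩ := h (e q) ((he q p).2 hq)
    refine ⟨e.symm r, ?_, e.symm s, ?_, ?_⟩
    · rw [← he, e.apply_symm_apply]
      exact hr
    · show e (e.symm s) ∈ N
      rw [e.apply_symm_apply]
      exact hs
    · rw [← he, e.apply_symm_apply, e.apply_symm_apply]
      exact hrs
  · intro h q hq
    obtain ⟨r, hr, s, hs, hrs⟩ := h (e.symm q) (by rw [← he, e.apply_symm_apply]; exact hq)
    refine ⟨e r, ?_, e s, hs, (he r s).2 hrs⟩
    have := (he r (e.symm q)).2 hr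
    rwa [e.apply_symm_apply] at this

omit he in
theorem fex_reindex {ι κ : Type v} (f : ι → κ) (hf : Function.Surjective f) (φ : κ → Set P) :
    fex (fun i => φ (f i)) = fex φ := by
  ext p
  rw [mem_fex, mem_fex]
  constructor
  · intro h q hq
    obtain ⟨r, hr, i, hi⟩ := h q hq
    exact ⟨r, hr, f i, hi⟩
  · intro h q hq
    obtain ⟨r, hr, i, hi⟩ := h q hq
    obtain ⟨k, rfl⟩ := hf i
    exact ⟨r, hr, k, hi⟩

theorem pull_isFun {X Y : Type} (R : X → Y → Set P') :
    e ⁻¹' (IsFun R) = IsFun fun x y => e ⁻¹' (R x y) := by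
  unfold IsFun
  simp only [pull_fand, pull_fall, pull_fex e he, pull_fimp e he, pull_meets e he, pull_fground]

theorem pull_isOnto {X Y : Type} (R : X → Y → Set P') :
    e ⁻¹' (IsOnto R) = IsOnto fun x y => e ⁻¹' (R x y) := by
  unfold IsOnto
  simp only [pull_fall, pull_fex e he, pull_meets e he]

theorem pull_om1 : e ⁻¹' (OmegaOnePreserved P') = OmegaOnePreserved P := by
  unfold OmegaOnePreserved
  rw [pull_fnot e he, pull_fex e he]
  congr 1
  simp only [pull_fand, pull_isFun e he, pull_isOnto e he]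
  refine fex_reindex (fun R : ℕ → Om1 → Set P' => fun n a => e ⁻¹' (R n a)) ?_
    (fun R : ℕ → Om1 → Set P => fand (IsFun R) (IsOnto R))
  intro R
  refine ⟨fun n a => e.symm ⁻¹' (R n a), ?_⟩
  funext n a
  ext p
  show e.symm (e p) ∈ R n a ↔ p ∈ R n a
  rw [e.symm_apply_apply]

theorem pull_TA {L : Type} (Y : Om1 → Set L) (d : L → Set P') :
    e ⁻¹' (TA Y d) = TA Y fun l => e ⁻¹' (d l) := by
  unfold TA
  simp only [pull_fall, pull_fex e he, pull_fiff e he, pull_fand, pull_meets e he, pull_fground]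

theorem pull_TG {L : Type} (Y : Om1 → Set L) (d : L → Set P') :
    e ⁻¹' (TG Y d) = TG Y fun l => e ⁻¹' (d l) := by
  unfold TG
  simp only [pull_fall, pull_fex e he, pull_fiff e he, pull_meets e he, pull_fground]

end Iso

/-! ### The forcing language over one condition -/

section One

universe v

theorem one_fnot (φ : Set Unit) : () ∈ fnot φ ↔ () ∉ φ :=
  ⟨fun h => h () le_rfl, fun h _ _ => h⟩

theorem one_fimp (φ ψ : Set Unit) : () ∈ fimp φ ψ ↔ (() ∈ φ → () ∈ ψ) := by
  rw [mem_fimp]
  constructor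
  · intro h h1
    obtain ⟨r, _, hr⟩ := h () le_rfl h1
    exact hr
  · intro h q _ h1
    exact ⟨(), le_rfl, h h1⟩

theorem one_fex {ι : Sort v} (φ : ι → Set Unit) : () ∈ fex φ ↔ ∃ i, () ∈ φ i := by
  rw [mem_fex]
  constructor
  · intro h
    obtain ⟨r, _, i, hi⟩ := h () le_rfl
    exact ⟨i, hi⟩
  · rintro ⟨i, hi⟩ q _
    exact ⟨(), le_rfl, i, hi⟩

theorem one_meets (N : Set Unit) : () ∈ meets N ↔ () ∈ N := by
  constructor
  · intro h
    obtain ⟨_, _, s, hs, _⟩ := h () le_rfl
    exact hs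
  · intro h
    exact meets_of_mem h

/-- the set named by a name -/
def toSet {L : Type} (x : L → Set Unit) : Set L := {l | () ∈ x l}

/-- the canonical name of a set -/
def toName {L : Type} (s : Set L) : L → Set Unit := fun l => fground (l ∈ s)

theorem toSet_toName {L : Type} (s : Set L) : toSet (toName s) = s := rfl

theorem toName_toSet {L : Type} (x : L → Set Unit) : toName (toSet x) = x := by
  funext l
  ext u
  exact Iff.rfl

theorem toName_inj {L : Type} {s t : Set L} (h : toName s = toName t) : s = t := by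
  rw [← toSet_toName s, h, toSet_toName]

theorem one_SEq {L : Type} (x y : L → Set Unit) : () ∈ SEq x y ↔ x = y := by
  unfold SEq fiff
  rw [mem_fall]
  constructor
  · intro h
    funext l
    ext u
    have h1 := h l
    rw [mem_fand, one_fimp, one_fimp, one_meets, one_meets] at h1
    exact ⟨h1.1, h1.2⟩
  · rintro rfl l
    rw [mem_fand, one_fimp]
    exact ⟨id, id⟩

theorem one_ext {L : Type} (F : FnN L Unit) : () ∈ IsExtN F := by
  intro i n s t
  rw [one_fimp]
  intro h
  have : s = t := by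
    funext k
    exact (one_SEq _ _).1 (h k)
  rw [this, one_SEq]

theorem one_closed {L : Type} (F : FnN L Unit) (Y : Om1 → L → Set Unit) :
    () ∈ IsClosedN F Y ↔ ∀ i n (s : Fin n → L → Set Unit), (∀ k, ∃ j, s k = Y j) →
      ∃ j, F i n s = Y j := by
  unfold IsClosedN
  constructor
  · intro h i n s hs
    have h1 := (one_fimp _ _).1 (h i n s)
    obtain ⟨j, hj⟩ := (one_fex _).1 (h1 fun k => (one_fex _).2 (by
      obtain ⟨j, hj⟩ := hs k
      exact ⟨j, (one_SEq _ _).2 hj⟩))
    exact ⟨j, (one_SEq _ _).1 hj⟩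
  · intro h i n s
    rw [one_fimp]
    intro h1
    obtain ⟨j, hj⟩ := h i n s fun k => by
      obtain ⟨j, hj⟩ := (one_fex _).1 (h1 k)
      exact ⟨j, (one_SEq _ _).1 hj⟩
    exact (one_fex _).2 ⟨j, (one_SEq _ _).2 hj⟩

/-- a preorder as a name -/
def pn (Q : Type) [Preorder Q] : PosetName Unit where
  Q := Q
  le _ a b := a ≤ b
  mono _ h := h
  refl _ a := le_rfl
  trans h h' := h.trans h'
  dense h := by
    obtain ⟨_, _, h'⟩ := h () le_rfl
    exact h'

/-- a preorder and its two-step iteration -/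
def pnEquiv (Q : Type) [Preorder Q] : Q ≃ (pn Q).Iter where
  toFun q := ⟨(), q⟩
  invFun x := x.snd
  left_inv _ := rfl
  right_inv _ := rfl

theorem pnEquiv_le (Q : Type) [Preorder Q] (p q : Q) : pnEquiv Q p ≤ pnEquiv Q q ↔ p ≤ q :=
  ⟨fun h => h.2, fun h => ⟨le_rfl, h⟩⟩

/-- the typed form of indestructibility -/
def TInd {L : Type} (Y : Om1 → Set L) : Prop :=
  ∀ (Q : Type) [Preorder Q], (∀ q : Q, q ∈ OmegaOnePreserved Q) → ∀ (q : Q) (d : L → Set Q),
    q ∈ fimp (TA Y d) (TG Y d)

theorem one_indestr {L : Type} (Y : Om1 → Set L) :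
    () ∈ IndestrN (fun j => toName (Y j)) ↔ TInd Y := by
  constructor
  · intro h Q _ hQ q d
    have hom : ∀ x : (pn Q).Iter, x ∈ OmegaOnePreserved (pn Q).Iter := by
      intro x
      have h1 := pull_om1 (pnEquiv Q) (pnEquiv_le Q)
      have h2 : (pnEquiv Q).symm x ∈ pnEquiv Q ⁻¹' OmegaOnePreserved (pn Q).Iter := by
        rw [h1]
        exact hQ _
      exact h2
    have h1 := h (pn Q) () le_rfl (fun x _ => hom x) (pnEquiv Q q) le_rfl
    have h2 := (guessing_iff hom Y (pnEquiv Q q)).1 h1 fun l => (pnEquiv Q).symm ⁻¹' (d l)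
    have h3 : q ∈ pnEquiv Q ⁻¹' (fimp (TA Y fun l => (pnEquiv Q).symm ⁻¹' (d l))
        (TG Y fun l => (pnEquiv Q).symm ⁻¹' (d l))) := h2
    rw [pull_fimp _ (pnEquiv_le Q), pull_TA _ (pnEquiv_le Q), pull_TG _ (pnEquiv_le Q)] at h3
    exact h3
  · intro h Q p' _ hQ x hx
    have hom : ∀ x : Q.Iter, x ∈ OmegaOnePreserved Q.Iter := fun x => hQ x trivial
    exact (guessing_iff hom Y x).2 fun d => h Q.Iter hom x d

end One

theorem lit1 : S_lit1 := by
  unfold S_lit1 IGMPN TypedIGMP
  constructor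
  · intro h L F
    have h1 := (one_fimp _ _).1 (h L fun i n s => toName (F i n fun k => toSet (s k))) (one_ext _)
    obtain ⟨Y, hY1, hY2⟩ := (one_fex _).1 h1
    rw [one_closed] at hY1
    refine ⟨fun j => toSet (Y j), ?_, ?_⟩
    · intro i n s hs
      obtain ⟨j, hj⟩ := hY1 i n (fun k => toName (s k)) fun k => by
        obtain ⟨j, hj⟩ := hs k
        refine ⟨j, ?_⟩
        show toName (s k) = Y j
        rw [hj, toName_toSet]
      refine ⟨j, ?_⟩
      show F i n s = toSet (Y j)
      rw [← hj]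
      rfl
    · have h2 : Y = fun j => toName (toSet (Y j)) := by
        funext j
        rw [toName_toSet]
      rw [h2] at hY2
      exact (one_indestr _).1 hY2
  · intro h L F
    rw [one_fimp]
    intro _
    obtain ⟨Y, hY1, hY2⟩ := h L fun i n s => toSet (F i n fun k => toName (s k))
    rw [one_fex]
    refine ⟨fun j => toName (Y j), ?_, (one_indestr _).2 hY2⟩
    rw [one_closed]
    intro i n s hs
    obtain ⟨j, hj⟩ := hY1 i n (fun k => toSet (s k)) fun k => by
      obtain ⟨j, hj⟩ := hs k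
      refine ⟨j, ?_⟩
      show toSet (s k) = Y j
      rw [hj, toSet_toName]
    refine ⟨j, ?_⟩
    rw [← hj, toName_toSet]
    have h3 : (fun k => toName (toSet (s k))) = s := by
      funext k
      rw [toName_toSet]
    rw [h3]

end Pool.Agent.H915.L1
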