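import Pool.Agent.H915.Lit
import Pool.Agent.W873.Gmp.Club

/-!
# Plain forms: the typed form implies the principle
-/

set_option autoImplicit false

namespace Pool.Agent.H915.L2

open Cardinal Set Pool.Agent.Helper669.Forcing
open Pool.Agent.W873.Gmp (Hset ElemSub IsClubIn card_eq_shrink card_range_le)
open Pool.Agent.W684.FM (OmegaOnePreserved)

/-! ### The set `H(θ)` -/

theorem lit2_trans {θ : Cardinal.{0}} {x y : ZFSet.{0}} (hx : x ∈ Hset θ) (hy : y ∈ x) :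
    y ∈ Hset θ := by
  obtain ⟨t, ht, hxt, hc⟩ := hx
  exact ⟨t, ht, ht y (hxt hy), hc⟩

theorem lit2_sub {θ : Cardinal.{0}} {x y : ZFSet.{0}} (hx : x ∈ Hset θ) (hy : y ⊆ x) :
    y ∈ Hset θ := by
  obtain ⟨t, ht, hxt, hc⟩ := hx
  exact ⟨t, ht, fun z hz => hxt (hy hz), hc⟩

theorem lit2_empty {θ : Cardinal.{0}} (h : 0 < θ) : (∅ : ZFSet.{0}) ∈ Hset θ :=
  ⟨∅, ZFSet.isTransitive_empty, fun _ hz => hz, by rwa [ZFSet.card_empty]⟩

/-- the rank of a transitive set has at most as many elements as the set -/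
theorem lit2_rank (t : ZFSet.{0}) (ht : t.IsTransitive) : (t.rank).card ≤ t.card := by
  have key : ∀ y : ZFSet.{0}, y ∈ t → ∀ o ≤ y.rank, ∃ z ∈ t, z.rank = o := by
    intro y
    induction y using ZFSet.inductionOn with
    | _ y ih =>
      intro hy o ho
      rcases ho.lt_or_eq with h | h
      · obtain ⟨y', hy', ho'⟩ := ZFSet.lt_rank_iff.1 h
        exact ih y' hy' (ht y hy hy') o ho'
      · exact ⟨y, hy, h.symm⟩
  have key2 : ∀ o : Iio t.rank, ∃ z ∈ t, z.rank = o.1 := by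
    intro o
    obtain ⟨y, hy, ho'⟩ := ZFSet.lt_rank_iff.1 o.2
    exact key y hy o.1 ho'
  choose z hz hz' using key2
  have h1 : Cardinal.lift.{1} (t.rank).card ≤ Cardinal.lift.{1} t.card := by
    rw [← Cardinal.mk_Iio_ordinal, ← ZFSet.cardinalMk_coe_sort]
    refine mk_le_of_injective (f := fun o : Iio t.rank => (⟨z o, hz o⟩ : t)) ?_
    intro a b hab
    have h2 : z a = z b := congrArg Subtype.val hab
    apply Subtype.ext
    rw [← hz' a, ← hz' b, h2]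
  exact Cardinal.lift_le.1 h1

theorem lit2_small (θ : Cardinal.{0}) : _root_.Small.{0} (Hset θ) := by
  have h1 : Hset θ ⊆ {x : ZFSet.{0} | x ∈ ZFSet.vonNeumann θ.ord} := by
    rintro x ⟨t, ht, hxt, hc⟩
    show x ∈ ZFSet.vonNeumann θ.ord
    rw [ZFSet.mem_vonNeumann]
    refine (ZFSet.rank_mono hxt).trans_lt ?_
    rw [Cardinal.lt_ord]
    exact (lit2_rank t ht).trans_lt hc
  have h2 : _root_.Small.{0} {x : ZFSet.{0} | x ∈ ZFSet.vonNeumann θ.ord} :=
    inferInstanceAs (_root_.Small.{0} (ZFSet.vonNeumann θ.ord : ZFSet.{0}))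
  exact small_subset h1

/-- countable subsets of `H(θ)` are elements -/
theorem lit2_ctbl {θ : Cardinal.{0}} (hθ : θ.IsRegular) (h2 : ℵ_ 2 ≤ θ) {L : Type}
    (ev : L → ZFSet.{0}) (hmem : ∀ l, ev l ∈ Hset θ) (s : Set L) (hs : s.Countable) :
    ZFSet.range (fun l : s => ev l) ∈ Hset θ := by
  choose t ht hsub hcard using hmem
  have hθ0 : ℵ₀ < θ := by
    refine lt_of_lt_of_le ?_ h2
    rw [← aleph_zero]
    exact aleph_lt_aleph.2 (by norm_num)
  refine ⟨ZFSet.iUnion fun l : s => insert (ev l) (t l), ZFSet.IsTransitive.iUnion fun l => ?_,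
    fun x hx => ?_, ?_⟩
  · intro y hy z hz
    rw [ZFSet.mem_insert_iff] at hy ⊢
    rcases hy with rfl | hy
    · exact Or.inr (hsub l hz)
    · exact Or.inr (ht l y hy hz)
  · obtain ⟨l, rfl⟩ := ZFSet.mem_range.1 hx
    exact ZFSet.mem_iUnion.2 ⟨l, ZFSet.mem_insert_iff.2 (Or.inl rfl)⟩
  · have h1 := ZFSet.lift_card_iUnion_le_sum_card (f := fun l : s => insert (ev l) (t l))
    rw [Cardinal.lift_id] at h1
    refine h1.trans_lt (sum_lt_of_isRegular hθ ?_ fun l => ?_)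
    · exact (le_aleph0_iff_set_countable.2 hs).trans_lt hθ0
    · exact (ZFSet.card_insert_le).trans_lt
        (add_lt_of_lt hθ0.le (hcard l) (one_lt_aleph0.trans hθ0))

/-! ### Traces -/

section
variable {θ : Cardinal.{0}} {L : Type}

/-- the trace of a set -/
def tr (ev : L → ZFSet.{0}) (x : ZFSet.{0}) : Set L := {l | ev l ∈ x}

theorem lit2_tr_range {ev : L → ZFSet.{0}} (hinj : Function.Injective ev) (s : Set L) :
    tr ev (ZFSet.range fun l : s => ev l) = s := by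
  ext l
  show ev l ∈ ZFSet.range (fun l : s => ev l) ↔ l ∈ s
  rw [ZFSet.mem_range]
  constructor
  · rintro ⟨l', h⟩
    rw [← hinj h]
    exact l'.2
  · exact fun h => ⟨⟨l, h⟩, rfl⟩

theorem lit2_meets_ground {Q : Type} [Preorder Q] {h : Prop} {q : Q} :
    q ∈ meets (fground (P := Q) h) ↔ h := by
  constructor
  · intro h1
    obtain ⟨_, _, s, hs, _⟩ := h1 q le_rfl
    exact hs
  · intro h1 r _
    exact ⟨r, le_rfl, r, h1, le_rfl⟩

theorem lit2_ctblC {Q : Type} [Preorder Q] (ev : L → ZFSet.{0}) (s : Set L) (hs : s.Countable)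
    (q : Q) : q ∈ CtblC (Q := Q) fun x : ZFSet.{0} => fground
      (x ∈ ZFSet.range (fun l : s => ev l)) := by
  obtain ⟨f, hf⟩ := Set.countable_iff_exists_injective.1 hs
  refine mem_fex.2 fun q2 _ => ⟨q2, le_rfl,
    fun n x => fground (∃ l : s, f l = n ∧ x = ev l), ?_, ?_⟩
  · intro n x x'
    rw [mem_fimp]
    rintro q3 _ ⟨h1, h2⟩
    rw [lit2_meets_ground] at h1 h2
    obtain ⟨l, hl, rfl⟩ := h1
    obtain ⟨l', hl', rfl⟩ := h2
    refine ⟨q3, le_rfl, ?_⟩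
    rw [hf (hl.trans hl'.symm)]
    exact rfl
  · intro x
    rw [mem_fimp]
    intro q3 _ h1
    rw [lit2_meets_ground] at h1
    obtain ⟨l, rfl⟩ := ZFSet.mem_range.1 h1
    refine ⟨q3, le_rfl, mem_fex.2 fun q4 _ => ⟨q4, le_rfl, f l, ?_⟩⟩
    rw [lit2_meets_ground]
    exact ⟨l, rfl, rfl⟩

theorem lit2_indestr (hθ : θ.IsRegular) (h2 : ℵ_ 2 ≤ θ) (ev : L → ZFSet.{0})
    (hinj : Function.Injective ev) (hmem : ∀ l, ev l ∈ Hset θ)
    (hsurj : ∀ x ∈ Hset θ, ∃ l, ev l = x) (Y : Om1 → Set L)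
    (hsing : ∀ l, (∃ j, {l} = Y j) → ∃ j, tr ev (ev l) = Y j)
    (hback : ∀ l, (∃ j, tr ev (ev l) = Y j) → ∃ j, {l} = Y j)
    (hint : ∀ s t, (∃ j, s = Y j) → (∃ j, t = Y j) → ∃ j, s ∩ t = Y j)
    (hY : ∀ (Q : Type) [Preorder Q], (∀ q : Q, q ∈ OmegaOnePreserved Q) →
      ∀ (q : Q) (d : L → Set Q), q ∈ fimp
        (fall fun j : Om1 => fall fun _ : (Y j).Countable => fex fun k : Om1 =>
          fall fun l : L => fiff (fand (meets (d l)) (fground (l ∈ Y j))) (fground (l ∈ Y k)))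
        (fex fun k : Om1 => fall fun l : L => fall fun _ : (∃ j, Y j = {l}) =>
          fiff (meets (d l)) (fground (l ∈ Y k))))
    (M : ZFSet.{0}) (hM : ∀ x, x ∈ M ↔ ∃ l, (∃ j, {l} = Y j) ∧ ev l = x) :
    Indestructible M := by
  intro Q _ hQ q X hX A hA
  rw [mem_fimp]
  intro q' hq' hap
  have happ : q' ∈ fall fun j : Om1 => fall fun _ : (Y j).Countable => fex fun k : Om1 =>
          fall fun l : L => fiff (fand (meets (A (ev l))) (fground (l ∈ Y j)))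
            (fground (l ∈ Y k)) := by
    intro j hj
    have ha := lit2_ctbl hθ h2 ev hmem (Y j) hj
    have htr := lit2_tr_range hinj (Y j)
    have hct := fun q : Q => lit2_ctblC ev (Y j) hj q
    generalize ZFSet.range (fun l : Y j => ev l) = a at ha htr hct
    obtain ⟨la, rfl⟩ := hsurj a ha
    have haM : ev la ∈ M := (hM _).2 ⟨la, hback la ⟨j, htr⟩, rfl⟩
    have h5 := hap (ev la) haM
    rw [mem_fex]
    intro q2 hq2
    obtain ⟨q3, hq3, h6⟩ := mem_fimp.1 h5 q2 hq2 (hct q2)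
    obtain ⟨q4, hq4, b, hbM, hb⟩ := mem_fex.1 h6 q3 le_rfl
    obtain ⟨lb, hlb, rfl⟩ := (hM b).1 hbM
    obtain ⟨k, hk⟩ := hsing lb hlb
    refine ⟨q4, hq4.trans hq3, k, fun l => ?_⟩
    rw [← hk, ← htr]
    exact hb (ev l)
  obtain ⟨r, hr, hg⟩ := mem_fimp.1 (hY Q hQ q' fun l => A (ev l)) q' le_rfl happ
  obtain ⟨r', hr', k, hk⟩ := mem_fex.1 hg r le_rfl
  refine ⟨r', hr'.trans hr, ?_⟩
  obtain ⟨lX, hjX, rfl⟩ := (hM X).1 hX
  have hB := hint (Y k) (tr ev (ev lX)) ⟨k, rfl⟩ (hsing lX hjX)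
  have htr := lit2_tr_range hinj (Y k ∩ tr ev (ev lX))
  have hBX : ZFSet.range (fun l : (Y k ∩ tr ev (ev lX) : Set L) => ev l) ⊆ ev lX := by
    intro x hx
    obtain ⟨l, rfl⟩ := ZFSet.mem_range.1 hx
    exact l.2.2
  generalize ZFSet.range (fun l : (Y k ∩ tr ev (ev lX) : Set L) => ev l) = B at htr hBX
  obtain ⟨lB, rfl⟩ := hsurj B (lit2_sub (hmem lX) hBX)
  have hBM : ev lB ∈ M := (hM _).2 ⟨lB, hback lB (by rw [htr]; exact hB), rfl⟩
  have hmemB : ∀ l, ev l ∈ ev lB ↔ l ∈ Y k ∧ ev l ∈ ev lX := by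
    intro l
    have h7 : l ∈ tr ev (ev lB) ↔ l ∈ Y k ∩ tr ev (ev lX) := by rw [htr]
    exact h7
  refine mem_fex.2 fun q2 hq2 => ⟨q2, le_rfl, ev lB, hBM, ?_⟩
  intro x hxM
  obtain ⟨l, ⟨j, hj⟩, rfl⟩ := (hM x).1 hxM
  have h3 := hk l ⟨j, hj.symm⟩
  constructor
  · rw [mem_fimp]
    intro q3 hq3 hm
    have hlX : ev l ∈ ev lX := by
      by_contra hcon
      rw [hA _ hcon] at hm
      obtain ⟨_, _, s, hs, _⟩ := hm q3 le_rfl
      exact hs
    obtain ⟨q4, hq4, h4⟩ := mem_fimp.1 h3.1 q3 (hq3.trans hq2) hm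
    exact ⟨q4, hq4, (hmemB l).2 ⟨h4, hlX⟩⟩
  · rw [mem_fimp]
    intro q3 hq3 hm
    exact mem_fimp.1 h3.2 q3 (hq3.trans hq2) ((hmemB l).1 hm).1

/-! ### The functions -/

open Classical in
/-- transfer of a function to singletons -/
noncomputable def lit2_T (ev : L → ZFSet.{0}) (inv : ZFSet.{0} → L)
    (G : (n : ℕ) → (Fin n → ZFSet.{0}) → ZFSet.{0}) (n : ℕ) (s : Fin n → Set L) : Set L :=
  if h : ∃ v : Fin n → L, ∀ k, s k = {v k} then {inv (G n fun k => ev (h.choose k))} else ∅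

theorem lit2_T_eq (ev : L → ZFSet.{0}) (inv : ZFSet.{0} → L)
    (G : (n : ℕ) → (Fin n → ZFSet.{0}) → ZFSet.{0}) (n : ℕ) (v : Fin n → L) :
    lit2_T ev inv G n (fun k => {v k}) = {inv (G n fun k => ev (v k))} := by
  have h : ∃ w : Fin n → L, ∀ k, ({v k} : Set L) = {w k} := ⟨v, fun _ => rfl⟩
  have h1 : h.choose = v := by
    funext k
    exact (Set.singleton_eq_singleton_iff.1 (h.choose_spec k)).symm
  unfold lit2_T
  rw [dif_pos h, h1]

open Classical in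
/-- the set with the element `l` is mapped to the trace of `l` -/
noncomputable def lit2_A (ev : L → ZFSet.{0}) : (n : ℕ) → (Fin n → Set L) → Set L
  | 1, s => if h : ∃ l, s 0 = {l} then tr ev (ev h.choose) else ∅
  | _, _ => ∅

open Classical in
/-- the trace of `l` is mapped to the set with the element `l` -/
noncomputable def lit2_B (ev : L → ZFSet.{0}) : (n : ℕ) → (Fin n → Set L) → Set L
  | 1, s => if h : ∃ l, s 0 = tr ev (ev l) then {h.choose} else ∅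
  | _, _ => ∅

/-- intersections -/
def lit2_C : (n : ℕ) → (Fin n → Set L) → Set L
  | 2, s => s 0 ∩ s 1
  | _, _ => ∅

theorem lit2_A_eq (ev : L → ZFSet.{0}) (l : L) :
    lit2_A ev 1 (fun _ => {l}) = tr ev (ev l) := by
  have h : ∃ l', ({l} : Set L) = {l'} := ⟨l, rfl⟩
  have h1 : h.choose = l := (Set.singleton_eq_singleton_iff.1 h.choose_spec).symm
  classical
  show (if h : ∃ l', ({l} : Set L) = {l'} then tr ev (ev h.choose) else ∅) = _
  rw [dif_pos h, h1]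

theorem lit2_tr_inj {ev : L → ZFSet.{0}} (hinj : Function.Injective ev)
    (hmem : ∀ l, ev l ∈ Hset θ) (hsurj : ∀ x ∈ Hset θ, ∃ l, ev l = x) {l l' : L}
    (h : tr ev (ev l) = tr ev (ev l')) : l = l' := by
  apply hinj
  ext z
  constructor
  · intro hz
    obtain ⟨m, rfl⟩ := hsurj z (lit2_trans (hmem l) hz)
    have : m ∈ tr ev (ev l') := h ▸ hz
    exact this
  · intro hz
    obtain ⟨m, rfl⟩ := hsurj z (lit2_trans (hmem l') hz)
    have : m ∈ tr ev (ev l) := h ▸ hz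
    exact this

theorem lit2_B_eq {ev : L → ZFSet.{0}} (hinj : Function.Injective ev)
    (hmem : ∀ l, ev l ∈ Hset θ) (hsurj : ∀ x ∈ Hset θ, ∃ l, ev l = x) (l : L) :
    lit2_B ev 1 (fun _ => tr ev (ev l)) = {l} := by
  have h : ∃ l', tr ev (ev l) = tr ev (ev l') := ⟨l, rfl⟩
  have h1 : h.choose = l := (lit2_tr_inj hinj hmem hsurj h.choose_spec).symm
  classical
  show (if h : ∃ l', tr ev (ev l) = tr ev (ev l') then ({h.choose} : Set L) else ∅) = _
  rw [dif_pos h, h1]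

/-- all the functions -/
noncomputable def lit2_F (ev : L → ZFSet.{0}) (inv : ZFSet.{0} → L)
    (F : Om1 → (n : ℕ) → (Fin n → ZFSet.{0}) → ZFSet.{0})
    (G : ℕ → (n : ℕ) → (Fin n → ZFSet.{0}) → ZFSet.{0}) :
    (Om1 ⊕ ℕ ⊕ Fin 4) → (n : ℕ) → (Fin n → Set L) → Set L
  | Sum.inl i => lit2_T ev inv (F i)
  | Sum.inr (Sum.inl i) => lit2_T ev inv (G i)
  | Sum.inr (Sum.inr 0) => lit2_A ev
  | Sum.inr (Sum.inr 1) => lit2_B ev
  | Sum.inr (Sum.inr 2) => lit2_C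
  | Sum.inr (Sum.inr 3) => fun _ _ => {inv ∅}

end

theorem lit2_emb : Nonempty ((Om1 ⊕ ℕ ⊕ Fin 4) ↪ Om1) := by
  have h0 : #Om1 = ℵ_ 1 := Cardinal.mk_ord_toType _
  have h1 : #(Om1 ⊕ ℕ ⊕ Fin 4) ≤ #Om1 := by
    have h2 : ℵ₀ ≤ #Om1 := by
      rw [h0, ← aleph_zero]
      exact aleph_le_aleph.2 (by norm_num)
    simp only [mk_sum, Cardinal.lift_id]
    refine add_le_of_le h2 le_rfl (add_le_of_le h2 ?_ ?_)
    · exact (mk_le_aleph0 (α := ℕ)).trans h2
    · exact (mk_le_aleph0 (α := Fin 4)).trans h2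
  exact h1

theorem lit2 (h1 : S_lit2a) (h2 : S_lit2b) : S_lit2 := by
  intro hT
  refine ⟨ℵ_ 2, fun θ hθ2 hθ C hC => ?_⟩
  obtain ⟨F, hF1, hF2⟩ := h1 θ C hθ hθ2 hC
  obtain ⟨G, hG1, hG2⟩ := h2 θ hθ hθ2
  have hsm := lit2_small θ
  let L : Type := Shrink.{0} (Hset θ)
  let ev : L → ZFSet.{0} := fun l => ((equivShrink (Hset θ)).symm l).1
  have hinj : Function.Injective ev := fun a b hab =>
    (equivShrink (Hset θ)).symm.injective (Subtype.ext hab)
  have hmem : ∀ l, ev l ∈ Hset θ := fun l => ((equivShrink (Hset θ)).symm l).2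
  have hsurj : ∀ x ∈ Hset θ, ∃ l, ev l = x := fun x hx =>
    ⟨equivShrink (Hset θ) ⟨x, hx⟩, by simp [ev]⟩
  clear_value ev
  have hemp : (∅ : ZFSet.{0}) ∈ Hset θ := lit2_empty hθ.pos
  obtain ⟨l0, hl0⟩ := hsurj ∅ hemp
  have hinv : ∃ inv : ZFSet.{0} → L, ∀ x ∈ Hset θ, ev (inv x) = x := by
    classical
    refine ⟨fun x => if h : x ∈ Hset θ then (hsurj x h).choose else l0, fun x hx => ?_⟩
    show ev (if h : x ∈ Hset θ then (hsurj x h).choose else l0) = x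
    rw [dif_pos hx]
    exact (hsurj x hx).choose_spec
  obtain ⟨inv, hinv⟩ := hinv
  obtain ⟨emb⟩ := lit2_emb
  obtain ⟨Y, hcl, hY⟩ := hT L fun i => lit2_F ev inv F G
    (@Function.invFun _ _ ⟨Sum.inr (Sum.inl 0)⟩ emb i)
  have hcl' : ∀ (a : Om1 ⊕ ℕ ⊕ Fin 4) (n : ℕ) (s : Fin n → Set L), (∀ k, ∃ j, s k = Y j) →
      ∃ j, lit2_F ev inv F G a n s = Y j := by
    intro a n s hs
    have h3 := hcl (emb a) n s hs
    have h4 : @Function.invFun _ _ ⟨Sum.inr (Sum.inl 0)⟩ emb (emb a) = a :=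
      @Function.leftInverse_invFun _ _ ⟨Sum.inr (Sum.inl 0)⟩ _ emb.injective a
    rwa [h4] at h3
  clear hcl
  -- the model
  have hM : ∃ M : ZFSet.{0}, (∀ x, x ∈ M ↔ ∃ l, (∃ j, {l} = Y j) ∧ ev l = x) ∧
      M.card < ℵ_ 2 := by
    refine ⟨ZFSet.range fun l : {l : L // ∃ j, {l} = Y j} => ev l, fun x => ?_, ?_⟩
    · rw [ZFSet.mem_range]
      constructor
      · rintro ⟨l, rfl⟩
        exact ⟨l, l.2, rfl⟩
      · rintro ⟨l, hl, rfl⟩
        exact ⟨⟨l, hl⟩, rfl⟩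
    · refine (card_range_le _).trans_lt ?_
      have h5 : #{l : L // ∃ j, {l} = Y j} ≤ #Om1 := by
        refine mk_le_of_injective (f := fun l => l.2.choose) ?_
        intro a b hab
        have ha := a.2.choose_spec
        have hb := b.2.choose_spec
        have hab' : a.2.choose = b.2.choose := hab
        rw [hab', ← hb] at ha
        exact Subtype.ext (Set.singleton_eq_singleton_iff.1 ha)
      refine h5.trans_lt ?_
      have h6 : #Om1 = ℵ_ 1 := Cardinal.mk_ord_toType _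
      rw [h6]
      exact aleph_lt_aleph.2 (by norm_num)
  obtain ⟨M, hM, hMc⟩ := hM
  have hMH : ∀ y ∈ M, y ∈ Hset θ := by
    intro y hy
    obtain ⟨l, -, rfl⟩ := (hM y).1 hy
    exact hmem l
  have hMn : M.Nonempty := by
    refine ⟨∅, (hM ∅).2 ⟨inv ∅, ?_, hinv ∅ hemp⟩⟩
    exact hcl' (Sum.inr (Sum.inr 3)) 0 (fun k => k.elim0) (fun k => k.elim0)
  have hMF : ∀ i n (s : Fin n → ZFSet.{0}), (∀ k, s k ∈ M) → F i n s ∈ M := by
    intro i n s hs
    choose v hv1 hv2 using fun k => (hM (s k)).1 (hs k)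
    have h3 := hcl' (Sum.inl i) n (fun k => {v k}) hv1
    have h4 : lit2_F ev inv F G (Sum.inl i) n (fun k => {v k}) =
      {inv (F i n fun k => ev (v k))} := lit2_T_eq ev inv (F i) n v
    rw [h4] at h3
    have h5 : (fun k => ev (v k)) = s := funext hv2
    rw [h5] at h3
    exact (hM _).2 ⟨_, h3, hinv _ (hF1 i n s fun k => hMH _ (hs k))⟩
  have hMG : ∀ i n (s : Fin n → ZFSet.{0}), (∀ k, s k ∈ M) → G i n s ∈ M := by
    intro i n s hs
    choose v hv1 hv2 using fun k => (hM (s k)).1 (hs k)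
    have h3 := hcl' (Sum.inr (Sum.inl i)) n (fun k => {v k}) hv1
    have h4 : lit2_F ev inv F G (Sum.inr (Sum.inl i)) n (fun k => {v k}) =
      {inv (G i n fun k => ev (v k))} := lit2_T_eq ev inv (G i) n v
    rw [h4] at h3
    have h5 : (fun k => ev (v k)) = s := funext hv2
    rw [h5] at h3
    exact (hM _).2 ⟨_, h3, hinv _ (hG1 i n s fun k => hMH _ (hs k))⟩
  refine ⟨M, hF2 M hMn hMH hMc hMF, hG2 M hMn hMH hMG, ?_⟩
  refine lit2_indestr hθ hθ2 ev hinj hmem hsurj Y ?_ ?_ ?_ hY M hM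
  · intro l hl
    have h3 := hcl' (Sum.inr (Sum.inr 0)) 1 (fun _ => {l}) fun _ => hl
    have h4 : lit2_F ev inv F G (Sum.inr (Sum.inr 0)) 1 (fun _ => {l}) = tr ev (ev l) :=
      lit2_A_eq ev l
    rwa [h4] at h3
  · intro l hl
    have h3 := hcl' (Sum.inr (Sum.inr 1)) 1 (fun _ => tr ev (ev l)) fun _ => hl
    have h4 : lit2_F ev inv F G (Sum.inr (Sum.inr 1)) 1 (fun _ => tr ev (ev l)) = {l} :=
      lit2_B_eq hinj hmem hsurj l
    rwa [h4] at h3
  · intro s t hs ht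
    have h3 := hcl' (Sum.inr (Sum.inr 2)) 2 (fun k => if k = 0 then s else t) (by
      intro k
      by_cases hk : k = 0
      · simp only [if_pos hk]; exact hs
      · simp only [if_neg hk]; exact ht)
    exact h3

end Pool.Agent.H915.L2
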