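import Pool.Agent.H915.Lit
import Pool.Agent.W873.Gmp.Club

/-!
# Plain forms: clubs and closed sets
-/

set_option autoImplicit false

namespace Pool.Agent.H915.L2a

open Cardinal Set Pool.Agent.Helper669.Forcing
open Pool.Agent.W873.Gmp (Hset IsClubIn card_eq_shrink card_range_le)
open Pool.Agent.W684.FM (Om1)

theorem al2 : (ℵ_ 2 : Cardinal.{0}) = Order.succ ℵ₁ := by
  rw [Cardinal.succ_aleph, one_add_one_eq_two]

theorem empty_H {θ : Cardinal.{0}} (h : ℵ_ 2 ≤ θ) : (∅ : ZFSet.{0}) ∈ Hset θ := by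
  refine ⟨∅, ZFSet.isTransitive_empty, fun x hx => hx, ?_⟩
  rw [ZFSet.card_empty]
  exact lt_of_lt_of_le (Cardinal.aleph_pos 2) h

theorem lemA {H C : Set ZFSet.{0}} (hC : IsClubIn (ℵ_ 2) H C) :
    ∃ B : Finset ZFSet.{0} → ZFSet.{0}, ∀ S : Finset ZFSet.{0},
      (∀ x ∈ S, (∀ y ∈ x, y ∈ H) ∧ x.card < ℵ_ 2) → B S ∈ C ∧ ∀ x ∈ S, x ⊆ B S := by
  classical
  have key : ∀ S : Finset ZFSet.{0}, ∃ z : ZFSet.{0},
      (∀ x ∈ S, (∀ y ∈ x, y ∈ H) ∧ x.card < ℵ_ 2) → z ∈ C ∧ ∀ x ∈ S, x ⊆ z := by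
    intro S
    by_cases hS : ∀ x ∈ S, (∀ y ∈ x, y ∈ H) ∧ x.card < ℵ_ 2
    · have h1 : ∀ T : Finset ZFSet.{0}, (∀ x ∈ T, (∀ y ∈ x, y ∈ H) ∧ x.card < ℵ_ 2) →
          ∃ z : ZFSet.{0}, (∀ y ∈ z, y ∈ H) ∧ z.card < ℵ_ 2 ∧ ∀ x ∈ T, x ⊆ z := by
        intro T
        induction T using Finset.induction_on with
        | empty =>
          intro _
          refine ⟨∅, fun y hy => absurd hy (ZFSet.notMem_empty y), ?_, fun x hx => ?_⟩
          · rw [ZFSet.card_empty]; exact Cardinal.aleph_pos 2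
          · simp at hx
        | insert a T _ ih =>
          intro hT
          obtain ⟨z, hz1, hz2, hz3⟩ := ih fun x hx => hT x (Finset.mem_insert_of_mem hx)
          have ha := hT a (Finset.mem_insert_self a T)
          refine ⟨a ∪ z, fun y hy => ?_, ?_, fun x hx => ?_⟩
          · rcases ZFSet.mem_union.1 hy with h | h
            · exact ha.1 y h
            · exact hz1 y h
          · exact lt_of_le_of_lt ZFSet.card_union_le
              (Cardinal.add_lt_of_lt (Cardinal.aleph0_le_aleph 2) ha.2 hz2)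
          · intro y hy
            rcases Finset.mem_insert.1 hx with rfl | h
            · exact ZFSet.mem_union.2 (Or.inl hy)
            · exact ZFSet.mem_union.2 (Or.inr (hz3 x h hy))
      obtain ⟨z, hz1, hz2, hz3⟩ := h1 S hS
      obtain ⟨w, hw, hzw⟩ := hC.unbounded z hz1 hz2
      exact ⟨w, fun _ => ⟨hw, fun x hx y hy => hzw (hz3 x hx hy)⟩⟩
    · exact ⟨∅, fun h => absurd h hS⟩
  choose B hB using key
  exact ⟨B, hB⟩

theorem lemB {H C : Set ZFSet.{0}} (hC : IsClubIn (ℵ_ 2) H C) :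
    ∃ f : Finset ZFSet.{0} → ZFSet.{0}, ∀ s : Finset ZFSet.{0}, (∀ x ∈ s, x ∈ H) →
      f s ∈ C ∧ (∀ x ∈ s, x ∈ f s) ∧ ∀ t, t ⊆ s → f t ⊆ f s := by
  classical
  obtain ⟨B, hB⟩ := lemA hC
  let st : (s : Finset ZFSet.{0}) → ((t : Finset ZFSet.{0}) → t ⊂ s → ZFSet.{0}) → ZFSet.{0} :=
    fun s IH => B (s.ssubsets.attach.image (fun t => IH t.1 (Finset.mem_ssubsets.1 t.2)) ∪
      s.image (fun x => ({x} : ZFSet.{0})))
  let f : Finset ZFSet.{0} → ZFSet.{0} := fun s => Finset.strongInduction st s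
  have hf : ∀ s, f s = B (s.ssubsets.attach.image (fun t => f t.1) ∪
      s.image (fun x => ({x} : ZFSet.{0}))) := by
    intro s
    exact Finset.strongInduction_eq st s
  refine ⟨f, ?_⟩
  intro s
  induction s using Finset.strongInduction with
  | H s ih =>
    intro hs
    have h1 := hB (s.ssubsets.attach.image (fun t => f t.1) ∪
      s.image (fun x => ({x} : ZFSet.{0}))) ?_
    · rw [← hf s] at h1
      refine ⟨h1.1, fun x hx => ?_, fun t ht => ?_⟩
      · exact h1.2 {x} (Finset.mem_union_right _ (Finset.mem_image_of_mem _ hx))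
          (ZFSet.mem_singleton.2 rfl)
      · rcases eq_or_ne t s with rfl | hne
        · exact fun y hy => hy
        · have hts : t ⊂ s := lt_of_le_of_ne ht hne
          refine h1.2 (f t) (Finset.mem_union_left _ ?_)
          exact Finset.mem_image.2 ⟨⟨t, Finset.mem_ssubsets.2 hts⟩, Finset.mem_attach _ _, rfl⟩
    · intro x hx
      rcases Finset.mem_union.1 hx with h | h
      · obtain ⟨t, _, rfl⟩ := Finset.mem_image.1 h
        have hts := Finset.mem_ssubsets.1 t.2
        exact hC.sub _ (ih t.1 hts fun x hx => hs x (hts.1 hx)).1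
      · obtain ⟨a, ha, rfl⟩ := Finset.mem_image.1 h
        refine ⟨fun y hy => ?_, ?_⟩
        · rw [ZFSet.mem_singleton.1 hy]; exact hs a ha
        · rw [ZFSet.card_singleton]
          exact lt_of_lt_of_le Cardinal.one_lt_aleph0 (Cardinal.aleph0_le_aleph 2)

theorem enum (x : ZFSet.{0}) : ∃ e : Om1 → ZFSet.{0}, x.Nonempty → x.card ≤ ℵ₁ →
    ∀ y, y ∈ x ↔ ∃ i, e i = y := by
  classical
  by_cases hx : x.Nonempty ∧ x.card ≤ ℵ₁
  · obtain ⟨⟨x0, hx0⟩, hc⟩ := hx
    have h1 : #(Shrink.{0} x) ≤ #Om1 := by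
      rw [← card_eq_shrink, Cardinal.mk_toType, Cardinal.card_ord]
      exact hc
    obtain ⟨g⟩ := h1
    have : Nonempty (Shrink.{0} x) := ⟨equivShrink _ ⟨x0, hx0⟩⟩
    refine ⟨fun i => ((equivShrink x).symm (Function.invFun g i)).1, fun _ _ y => ⟨fun hy => ?_, ?_⟩⟩
    · refine ⟨g (equivShrink x ⟨y, hy⟩), ?_⟩
      have h2 : Function.invFun g (g (equivShrink x ⟨y, hy⟩)) = equivShrink x ⟨y, hy⟩ :=
        Function.leftInverse_invFun g.injective _
      show ((equivShrink x).symm (Function.invFun g (g (equivShrink x ⟨y, hy⟩)))).1 = y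
      rw [h2]
      simp
    · rintro ⟨i, rfl⟩
      exact ((equivShrink x).symm _).2
  · exact ⟨fun _ => ∅, fun h1 h2 => absurd ⟨h1, h2⟩ hx⟩

theorem Iic_ctbl (i : Om1) : ∃ e : ℕ → Om1, (∀ n, e n ≤ i) ∧ ∀ j, j ≤ i → ∃ n, e n = j := by
  have h1 : (Set.Iic i).Countable := by
    have h2 : #(Set.Iio i) < ℵ₁ := Cardinal.mk_Iio_toType_ord_lt i
    have h3 : (Set.Iio i).Countable := by
      rw [← Cardinal.le_aleph0_iff_set_countable]
      have h5 : #(Set.Iio i) < Order.succ ℵ₀ := h2.trans_eq Cardinal.succ_aleph0.symm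
      exact Order.lt_succ_iff.1 h5
    have h4 : Set.Iic i = insert i (Set.Iio i) := by
      ext j
      simp [le_iff_eq_or_lt]
    rw [h4]
    exact h3.insert i
  have : Nonempty (Set.Iic i) := ⟨⟨i, Set.mem_Iic.2 le_rfl⟩⟩
  have : Countable (Set.Iic i) := h1.to_subtype
  obtain ⟨g, hg⟩ := exists_surjective_nat (Set.Iic i)
  refine ⟨fun n => (g n).1, fun n => (g n).2, fun j hj => ?_⟩
  obtain ⟨n, hn⟩ := hg ⟨j, hj⟩
  exact ⟨n, congrArg Subtype.val hn⟩

theorem lit2a : S_lit2a := by
  classical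
  intro θ C _ hθ hC
  obtain ⟨f, hf⟩ := lemB hC
  choose en hen using enum
  refine ⟨fun i n s => if (∀ k, s k ∈ Hset θ) ∧ 0 < n then en (f (Finset.univ.image s)) i else ∅,
    ?_, ?_⟩
  · intro i n s hs
    by_cases hn : 0 < n
    · simp only [hs, hn, and_self, implies_true, if_true]
      have hs' : ∀ x ∈ Finset.univ.image s, x ∈ Hset θ := by
        intro x hx
        obtain ⟨k, _, rfl⟩ := Finset.mem_image.1 hx
        exact hs k
      obtain ⟨h1, h2, _⟩ := hf _ hs'
      have h3 := hC.sub _ h1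
      have hne : (f (Finset.univ.image s)).Nonempty :=
        ⟨s ⟨0, hn⟩, h2 _ (Finset.mem_image_of_mem _ (Finset.mem_univ _))⟩
      have hc : (f (Finset.univ.image s)).card ≤ ℵ₁ := by
        have := h3.2
        rw [al2] at this
        exact Order.lt_succ_iff.1 this
      exact h3.1 _ ((hen _ hne hc _).2 ⟨i, rfl⟩)
    · simp only [hn, and_false, if_false]
      exact empty_H hθ
  · intro M hM hMH hMc hcl
    -- finite nonempty subsets of M
    have hfM : ∀ s : Finset ZFSet.{0}, s.Nonempty → (∀ x ∈ s, x ∈ M) → f s ⊆ M := by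
      intro s hs hsM y hy
      obtain ⟨n, g, hg⟩ : ∃ n : ℕ, ∃ g : Fin n → ZFSet.{0}, Finset.univ.image g = s := by
        refine ⟨s.card, fun k => (s.equivFin.symm k).1, ?_⟩
        ext x
        simp only [Finset.mem_image, Finset.mem_univ, true_and]
        constructor
        · rintro ⟨k, rfl⟩
          exact (s.equivFin.symm k).2
        · intro hx
          exact ⟨s.equivFin ⟨x, hx⟩, by simp⟩
      have hgM : ∀ k, g k ∈ M := by
        intro k
        apply hsM
        rw [← hg]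
        exact Finset.mem_image_of_mem _ (Finset.mem_univ _)
      have hn : 0 < n := by
        rcases Nat.eq_zero_or_pos n with h | h
        · subst h
          rw [← hg] at hs
          simp at hs
        · exact h
      have hsH : ∀ x ∈ s, x ∈ Hset θ := fun x hx => hMH x (hsM x hx)
      obtain ⟨h1, h2, _⟩ := hf s hsH
      have h3 := hC.sub _ h1
      have hc : (f s).card ≤ ℵ₁ := by
        have := h3.2
        rw [al2] at this
        exact Order.lt_succ_iff.1 this
      obtain ⟨i, hi⟩ := (hen (f s) ⟨y, hy⟩ hc y).1 hy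
      have h4 := hcl i n g hgM
      have h5 : ∀ k, g k ∈ Hset θ := fun k => hMH _ (hgM k)
      simp only [h5, hn, and_self, implies_true, if_true, hg, hi] at h4
      exact h4
    have hMc' : M.card ≤ ℵ₁ := by
      rw [al2] at hMc
      exact Order.lt_succ_iff.1 hMc
    let m := en M
    have hm : ∀ y, y ∈ M ↔ ∃ i, m i = y := hen M hM hMc'
    choose e he1 he2 using Iic_ctbl
    -- the finite sets
    let S : Om1 → ℕ → Finset ZFSet.{0} := fun i n => (Finset.range (n + 1)).image (fun k => m (e i k))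
    have hSM : ∀ i n, ∀ x ∈ S i n, x ∈ M := by
      intro i n x hx
      obtain ⟨k, _, rfl⟩ := Finset.mem_image.1 hx
      exact (hm _).2 ⟨_, rfl⟩
    have hSH : ∀ i n, ∀ x ∈ S i n, x ∈ Hset θ := fun i n x hx => hMH x (hSM i n x hx)
    have hSne : ∀ i n, (S i n).Nonempty := by
      intro i n
      exact ⟨m (e i 0), Finset.mem_image_of_mem _ (Finset.mem_range.2 (Nat.succ_pos n))⟩
    have hSmono : ∀ i, Monotone (S i) := by
      intro i a b hab
      exact Finset.image_subset_image (Finset.range_subset_range.2 (by omega))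
    have hmemS : ∀ i j, j ≤ i → ∃ n, m j ∈ S i n := by
      intro i j hj
      obtain ⟨n, hn⟩ := he2 i j hj
      exact ⟨n, Finset.mem_image.2 ⟨n, Finset.mem_range.2 (Nat.lt_succ_self n), by rw [hn]⟩⟩
    have hSS : ∀ i j, j ≤ i → ∀ n, ∃ n', S j n ⊆ S i n' := by
      intro i j hj n
      have h1 : ∀ T : Finset ℕ, ∃ n', T.image (fun k => m (e j k)) ⊆ S i n' := by
        intro T
        induction T using Finset.induction_on with
        | empty => exact ⟨0, by simp⟩
        | insert a T _ ih =>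
          obtain ⟨n', hn'⟩ := ih
          obtain ⟨n'', hn''⟩ := hmemS i (e j a) ((he1 j a).trans hj)
          refine ⟨max n' n'', ?_⟩
          intro x hx
          rw [Finset.image_insert, Finset.mem_insert] at hx
          rcases hx with rfl | hx
          · exact hSmono i (le_max_right _ _) hn''
          · exact hSmono i (le_max_left _ _) (hn' hx)
      exact h1 _
    -- the sets U i
    let U : Om1 → ZFSet.{0} := fun i => (ZFSet.range (fun n : ℕ => f (S i n))).sUnion
    have hUmem : ∀ i y, y ∈ U i ↔ ∃ n, y ∈ f (S i n) := by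
      intro i y
      constructor
      · intro hy
        obtain ⟨z, hz, hyz⟩ := ZFSet.mem_sUnion.1 hy
        obtain ⟨n, rfl⟩ := ZFSet.mem_range.1 hz
        exact ⟨n, hyz⟩
      · rintro ⟨n, hn⟩
        exact ZFSet.mem_sUnion.2 ⟨_, ZFSet.mem_range_self n, hn⟩
    have hUC : ∀ i, U i ∈ C := by
      intro i
      apply hC.closed
      · exact ⟨_, ZFSet.mem_range_self 0⟩
      · intro x hx
        obtain ⟨n, rfl⟩ := ZFSet.mem_range.1 hx
        exact (hf _ (hSH i n)).1
      · intro x hx y hy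
        obtain ⟨a, rfl⟩ := ZFSet.mem_range.1 hx
        obtain ⟨b, rfl⟩ := ZFSet.mem_range.1 hy
        rcases le_total a b with h | h
        · exact Or.inl ((hf _ (hSH i b)).2.2 _ (hSmono i h))
        · exact Or.inr ((hf _ (hSH i a)).2.2 _ (hSmono i h))
      · refine lt_of_le_of_lt (card_range_le _) ?_
        rw [Cardinal.mk_nat]
        rw [← Cardinal.aleph_zero]
        exact Cardinal.aleph_lt_aleph.2 (by norm_num)
    have hUmono : ∀ i j, j ≤ i → U j ⊆ U i := by
      intro i j hj y hy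
      obtain ⟨n, hn⟩ := (hUmem j y).1 hy
      obtain ⟨n', hn'⟩ := hSS i j hj n
      exact (hUmem i y).2 ⟨n', (hf _ (hSH i n')).2.2 _ hn' hn⟩
    have hfin : (ZFSet.range U).sUnion ∈ C := by
      have : Nonempty Om1 := by
        obtain ⟨y, hy⟩ := hM
        obtain ⟨i, _⟩ := (hm y).1 hy
        exact ⟨i⟩
      apply hC.closed
      · exact ⟨_, ZFSet.mem_range_self (Classical.arbitrary Om1)⟩
      · intro x hx
        obtain ⟨n, rfl⟩ := ZFSet.mem_range.1 hx
        exact hUC n
      · intro x hx y hy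
        obtain ⟨a, rfl⟩ := ZFSet.mem_range.1 hx
        obtain ⟨b, rfl⟩ := ZFSet.mem_range.1 hy
        rcases le_total a b with h | h
        · exact Or.inl (hUmono _ _ h)
        · exact Or.inr (hUmono _ _ h)
      · refine lt_of_le_of_lt (card_range_le _) ?_
        rw [Cardinal.mk_toType, Cardinal.card_ord]
        exact Cardinal.aleph_lt_aleph.2 (by norm_num)
    have hEq : (ZFSet.range U).sUnion = M := by
      apply ZFSet.ext
      intro y
      constructor
      · intro hy
        obtain ⟨z, hz, hyz⟩ := ZFSet.mem_sUnion.1 hy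
        obtain ⟨i, rfl⟩ := ZFSet.mem_range.1 hz
        obtain ⟨n, hn⟩ := (hUmem i y).1 hyz
        exact hfM _ (hSne i n) (hSM i n) hn
      · intro hy
        obtain ⟨i, rfl⟩ := (hm y).1 hy
        refine ZFSet.mem_sUnion.2 ⟨U i, ZFSet.mem_range_self i, ?_⟩
        obtain ⟨n, hn⟩ := hmemS i i le_rfl
        exact (hUmem i _).2 ⟨n, (hf _ (hSH i n)).2.1 _ hn⟩
    rw [← hEq]
    exact hfin

end Pool.Agent.H915.L2a
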