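import Pool.Agent.H915.Lit
import Pool.Agent.W873.Gmp.Club

/-!
# Plain forms: Skolem functions
-/

set_option autoImplicit false

namespace Pool.Agent.H915.L2b

open Cardinal Set Pool.Agent.Helper669.Forcing
open Pool.Agent.W873.Gmp FirstOrder

instance symC (l : ℕ) : Countable (Sym l) :=
  ⟨⟨fun _ => 0, by intro a b _; cases a; cases b; rfl⟩⟩

theorem lmem_countable : Countable LMem.Symbols := by
  have h1 : ∀ l, Countable (LMem.Functions l) := fun l => (inferInstance : Countable Empty)
  have h2 : ∀ l, Countable (LMem.Relations l) := fun l => symC l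
  exact (inferInstance : Countable ((Σ l, LMem.Functions l) ⊕ (Σ l, LMem.Relations l)))

theorem form_countable : Countable (Σ n, LMem.BoundedFormula Empty n) := by
  have := lmem_countable
  rw [← Cardinal.mk_le_aleph0_iff]
  refine (Language.BoundedFormula.card_le (L := LMem) (α := Empty)).trans ?_
  refine max_le le_rfl ?_
  have h1 : LMem.card ≤ ℵ₀ := by
    rw [Language.card]
    exact Cardinal.mk_le_aleph0
  simpa using h1

theorem empty_mem_Hset {θ : Cardinal.{0}} (hθ : 0 < θ) : (∅ : ZFSet.{0}) ∈ Hset θ := by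
  refine ⟨∅, ZFSet.isTransitive_empty, fun x hx => hx, ?_⟩
  have : (∅ : ZFSet.{0}).card = 0 := by simp
  rw [this]; exact hθ

open Classical in
/-- the Skolem functions -/
noncomputable def sk (θ : Cardinal.{0}) (e : ℕ → Σ n, LMem.BoundedFormula Empty n) (i n : ℕ)
    (s : Fin n → ZFSet.{0}) : ZFSet.{0} :=
  if h : ∃ (a : Hset θ) (hs : ∀ k, s k ∈ Hset θ) (φ : LMem.BoundedFormula Empty (n + 1)),
      e i = ⟨n + 1, φ⟩ ∧ φ.Realize default (Fin.snoc (fun k => (⟨s k, hs k⟩ : Hset θ)) a : _ → Hset θ)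
  then h.choose.1 else ∅

theorem lit2b : S_lit2b := by
  intro θ hθ hθ2
  have hθ0 : 0 < θ := lt_of_lt_of_le (Cardinal.aleph_pos _) hθ2
  have := form_countable
  have hne : Nonempty (Σ n, LMem.BoundedFormula Empty n) := ⟨⟨0, ⊥⟩⟩
  obtain ⟨e, he⟩ := exists_surjective_nat (Σ n, LMem.BoundedFormula Empty n)
  refine ⟨sk θ e, ?_, ?_⟩
  · intro i n s hs
    unfold sk
    split_ifs with h
    · exact h.choose.2
    · exact empty_mem_Hset hθ0
  · intro M _ hMH hcl
    let S : LMem.Substructure (Hset θ) :=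
      { carrier := {y | y.1 ∈ M}
        fun_mem := fun f => Empty.elim f }
    have hS : S.IsElementary := by
      apply Language.Substructure.isElementary_of_exists
      intro n φ x a hr
      obtain ⟨i, hi⟩ := he ⟨n + 1, φ⟩
      let s : Fin n → ZFSet.{0} := fun k => (x k).1.1
      have hsM : ∀ k, s k ∈ M := fun k => (x k).2
      have hsH : ∀ k, s k ∈ Hset θ := fun k => (x k).1.2
      have h : ∃ (a : Hset θ) (hs : ∀ k, s k ∈ Hset θ) (φ : LMem.BoundedFormula Empty (n + 1)),
          e i = ⟨n + 1, φ⟩ ∧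
            φ.Realize default (Fin.snoc (fun k => (⟨s k, hs k⟩ : Hset θ)) a : _ → Hset θ) :=
        ⟨a, hsH, φ, hi, hr⟩
      have hval : sk θ e i n s = h.choose.1 := by
        unfold sk
        rw [dif_pos h]
      have hmem := hcl i n s hsM
      rw [hval] at hmem
      refine ⟨⟨h.choose, hmem⟩, ?_⟩
      obtain ⟨hs, φ', he', hr'⟩ := h.choose_spec
      rw [hi] at he'
      have hφ : φ = φ' := by
        have := Sigma.mk.inj he'
        exact eq_of_heq this.2
      rw [← hφ] at hr'
      exact hr'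
    refine ⟨⟨S, hS⟩, ?_⟩
    intro x
    constructor
    · intro hx
      exact ⟨⟨x, hMH x hx⟩, hx, rfl⟩
    · rintro ⟨y, hy, rfl⟩
      exact hy

end Pool.Agent.H915.L2b
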