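import Pool.Agent.H915.Lit
import Pool.Agent.W873.Gmp.Club

/-!
# Plain forms: the principle implies the typed form
-/

set_option autoImplicit false

namespace Pool.Agent.H915.L3

open Cardinal Set Pool.Agent.Helper669.Forcing
open Pool.Agent.W873.Gmp (Hset ElemSub IsClubIn card_eq_shrink card_range_le mk_le_card)
open Pool.Agent.W684.FM (OmegaOnePreserved)

/-! ### Sets closed under finitary functions -/

/-- terms for the closure under finitary operations -/
abbrev Tm (X J : Type) (ar : J → ℕ) : Type :=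
  WType (α := X ⊕ J) (fun a => a.elim (fun _ => Empty) fun j => Fin (ar j))

def evalTm {X J : Type} {ar : J → ℕ} (f : X → ZFSet.{0})
    (G : (j : J) → (Fin (ar j) → ZFSet.{0}) → ZFSet.{0}) : Tm X J ar → ZFSet.{0}
  | WType.mk (Sum.inl x) _ => f x
  | WType.mk (Sum.inr j) t => G j fun k => evalTm f G (t k)

theorem mk_Tm_le {X J : Type} {ar : J → ℕ} {κ : Cardinal.{0}} (hκ : ℵ₀ ≤ κ) (hX : #X ≤ κ)
    (hJ : #J ≤ κ) : #(Tm X J ar) ≤ κ := by
  have : ∀ a : X ⊕ J, Finite (a.elim (fun _ => Empty) fun j => Fin (ar j) : Type) := by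
    rintro (a | a)
    · exact (inferInstance : Finite Empty)
    · exact (inferInstance : Finite (Fin (ar a)))
  refine (WType.cardinalMk_le_max_aleph0_of_finite).trans (max_le ?_ hκ)
  rw [mk_sum, Cardinal.lift_id, Cardinal.lift_id]
  exact add_le_of_le hκ hX hJ

theorem isClub_closedN {κ : Cardinal.{0}} (hκ : ℵ₀ ≤ κ) {J : Type} (hJ : #J ≤ κ) {ar : J → ℕ}
    (H : Set ZFSet.{0}) (G : (j : J) → (Fin (ar j) → ZFSet.{0}) → ZFSet.{0})
    (hG : ∀ j u, G j u ∈ H) (B : ZFSet.{0}) (hB : ∀ y ∈ B, y ∈ H) (hBc : B.card ≤ κ) :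
    IsClubIn (Order.succ κ) H {x | ((∀ y ∈ x, y ∈ H) ∧ x.card < Order.succ κ) ∧ B ⊆ x ∧
      ∀ j, ∀ u : Fin (ar j) → ZFSet.{0}, (∀ k, u k ∈ x) → G j u ∈ x} := by
  refine ⟨fun x hx => hx.1, fun x hxH hxc => ?_, fun D hD hDC hch hDc => ?_⟩
  · let X : Type := Shrink.{0} (x ∪ B : ZFSet.{0})
    let f : X → ZFSet.{0} := fun a => ((equivShrink (x ∪ B : ZFSet.{0})).symm a).1
    have hf : ∀ a, f a ∈ (x ∪ B : ZFSet.{0}) := fun a => ((equivShrink _).symm a).2
    have hf' : ∀ y ∈ (x ∪ B : ZFSet.{0}), ∃ a, f a = y := fun y hy =>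
      ⟨equivShrink _ ⟨y, hy⟩, by simp [f]⟩
    have hX : #X ≤ κ := by
      have h1 : #X = (x ∪ B : ZFSet.{0}).card := rfl
      rw [h1]
      exact (ZFSet.card_union_le).trans (add_le_of_le hκ (Order.lt_succ_iff.1 hxc) hBc)
    have hmem : ∀ t : Tm X J ar, evalTm f G t ∈ H := by
      rintro ⟨x' | j, t⟩
      · have := hf x'
        rw [ZFSet.mem_union] at this
        rcases this with h | h
        · exact hxH _ h
        · exact hB _ h
      · exact hG _ _
    have hsub : ∀ y ∈ (x ∪ B : ZFSet.{0}), y ∈ ZFSet.range (evalTm f G) := by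
      intro y hy
      obtain ⟨a, rfl⟩ := hf' y hy
      exact ZFSet.mem_range.2 ⟨WType.mk (Sum.inl a) Empty.elim, rfl⟩
    refine ⟨ZFSet.range (evalTm f G), ⟨⟨fun y hy => ?_, ?_⟩, fun y hy => ?_, ?_⟩,
      fun y hy => ?_⟩
    · obtain ⟨t, rfl⟩ := ZFSet.mem_range.1 hy
      exact hmem t
    · exact Order.lt_succ_iff.2 ((card_range_le _).trans (mk_Tm_le hκ hX hJ))
    · exact hsub y (ZFSet.mem_union.2 (Or.inr hy))
    · intro j u hu
      choose t ht using fun k => ZFSet.mem_range.1 (hu k)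
      refine ZFSet.mem_range.2 ⟨WType.mk (Sum.inr j) t, ?_⟩
      have : u = fun k => evalTm f G (t k) := funext fun k => (ht k).symm
      rw [this]
      simp only [evalTm]
    · exact hsub y (ZFSet.mem_union.2 (Or.inl hy))
  · refine ⟨⟨fun y hy => ?_, ?_⟩, fun y hy => ?_, fun j u hu => ?_⟩
    · obtain ⟨x, hx, hy⟩ := ZFSet.mem_sUnion.1 hy
      exact (hDC x hx).1.1 y hy
    · refine Order.lt_succ_iff.2 ?_
      let I : Type := Shrink.{0} D
      let g : I → ZFSet.{0} := fun a => ((equivShrink D).symm a).1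
      have hg : ∀ a, g a ∈ D := fun a => ((equivShrink D).symm a).2
      have h1 : #(Shrink.{0} D.sUnion) ≤ #(Σ a : I, Shrink.{0} (g a)) := by
        refine mk_le_of_surjective (f := fun p : Σ a : I, Shrink.{0} (g a) =>
          equivShrink (D.sUnion) ⟨((equivShrink (g p.1)).symm p.2).1,
            ZFSet.mem_sUnion.2 ⟨g p.1, hg p.1, ((equivShrink (g p.1)).symm p.2).2⟩⟩) ?_
        intro z
        obtain ⟨⟨z, hz⟩, rfl⟩ := (equivShrink _).surjective z
        obtain ⟨x, hx, hzx⟩ := ZFSet.mem_sUnion.1 hz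
        have hgx : g (equivShrink D ⟨x, hx⟩) = x := by simp [g]
        refine ⟨⟨equivShrink D ⟨x, hx⟩, equivShrink _ ⟨z, by rw [hgx]; exact hzx⟩⟩, ?_⟩
        simp
      rw [card_eq_shrink]
      refine h1.trans ?_
      rw [mk_sigma]
      refine (Cardinal.sum_le_sum _ (fun _ => κ) fun a => ?_).trans ?_
      · exact Order.lt_succ_iff.1 (hDC _ (hg a)).1.2
      · rw [sum_const, Cardinal.lift_id, Cardinal.lift_id]
        exact (mul_le_mul' (Order.lt_succ_iff.1 hDc) le_rfl).trans (mul_eq_self hκ).le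
    · obtain ⟨x, hx⟩ := hD
      exact ZFSet.mem_sUnion.2 ⟨x, hx, (hDC x hx).2.1 hy⟩
    · -- finitely many elements of a chain
      have key : ∀ s : Finset (Fin (ar j)), ∃ x ∈ D, ∀ k ∈ s, u k ∈ x := by
        intro s
        induction s using Finset.induction_on with
        | empty =>
          obtain ⟨x, hx⟩ := hD
          exact ⟨x, hx, by simp⟩
        | insert k s hk ih =>
          obtain ⟨x, hx, hxs⟩ := ih
          obtain ⟨y, hy, hyk⟩ := ZFSet.mem_sUnion.1 (hu k)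
          rcases hch x hx y hy with h | h
          · refine ⟨y, hy, fun l hl => ?_⟩
            rcases Finset.mem_insert.1 hl with rfl | hl
            · exact hyk
            · exact h (hxs l hl)
          · refine ⟨x, hx, fun l hl => ?_⟩
            rcases Finset.mem_insert.1 hl with rfl | hl
            · exact h hyk
            · exact hxs l hl
      obtain ⟨x, hx, hxs⟩ := key Finset.univ
      exact ZFSet.mem_sUnion.2 ⟨x, hx, (hDC x hx).2.2 j u fun k => hxs k (Finset.mem_univ k)⟩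

/-! ### Codes -/

/-- the code of a set of objects with codes `c` -/
noncomputable def cS {A : Type} (c : A → ZFSet.{0}) (s : Set A) : ZFSet.{0} :=
  ZFSet.range fun x : s => c x

theorem mem_cS {A : Type} {c : A → ZFSet.{0}} {s : Set A} {z : ZFSet.{0}} :
    z ∈ cS c s ↔ ∃ x ∈ s, c x = z := by
  unfold cS
  rw [ZFSet.mem_range]
  constructor
  · rintro ⟨x, rfl⟩
    exact ⟨x, x.2, rfl⟩
  · rintro ⟨x, hx, rfl⟩
    exact ⟨⟨x, hx⟩, rfl⟩

theorem mem_cS' {A : Type} {c : A → ZFSet.{0}} (hc : Function.Injective c) {s : Set A} {x : A} :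
    c x ∈ cS c s ↔ x ∈ s := by
  rw [mem_cS]
  constructor
  · rintro ⟨y, hy, h⟩
    exact hc h ▸ hy
  · exact fun h => ⟨x, h, rfl⟩

theorem cS_injective {A : Type} {c : A → ZFSet.{0}} (hc : Function.Injective c) :
    Function.Injective (cS c) := by
  intro s t h
  ext x
  rw [← mem_cS' hc, h, mem_cS' hc]

theorem exists_vonNeumann {A : Type} (c : A → ZFSet.{0}) :
    ∃ o : Ordinal.{0}, ∀ x, c x ∈ ZFSet.vonNeumann o := by
  refine ⟨Order.succ (⨆ x, (c x).rank), fun x => ?_⟩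
  rw [ZFSet.mem_vonNeumann]
  exact Order.lt_succ_iff.2 (Ordinal.le_iSup (fun x => (c x).rank) x)

theorem exists_code (L : Type) : ∃ c : L → ZFSet.{0}, Function.Injective c := by
  refine ⟨fun x => (Ordinal.typein (α := L) WellOrderingRel x).toZFSet, ?_⟩
  intro x y h
  exact (Ordinal.typein_inj (α := L) WellOrderingRel).1 (Ordinal.toZFSet_injective h)

open Classical in
/-- transfer of a finitary function to codes -/
noncomputable def liftN {A : Type} (c : A → ZFSet.{0}) {n : ℕ} (F : (Fin n → Set A) → Set A) :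
    (Fin n → ZFSet.{0}) → ZFSet.{0} := fun u =>
  if h : ∃ s : Fin n → Set A, (fun k => cS c (s k)) = u then cS c (F h.choose) else ∅

theorem liftN_eq {A : Type} {c : A → ZFSet.{0}} (hc : Function.Injective c) {n : ℕ}
    (F : (Fin n → Set A) → Set A) (s : Fin n → Set A) :
    liftN c F (fun k => cS c (s k)) = cS c (F s) := by
  have h : ∃ t : Fin n → Set A, (fun k => cS c (t k)) = fun k => cS c (s k) := ⟨s, rfl⟩
  unfold liftN
  rw [dif_pos h]
  congr 2
  funext k
  exact cS_injective hc (congrFun h.choose_spec k)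

theorem liftN_mem {A : Type} (c : A → ZFSet.{0}) {n : ℕ} (F : (Fin n → Set A) → Set A)
    {T : ZFSet.{0}} (hT : ∅ ∈ T) (hC : ∀ x, cS c x ∈ T) (u : Fin n → ZFSet.{0}) :
    liftN c F u ∈ T := by
  unfold liftN
  split_ifs
  · exact hC _
  · exact hT

open Classical in
/-- from the code of `{l}` to the code of `l` -/
noncomputable def unS {A : Type} (c : A → ZFSet.{0}) (u : ZFSet.{0}) : ZFSet.{0} :=
  if h : ∃ l : A, cS c {l} = u then c h.choose else ∅

theorem unS_eq {A : Type} {c : A → ZFSet.{0}} (hc : Function.Injective c) (l : A) :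
    unS c (cS c {l}) = c l := by
  have h : ∃ l' : A, cS c {l'} = cS c {l} := ⟨l, rfl⟩
  unfold unS
  rw [dif_pos h]
  have := cS_injective hc h.choose_spec
  rw [Set.singleton_eq_singleton_iff] at this
  rw [this]

theorem unS_mem {A : Type} (c : A → ZFSet.{0}) {T : ZFSet.{0}} (hT : ∅ ∈ T) (hC : ∀ x, c x ∈ T)
    (u : ZFSet.{0}) : unS c u ∈ T := by
  unfold unS
  split_ifs
  · exact hC _
  · exact hT

theorem inter_cS {A : Type} (c : A → ZFSet.{0}) (a : ZFSet.{0}) :
    a ∩ cS c Set.univ = cS c {x | c x ∈ a} := by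
  ext z
  rw [ZFSet.mem_inter, mem_cS, mem_cS]
  constructor
  · rintro ⟨h1, x, _, rfl⟩
    exact ⟨x, h1, rfl⟩
  · rintro ⟨x, hx, rfl⟩
    exact ⟨hx, x, trivial, rfl⟩

/-! ### Countable sets -/

theorem countable_of_forced {Q : Type} [Preorder Q] (hQ : ∀ q : Q, q ∈ OmegaOnePreserved Q)
    {A : Type} {c : A → ZFSet.{0}} (hc : Function.Injective c) (a : ZFSet.{0}) (q : Q)
    (hq : q ∈ CtblC (fun x : ZFSet.{0} => fground (P := Q) (x ∈ a))) :
    {x | c x ∈ a}.Countable := by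
  classical
  by_contra hcon
  have h1 : ℵ₁ ≤ #{x | c x ∈ a} := by
    rw [aleph_one_le_iff]
    by_contra h
    exact hcon (Cardinal.le_aleph0_iff_set_countable.1 (not_lt.1 h))
  have h2 : #Om1 ≤ #{x | c x ∈ a} := by
    rw [show #Om1 = ℵ₁ from Cardinal.mk_ord_toType _]
    exact h1
  obtain ⟨g0⟩ := Cardinal.le_def _ _ |>.1 h2
  obtain ⟨r, hr, g, hg1, hg2⟩ := mem_fex.1 hq q le_rfl
  let e : Om1 → ZFSet.{0} := fun o => c (g0 o).1
  have he : Function.Injective e := fun x y h => g0.injective (Subtype.ext (hc h))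
  have hea : ∀ o, e o ∈ a := fun o => (g0 o).2
  obtain ⟨o0⟩ : Nonempty Om1 := inferInstance
  let R : ℕ → Om1 → Set Q := fun n o => {p | p ∈ meets (g n (e o)) ∨
    (o = o0 ∧ ∀ o' : Om1, ∀ p' ≤ p, p' ∉ meets (g n (e o')))}
  have hRd : ∀ n o, Down (R n o) := by
    intro n o p hp p' hp'
    rcases hp with h | ⟨h, h'⟩
    · exact Or.inl (down_meets _ _ h _ hp')
    · exact Or.inr ⟨h, fun o' p'' hp'' => h' o' p'' (hp''.trans hp')⟩
  refine hQ r r le_rfl (mem_fex_of_mem R (down_fand (down_IsFun R) (down_IsOnto R)) ⟨⟨?_, ?_⟩, ?_⟩)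
  · intro n
    refine mem_fex.2 fun p hp => ?_
    by_cases h : ∃ p' ≤ p, ∃ o, p' ∈ meets (g n (e o))
    · obtain ⟨p', hp', o, ho⟩ := h
      exact ⟨p', hp', o, meets_of_mem (Or.inl ho)⟩
    · refine ⟨p, le_rfl, o0, meets_of_mem (Or.inr ⟨rfl, fun o' p' hp' h' => h ⟨p', hp', o', h'⟩⟩)⟩
  · intro n o o'
    refine mem_fimp.2 fun p hp hpp => ⟨p, le_rfl, ?_⟩
    rw [mem_fground]
    obtain ⟨p1, hp1, h1⟩ := exists_of_meets (hRd n o) hpp.1
    obtain ⟨p2, hp2, h2⟩ := exists_of_meets (hRd n o') (down_meets _ _ hpp.2 _ hp1)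
    have h3 := hRd n o _ h1 _ hp2
    rcases h3 with h3 | ⟨h3, h3'⟩
    · rcases h2 with h2 | ⟨h2, h2'⟩
      · obtain ⟨w, _, hw⟩ := mem_fimp.1 (hg1 n (e o) (e o')) p2 (hp2.trans (hp1.trans hp)) ⟨h3, h2⟩
        exact he hw
      · exact (h2' o p2 le_rfl h3).elim
    · rcases h2 with h2 | ⟨h2, h2'⟩
      · exact (h3' o' p2 le_rfl h2).elim
      · rw [h3, h2]
  · intro o
    refine mem_fex.2 fun p hp => ?_
    obtain ⟨p1, hp1, h1⟩ := mem_fimp.1 (hg2 (e o)) p hp (meets_of_mem (hea o))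
    obtain ⟨p2, hp2, n, hn⟩ := mem_fex.1 h1 p1 le_rfl
    exact ⟨p2, hp2.trans hp1, n, meets_of_mem (Or.inl hn)⟩

theorem down_fiff {Q : Type} [Preorder Q] (φ ψ : Set Q) : Down (fiff φ ψ) :=
  down_fand (down_fimp _ _) (down_fimp _ _)

/-- the arities of the closure functions -/
def arF : (Om1 × ℕ) ⊕ Bool → ℕ
  | Sum.inl p => p.2
  | Sum.inr _ => 1

/-- the closure functions -/
noncomputable def Gf {L : Type} (c : L → ZFSet.{0}) (F : Om1 → (n : ℕ) → (Fin n → Set L) → Set L) :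
    (j : (Om1 × ℕ) ⊕ Bool) → (Fin (arF j) → ZFSet.{0}) → ZFSet.{0}
  | Sum.inl p => liftN c (F p.1 p.2)
  | Sum.inr true => fun (u : Fin 1 → ZFSet.{0}) => u 0 ∩ cS c Set.univ
  | Sum.inr false => fun (u : Fin 1 → ZFSet.{0}) => unS c (u 0)

theorem lit3 : S_lit3 := by
  classical
  rintro ⟨θ₀, hI⟩ L F
  obtain ⟨c, hc⟩ := exists_code L
  obtain ⟨o1, ho1⟩ := exists_vonNeumann c
  obtain ⟨o2, ho2⟩ := exists_vonNeumann (cS c)
  let o := max o1 o2
  let T : ZFSet.{0} := ZFSet.vonNeumann o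
  have hT1 : ∀ x, c x ∈ T := fun x => ZFSet.vonNeumann_subset_of_le (le_max_left _ _) (ho1 x)
  have hT2 : ∀ x, cS c x ∈ T := fun x => ZFSet.vonNeumann_subset_of_le (le_max_right _ _) (ho2 x)
  have hT0 : ∅ ∈ T := by
    have := hT2 ∅
    have h2 : cS c ∅ = ∅ := by
      ext z
      rw [mem_cS]
      simp
    rwa [h2] at this
  have hTsub : ∀ x y : ZFSet.{0}, x ⊆ y → y ∈ T → x ∈ T := fun x y h hy =>
    ZFSet.mem_vonNeumann_of_subset h hy
  let θ : Cardinal.{0} := Order.succ (max θ₀ (max T.card ℵ₁))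
  have hθ : θ.IsRegular :=
    isRegular_succ ((aleph0_le_aleph 1).trans ((le_max_right _ _).trans (le_max_right _ _)))
  have hθ0 : θ₀ ≤ θ := (le_max_left _ _).trans (Order.le_succ _)
  have hTH : ∀ x ∈ T, x ∈ Hset θ := fun x hx =>
    ⟨T, ZFSet.isTransitive_vonNeumann o, (ZFSet.isTransitive_vonNeumann o) x hx,
      Order.lt_succ_iff.2 ((le_max_left _ _).trans (le_max_right _ _))⟩
  let B : ZFSet.{0} := {cS c Set.univ}
  have hB : ∀ y ∈ B, y ∈ Hset θ := by
    intro y hy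
    rw [ZFSet.mem_singleton.1 hy]
    exact hTH _ (hT2 _)
  have hBc : B.card ≤ ℵ₁ :=
    (ZFSet.card_singleton).le.trans (one_le_aleph0.trans (aleph0_le_aleph 1))
  have hJ : #((Om1 × ℕ) ⊕ Bool) ≤ ℵ₁ := by
    simp only [mk_sum, mk_prod, Cardinal.lift_id]
    refine add_le_of_le (aleph0_le_aleph 1) ?_ ?_
    · rw [show #Om1 = ℵ₁ from Cardinal.mk_ord_toType _]
      refine (mul_le_mul' le_rfl (mk_le_aleph0.trans (aleph0_le_aleph 1))).trans ?_
      exact (mul_eq_self (aleph0_le_aleph 1)).le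
    · exact mk_le_aleph0.trans (aleph0_le_aleph 1)
  have hG : ∀ j u, Gf c F j u ∈ Hset θ := by
    intro j u
    refine hTH _ ?_
    rcases j with p | b | b
    · exact liftN_mem c _ hT0 hT2 _
    · exact unS_mem c hT0 hT1 _
    · exact hTsub _ _ (fun z hz => (ZFSet.mem_inter.1 hz).2) (hT2 Set.univ)
  have h2 : (ℵ_ 2 : Cardinal.{0}) = Order.succ ℵ₁ := by
    rw [succ_aleph]
    norm_num
  have hclub := isClub_closedN (aleph0_le_aleph 1) hJ (Hset θ) (Gf c F) hG B hB hBc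
  rw [← h2] at hclub
  obtain ⟨M, hMC, -, hMi⟩ := hI θ hθ0 hθ _ hclub
  obtain ⟨⟨hMH, hMc⟩, hBM, hcl⟩ := hMC
  have hX : cS c Set.univ ∈ M := hBM (ZFSet.mem_singleton.2 rfl)
  have hclF : ∀ i n (s : Fin n → Set L), (∀ k, cS c (s k) ∈ M) → cS c (F i n s) ∈ M := by
    intro i n s hs
    have := hcl (Sum.inl (i, n)) (fun k => cS c (s k)) hs
    change liftN c (F i n) (fun k => cS c (s k)) ∈ M at this
    rwa [liftN_eq hc] at this
  have hclI : ∀ a ∈ M, cS c {x | c x ∈ a} ∈ M := by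
    intro a ha
    have := hcl (Sum.inr true) (fun _ => a) (fun _ => ha)
    change a ∩ cS c Set.univ ∈ M at this
    rwa [inter_cS] at this
  have hclU : ∀ l, cS c {l} ∈ M → c l ∈ M := by
    intro l hl
    have := hcl (Sum.inr false) (fun _ => cS c {l}) (fun _ => hl)
    change unS c (cS c {l}) ∈ M at this
    rwa [unS_eq hc] at this
  -- the enumeration
  have hcard : #{s : Set L | cS c s ∈ M} ≤ #Om1 := by
    rw [show #Om1 = ℵ₁ from Cardinal.mk_ord_toType _]
    refine (mk_le_card (cS c) (cS_injective hc) _ M fun x hx => hx).trans ?_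
    rw [h2] at hMc
    exact Order.lt_succ_iff.1 hMc
  obtain ⟨em⟩ := Cardinal.le_def _ _ |>.1 hcard
  have hne : Nonempty {s : Set L | cS c s ∈ M} := ⟨⟨Set.univ, hX⟩⟩
  let Y : Om1 → Set L := fun o => (Function.invFun em o).1
  have hY1 : ∀ j, cS c (Y j) ∈ M := fun j => (Function.invFun em j).2
  have hY2 : ∀ s : Set L, cS c s ∈ M → ∃ j, s = Y j := by
    intro s hs
    refine ⟨em ⟨s, hs⟩, ?_⟩
    simp only [Y]
    rw [Function.leftInverse_invFun em.injective]
  refine ⟨Y, ?_, ?_⟩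
  · intro i n s hs
    refine hY2 _ (hclF i n s fun k => ?_)
    obtain ⟨j, hj⟩ := hs k
    rw [hj]
    exact hY1 j
  · intro Q _ hQ q d
    refine mem_fimp.2 fun q' _ hq' => ?_
    let A : ZFSet.{0} → Set Q := fun z => {p | ∃ l, c l = z ∧ p ∈ d l}
    have hA : ∀ l, A (c l) = d l := by
      intro l
      ext p
      constructor
      · rintro ⟨l', hl', hp⟩
        rwa [← hc hl']
      · exact fun hp => ⟨l, rfl, hp⟩
    have hA0 : ∀ x, x ∉ cS c Set.univ → A x = ∅ := by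
      intro x hx
      rw [Set.eq_empty_iff_forall_notMem]
      rintro p ⟨l, hl, -⟩
      exact hx (mem_cS.2 ⟨l, trivial, hl⟩)
    have happ : q' ∈ ApproxZ M A := by
      intro a ha
      refine mem_fimp.2 fun q'' hq'' hca => ?_
      have hcount := countable_of_forced hQ hc a q'' hca
      obtain ⟨j, hj⟩ := hY2 _ (hclI a ha)
      have hjc : (Y j).Countable := by rw [← hj]; exact hcount
      obtain ⟨r, hr, k, hk⟩ := mem_fex.1 (hq' j hjc) q'' hq''
      refine ⟨r, hr, mem_fex_of_mem (cS c (Y k)) ?_ ⟨hY1 k, fun x => ⟨?_, ?_⟩⟩⟩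
      · exact down_fand (down_fground _) (down_fall fun x =>
          down_fand (down_fimp _ _) (down_fimp _ _))
      · refine mem_fimp.2 fun p hp hpx => ?_
        have hex : ∃ l, c l = x := by
          obtain ⟨_, _, s, ⟨l, hl, _⟩, _⟩ := hpx.1 p le_rfl
          exact ⟨l, hl⟩
        obtain ⟨l, rfl⟩ := hex
        rw [hA] at hpx
        have hlj : l ∈ Y j := by rw [← hj]; exact hpx.2
        obtain ⟨w, hw, hw'⟩ := mem_fimp.1 (hk l).1 p hp ⟨hpx.1, hlj⟩
        exact ⟨w, hw, (mem_cS' hc).2 hw'⟩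
      · refine mem_fimp.2 fun p hp hpx => ?_
        obtain ⟨l, hl, rfl⟩ := mem_cS.1 (show x ∈ cS c (Y k) from hpx)
        obtain ⟨w, hw, hw'⟩ := mem_fimp.1 (hk l).2 p hp hl
        refine ⟨w, hw, ?_, ?_⟩
        · rw [hA]
          exact hw'.1
        · have : l ∈ Y j := hw'.2
          rw [← hj] at this
          exact this
    obtain ⟨r, hr, hg⟩ := mem_fimp.1 (hMi Q hQ q' _ hX A hA0) q' le_rfl happ
    obtain ⟨r', hr', b, hb, hb2⟩ := mem_fex.1 hg r le_rfl
    obtain ⟨k, hk⟩ := hY2 _ (hclI b hb)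
    refine ⟨r', hr'.trans hr, mem_fex_of_mem k (down_fall fun l => down_fall fun _ =>
      down_fiff _ _) fun l hl => ?_⟩
    have hlM : c l ∈ M := by
      obtain ⟨j, hj⟩ := hl
      refine hclU l ?_
      rw [← hj]
      exact hY1 j
    have hlb : (c l ∈ b) ↔ l ∈ Y k := by
      rw [← hk]
      rfl
    have := hb2 (c l) hlM
    rw [hA, hlb] at this
    exact this

end Pool.Agent.H915.L3
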