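import Pool.Agent.H915.Lit

/-!
# Plain forms: Martin axiom and the continuum
-/

set_option autoImplicit false

namespace Pool.Agent.H915.L4

open Cardinal Set Pool.Agent.Helper669.Forcing
open Pool.Agent.W684.FM (IsPreN CompatN IsDenseN IsFilterN)

/-! ### the forcing language over the one-point preorder -/

theorem u_meets (N : Set Unit) : () ∈ meets N ↔ () ∈ N := by
  constructor
  · intro h
    obtain ⟨r, -, s, hs, -⟩ := h () le_rfl
    exact hs
  · exact meets_of_mem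

theorem u_fimp (φ ψ : Set Unit) : () ∈ fimp φ ψ ↔ (() ∈ φ → () ∈ ψ) := by
  rw [mem_fimp]
  constructor
  · intro h hφ
    obtain ⟨r, -, hr⟩ := h () le_rfl hφ
    exact hr
  · intro h q _ hq
    exact ⟨(), le_rfl, h hq⟩

theorem u_fex {ι : Sort*} (φ : ι → Set Unit) : () ∈ fex φ ↔ ∃ i, () ∈ φ i := by
  rw [mem_fex]
  constructor
  · intro h
    obtain ⟨r, -, i, hi⟩ := h () le_rfl
    exact ⟨i, hi⟩
  · rintro ⟨i, hi⟩ q _
    exact ⟨(), le_rfl, i, hi⟩

theorem u_fnot (φ : Set Unit) : () ∈ fnot φ ↔ ¬ () ∈ φ := by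
  constructor
  · intro h
    exact h () le_rfl
  · intro h q _
    exact h

theorem u_fall {ι : Sort*} (φ : ι → Set Unit) : () ∈ fall φ ↔ ∀ i, () ∈ φ i := Iff.rfl

theorem u_fand (φ ψ : Set Unit) : () ∈ fand φ ψ ↔ (() ∈ φ ∧ () ∈ ψ) := Iff.rfl

theorem u_fground (h : Prop) : () ∈ fground (P := Unit) h ↔ h := Iff.rfl

/-- the name of a proposition -/
def nm (h : Prop) : Set Unit := {_u | h}

theorem mem_nm (h : Prop) : () ∈ nm h ↔ h := Iff.rfl

/-! ### Martin's axiom -/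

theorem u_ctbl {L : Type} (x : L → Set Unit) : () ∈ CtblN x ↔ {l | () ∈ x l}.Countable := by
  unfold CtblN
  simp only [u_fex, u_fand, u_fall, u_fimp, u_meets, u_fground]
  constructor
  · rintro ⟨g, h1, h2⟩
    have h3 : {l | () ∈ x l} ⊆ ⋃ n : ℕ, {l | () ∈ g n l} := by
      intro l hl
      obtain ⟨n, hn⟩ := h2 l hl
      exact mem_iUnion.2 ⟨n, hn⟩
    refine (countable_iUnion fun n => ?_).mono h3
    have h4 : {l | () ∈ g n l}.Subsingleton := fun l hl l' hl' => h1 n l l' ⟨hl, hl'⟩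
    exact h4.countable
  · intro h
    obtain ⟨f, hf⟩ := h.exists_injective_nat
    refine ⟨fun n l => nm (∃ h : l ∈ {l | () ∈ x l}, f ⟨l, h⟩ = n), ?_, ?_⟩
    · rintro n l l' ⟨⟨h1, h2⟩, ⟨h3, h4⟩⟩
      have := hf (h2.trans h4.symm)
      exact congrArg Subtype.val this
    · intro l hl
      exact ⟨f ⟨l, hl⟩, hl, rfl⟩

theorem lit4 : S_lit4 := by
  unfold S_lit4
  constructor
  · intro h P _ _ hccc 𝒟 h𝒟 hD
    have hcard : #𝒟 ≤ #Om1 := by
      rw [show #Om1 = ℵ₁ from mk_ord_toType _]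
      exact h𝒟
    obtain ⟨e⟩ := hcard
    classical
    let f : Om1 → Set P := fun i => if h : ∃ D : 𝒟, e D = i then h.choose.1 else univ
    have hf1 : ∀ i, ∀ p : P, ∃ q ∈ f i, q ≤ p := by
      intro i p
      by_cases h : ∃ D : 𝒟, e D = i
      · simp only [f, dif_pos h]
        exact hD _ h.choose.2 p
      · simp only [f, dif_neg h]
        exact ⟨p, mem_univ _, le_rfl⟩
    have hf2 : ∀ D ∈ 𝒟, ∃ i, f i = D := by
      intro D hDD
      refine ⟨e ⟨D, hDD⟩, ?_⟩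
      have h1 : ∃ D' : 𝒟, e D' = e ⟨D, hDD⟩ := ⟨_, rfl⟩
      simp only [f, dif_pos h1]
      exact congrArg Subtype.val (e.injective h1.choose_spec)
    have h1 := h P (fun x y => nm (x ≤ y)) (fun i x => nm (x ∈ f i))
    rw [u_fimp] at h1
    have h2 := h1 (by
      refine ⟨‹Nonempty P›, ⟨?_, ?_⟩, ?_, ?_⟩
      · intro x
        rw [u_meets, mem_nm]
      · intro x y z
        rw [u_fimp]
        rintro ⟨h3, h4⟩
        rw [u_meets, mem_nm] at h3 h4 ⊢
        exact h3.trans h4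
      · intro A
        rw [u_fimp, u_ctbl]
        intro hA
        refine hccc _ ?_
        intro p hp q hq hpq hcomp
        apply hpq
        have h3 := hA p q
        rw [u_fimp] at h3
        refine h3 ⟨(u_meets _).2 hp, (u_meets _).2 hq, ?_⟩
        obtain ⟨r, hr1, hr2⟩ := hcomp
        refine (u_fex _).2 ⟨r, (u_meets _).2 hr1, (u_meets _).2 hr2⟩
      · intro i x
        obtain ⟨q, hq1, hq2⟩ := hf1 i x
        exact (u_fex _).2 ⟨q, (u_meets _).2 hq1, (u_meets _).2 hq2⟩)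
    obtain ⟨F, ⟨hF1, hF2, hF3⟩, hF4⟩ := (u_fex _).1 h2
    refine ⟨{x | () ∈ F x}, ?_, ?_, ?_, ?_⟩
    · obtain ⟨x, hx⟩ := (u_fex _).1 hF1
      exact ⟨x, (u_meets _).1 hx⟩
    · intro p hp q hpq
      have h3 := hF2 p q
      rw [u_fimp] at h3
      exact (u_meets _).1 (h3 ⟨(u_meets _).2 hp, (u_meets _).2 hpq⟩)
    · intro p hp q hq
      have h3 := hF3 p q
      rw [u_fimp] at h3
      obtain ⟨r, hr1, hr2, hr3⟩ := (u_fex _).1 (h3 ⟨(u_meets _).2 hp, (u_meets _).2 hq⟩)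
      exact ⟨r, (u_meets _).1 hr1, (u_meets _).1 hr2, (u_meets _).1 hr3⟩
    · intro D hDD
      obtain ⟨i, hi⟩ := hf2 D hDD
      obtain ⟨x, hx1, hx2⟩ := (u_fex _).1 (hF4 i)
      refine ⟨x, (u_meets _).1 hx1, ?_⟩
      have h3 : x ∈ f i := (u_meets _).1 hx2
      rwa [hi] at h3
  · intro hMA X R D
    rw [u_fimp]
    rintro ⟨hX, ⟨hR1, hR2⟩, hccc, hD⟩
    letI : Preorder X :=
      { le := fun x y => () ∈ R x y
        le_refl := fun x => (u_meets _).1 (hR1 x)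
        le_trans := fun x y z hxy hyz => by
          have h1 := hR2 x y z
          rw [u_fimp] at h1
          exact (u_meets _).1 (h1 ⟨(u_meets _).2 hxy, (u_meets _).2 hyz⟩) }
    haveI : Nonempty X := hX
    have hle : ∀ x y : X, x ≤ y ↔ () ∈ R x y := fun x y => Iff.rfl
    obtain ⟨G, hG1, hG2, hG3, hG4⟩ := hMA X (by
      intro A hA
      have h1 := hccc (fun x => nm (x ∈ A))
      rw [u_fimp, u_ctbl] at h1
      refine h1 ?_
      intro x y
      rw [u_fimp]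
      rintro ⟨hx, hy, hxy⟩
      rw [u_meets] at hx hy
      show x = y
      by_contra hne
      refine hA x hx y hy hne ?_
      obtain ⟨z, hz1, hz2⟩ := (u_fex _).1 hxy
      exact ⟨z, (u_meets _).1 hz1, (u_meets _).1 hz2⟩)
      (range fun i : Om1 => {x | () ∈ D i x}) (by
        refine mk_range_le.trans (le_of_eq ?_)
        exact mk_ord_toType _) (by
        rintro _ ⟨i, rfl⟩ p
        obtain ⟨y, hy1, hy2⟩ := (u_fex _).1 (hD i p)
        exact ⟨y, (u_meets _).1 hy1, (u_meets _).1 hy2⟩)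
    refine (u_fex _).2 ⟨fun x => nm (x ∈ G), ⟨?_, ?_, ?_⟩, ?_⟩
    · obtain ⟨x, hx⟩ := hG1
      exact (u_fex _).2 ⟨x, (u_meets _).2 hx⟩
    · intro x y
      rw [u_fimp]
      rintro ⟨hx, hxy⟩
      rw [u_meets] at hx hxy ⊢
      exact hG2 x hx y hxy
    · intro x y
      rw [u_fimp]
      rintro ⟨hx, hy⟩
      rw [u_meets] at hx hy
      obtain ⟨r, hr, hr1, hr2⟩ := hG3 x hx y hy
      exact (u_fex _).2 ⟨r, (u_meets _).2 hr, (u_meets _).2 hr1, (u_meets _).2 hr2⟩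
    · intro i
      obtain ⟨x, hx1, hx2⟩ := hG4 _ ⟨i, rfl⟩
      exact (u_fex _).2 ⟨x, (u_meets _).2 hx1, (u_meets _).2 hx2⟩

/-! ### the continuum -/

theorem u_isFun {A B : Type} (R : A → B → Set Unit) :
    () ∈ IsFun R ↔ ∃ f : A → B, ∀ x y, () ∈ R x y ↔ y = f x := by
  unfold IsFun
  simp only [u_fand, u_fall, u_fex, u_fimp, u_meets, u_fground]
  constructor
  · rintro ⟨h1, h2⟩
    choose f hf using h1
    exact ⟨f, fun x y => ⟨fun h => h2 x y (f x) ⟨h, hf x⟩, fun h => by rw [h]; exact hf x⟩⟩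
  · rintro ⟨f, hf⟩
    refine ⟨fun x => ⟨f x, (hf x _).2 rfl⟩, ?_⟩
    rintro x y y' ⟨h1, h2⟩
    rw [(hf x y).1 h1, (hf x y').1 h2]

theorem u_onto (A B : Type) :
    (∃ R : A → B → Set Unit, () ∈ fand (IsFun R) (IsOnto R)) ↔ ∃ f : A → B, f.Surjective := by
  constructor
  · rintro ⟨R, h1, h2⟩
    obtain ⟨f, hf⟩ := (u_isFun R).1 h1
    refine ⟨f, fun y => ?_⟩
    obtain ⟨x, hx⟩ := (u_fex _).1 (h2 y)
    rw [u_meets, hf] at hx
    exact ⟨x, hx.symm⟩
  · rintro ⟨f, hf⟩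
    refine ⟨fun x y => nm (y = f x), (u_isFun _).2 ⟨f, fun x y => Iff.rfl⟩, ?_⟩
    intro y
    obtain ⟨x, hx⟩ := hf y
    exact (u_fex _).2 ⟨x, (u_meets _).2 hx.symm⟩

theorem u_continuumLe (Y : Type) :
    () ∈ ContinuumLe Unit Y ↔ ∃ f : Y → ℕ → ℕ, f.Surjective := by
  unfold ContinuumLe
  rw [u_fex]
  constructor
  · rintro ⟨E, h1, h2⟩
    have h3 : ∀ y, ∃ f : ℕ → ℕ, ∀ n a, () ∈ E y n a ↔ a = f n := fun y => (u_isFun _).1 (h1 y)
    choose f hf using h3
    refine ⟨f, fun g => ?_⟩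
    have h4 := h2 (fun n a => nm (a = g n))
    rw [u_fimp] at h4
    obtain ⟨y, hy⟩ := (u_fex _).1 (h4 ((u_isFun _).2 ⟨g, fun x y => Iff.rfl⟩))
    refine ⟨y, ?_⟩
    funext n
    have h5 := hy n (g n) (f y n)
    rw [u_fimp] at h5
    have h6 := h5 ⟨(u_meets _).2 rfl, (u_meets _).2 ((hf y n _).2 rfl)⟩
    exact ((u_fground _).1 h6).symm
  · rintro ⟨f, hf⟩
    refine ⟨fun y n a => nm (a = f y n), fun y => (u_isFun _).2 ⟨f y, fun x y => Iff.rfl⟩, ?_⟩
    intro x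
    rw [u_fimp]
    intro hx
    obtain ⟨g, hg⟩ := (u_isFun x).1 hx
    obtain ⟨y, hy⟩ := hf g
    refine (u_fex _).2 ⟨y, ?_⟩
    intro n a b
    rw [u_fimp]
    rintro ⟨h1, h2⟩
    rw [u_meets] at h1 h2
    rw [u_fground]
    rw [hg] at h1
    have h3 : b = f y n := h2
    rw [h1, h3, hy]

theorem lit5 : S_lit5 := by
  unfold S_lit5 BigContinuumN
  rw [u_fex]
  have hom : #Om1 = ℵ₁ := mk_ord_toType _
  have hreal : #(ℕ → ℕ) = (𝔠 : Cardinal.{0}) := by simp
  constructor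
  · rintro ⟨Y, hY, h1, h2⟩
    haveI : Nonempty Y := hY
    rw [u_fnot, u_fex, u_onto] at h1
    rw [u_fnot, u_continuumLe] at h2
    have h3 : ℵ₁ < #Y := by
      by_contra hc
      apply h1
      have hc' : #Y ≤ #Om1 := by rw [hom]; exact not_lt.1 hc
      obtain ⟨e⟩ := hc'
      exact ⟨Function.invFun e, Function.invFun_surjective e.injective⟩
    have h4 : #Y < 𝔠 := by
      by_contra hc
      apply h2
      have hc' : #(ℕ → ℕ) ≤ #Y := by rw [hreal]; exact not_lt.1 hc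
      obtain ⟨e⟩ := hc'
      exact ⟨Function.invFun e, Function.invFun_surjective e.injective⟩
    refine lt_of_le_of_lt ?_ h4
    have h5 : (ℵ_ 2 : Cardinal.{0}) = Order.succ ℵ₁ := by
      rw [← aleph_succ]
      congr 1
      rw [← one_add_one_eq_two, Ordinal.add_one_eq_succ]
    rw [h5]
    exact Order.succ_le_of_lt h3
  · intro h
    refine ⟨(ℵ_ 2 : Cardinal.{0}).out, ?_, ?_, ?_⟩
    · show Nonempty _
      rw [← mk_ne_zero_iff, mk_out]
      exact (aleph_pos 2).ne'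
    · rw [u_fnot, u_fex, u_onto]
      rintro ⟨f, hf⟩
      have h1 := mk_le_of_surjective hf
      rw [mk_out, hom] at h1
      exact absurd h1 (not_le.2 (aleph_lt_aleph.2 (by norm_num)))
    · rw [u_fnot, u_continuumLe]
      rintro ⟨f, hf⟩
      have h1 := mk_le_of_surjective hf
      rw [mk_out, hreal] at h1
      exact absurd h1 (not_le.2 h)

end Pool.Agent.H915.L4
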