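import Mathlib
import Pool.Agent.H915.Sent
import Pool.Agent.W873.Gmp.Defs

/-!
# The principles in the ground model, in their usual form
-/

set_option autoImplicit false

namespace Pool.Agent.H915

open Cardinal Set Pool.Agent.Helper669.Forcing
open Pool.Agent.W873.Gmp (Hset ElemSub IsClubIn)
open Pool.Agent.W684.FM (OmegaOnePreserved)

section
variable {Q : Type} [Preorder Q]

/-- the set named by `x` is countable (for names for subsets of a class `L`) -/
def CtblC {L : Type 1} (x : L → Set Q) : Set Q :=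
  fex fun g : ℕ → L → Set Q => fand
    (fall fun n : ℕ => fall fun l : L => fall fun l' : L =>
      fimp (fand (meets (g n l)) (meets (g n l'))) (fground (l = l')))
    (fall fun l : L => fimp (meets (x l)) (fex fun n : ℕ => meets (g n l)))

/-- In the extension by `Q`: the set named by `A` is `ω₁`-approximated in `M`, that is, `A ∩ a` is
in `M` for each countable `a` in `M`. -/
def ApproxZ (M : ZFSet.{0}) (A : ZFSet.{0} → Set Q) : Set Q :=
  fall fun a : ZFSet.{0} => fall fun _ : a ∈ M =>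
    fimp (CtblC fun x : ZFSet.{0} => fground (x ∈ a))
      (fex fun b : ZFSet.{0} => fand (fground (b ∈ M)) (fall fun x : ZFSet.{0} =>
        fand (fimp (fand (meets (A x)) (fground (x ∈ a))) (fground (x ∈ b)))
          (fimp (fground (x ∈ b)) (fand (meets (A x)) (fground (x ∈ a))))))

/-- In the extension by `Q`: the set named by `A` is guessed in `M`, that is, there is `b` in `M`
with `A ∩ M = b ∩ M`. -/
def GuessedZ (M : ZFSet.{0}) (A : ZFSet.{0} → Set Q) : Set Q :=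
  fex fun b : ZFSet.{0} => fand (fground (b ∈ M)) (fall fun x : ZFSet.{0} => fall fun _ : x ∈ M =>
    fand (fimp (meets (A x)) (fground (x ∈ b))) (fimp (fground (x ∈ b)) (meets (A x))))

/-- In the extension by `Q`, `M` is `ω₁`-guessing: for each `X` in `M`, each subset of `X` which is
`ω₁`-approximated in `M` is guessed in `M`. -/
def GuessingZ (Q : Type) [Preorder Q] (M : ZFSet.{0}) : Set Q :=
  fall fun X : ZFSet.{0} => fall fun _ : X ∈ M => fall fun A : ZFSet.{0} → Set Q =>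
    fall fun _ : ∀ x, x ∉ X → A x = ∅ => fimp (ApproxZ M A) (GuessedZ M A)

end

/-- `M` is an indestructible `ω₁`-guessing model: it is `ω₁`-guessing in each extension by a
forcing notion which preserves `ω₁`. -/
def Indestructible (M : ZFSet.{0}) : Prop :=
  ∀ (Q : Type) [Preorder Q], (∀ q : Q, q ∈ OmegaOnePreserved Q) → ∀ q : Q, q ∈ GuessingZ Q M

/-- The principle `IGMP(ω₂, ω₁)`: for all sufficiently large regular `θ`, the set of the
indestructible `ω₁`-guessing elementary submodels of `H(θ)` is stationary in `𝒫_{ω₂}(H(θ))`. -/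
def IGMP : Prop :=
  ∃ θ₀ : Cardinal.{0}, ∀ θ : Cardinal.{0}, θ₀ ≤ θ → θ.IsRegular →
    ∀ C : Set ZFSet.{0}, IsClubIn (ℵ_ 2) (Hset θ) C → ∃ M ∈ C, ElemSub θ M ∧ Indestructible M

/-- The countable chain condition: every set of pairwise incompatible conditions is countable. -/
def IsCCC (P : Type) [Preorder P] : Prop :=
  ∀ A : Set P, (∀ p ∈ A, ∀ q ∈ A, p ≠ q → ¬ ∃ r : P, r ≤ p ∧ r ≤ q) → A.Countable

/-- Martin's axiom for `ℵ₁` dense sets: for every nonempty preordered set `P` with the countable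
chain condition and every family of at most `ℵ₁` dense subsets of `P` there is a filter in `P`
which meets each of them. -/
def MartinAxiomAleph1 : Prop :=
  ∀ (P : Type) [Preorder P] [Nonempty P], IsCCC P →
    ∀ 𝒟 : Set (Set P), #𝒟 ≤ ℵ₁ → (∀ D ∈ 𝒟, ∀ p : P, ∃ q ∈ D, q ≤ p) →
      ∃ G : Set P, G.Nonempty ∧ (∀ p ∈ G, ∀ q : P, p ≤ q → q ∈ G) ∧
        (∀ p ∈ G, ∀ q ∈ G, ∃ r ∈ G, r ≤ p ∧ r ≤ q) ∧ ∀ D ∈ 𝒟, (G ∩ D).Nonempty

/-- The typed form of `IGMP(ω₂, ω₁)` in the ground model. -/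
def TypedIGMP : Prop :=
  ∀ (L : Type) (F : Om1 → (n : ℕ) → (Fin n → Set L) → Set L), ∃ Y : Om1 → Set L,
    (∀ i n (s : Fin n → Set L), (∀ k, ∃ j, s k = Y j) → ∃ j, F i n s = Y j) ∧
    ∀ (Q : Type) [Preorder Q], (∀ q : Q, q ∈ OmegaOnePreserved Q) → ∀ (q : Q) (d : L → Set Q),
      q ∈ fimp
        (fall fun j : Om1 => fall fun _ : (Y j).Countable => fex fun k : Om1 =>
          fall fun l : L => fiff (fand (meets (d l)) (fground (l ∈ Y j))) (fground (l ∈ Y k)))
        (fex fun k : Om1 => fall fun l : L => fall fun _ : (∃ j, Y j = {l}) =>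
          fiff (meets (d l)) (fground (l ∈ Y k)))

/-! ### Statements -/

def S_lit1 : Prop := (() ∈ IGMPN Unit) ↔ TypedIGMP
/-- clubs in `𝒫_{ω₂}(H(θ))` contain all sets closed under certain `ℵ₁` finitary functions -/
def S_lit2a : Prop := ∀ (θ : Cardinal.{0}) (C : Set ZFSet.{0}), θ.IsRegular → ℵ_ 2 ≤ θ →
  IsClubIn (ℵ_ 2) (Hset θ) C →
  ∃ F : Om1 → (n : ℕ) → (Fin n → ZFSet.{0}) → ZFSet.{0},
    (∀ i n s, (∀ k, s k ∈ Hset θ) → F i n s ∈ Hset θ) ∧
    ∀ M : ZFSet.{0}, M.Nonempty → (∀ y ∈ M, y ∈ Hset θ) → M.card < ℵ_ 2 →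
      (∀ i n (s : Fin n → ZFSet.{0}), (∀ k, s k ∈ M) → F i n s ∈ M) → M ∈ C

/-- Skolem functions for `(H(θ), ∈)` -/
def S_lit2b : Prop := ∀ θ : Cardinal.{0}, θ.IsRegular → ℵ_ 2 ≤ θ →
  ∃ G : ℕ → (n : ℕ) → (Fin n → ZFSet.{0}) → ZFSet.{0},
    (∀ i n s, (∀ k, s k ∈ Hset θ) → G i n s ∈ Hset θ) ∧
    ∀ M : ZFSet.{0}, M.Nonempty → (∀ y ∈ M, y ∈ Hset θ) →
      (∀ i n (s : Fin n → ZFSet.{0}), (∀ k, s k ∈ M) → G i n s ∈ M) → ElemSub θ M

def S_lit2 : Prop := TypedIGMP → IGMP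
def S_lit3 : Prop := IGMP → TypedIGMP
def S_lit4 : Prop := (() ∈ MAN Unit) ↔ MartinAxiomAleph1
def S_lit5 : Prop := (() ∈ BigContinuumN Unit) ↔ (ℵ_ 2 : Cardinal.{0}) < 𝔠

end Pool.Agent.H915
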