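import Pool.Agent.H915.Stmts2
import Pool.Agent.W684.FM.Forced

/-!
# Martin axiom in the extension
-/

set_option autoImplicit false

namespace Pool.Agent.H915.Ma

open Cardinal Set Pool.Agent.Helper669.Forcing


open Pool.Agent.W910.LC (Supercompact)
open Pool.Agent.W873.Tp (NormalFine)
open Pool.Agent.W684.FM (IsPreN CompatN IsDenseN IsFilterN down_IsPreN down_IsFilterN IsPreN.refl
  IsPreN.trans)

section General

variable {P : Type} [Preorder P]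

/-- maximal antichains -/
theorem exists_anti {κ : Cardinal.{0}} (h : KCC κ P) (S : Set P) :
    ∃ A ⊆ S, #A < κ ∧ ∀ u ∈ S, ∃ a ∈ A, ∃ v, v ≤ u ∧ v ≤ a := by
  obtain ⟨A, hA⟩ := zorn_subset
    {A : Set P | A ⊆ S ∧ ∀ p ∈ A, ∀ q ∈ A, p ≠ q → ¬ ∃ r, r ≤ p ∧ r ≤ q} (by
      intro c hc hch
      refine ⟨⋃₀ c, ⟨sUnion_subset fun A hA => (hc hA).1, ?_⟩, fun A hA => subset_sUnion_of_mem hA⟩
      rintro p ⟨A, hA, hp⟩ q ⟨B, hB, hq⟩ hne
      rcases hch.total hA hB with h1 | h1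
      · exact (hc hB).2 p (h1 hp) q hq hne
      · exact (hc hA).2 p hp q (h1 hq) hne)
  refine ⟨A, hA.prop.1, h A hA.prop.2, fun u hu => ?_⟩
  by_contra hcon
  push Not at hcon
  have h1 : insert u A ∈ {A : Set P | A ⊆ S ∧ ∀ p ∈ A, ∀ q ∈ A, p ≠ q → ¬ ∃ r, r ≤ p ∧ r ≤ q} := by
    refine ⟨insert_subset hu hA.prop.1, ?_⟩
    rintro p (rfl | hp) q (rfl | hq) hne
    · exact absurd rfl hne
    · rintro ⟨r, h1, h2⟩
      exact hcon q hq r h1 h2
    · rintro ⟨r, h1, h2⟩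
      exact hcon p hp r h2 h1
    · exact hA.prop.2 p hp q hq hne
  have h2 : u ∈ A := hA.le_of_ge h1 (subset_insert u A) (mem_insert u A)
  exact hcon u h2 u le_rfl le_rfl

/-- few witnesses -/
theorem exists_wit {κ : Cardinal.{0}} (h : KCC κ P) {X : Type} (S : X → Set P)
    (hS : ∀ x, Down (S x)) :
    ∃ W : Set X, #W < κ ∧ ∀ u x, u ∈ S x → ∃ u' ≤ u, ∃ z ∈ W, u' ∈ S z := by
  obtain ⟨A, hAS, hA, hA'⟩ := exists_anti h (⋃ x, S x)
  have hz : ∀ a ∈ A, ∃ z, a ∈ S z := fun a ha => mem_iUnion.1 (hAS ha)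
  by_cases hX : Nonempty X
  · choose! z hz using hz
    refine ⟨z '' A, mk_image_le.trans_lt hA, fun u x hu => ?_⟩
    obtain ⟨a, ha, v, hvu, hva⟩ := hA' u (mem_iUnion.2 ⟨x, hu⟩)
    exact ⟨v, hvu, z a, mem_image_of_mem z ha, hS _ _ (hz a ha) _ hva⟩
  · refine ⟨∅, ?_, fun u x _ => (hX ⟨x⟩).elim⟩
    rw [Cardinal.mk_eq_zero]
    exact (zero_le (a := #A)).trans_lt hA

/-- closing a point under few functions -/
theorem exists_closed {κ : Cardinal.{0}} (hκ : κ.IsRegular) (hκ0 : ℵ₀ < κ) {X : Type} (x0 : X)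
    {I : Type} (hI : #I < κ) (W1 : I → X → Set X) (W2 : X → X → Set X)
    (h1 : ∀ i x, #(W1 i x) < κ) (h2 : ∀ x y, #(W2 x y) < κ) :
    ∃ X0 : Set X, #X0 < κ ∧ x0 ∈ X0 ∧ (∀ i, ∀ x ∈ X0, W1 i x ⊆ X0) ∧
      ∀ x ∈ X0, ∀ y ∈ X0, W2 x y ⊆ X0 := by
  let Y : ℕ → Set X := fun n => Nat.rec {x0}
    (fun _ Y => (Y ∪ ⋃ i, ⋃ x ∈ Y, W1 i x) ∪ ⋃ x ∈ Y, ⋃ y ∈ Y, W2 x y) n
  have hY1 : ∀ n, Y (n + 1) = (Y n ∪ ⋃ i, ⋃ x ∈ Y n, W1 i x) ∪ ⋃ x ∈ Y n, ⋃ y ∈ Y n, W2 x y :=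
    fun n => rfl
  have hYm : Monotone Y := monotone_nat_of_le_succ fun n => by
    rw [hY1]
    exact subset_union_left.trans subset_union_left
  have hYc : ∀ n, #(↥(Y n)) < κ := by
    intro n
    induction n with
    | zero =>
      have : Y 0 = {x0} := rfl
      rw [this, mk_singleton]
      exact one_lt_aleph0.trans hκ0
    | succ n ih =>
      rw [hY1]
      refine (mk_union_le _ _).trans_lt (add_lt_of_lt hκ0.le
        ((mk_union_le _ _).trans_lt (add_lt_of_lt hκ0.le ih ?_)) ?_)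
      · rw [card_iUnion_lt_iff_forall_of_isRegular hκ hI]
        intro i
        rw [card_biUnion_lt_iff_forall_of_isRegular hκ ih]
        exact fun x _ => h1 i x
      · rw [card_biUnion_lt_iff_forall_of_isRegular hκ ih]
        intro x _
        rw [card_biUnion_lt_iff_forall_of_isRegular hκ ih]
        exact fun y _ => h2 x y
  refine ⟨⋃ n, Y n, ?_, mem_iUnion.2 ⟨0, rfl⟩, ?_, ?_⟩
  · rw [card_iUnion_lt_iff_forall_of_isRegular hκ (by simpa using hκ0)]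
    exact hYc
  · intro i x hx y hy
    obtain ⟨n, hn⟩ := mem_iUnion.1 hx
    refine mem_iUnion.2 ⟨n + 1, ?_⟩
    rw [hY1]
    exact Or.inl (Or.inr (mem_iUnion.2 ⟨i, mem_iUnion₂.2 ⟨x, hn, hy⟩⟩))
  · intro x hx x' hx' y hy
    obtain ⟨n, hn⟩ := mem_iUnion.1 hx
    obtain ⟨n', hn'⟩ := mem_iUnion.1 hx'
    refine mem_iUnion.2 ⟨max n n' + 1, ?_⟩
    rw [hY1]
    exact Or.inr (mem_iUnion₂.2 ⟨x, hYm (le_max_left _ _) hn,
      mem_iUnion₂.2 ⟨x', hYm (le_max_right _ _) hn', hy⟩⟩)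

/-! ### The family of the finite sets with lower bounds -/

variable {X K : Type}

/-- the condition forces that `z` is a lower bound of `F` -/
def LB (R : X → X → Set P) (X0 : Set X) (e : X → K) (F : Finset K) (z : X) : Set P :=
  {u | z ∈ X0 ∧ ∀ x ∈ X0, e x ∈ F → u ∈ meets (R z x)}

theorem down_LB (R : X → X → Set P) (X0 : Set X) (e : X → K) (F : Finset K) (z : X) :
    Down (LB R X0 e F z) :=
  fun _ hp _ hq => ⟨hp.1, fun x hx hxF => down_meets _ _ (hp.2 x hx hxF) _ hq⟩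

/-- the family of the finite subsets with lower bounds in `X0` -/
def Phi (q0 : P) (R : X → X → Set P) (X0 : Set X) (e : X → K) (F : Finset K) : Set P :=
  {u | u ≤ q0 ∧ (∀ k ∈ F, ∃ x ∈ X0, e x = k) ∧ ∃ z, u ∈ LB R X0 e F z}

theorem down_Phi (q0 : P) (R : X → X → Set P) (X0 : Set X) (e : X → K) (F : Finset K) :
    Down (Phi q0 R X0 e F) := by
  rintro p ⟨h1, h2, z, hz⟩ q hq
  exact ⟨hq.trans h1, h2, z, down_LB _ _ _ _ _ _ hz _ hq⟩

theorem her_Phi (q0 : P) (R : X → X → Set P) (X0 : Set X) (e : X → K) {F F' : Finset K}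
    (h : F ⊆ F') : Phi q0 R X0 e F' ⊆ Phi q0 R X0 e F := by
  rintro p ⟨h1, h2, z, hz⟩
  exact ⟨h1, fun k hk => h2 k (h hk), z, hz.1, fun x hx hxF => hz.2 x hx (h hxF)⟩

/-- the least lower bound -/
def Least [LinearOrder K] (R : X → X → Set P) (X0 : Set X) (e : X → K) (A : Finset K → Set P)
    (F : Finset K) (z : X) : Set P :=
  {u | u ∈ A F ∧ u ∈ LB R X0 e F z ∧ ∀ z' ∈ X0, e z' < e z → ∀ u' ≤ u, u' ∉ LB R X0 e F z'}

theorem phi_ccc [LinearOrder K] [WellFoundedLT K] (hcov : Cov P) {q0 : P} {R : X → X → Set P}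
    {X0 : Set X} {e : X → K} (he : InjOn e X0) (hpre : q0 ∈ IsPreN R) (hccc : q0 ∈ CCCA R)
    (hcomp : ∀ x ∈ X0, ∀ y ∈ X0, ∀ u ≤ q0, u ∈ CompatN R x y →
      ∃ u' ≤ u, ∃ z ∈ X0, u' ∈ meets (R z x) ∧ u' ∈ meets (R z y))
    (A : Finset K → Set P) (hA : ∀ F, Down (A F)) (hAF : ∀ F, A F ⊆ Phi q0 R X0 e F)
    (hanti : ∀ F F' : Finset K, F ≠ F' → ∀ u ∈ A F, u ∈ A F' → ∀ G, F ⊆ G → F' ⊆ G →
      u ∉ Phi q0 R X0 e G)
    (q : P) (hq : q ≤ q0) :
    ∃ q' ≤ q, ∃ Z : Set (Finset K), Z.Countable ∧ ∀ F ∉ Z, ∀ u ≤ q', u ∉ A F := by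
  classical
  have hdL : ∀ F z, Down (Least R X0 e A F z) := by
    rintro F z p ⟨h1, h2, h3⟩ r hr
    exact ⟨hA _ _ h1 _ hr, down_LB _ _ _ _ _ _ h2 _ hr, fun z' hz' hlt u' hu' =>
      h3 z' hz' hlt u' (hu'.trans hr)⟩
  -- common lower bounds
  have hcl : ∀ F F' : Finset K, ∀ u z, u ∈ A F → u ∈ A F' → u ∈ LB R X0 e F z →
      u ∈ LB R X0 e F' z → F = F' := by
    intro F F' u z h1 h2 h3 h4
    by_contra hne
    refine hanti F F' hne u h1 h2 (F ∪ F') Finset.subset_union_left Finset.subset_union_right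
      ⟨(hAF _ h1).1, ?_, z, h3.1, ?_⟩
    · intro k hk
      rcases Finset.mem_union.1 hk with h | h
      · exact (hAF _ h1).2.1 k h
      · exact (hAF _ h2).2.1 k h
    · intro x hx hxF
      rcases Finset.mem_union.1 hxF with h | h
      · exact h3.2 x hx h
      · exact h4.2 x hx h
  have hex : ∀ F u, u ∈ A F → ∃ u' ≤ u, ∃ z, u' ∈ Least R X0 e A F z := by
    intro F u hu
    let T : Set K := {k | ∃ z, e z = k ∧ ∃ u' ≤ u, u' ∈ LB R X0 e F z}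
    have hT : T.Nonempty := by
      obtain ⟨_, _, z, hz⟩ := hAF F hu
      exact ⟨e z, z, rfl, u, le_rfl, hz⟩
    obtain ⟨z, hz, u', hu', hLB⟩ := wellFounded_lt.min_mem T hT
    refine ⟨u', hu', z, hA _ _ hu _ hu', hLB, fun z' _ hlt u'' hu'' h => ?_⟩
    exact wellFounded_lt.not_lt_min T (x := e z') ⟨z', rfl, u'', hu''.trans hu', h⟩ (hz ▸ hlt)
  let B : X → Set P := fun z => {u | ∃ F, u ∈ Least R X0 e A F z}
  have hdB : ∀ z, Down (B z) := by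
    rintro z p ⟨F, hF⟩ r hr
    exact ⟨F, hdL _ _ _ hF _ hr⟩
  have hanB : q ∈ AntiN R B := by
    intro x y
    rw [mem_fimp]
    rintro u hu ⟨hx, hy, hc⟩
    obtain ⟨u1, hu1, F, hF⟩ := exists_of_meets (hdB x) hx
    obtain ⟨u2, hu2, F', hF'⟩ := exists_of_meets (hdB y) (down_meets _ _ hy _ hu1)
    have hF2 := hdL _ _ _ hF _ hu2
    have hu20 : u2 ≤ q0 := hu2.trans (hu1.trans (hu.trans hq))
    obtain ⟨u3, hu3, z, hz, hzx, hzy⟩ := hcomp x hF.2.1.1 y hF'.2.1.1 u2 hu20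
      (down_fex _ _ hc _ (hu2.trans hu1))
    have hpre3 : u3 ∈ IsPreN R := down_IsPreN R _ hpre _ (hu3.trans hu20)
    have hF3 := hdL _ _ _ hF2 _ hu3
    have hF3' := hdL _ _ _ hF' _ hu3
    have hFF : F = F' := hcl F F' u3 z hF3.1 hF3'.1
      ⟨hz, fun w hw hwF => IsPreN.trans hpre3 hzx (hF3.2.1.2 w hw hwF)⟩
      ⟨hz, fun w hw hwF => IsPreN.trans hpre3 hzy (hF3'.2.1.2 w hw hwF)⟩
    subst hFF
    refine ⟨u, le_rfl, ?_⟩
    rw [mem_fground]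
    refine he hF.2.1.1 hF'.2.1.1 ?_
    rcases lt_trichotomy (e x) (e y) with h | h | h
    · exact absurd hF3.2.1 (hF3'.2.2 x hF.2.1.1 h u3 le_rfl)
    · exact h
    · exact absurd hF3'.2.1 (hF3.2.2 y hF'.2.1.1 h u3 le_rfl)
  obtain ⟨r, hr, hctbl⟩ := mem_fimp.1 (hccc B) q hq hanB
  obtain ⟨r', hr', g, hg1, hg2⟩ := mem_fex.1 hctbl r le_rfl
  let E : ℕ → Set P := fun n => {u | (∃ F z, u ∈ meets (g n z) ∧ u ∈ Least R X0 e A F z) ∨
    ∀ z, ∀ u' ≤ u, u' ∈ meets (g n z) → u' ∉ B z}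
  obtain ⟨q', hq', C, hC, hCd⟩ := hcov E r' (by
    intro n u _
    by_cases h : ∃ z, ∃ u' ≤ u, u' ∈ meets (g n z) ∧ u' ∈ B z
    · obtain ⟨z, u', hu', h1, F, h2⟩ := h
      exact ⟨u', Or.inl ⟨F, z, h1, h2⟩, hu'⟩
    · push Not at h
      exact ⟨u, Or.inr h, le_rfl⟩)
  let ch : ℕ → P → Finset K := fun n a =>
    if h : ∃ F z, a ∈ meets (g n z) ∧ a ∈ Least R X0 e A F z then h.choose else ∅
  refine ⟨q', hq'.trans (hr'.trans hr), ⋃ n, ch n '' C n,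
    countable_iUnion fun n => (hC n).1.image _, fun F hF u hu huF => hF ?_⟩
  obtain ⟨u1, hu1, z, hz⟩ := hex F u huF
  have hu1r : u1 ≤ r' := hu1.trans (hu.trans hq')
  obtain ⟨u2, hu2, hu2g⟩ := mem_fimp.1 (hg2 z) u1 hu1r (meets_of_mem ⟨F, hz⟩)
  obtain ⟨u3, hu3, n, hn⟩ := mem_fex.1 hu2g u2 le_rfl
  have hu31 : u3 ≤ u1 := hu3.trans hu2
  obtain ⟨a, ha, v, hvu, hva⟩ := hCd n u3 (hu31.trans (hu1.trans hu))
  have hvz := hdL _ _ _ hz _ (hvu.trans hu31)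
  have hvg := down_meets _ _ hn _ hvu
  rcases (hC n).2 ha with h | h
  · have hch : ch n a = h.choose := dif_pos h
    obtain ⟨z', h1, h2⟩ := h.choose_spec
    refine mem_iUnion.2 ⟨n, a, ha, ?_⟩
    rw [hch]
    have hzz : z = z' := by
      obtain ⟨_, _, h3⟩ := mem_fimp.1 (hg1 n z z') v (hvu.trans (hu31.trans hu1r))
        ⟨hvg, down_meets _ _ h1 _ hva⟩
      exact h3
    subst hzz
    have h4 := hdL _ _ _ h2 _ hva
    exact hcl _ _ v z h4.1 hvz.1 h4.2.1 hvz.2.1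
  · exact absurd ⟨F, hvz⟩ (h z v hva hvg)

end General

section Main

variable {K W : Type} [LinearOrder K] [Cod K] [LinearOrder W] [WellFoundedLT W] {X : Type}

omit [LinearOrder W] [WellFoundedLT W] in
theorem mem_fib {p : Pre K W} {c : Crd K W} {k : K} : k ∈ fib p c ↔ (c, k) ∈ p.top := by
  classical
  simp only [fib, Finset.mem_image, Finset.mem_filter]
  constructor
  · rintro ⟨⟨c', k'⟩, ⟨h1, h2⟩, h3⟩
    simp only at h2 h3
    rw [← h2, ← h3]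
    exact h1
  · exact fun h => ⟨(c, k), ⟨h, rfl⟩, rfl⟩

/-- The data at the coordinate where the name `R` of a preorder is handled. -/
structure Data (q0 : PP K W) (R : X → X → Set (PP K W)) (D : Om1 → X → Set (PP K W)) (X0 : Set X)
    (e : X → K) (β : W) (c : Crd K W) : Prop where
  hne : X0.Nonempty
  he : InjOn e X0
  hpre : q0 ∈ IsPreN R
  hc : IsCrd β q0 (Phi q0 R X0 e) c
  hrlt : ∀ u : PP K W, ∃ r, IsRlt c.st u r
  hR : ∀ x ∈ X0, ∀ y ∈ X0, ∀ u r : PP K W, IsRlt c.st u r → u ∈ meets (R x y) →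
    r ∈ meets (R x y)
  hD : ∀ i, ∀ x ∈ X0, ∀ u r : PP K W, IsRlt c.st u r → u ∈ meets (D i x) → r ∈ meets (D i x)
  hDd : ∀ i, ∀ x ∈ X0, ∀ u ≤ q0, ∃ u' ≤ u, ∃ z ∈ X0, u' ∈ meets (D i z) ∧ u' ∈ meets (R z x)

variable {q0 : PP K W} {R : X → X → Set (PP K W)} {D : Om1 → X → Set (PP K W)} {X0 : Set X}
    {e : X → K} {β : W} {c : Crd K W}

theorem Data.ext (h : Data q0 R D X0 e β c) (i : Om1) {q : PP K W} (hq : q ≤ q0) :
    ∃ r ≤ q, ∃ d ∈ X0, (c, e d) ∈ r.1.top ∧ r ∈ meets (D i d) ∧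
      ∀ x ∈ X0, (c, e x) ∈ q.1.top → r ∈ meets (R d x) := by
  classical
  have hz : (∀ k ∈ fib q.1 c, ∃ x ∈ X0, e x = k) ∧ ∃ z, q ∈ LB R X0 e (fib q.1 c) z := by
    rcases (fib q.1 c).eq_empty_or_nonempty with h1 | ⟨y, hy⟩
    · rw [h1]
      obtain ⟨x, hx⟩ := h.hne
      exact ⟨by simp, x, hx, by simp⟩
    · exact (h.hc.fam q y (mem_fib.1 hy)).2
  obtain ⟨hz1, z, hz⟩ := hz
  obtain ⟨u, hu, d, hd, hud, hur⟩ := h.hDd i z hz.1 q hq
  have huq : u ≤ q0 := hu.trans hq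
  have hupre : u ∈ IsPreN R := down_IsPreN R _ h.hpre _ huq
  have hdx : ∀ x ∈ X0, (c, e x) ∈ q.1.top → u ∈ meets (R d x) := fun x hx hxq =>
    IsPreN.trans hupre hur (down_meets _ _ (hz.2 x hx (mem_fib.2 hxq)) _ hu)
  have huPhi : u ∈ Phi q0 R X0 e (insert (e d) (fib q.1 c)) := by
    refine ⟨huq, ?_, d, hd, ?_⟩
    · intro k hk
      rcases Finset.mem_insert.1 hk with rfl | hk
      · exact ⟨d, hd, rfl⟩
      · exact hz1 k hk
    · intro x hx hxk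
      rcases Finset.mem_insert.1 hxk with h1 | h1
      · rw [h.he hx hd h1]
        exact IsPreN.refl hupre _
      · exact hdx x hx (mem_fib.1 h1)
  obtain ⟨u', hu', _, hmem, hrl⟩ := h.hc.add q u (e d) hu (by convert huPhi)
  obtain ⟨r, hr⟩ := h.hrlt u
  have hur' := hrl r hr
  refine ⟨u', hu', d, hd, hmem, ?_, ?_⟩
  · exact down_meets _ _ (h.hD i d hd u r hr hud) _ hur'
  · intro x hx hxq
    exact down_meets _ _ (h.hR d hd x hx u r hr (hdx x hx hxq)) _ hur'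

/-- the generic filter -/
def genF (c : Crd K W) (X0 : Set X) (e : X → K) (R : X → X → Set (PP K W)) : X → Set (PP K W) :=
  fun y => {p | ∃ x ∈ X0, (c, e x) ∈ p.1.top ∧ p ∈ meets (R x y)}

theorem down_genF (c : Crd K W) (X0 : Set X) (e : X → K) (R : X → X → Set (PP K W)) (y : X) :
    Down (genF c X0 e R y) := by
  rintro p ⟨x, hx, hxp, hp⟩ q hq
  exact ⟨x, hx, hq.2 hxp, down_meets _ _ hp _ hq⟩

theorem Data.filter [Nonempty Om1] (h : Data q0 R D X0 e β c) :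
    q0 ∈ fand (IsFilterN R (genF c X0 e R))
        (fall fun i => fex fun x => fand (meets (genF c X0 e R x)) (meets (D i x))) := by
  have i0 : Om1 := Classical.arbitrary Om1
  have hmeet : q0 ∈ fall fun i => fex fun x =>
      fand (meets (genF c X0 e R x)) (meets (D i x)) := by
    intro i
    rw [mem_fex]
    intro q hq
    obtain ⟨r, hr, d, hd, hdr, hrD, _⟩ := h.ext i hq
    have hrpre : r ∈ IsPreN R := down_IsPreN R _ h.hpre _ (hr.trans hq)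
    exact ⟨r, hr, d, meets_of_mem ⟨d, hd, hdr, IsPreN.refl hrpre d⟩, hrD⟩
  refine ⟨⟨?_, ?_, ?_⟩, hmeet⟩
  · rw [mem_fex]
    intro q hq
    obtain ⟨r, hr, x, hx, _⟩ := mem_fex.1 (hmeet i0) q hq
    exact ⟨r, hr, x, hx⟩
  · intro x y
    rw [mem_fimp]
    rintro q hq ⟨h1, h2⟩
    obtain ⟨r, hr, x', hx0, hx', hrx⟩ := exists_of_meets (down_genF c X0 e R x) h1
    have hrpre : r ∈ IsPreN R := down_IsPreN R _ h.hpre _ (hr.trans hq)
    exact ⟨r, hr, meets_of_mem ⟨x', hx0, hx', IsPreN.trans hrpre hrx (down_meets _ _ h2 _ hr)⟩⟩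
  · intro x y
    rw [mem_fimp]
    rintro q hq ⟨h1, h2⟩
    obtain ⟨r, hr, x', hx0, hx', hrx⟩ := exists_of_meets (down_genF c X0 e R x) h1
    obtain ⟨s, hs, y', hy0, hy', hsy⟩ :=
      exists_of_meets (down_genF c X0 e R y) (down_meets _ _ h2 _ hr)
    have hsq : s ≤ q0 := hs.trans (hr.trans hq)
    obtain ⟨t, ht, d, hd0, hd, _, htd⟩ := h.ext i0 hsq
    have htpre : t ∈ IsPreN R := down_IsPreN R _ h.hpre _ (ht.trans hsq)
    refine ⟨t, ht.trans (hs.trans hr), ?_⟩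
    refine mem_fex_of_mem d (down_fand (down_meets _) (down_fand (down_meets _) (down_meets _)))
      ⟨meets_of_mem ⟨d, hd0, hd, IsPreN.refl htpre d⟩, ?_, ?_⟩
    · exact IsPreN.trans htpre (htd x' hx0 (hs.2 hx')) (down_meets _ _ hrx _ (ht.trans hs))
    · exact IsPreN.trans htpre (htd y' hy0 hy') (down_meets _ _ hsy _ ht)

end Main

theorem ma (h1 : S_addCrd) (h2 : S_kcc) (h3 : S_small) (h4 : S_rlt)
    (h5 : ∀ (K W : Type) [LinearOrder K] [WellFoundedLT K] [Cod K] [LinearOrder W] [WellFoundedLT W], S_cov K W) : S_ma := by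
  intro κ _ hκ u X R D
  rw [mem_fimp]
  rintro q0 _ ⟨hX, hpre, hccc, hD⟩
  refine ⟨q0, le_rfl, ?_⟩
  rw [mem_fground] at hX
  obtain ⟨x0⟩ := hX
  have hreg : κ.IsRegular := hκ.1.isRegular
  have hκ0 : ℵ₀ < κ := hκ.1.aleph0_lt
  have hκ1 : ℵ₁ < κ := by
    refine (aleph_one_le_continuum).trans_lt ?_
    exact hκ.1.isStrongLimit.isStrongPrelimit hκ0
  have hOm : #Om1 < κ := by
    rw [Cardinal.mk_ord_toType]
    exact hκ1
  have kcc : KCC κ (PP (Kp κ) (Wp κ)) := h2 κ hκ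
  have cov : Cov (PP (Kp κ) (Wp κ)) := h5 (Kp κ) (Wp κ)
  choose W1 hW1c hW1 using fun (i : Om1) (x : X) => exists_wit kcc
    (fun z => fand (meets (D i z)) (meets (R z x)))
    (fun z => down_fand (down_meets _) (down_meets _))
  choose W2 hW2c hW2 using fun (x y : X) => exists_wit kcc
    (fun z => fand (meets (R z x)) (meets (R z y)))
    (fun z => down_fand (down_meets _) (down_meets _))
  obtain ⟨X0, hX0, hx0, hX1, hX2⟩ := exists_closed hreg hκ0 x0 hOm W1 W2 hW1c hW2c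
  have hK : #(Kp κ) = κ := by rw [Cardinal.mk_ord_toType]
  obtain ⟨emb⟩ : Nonempty (X0 ↪ Kp κ) := by
    rw [← Cardinal.le_def, hK]
    exact hX0.le
  classical
  let e : X → Kp κ := fun x => if h : x ∈ X0 then emb ⟨x, h⟩ else emb ⟨x0, hx0⟩
  have he : InjOn e X0 := by
    intro x hx y hy hxy
    simp only [e, dif_pos hx, dif_pos hy] at hxy
    exact congrArg Subtype.val (emb.injective hxy)
  have hDd : ∀ i, ∀ x ∈ X0, ∀ u ≤ q0, ∃ u' ≤ u, ∃ z ∈ X0,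
      u' ∈ meets (D i z) ∧ u' ∈ meets (R z x) := by
    intro i x hx u hu
    obtain ⟨u1, hu1, z, hz⟩ := mem_fex.1 (hD i x) u hu
    obtain ⟨u2, hu2, z', hz', hz2⟩ := hW1 i x u1 z hz
    exact ⟨u2, hu2.trans hu1, z', hX1 i x hx hz', hz2⟩
  have hcomp : ∀ x ∈ X0, ∀ y ∈ X0, ∀ u ≤ q0, u ∈ CompatN R x y →
      ∃ u' ≤ u, ∃ z ∈ X0, u' ∈ meets (R z x) ∧ u' ∈ meets (R z y) := by
    intro x hx y hy u hu hxy
    obtain ⟨u1, hu1, z, hz⟩ := mem_fex.1 hxy u le_rfl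
    obtain ⟨u2, hu2, z', hz', hz2⟩ := hW2 x y u1 z hz
    exact ⟨u2, hu2.trans hu1, z', hX2 x hx y hy hz', hz2⟩
  have hfam : IsFam q0 (Phi q0 R X0 e) := by
    refine ⟨down_Phi q0 R X0 e, fun F u hu => hu.1, fun F F' hFF => her_Phi q0 R X0 e hFF, ?_, ?_⟩
    · rw [hK]
      have hsub : {F : Finset (Kp κ) | (Phi q0 R X0 e F).Nonempty} ⊆
          range fun l : List X0 => (l.map fun x => e x.1).toFinset := by
        rintro F ⟨u, _, hu, _⟩
        have h6 : (F : Set (Kp κ)) ⊆ (fun x : X0 => e x.1) '' univ := by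
          intro k hk
          obtain ⟨x, hx, rfl⟩ := hu k hk
          exact ⟨⟨x, hx⟩, mem_univ _, rfl⟩
        obtain ⟨s, _, hs⟩ := Finset.subset_set_image_iff.1 h6
        refine ⟨s.toList, ?_⟩
        rw [← hs]
        ext k
        simp
      refine (Cardinal.mk_le_mk_of_subset hsub).trans_lt (Cardinal.mk_range_le.trans_lt ?_)
      exact (Cardinal.mk_list_le_max _).trans_lt (max_lt hκ0 hX0)
    · intro A hA hAF hanti q hq
      exact phi_ccc cov he hpre hccc hcomp A hA hAF hanti q hq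
  obtain ⟨β, hβ⟩ := h3 κ hκ ((X0 × X0) ⊕ (Om1 × X0))
    (Sum.elim (fun i => R i.1.1 i.2.1) fun i => D i.1 i.2.1) (by
      simp only [Cardinal.mk_sum, Cardinal.mk_prod, Cardinal.lift_id]
      exact (add_lt_of_lt hκ0.le (mul_lt_of_lt hκ0.le hX0 hX0)
        (mul_lt_of_lt hκ0.le hOm hX0)).le)
  obtain ⟨c, hc⟩ := h1 κ hκ q0 (Phi q0 R X0 e) hfam β
  have hdata : Data q0 R D X0 e β c := by
    refine ⟨⟨x0, hx0⟩, he, hpre, hc, fun u => ?_, fun x hx y hy u r hr hu => ?_,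
      fun i x hx u r hr hu => ?_, hDd⟩
    · obtain ⟨r, hr, _⟩ := h4 (Kp κ) (Wp κ) c.st u
      exact ⟨r, hr⟩
    · exact hβ (Sum.inl (⟨x, hx⟩, ⟨y, hy⟩)) c.st hc.st u r hr hu
    · exact hβ (Sum.inr (i, ⟨x, hx⟩)) c.st hc.st u r hr hu
  exact mem_fex_of_mem (genF c X0 e R) (down_fand (down_IsFilterN _ _)
    (down_fall fun _ => down_fex _)) hdata.filter

end Pool.Agent.H915.Ma
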