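import Pool.Agent.H915.Stmts2

/-!
# Measure one many models are elementary
-/

set_option autoImplicit false

namespace Pool.Agent.H915.Me

open Cardinal Set Pool.Agent.Helper669.Forcing


open Pool.Agent.W910.LC (Supercompact)
open Pool.Agent.W873.Tp (NormalFine)

theorem nf_of {κ : Cardinal.{0}} (h : Supercompact κ) (X : Type) :
    ∃ U : Ultrafilter (Set X), NormalFine κ X U := by
  obtain ⟨U, h1, h2, h3, h4⟩ := h.2 X
  refine ⟨U, h1, ?_, h3, h4⟩
  intro ι A hι hA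
  have := h2 ι (fun i => {x | A i x}) hι hA
  filter_upwards [this] with x hx i
  exact mem_iInter.1 hx i

theorem aleph0_lt {κ : Cardinal.{0}} (h : Supercompact κ) : ℵ₀ < κ := h.1.aleph0_lt

theorem aleph1_lt {κ : Cardinal.{0}} (h : Supercompact κ) : ℵ₁ < κ := by
  have h2 : (2 : Cardinal.{0}) ^ ℵ₀ < κ := h.1.isStrongLimit.two_power_lt h.1.aleph0_lt
  refine lt_of_le_of_lt ?_ h2
  rw [← Cardinal.succ_aleph0]
  exact Order.succ_le_of_lt (cantor _)

theorem mk_Kp (κ : Cardinal.{0}) : #(Kp κ) = κ := Cardinal.mk_ord_toType κ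

theorem cod : S_cod := by
  classical
  intro κ hκ
  have h0 := aleph0_lt hκ
  have h1 := aleph1_lt hκ
  have hK : #(Kp κ) = κ := mk_Kp κ
  have hcof : Cardinal.mk {s : Set (Kp κ) // #s < κ} = κ := by
    have := Cardinal.mk_subset_mk_lt_cof (α := Kp κ) (by rw [hK]; exact hκ.1.isStrongPrelimit)
    rw [hK] at this
    rw [hκ.1.isRegular.cof_ord] at this
    exact this
  have hc : #{s : Set (Kp κ) // s.Countable} ≤ #(Kp κ) := by
    rw [hK]
    refine le_trans ?_ hcof.le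
    refine mk_le_of_injective (f := fun s => ⟨s.1, ?_⟩) ?_
    · exact (le_aleph0_iff_set_countable.2 s.2).trans_lt h0
    · intro a b hab
      exact Subtype.ext (by simpa using congrArg Subtype.val hab)
  obtain ⟨f⟩ := hc
  have hne : Nonempty (Kp κ) := by
    rw [← mk_ne_zero_iff, hK]
    exact (aleph0_pos.trans h0).ne'
  have hle : (ℵ₁ : Cardinal.{0}).ord ≤ κ.ord := Cardinal.ord_le_ord.2 h1.le
  let g := Ordinal.initialSegToType hle
  exact ⟨⟨fun s => if hs : s.Countable then f ⟨s, hs⟩ else hne.some, by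
    intro s t hs ht hst
    simp only [dif_pos hs, dif_pos ht] at hst
    exact congrArg Subtype.val (f.injective hst), g, g.strictMono⟩⟩

/-! ### Normal fine ultrafilters -/

section nf

variable {κ : Cardinal.{0}} {Ω : Type} {U : Ultrafilter (Set Ω)}

theorem nf_ctbl (h : NormalFine κ Ω U) (h0 : ℵ₀ < κ) {T : Type} (ι : T → Ω)
    (hι : Function.Injective ι) (R : Set T → Ω) :
    ∀ᶠ X in (U : Filter (Set Ω)), ∀ s : Set T, s.Countable → (∀ t ∈ s, ι t ∈ X) → R s ∈ X := by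
  classical
  have hemp : ∀ᶠ X in (U : Filter (Set Ω)), R ∅ ∈ X := h.fine _
  by_cases hT : Nonempty T
  swap
  · have hTe : IsEmpty T := not_nonempty_iff.1 hT
    filter_upwards [hemp] with X hX s _ _
    rw [Set.eq_empty_of_isEmpty s]
    exact hX
  by_contra hc
  rw [← Ultrafilter.eventually_not] at hc
  have h1 : ∀ X : Set Ω, ∃ e : ℕ → T,
      (∃ s : Set T, s.Nonempty ∧ s.Countable ∧ (∀ t ∈ s, ι t ∈ X) ∧ R s ∉ X) →
        (∀ n, ι (e n) ∈ X) ∧ R (range e) ∉ X := by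
    intro X
    by_cases hX : ∃ s : Set T, s.Nonempty ∧ s.Countable ∧ (∀ t ∈ s, ι t ∈ X) ∧ R s ∉ X
    · obtain ⟨s, h2, h3, h4, h5⟩ := hX
      obtain ⟨e, he⟩ := h3.exists_eq_range h2
      refine ⟨e, fun _ => ⟨fun n => h4 _ ?_, ?_⟩⟩
      · rw [he]
        exact ⟨n, rfl⟩
      · rw [← he]
        exact h5
    · exact ⟨fun _ => hT.some, fun h => absurd h hX⟩
  choose e he using h1
  have h2 : ∀ᶠ X in (U : Filter (Set Ω)), (∀ n, ι (e X n) ∈ X) ∧ R (range (e X)) ∉ X := by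
    filter_upwards [hc, hemp] with X hX hX'
    apply he
    push Not at hX
    obtain ⟨s, h3, h4, h5⟩ := hX
    refine ⟨s, ?_, h3, h4, h5⟩
    rw [Set.nonempty_iff_ne_empty]
    rintro rfl
    exact h5 hX'
  have h3 : ∀ n, ∃ t : T, ∀ᶠ X in (U : Filter (Set Ω)), e X n = t := by
    intro n
    obtain ⟨a, ha⟩ := h.const (Q := fun X a => ι (e X n) = a) (by
      filter_upwards [h2] with X hX
      exact ⟨_, hX.1 n, rfl⟩)
    obtain ⟨X0, hX0⟩ := ha.exists
    refine ⟨e X0 n, ?_⟩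
    filter_upwards [ha] with X hX
    exact hι (hX.trans hX0.symm)
  choose t ht using h3
  have h4 : ∀ᶠ X in (U : Filter (Set Ω)), ∀ n, e X n = t n :=
    h.complete ℕ (fun n X => e X n = t n) (by simpa using h0) ht
  obtain ⟨X, h5, h6, h7⟩ := (h4.and (h2.and (h.fine (R (range t))))).exists
  have : e X = t := funext h5
  rw [this] at h6
  exact h6.2 h7

theorem nf_list (h : NormalFine κ Ω U) (h0 : ℵ₀ < κ) {Q : List Ω → Set Ω → Prop}
    (hQ : ∀ l, ∀ᶠ X in (U : Filter (Set Ω)), Q l X) :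
    ∀ᶠ X in (U : Filter (Set Ω)), ∀ l : List Ω, (∀ x ∈ l, x ∈ X) → Q l X := by
  have key : ∀ n : ℕ, ∀ Q : List Ω → Set Ω → Prop, (∀ l, ∀ᶠ X in (U : Filter (Set Ω)), Q l X) →
      ∀ᶠ X in (U : Filter (Set Ω)), ∀ l : List Ω, l.length = n → (∀ x ∈ l, x ∈ X) → Q l X := by
    intro n
    induction n with
    | zero =>
      intro Q hQ
      filter_upwards [hQ []] with X hX l hl _
      rw [List.eq_nil_of_length_eq_zero hl]
      exact hX
    | succ n ih =>
      intro Q hQ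
      have h1 := h.diag (Q := fun a X => ∀ l : List Ω, l.length = n → (∀ x ∈ l, x ∈ X) →
        Q (a :: l) X) fun a => ih (fun l => Q (a :: l)) fun l => hQ (a :: l)
      filter_upwards [h1] with X hX l hl hlX
      cases l with
      | nil => simp at hl
      | cons a l =>
        exact hX a (hlX a (by simp)) l (by simpa using hl) fun x hx => hlX x (by simp [hx])
  have h2 := h.complete ℕ (fun n X => ∀ l : List Ω, l.length = n → (∀ x ∈ l, x ∈ X) → Q l X)
    (by simpa using h0) fun n => key n Q hQ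
  filter_upwards [h2] with X hX l
  exact hX l.length l rfl

theorem nf_closed₃ (h : NormalFine κ Ω U) (G : Ω → Ω → Ω → Ω) :
    ∀ᶠ X in (U : Filter (Set Ω)), ∀ a ∈ X, ∀ b ∈ X, ∀ c ∈ X, G a b c ∈ X :=
  h.diag fun a => h.closed₂ (G a)

theorem nf_ini (h : NormalFine κ Ω U) (ι : Kp κ → Ω) (hι : Function.Injective ι) :
    ∀ᶠ X in (U : Filter (Set Ω)), ∃ α : Kp κ, ∀ k, ι k ∈ X ↔ k < α := by
  have h1 : ∀ᶠ X in (U : Filter (Set Ω)), ∀ a ∈ X, ∀ k, ι k = a → ∀ j < k, ι j ∈ X := by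
    refine h.diag fun a => ?_
    by_cases ha : ∃ k, ι k = a
    · obtain ⟨k, rfl⟩ := ha
      have := h.complete (Iio k) (fun j X => ι j.1 ∈ X) (Cardinal.mk_Iio_toType_ord_lt k)
        fun j => h.fine _
      filter_upwards [this] with X hX k' hk' j hj
      rw [hι hk'] at hj
      exact hX ⟨j, hj⟩
    · refine Filter.Eventually.of_forall fun X k hk => ?_
      exact absurd ⟨k, hk⟩ ha
  filter_upwards [h1, h.small] with X hX hs
  have h2 : ∃ k, ι k ∉ X := by
    by_contra hc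
    push Not at hc
    have : #(Kp κ) ≤ #X := mk_le_of_injective (f := fun k => (⟨ι k, hc k⟩ : X)) fun a b hab =>
      hι (congrArg Subtype.val hab)
    rw [mk_Kp] at this
    exact absurd hs (not_lt.2 this)
  obtain ⟨α, hα, hmin⟩ := Pool.Agent.W873.Tp.exists_least (S := {k : Kp κ | ι k ∉ X}) h2
  refine ⟨α, fun k => ⟨fun hk => ?_, fun hk => ?_⟩⟩
  · rcases lt_trichotomy k α with h3 | h3 | h3
    · exact h3
    · rw [h3] at hk
      exact absurd hk hα
    · exact absurd (hX _ hk k rfl α h3) hα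
  · by_contra h3
    exact hmin k hk h3

theorem nf_Tr [Cod (Kp κ)] (h0 : ℵ₀ < κ) (h1 : ℵ₁ < κ) (h : NormalFine κ Ω U) (ι : Kp κ → Ω)
    (hι : Function.Injective ι) :
    ∀ᶠ X in (U : Filter (Set Ω)), ∃ α : Kp κ, Tr α ∧ ∀ k, ι k ∈ X ↔ k < α := by
  have h2 : ∀ᶠ X in (U : Filter (Set Ω)), ∀ x : Om1, ι (om x) ∈ X :=
    h.complete Om1 (fun x X => ι (om x) ∈ X) (by rw [Cardinal.mk_ord_toType]; exact h1)
      fun x => h.fine _
  have h3 := nf_ctbl h h0 ι hι fun s => ι (cd s)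
  have h4 : ∀ᶠ X in (U : Filter (Set Ω)), ∀ a ∈ X, ∀ s : Set (Kp κ), s.Countable →
      ι (cd s) = a → ∀ t ∈ s, ι t ∈ X := by
    refine h.diag fun a => ?_
    by_cases ha : ∃ s : Set (Kp κ), s.Countable ∧ ι (cd s) = a
    · obtain ⟨s, hs, rfl⟩ := ha
      have := h.complete s (fun j X => ι j.1 ∈ X) ((le_aleph0_iff_set_countable.2 hs).trans_lt h0)
        fun j => h.fine _
      filter_upwards [this] with X hX s' hs' hs's t ht
      rw [Cod.cd_inj s' s hs' hs (hι hs's)] at ht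
      exact hX ⟨t, ht⟩
    · refine Filter.Eventually.of_forall fun X s hs hsa => ?_
      exact absurd ⟨s, hs, hsa⟩ ha
  filter_upwards [nf_ini h ι hι, h2, h3, h4] with X hX h5 h6 h7
  obtain ⟨α, hα⟩ := hX
  refine ⟨α, ⟨fun x => (hα _).1 (h5 x), fun s hs => ⟨fun hsα => ?_, fun hc => ?_⟩⟩, hα⟩
  · exact (hα _).1 (h6 s hs fun t ht => (hα t).2 (hsα ht))
  · intro t ht
    exact (hα t).1 (h7 _ ((hα _).2 hc) s hs rfl t ht)

end nf

theorem tr : S_tr := by
  intro κ _ hκ k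
  obtain ⟨U, h⟩ := nf_of hκ (Kp κ)
  obtain ⟨X, ⟨α, h1, h2⟩, h3⟩ := ((nf_Tr (aleph0_lt hκ) (aleph1_lt hκ) h id
    Function.injective_id).and (h.fine k)).exists
  exact ⟨α, (h2 k).1 h3, h1⟩

/-! ### Finiteness of the set of conditions with given tokens -/

section tok

variable {K W : Type} [LinearOrder K] [Cod K]

theorem C0_ext {p q : C0 K} (h1 : p.A = q.A) (h2 : p.Nd = q.Nd) : p = q := by
  cases p
  cases q
  simp only at h1 h2
  subst h1
  subst h2
  rfl

theorem Pre_ext {p q : Pre K W} (h1 : p.base = q.base) (h2 : p.top = q.top) : p = q := by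
  cases p
  cases q
  simp only at h1 h2
  subst h1
  subst h2
  rfl

theorem tok_fin (l : List (Tok K W)) : {r : Pre K W | InTok {x | x ∈ l} r}.Finite := by
  classical
  have hl : {x : Tok K W | x ∈ l}.Finite := l.finite_toSet
  have hA : {k : K | (Sum.inl k : Tok K W) ∈ l}.Finite :=
    hl.preimage (Sum.inl_injective.injOn)
  have hC : {c : Crd K W | (Sum.inr c : Tok K W) ∈ l}.Finite :=
    hl.preimage (Sum.inr_injective.injOn)
  have hN : {Q : Set K | Q.Countable ∧ (Sum.inl (cd Q) : Tok K W) ∈ l}.Finite := by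
    refine Set.Finite.of_finite_image (f := cd) (hA.subset ?_) ?_
    · rintro _ ⟨Q, hQ, rfl⟩
      exact hQ.2
    · intro Q hQ R hR hQR
      exact Cod.cd_inj Q R hQ.1 hR.1 hQR
  have hT : {t : Finset (Crd K W × K) | ∀ a ∈ t, a ∈ ({c : Crd K W | (Sum.inr c : Tok K W) ∈ l}
      ×ˢ {k : K | (Sum.inl k : Tok K W) ∈ l})}.Finite := by
    refine ((hC.prod hA).toFinset.powerset : Finset (Finset (Crd K W × K))).finite_toSet.subset ?_
    intro t ht
    simp only [Finset.coe_powerset, mem_preimage, mem_powerset_iff]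
    intro a ha
    have := ht a ha
    simpa using this
  have hfin := (hA.powerset.prod hN.powerset).prod hT
  refine Set.Finite.of_finite_image (f := fun r : Pre K W => ((r.base.A, r.base.Nd), r.top))
    (hfin.subset ?_) ?_
  · rintro _ ⟨r, hr, rfl⟩
    refine ⟨⟨fun k hk => hr.1 k hk, fun Q hQ => ⟨(r.base.nd Q hQ).ctbl, hr.2.1 Q hQ⟩⟩, ?_⟩
    intro a ha
    exact hr.2.2 a ha
  · intro r _ r' _ hrr
    simp only [Prod.mk.injEq] at hrr
    exact Pre_ext (C0_ext hrr.1.1 hrr.1.2) hrr.2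

end tok

/-! ### Coordinates are small -/

section small

variable {K W : Type} [LinearOrder K] [Cod K] [LinearOrder W]

theorem maxM_small {α : W} {S₀ : Set (Crd K W)} : ∀ c ∈ maxM α S₀, Small c := by
  intro c hc
  by_cases h : ∃ M, Maximal (fun M => M ∈ Cand α S₀) M
  · rw [maxM, dif_pos h] at hc
    exact (h.choose_spec.1.1 c hc).2.2
  · rw [maxM, dif_neg h] at hc
    exact absurd hc (Set.notMem_empty c)

variable [WellFoundedLT W]

theorem Sall_small {c : Crd K W} (hc : c ∈ (Sall : Set (Crd K W))) : Small c := by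
  rw [Sall, Set.mem_iUnion] at hc
  obtain ⟨β, h⟩ := hc
  rw [V, WellFounded.fix_eq] at h
  exact maxM_small c h

end small

theorem ok : S_ok := by
  classical
  intro κ _ _ hκ L U h
  have h0 := aleph0_lt hκ
  have h1 := aleph1_lt hκ
  -- the embeddings
  let iK : Kp κ → Uni (Kp κ) (Wp κ) L := fun k => Sum.inl (Sum.inl k)
  let iC : Crd (Kp κ) (Wp κ) → Uni (Kp κ) (Wp κ) L := fun c => Sum.inl (Sum.inr c)
  let iP : PP (Kp κ) (Wp κ) → Uni (Kp κ) (Wp κ) L := fun m => Sum.inr (Sum.inl m)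
  let iL : L → Uni (Kp κ) (Wp κ) L := fun l => Sum.inr (Sum.inr (Sum.inl l))
  have hiK : Function.Injective iK := fun a b hab => Sum.inl_injective (Sum.inl_injective hab)
  have hiL : Function.Injective iL := fun a b hab =>
    Sum.inl_injective (Sum.inr_injective (Sum.inr_injective hab))
  -- the tokens of a condition are eventually in the model
  have htok : ∀ m : Pre (Kp κ) (Wp κ), ∀ᶠ X in (U : Filter (Set (Uni (Kp κ) (Wp κ) L))),
      InTok {x | Sum.inl x ∈ X} m := by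
    intro m
    have e1 : ∀ᶠ X in (U : Filter (Set (Uni (Kp κ) (Wp κ) L))), ∀ τ ∈ m.base.A,
        iK τ ∈ X := (Filter.eventually_all_finite m.base.finA).2 fun τ _ => h.fine _
    have e2 : ∀ᶠ X in (U : Filter (Set (Uni (Kp κ) (Wp κ) L))), ∀ Q ∈ m.base.Nd,
        iK (cd Q) ∈ X := (Filter.eventually_all_finite m.base.finN).2 fun τ _ => h.fine _
    have e3 : ∀ᶠ X in (U : Filter (Set (Uni (Kp κ) (Wp κ) L))), ∀ a ∈ m.top,
        iC a.1 ∈ X ∧ iK a.2 ∈ X :=
      (Filter.eventually_all_finset m.top).2 fun a _ => (h.fine _).and (h.fine _)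
    filter_upwards [e1, e2, e3] with X x1 x2 x3
    exact ⟨x1, x2, x3⟩
  -- conditions in the model
  have hin : ∀ᶠ X in (U : Filter (Set (Uni (Kp κ) (Wp κ) L))), ∀ a ∈ X,
      ∀ m : PP (Kp κ) (Wp κ), iP m = a → InTok {x | Sum.inl x ∈ X} m.1 := by
    refine h.diag fun a => ?_
    by_cases ha : ∃ m, iP m = a
    · obtain ⟨m, rfl⟩ := ha
      filter_upwards [htok m.1] with X hX m' hm'
      have : m' = m := Sum.inl_injective (Sum.inr_injective hm')
      rw [this]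
      exact hX
    · exact Filter.Eventually.of_forall fun X m hm => absurd ⟨m, hm⟩ ha
  have hout : ∀ᶠ X in (U : Filter (Set (Uni (Kp κ) (Wp κ) L))),
      ∀ l : List (Uni (Kp κ) (Wp κ) L), (∀ x ∈ l, x ∈ X) →
        ∀ m : PP (Kp κ) (Wp κ), InTok {x | Sum.inl x ∈ l} m.1 → iP m ∈ X := by
    refine nf_list h h0 fun l => ?_
    have hf : {m : PP (Kp κ) (Wp κ) | InTok {x | Sum.inl x ∈ l} m.1}.Finite := by
      have e1 := tok_fin (K := Kp κ) (W := Wp κ)
        (l.filterMap fun x => Sum.elim (fun t => some t) (fun _ => none) x)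
      refine Set.Finite.of_finite_image (f := Subtype.val) (e1.subset ?_)
        (Subtype.val_injective.injOn)
      rintro _ ⟨m, hm, rfl⟩
      have e2 : ∀ x : Tok (Kp κ) (Wp κ), (Sum.inl x : Uni (Kp κ) (Wp κ) L) ∈ l →
          x ∈ l.filterMap fun x => Sum.elim (fun t => some t) (fun _ => none) x := by
        intro x hx
        rw [List.mem_filterMap]
        exact ⟨_, hx, rfl⟩
      exact ⟨fun τ hτ => e2 _ (hm.1 τ hτ), fun Q hQ => e2 _ (hm.2.1 Q hQ), fun a ha =>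
        ⟨e2 _ (hm.2.2 a ha).1, e2 _ (hm.2.2 a ha).2⟩⟩
    have e1 : ∀ᶠ X in (U : Filter (Set (Uni (Kp κ) (Wp κ) L))),
        ∀ m ∈ {m : PP (Kp κ) (Wp κ) | InTok {x | Sum.inl x ∈ l} m.1}, iP m ∈ X :=
      (Filter.eventually_all_finite hf).2 fun m _ => h.fine _
    filter_upwards [e1] with X hX m hm
    exact hX m hm
  -- small coordinates
  have hcrd : ∀ᶠ X in (U : Filter (Set (Uni (Kp κ) (Wp κ) L))), ∀ a ∈ X,
      ∀ c ∈ (Sall : Set (Crd (Kp κ) (Wp κ))), iC c = a → ∀ F, ∀ s ∈ c.nm F,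
        InTok {x | Sum.inl x ∈ X} s ∧ ∀ x ∈ F, iK x ∈ X := by
    refine h.diag fun a => ?_
    by_cases ha : ∃ c ∈ (Sall : Set (Crd (Kp κ) (Wp κ))), iC c = a
    · obtain ⟨c, hc, rfl⟩ := ha
      have hs : #{x : Finset (Kp κ) × Pre (Kp κ) (Wp κ) | x.2 ∈ c.nm x.1} < κ := by
        have := Sall_small hc
        rw [Small, mk_Kp] at this
        exact this
      have := h.complete {x : Finset (Kp κ) × Pre (Kp κ) (Wp κ) | x.2 ∈ c.nm x.1}
        (fun z X => InTok {x | Sum.inl x ∈ X} z.1.2 ∧ ∀ x ∈ z.1.1, iK x ∈ X) hs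
        fun z => (htok _).and ((Filter.eventually_all_finset _).2 fun a _ => h.fine _)
      filter_upwards [this] with X hX c' hc' hcc F s hsF
      have e1 : c' = c := Sum.inr_injective (Sum.inl_injective hcc)
      rw [e1] at hsF
      exact hX ⟨(F, s), hsF⟩
    · exact Filter.Eventually.of_forall fun X c hc hca => absurd ⟨c, hc, hca⟩ ha
  -- names
  have hg : ∀ (y : L → Set (PP (Kp κ) (Wp κ))) (l : L) (m : PP (Kp κ) (Wp κ)),
      ∃ m' : PP (Kp κ) (Wp κ), m' ≤ m ∧ (m ∉ meets (y l) → ∀ u ≤ m', u ∉ meets (y l)) := by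
    intro y l m
    by_cases hm : m ∈ meets (y l)
    · exact ⟨m, le_refl m, fun h => absurd hm h⟩
    · have hm2 : ∃ q ≤ m, ∀ r ≤ q, ∀ s ∈ y l, ¬ r ≤ s := by
        by_contra hc
        push Not at hc
        apply hm
        intro q hq
        obtain ⟨r, e1, s, e2, e3⟩ := hc q hq
        exact ⟨r, e1, s, e2, e3⟩
      obtain ⟨q, e1, e2⟩ := hm2
      refine ⟨q, e1, fun _ u hu hum => ?_⟩
      obtain ⟨r, e3, s, e4, e5⟩ := hum u (le_refl u)
      exact e2 r (le_trans e3 hu) s e4 e5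
  choose g hg1 hg2 using hg
  have hnam := nf_closed₃ h fun a b c => match a, b, c with
    | Sum.inr (Sum.inr (Sum.inr (Sum.inr y))), Sum.inr (Sum.inr (Sum.inl l)),
        Sum.inr (Sum.inl m) => iP (g y l m)
    | a, _, _ => a
  have hctbl := nf_ctbl h h0 iL hiL fun a => Sum.inr (Sum.inr (Sum.inr (Sum.inl a)))
  filter_upwards [nf_Tr h0 h1 h iK hiK, hin, hout, hcrd, hnam, hctbl] with X x1 x2 x3 x4 x5 x6
  have hmem : ∀ m : PP (Kp κ) (Wp κ), iP m ∈ X ↔ (trU X).In m := by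
    intro m
    constructor
    · intro hm
      exact x2 _ hm m rfl
    · intro hm
      have hm' : InTok {x | Sum.inl x ∈ X} m.1 := hm
      obtain ⟨e1, e2, e3⟩ := hm'
      let S : Set (Uni (Kp κ) (Wp κ) L) := iK '' m.1.base.A ∪ (fun Q => iK (cd Q)) '' m.1.base.Nd ∪
        (fun a => iC a.1) '' (m.1.top : Set (Crd (Kp κ) (Wp κ) × Kp κ)) ∪
        (fun a => iK a.2) '' (m.1.top : Set (Crd (Kp κ) (Wp κ) × Kp κ))
      have hS : S.Finite := (((m.1.base.finA.image _).union (m.1.base.finN.image _)).union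
        (m.1.top.finite_toSet.image _)).union (m.1.top.finite_toSet.image _)
      have hmS : ∀ x, x ∈ hS.toFinset.toList ↔ x ∈ S := by
        intro x
        rw [Finset.mem_toList, Set.Finite.mem_toFinset]
      refine x3 hS.toFinset.toList ?_ m ?_
      · intro x hx
        rw [hmS] at hx
        rcases hx with ((⟨τ, hτ, rfl⟩ | ⟨Q, hQ, rfl⟩) | ⟨a, ha, rfl⟩) | ⟨a, ha, rfl⟩
        · exact e1 τ hτ
        · exact e2 Q hQ
        · exact (e3 a ha).1
        · exact (e3 a ha).2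
      · refine ⟨fun τ hτ => (hmS _).2 (Or.inl (Or.inl (Or.inl ⟨τ, hτ, rfl⟩))),
          fun Q hQ => (hmS _).2 (Or.inl (Or.inl (Or.inr ⟨Q, hQ, rfl⟩))),
          fun a ha => ⟨(hmS _).2 (Or.inl (Or.inr ⟨a, ha, rfl⟩)), (hmS _).2 (Or.inr ⟨a, ha, rfl⟩)⟩⟩
  obtain ⟨α, hα, hαX⟩ := x1
  have heps : ∀ k : Kp κ, iK k ∈ X ↔ k < (trU X).α :=
    Classical.epsilon_spec (p := fun α : Kp κ => ∀ k : Kp κ,
      (Sum.inl (Sum.inl k) : Uni (Kp κ) (Wp κ) L) ∈ X ↔ k < α) ⟨α, hαX⟩
  have hαe : (trU X).α = α := by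
    rcases lt_trichotomy (trU X).α α with e | e | e
    · exact absurd ((heps _).1 ((hαX _).2 e)) (lt_irrefl _)
    · exact e
    · exact absurd ((hαX _).1 ((heps _).2 e)) (lt_irrefl _)
  refine ⟨⟨heps, hαe ▸ hα, ?_, ?_⟩, hmem, ?_⟩
  · intro c hc hcX F s hs
    obtain ⟨e1, e2⟩ := x4 _ hcX c hc rfl F s hs
    exact ⟨e1, fun x hx => (heps x).1 (e2 x hx)⟩
  · intro y hy l hl m hm hmy
    have e1 := x5 _ hy _ hl _ ((hmem m).2 hm)
    exact ⟨g y l m, hg1 y l m, (hmem _).1 e1, hg2 y l m hmy⟩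
  · intro a ha haL
    exact x6 a ha haL

theorem kcc (h1 : S_ok) (h2 : S_tr) (h3 : ∀ (K W : Type) [LinearOrder K] [WellFoundedLT K] [Cod K] [LinearOrder W] [WellFoundedLT W], S_g1 K W)
    (h4 : ∀ (K W : Type) [LinearOrder K] [WellFoundedLT K] [Cod K] [LinearOrder W] [WellFoundedLT W], S_g2 K W)
    (h5 : ∀ (K W : Type) [LinearOrder K] [WellFoundedLT K] [Cod K] [LinearOrder W] [WellFoundedLT W], S_g3 K W) : S_kcc := by
  classical
  intro κ _ hκ 𝒜 h𝒜
  have h0 := aleph0_lt hκ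
  have hne : Nonempty (Kp κ) := by
    rw [← mk_ne_zero_iff, mk_Kp]
    exact (aleph0_pos.trans h0).ne'
  let Anti : Set (PP (Kp κ) (Wp κ)) → Prop := fun A =>
    ∀ p ∈ A, ∀ q ∈ A, p ≠ q → ¬ ∃ r, r ≤ p ∧ r ≤ q
  obtain ⟨ℬ, hAB, hB⟩ := zorn_subset_nonempty {A : Set (PP (Kp κ) (Wp κ)) | Anti A} (by
    intro c hc hchain hcne
    refine ⟨⋃₀ c, ?_, fun s hs => Set.subset_sUnion_of_mem hs⟩
    rintro p ⟨s, hs, hps⟩ q ⟨t, ht, hqt⟩ hpq
    rcases hchain.total hs ht with e | e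
    · exact hc ht p (e hps) q hqt hpq
    · exact hc hs p hps q (e hqt) hpq) 𝒜 h𝒜
  have hmax : ∀ m : PP (Kp κ) (Wp κ), ∃ b ∈ ℬ, ∃ e, e ≤ m ∧ e ≤ b := by
    intro m
    by_contra hc
    push Not at hc
    have hins : Anti (insert m ℬ) := by
      rintro p hp q hq hpq ⟨r, hr1, hr2⟩
      rcases hp with rfl | hp
      · rcases hq with rfl | hq
        · exact hpq rfl
        · exact hc q hq r hr1 hr2
      · rcases hq with rfl | hq
        · exact hc p hp r hr2 hr1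
        · exact hB.prop p hp q hq hpq ⟨r, hr1, hr2⟩
    have : m ∈ ℬ := hB.le_of_ge hins (Set.subset_insert m ℬ) (Set.mem_insert m ℬ)
    exact hc m this m (le_refl m) (le_refl m)
  choose a haB e hem hea using hmax
  obtain ⟨U, h⟩ := nf_of hκ (Uni (Kp κ) (Wp κ) Empty)
  have hcl : ∀ᶠ X in (U : Filter (Set (Uni (Kp κ) (Wp κ) Empty))), ∀ x ∈ X,
      (match x with
        | Sum.inr (Sum.inl m) => (Sum.inr (Sum.inl (a m)) : Uni (Kp κ) (Wp κ) Empty)
        | x => x) ∈ X := h.closed _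
  have hcl2 : ∀ᶠ X in (U : Filter (Set (Uni (Kp κ) (Wp κ) Empty))), ∀ x ∈ X,
      (match x with
        | Sum.inr (Sum.inl m) => (Sum.inr (Sum.inl (e m)) : Uni (Kp κ) (Wp κ) Empty)
        | x => x) ∈ X := h.closed _
  obtain ⟨X, x1, x2, x3, x4⟩ := ((h1 κ hκ Empty U h).and (hcl.and (hcl2.and h.small))).exists
  obtain ⟨hok, hmem, -⟩ := x1
  have key : ∀ r ∈ ℬ, (Sum.inr (Sum.inl r) : Uni (Kp κ) (Wp κ) Empty) ∈ X := by
    intro r hr
    obtain ⟨v, hvr, hvα, -⟩ := h5 (Kp κ) (Wp κ) r (trU X).α hok.tr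
    obtain ⟨m, hm, hmI⟩ := h3 (Kp κ) (Wp κ) Empty (trU X) hok v hvα
    have hmX := (hmem m).2 hmI
    have haX : (Sum.inr (Sum.inl (a m)) : Uni (Kp κ) (Wp κ) Empty) ∈ X := x2 _ hmX
    have heX : (Sum.inr (Sum.inl (e m)) : Uni (Kp κ) (Wp κ) Empty) ∈ X := x3 _ hmX
    obtain ⟨w, hw1, hw2⟩ := h4 (Kp κ) (Wp κ) Empty (trU X) hok v hvα (e m) ((hmem _).1 heX)
      (hm ▸ hem m)
    have : r = a m := by
      by_contra hne'
      exact hB.prop r hr (a m) (haB m) hne' ⟨w, le_trans hw1 hvr, le_trans hw2 (hea m)⟩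
    rw [this]
    exact haX
  have h6 : #𝒜 ≤ #ℬ := mk_le_mk_of_subset hAB
  refine lt_of_le_of_lt h6 (lt_of_le_of_lt ?_ x4)
  exact mk_le_of_injective (f := fun r : ℬ =>
    (⟨Sum.inr (Sum.inl r.1), key r.1 r.2⟩ : X)) fun p q hpq =>
      Subtype.ext (Sum.inl_injective (Sum.inr_injective (congrArg Subtype.val hpq)))

end Pool.Agent.H915.Me
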