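import Pool.Agent.H915.Stmts2

/-!
# Conditions over a model: traces and gluing
-/

set_option autoImplicit false
set_option linter.unusedSectionVars false

namespace Pool.Agent.H915.Mo

open Cardinal Set Pool.Agent.Helper669.Forcing

variable (K W : Type) [LinearOrder K] [WellFoundedLT K] [Cod K] [LinearOrder W] [WellFoundedLT W]

theorem ext : S_ext K W := by
  intro u s hs
  refine ⟨⟨⟨s, u.1.top⟩, ?_⟩, rfl, rfl⟩
  intro a ha
  obtain ⟨h1, e, he, hle⟩ := u.2 a ha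
  exact ⟨h1, e, he, ⟨hs.trans hle.1, hle.2⟩⟩

omit [WellFoundedLT K] [LinearOrder W] [WellFoundedLT W] in
theorem mem_fib (p : Pre K W) (c : Crd K W) (x : K) : x ∈ fib p c ↔ (c, x) ∈ p.top := by
  classical
  unfold fib
  simp only [Finset.mem_image, Finset.mem_filter]
  constructor
  · rintro ⟨⟨c', x'⟩, ⟨h1, h2⟩, h3⟩
    simp only at h2 h3
    subst h2; subst h3; exact h1
  · intro h
    exact ⟨(c, x), ⟨h, rfl⟩, rfl⟩

omit [WellFoundedLT K] in
theorem fib_trc {L : Type} (t : Trace K W L) (r : Pre K W) (c : Crd K W)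
    (hc : Sum.inr c ∈ t.M) : fib (trc t r) c = fib r c := by
  ext x
  rw [mem_fib, mem_fib]
  unfold trc
  simp [hc]

omit [WellFoundedLT K] in
theorem lt_of_cd {L : Type} {t : Trace K W L} (ht : t.Ok) {Q : Set K} (hQ : Q.Countable) :
    Sum.inl (cd Q) ∈ t.M ↔ Q ⊆ Iio t.α := by
  rw [ht.ini, ht.tr.2 Q hQ]

theorem g1 : S_g1 K W := by
  classical
  intro L t ht u hα
  refine ⟨⟨trc t u.1, ?_⟩, rfl, ?_⟩
  · intro a ha
    have ha' : a ∈ u.1.top ∧ Sum.inr a.1 ∈ t.M := by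
      simpa [trc] using ha
    obtain ⟨h1, e, he, hle⟩ := u.2 a ha'.1
    rw [fib_trc K W t u.1 a.1 ha'.2]
    refine ⟨h1, e, he, ?_⟩
    obtain ⟨hin, -⟩ := ht.crd a.1 h1 ha'.2 _ e he
    refine ⟨⟨?_, ?_⟩, ?_⟩
    · intro τ hτ
      exact ⟨hle.1.1 hτ, (ht.ini τ).1 (hin.1 τ hτ)⟩
    · intro Q hQ
      refine ⟨hle.1.2 hQ, ?_⟩
      exact (lt_of_cd K W ht (e.base.nd Q hQ).ctbl).1 (hin.2.1 Q hQ)
    · intro b hb
      have : b ∈ u.1.top ∧ Sum.inr b.1 ∈ t.M := ⟨hle.2 hb, (hin.2.2 b hb).1⟩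
      simpa [trc] using this
  · refine ⟨?_, ?_, ?_⟩
    · intro τ hτ
      exact (ht.ini τ).2 hτ.2
    · intro Q hQ
      exact (lt_of_cd K W ht (u.1.base.nd Q hQ.1).ctbl).2 hQ.2
    · intro a ha
      have ha' : a ∈ u.1.top ∧ Sum.inr a.1 ∈ t.M := by
        simpa [trc] using ha
      refine ⟨ha'.2, ?_⟩
      obtain ⟨h1, e, he, hle⟩ := u.2 a ha'.1
      obtain ⟨-, hx⟩ := ht.crd a.1 h1 ha'.2 _ e he
      exact (ht.ini a.2).2 (hx a.2 ((mem_fib K W u.1 a.1 a.2).2 ha'.1))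

omit [WellFoundedLT K] in
/-- gluing of the tops -/
theorem glue {L : Type} {t : Trace K W L} (u m : PP K W) (hm : t.In m)
    (hle : (trc t u.1).top ⊆ m.1.top) (r : C0 K) (h1 : r ≤ u.1.base) (h2 : r ≤ m.1.base) :
    ∃ v : PP K W, v.1.base = r ∧ v ≤ u ∧ v ≤ m := by
  classical
  have hu : (⟨r, u.1.top ∪ m.1.top⟩ : Pre K W) ≤ u.1 := ⟨h1, Finset.subset_union_left⟩
  have hm' : (⟨r, u.1.top ∪ m.1.top⟩ : Pre K W) ≤ m.1 := ⟨h2, Finset.subset_union_right⟩
  refine ⟨⟨⟨r, u.1.top ∪ m.1.top⟩, ?_⟩, rfl, hu, hm'⟩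
  intro a ha
  by_cases hM : Sum.inr a.1 ∈ t.M
  · have key : ∀ x, (a.1, x) ∈ u.1.top → (a.1, x) ∈ m.1.top := by
      intro x hx
      apply hle
      simp only [trc, Finset.mem_filter]
      exact ⟨hx, hM⟩
    have ham : a ∈ m.1.top := by
      rcases Finset.mem_union.1 ha with h | h
      · exact key a.2 h
      · exact h
    obtain ⟨hs, e, he, hle'⟩ := m.2 a ham
    refine ⟨hs, e, ?_, hm'.trans hle'⟩
    have : fib (⟨r, u.1.top ∪ m.1.top⟩ : Pre K W) a.1 = fib m.1 a.1 := by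
      ext x
      rw [mem_fib, mem_fib]
      simp only [Finset.mem_union]
      exact ⟨fun h => h.elim (key x) id, Or.inr⟩
    rw [this]; exact he
  · have key : ∀ x, (a.1, x) ∉ m.1.top := by
      intro x hx
      exact hM (hm.2.2 _ hx).1
    have hau : a ∈ u.1.top := by
      rcases Finset.mem_union.1 ha with h | h
      · exact h
      · exact absurd h (key a.2)
    obtain ⟨hs, e, he, hle'⟩ := u.2 a hau
    refine ⟨hs, e, ?_, hu.trans hle'⟩
    have : fib (⟨r, u.1.top ∪ m.1.top⟩ : Pre K W) a.1 = fib u.1 a.1 := by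
      ext x
      rw [mem_fib, mem_fib]
      simp only [Finset.mem_union]
      exact ⟨fun h => h.elim id (fun h => absurd h (key x)), Or.inl⟩
    rw [this]; exact he

omit [WellFoundedLT K] in
theorem in_lt {L : Type} {t : Trace K W L} (ht : t.Ok) {m : PP K W} (hm : t.In m) :
    (∀ τ ∈ m.1.base.A, τ < t.α) ∧ ∀ Q ∈ m.1.base.Nd, Q ⊆ Iio t.α :=
  ⟨fun τ hτ => (ht.ini τ).1 (hm.1 τ hτ),
    fun Q hQ => (lt_of_cd K W ht (m.1.base.nd Q hQ).ctbl).1 (hm.2.1 Q hQ)⟩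

theorem g2 (h1 : S_amalgT K) : S_g2 K W := by
  intro L t ht u hα m hm hle
  obtain ⟨ha, hb⟩ := in_lt K W ht hm
  obtain ⟨r, hA, hN⟩ := h1 u.1.base m.1.base t.α hα ha hb hle.1
  obtain ⟨v, -, hv1, hv2⟩ := glue K W u m hm hle.2 r
    ⟨by rw [hA]; exact subset_union_left, by rw [hN]; exact subset_union_left⟩
    ⟨by rw [hA]; exact subset_union_right, by rw [hN]; exact subset_union_right⟩
  exact ⟨v, hv1, hv2⟩

theorem g3 (h1 : S_addTr K) : S_g3 K W := by
  intro u α hα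
  obtain ⟨r, hr, hrα⟩ := h1 u.1.base α hα
  obtain ⟨v, hv1, hv2⟩ := ext K W u r hr
  refine ⟨v, ⟨?_, ?_⟩, ?_, hv2⟩
  · rw [hv1]; exact hr
  · rw [hv2]
  · rw [hv1]; exact hrα

theorem g4 (h1 : S_amalgT K) : S_g4 K W := by
  intro L t ht m s hm hc
  obtain ⟨ha, hb⟩ := in_lt K W ht hm
  obtain ⟨r, hA, hN⟩ := h1 s m.1.base t.α hc.1 ha hb hc.2
  obtain ⟨v, hv1, hv2⟩ := ext K W m r
    ⟨by rw [hA]; exact subset_union_right, by rw [hN]; exact subset_union_right⟩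
  refine ⟨v, ⟨?_, ?_⟩, ?_, hv2, ?_, ?_⟩
  · rw [hv1]; exact ⟨by rw [hA]; exact subset_union_right, by rw [hN]; exact subset_union_right⟩
  · rw [hv2]
  · rw [hv1]; exact ⟨by rw [hA]; exact subset_union_left, by rw [hN]; exact subset_union_left⟩
  · rw [hv1, hA]
  · rw [hv1, hN]

theorem g5 (h1 : S_amalgT K) (h2 : S_amalgS K) (h3 : S_nodeRestr K) : S_g5 K W := by
  have _h3 := h3
  intro L t ht q N hα hN s hs hsA hsN m hm hle hc
  obtain ⟨ha, hb⟩ := in_lt K W ht hm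
  obtain ⟨w, hwA, hwN⟩ := h2 q.1.base s N hN hs hsA hsN
  have hcl : ∀ Q ∈ q.1.base.Nd, Q ∩ Iio t.α ∈ m.1.base.Nd := fun Q hQ =>
    hle.1.2 ⟨q.1.base.cl Q hQ t.α hα, inter_subset_right⟩
  have hbel : m.1.base ≤ w.below t.α := by
    constructor
    · rintro τ ⟨hτ, hτα⟩
      rw [hwA] at hτ
      rcases hτ with hτ | hτ
      · exact hle.1.1 ⟨hτ, hτα⟩
      · exact hc.2.1 ⟨hτ, hτα⟩
    · rintro X ⟨hX, hXα⟩
      rw [hwN] at hX
      rcases hX with (hX | hX) | ⟨Q, hQ, τ, hτ, rfl⟩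
      · exact hle.1.2 ⟨hX, hXα⟩
      · exact hc.2.2 ⟨hX, hXα⟩
      · rcases lt_or_ge τ t.α with hlt | hge
        · have h5 : τ ∈ m.1.base.A := hc.2.1 ⟨hτ, hlt⟩
          have h6 := m.1.base.cl _ (hcl Q hQ) τ h5
          have : Q ∩ Iio t.α ∩ Iio τ = Q ∩ Iio τ := by
            rw [inter_assoc]
            congr 1
            exact inter_eq_right.2 (Iio_subset_Iio hlt.le)
          rwa [this] at h6
        · have : Q ∩ Iio τ = Q ∩ Iio t.α := by
            apply Subset.antisymm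
            · exact fun x hx => ⟨hx.1, hXα hx⟩
            · exact fun x hx => ⟨hx.1, lt_of_lt_of_le hx.2 hge⟩
          rw [this]; exact hcl Q hQ
  obtain ⟨r, hA, hNd⟩ := h1 w m.1.base t.α (by rw [hwA]; exact Or.inl hα) ha hb hbel
  obtain ⟨v, hv0, hv1, hv2⟩ := glue K W q m hm hle.2 r
    ⟨by rw [hA, hwA]; exact subset_union_left.trans subset_union_left,
      by rw [hNd, hwN]
         exact (subset_union_left.trans subset_union_left).trans subset_union_left⟩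
    ⟨by rw [hA]; exact subset_union_right, by rw [hNd]; exact subset_union_right⟩
  refine ⟨v, hv1, hv2, ?_⟩
  rw [hv0]
  exact ⟨by rw [hA, hwA]; exact subset_union_right.trans subset_union_left,
      by rw [hNd, hwN]
         exact (subset_union_right.trans subset_union_left).trans subset_union_left⟩

theorem nam (h1 : S_g1 K W) (h2 : S_g2 K W) : S_nam K W := by
  classical
  intro L t ht y hy l hl q m hα hmq
  have hIn : t.In m := by
    obtain ⟨m', hm', hI⟩ := h1 L t ht q hα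
    have : m = m' := Subtype.ext (hmq.trans hm'.symm)
    rw [this]; exact hI
  have hdown : ∀ u v : PP K W, u ≤ v → v ∈ meets (y l) → u ∈ meets (y l) :=
    fun u v huv hv q hq => hv q (hq.trans huv)
  constructor
  · intro hq
    by_contra hm
    obtain ⟨m', hm'm, hI', hno⟩ := ht.nam y hy l hl m hIn hm
    obtain ⟨v, hv1, hv2⟩ := h2 L t ht q hα m' hI' (by
      have : m'.1 ≤ m.1 := hm'm
      rwa [hmq] at this)
    exact hno v hv2 (hdown v q hv1 hq)
  · intro hm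
    refine hdown q m ?_ hm
    show q.1 ≤ m.1
    rw [hmq]
    exact ⟨⟨fun τ h => h.1, fun Q h => h.1⟩, Finset.filter_subset _ _⟩

end Pool.Agent.H915.Mo
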