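import Pool.Agent.H915.Stmts2
import Pool.Agent.W684.FM.Main

/-!
# Preservation of the first uncountable cardinal
-/

set_option autoImplicit false

namespace Pool.Agent.H915.Om

open Cardinal Set Pool.Agent.Helper669.Forcing

theorem bl_aux_ctbl (a : Om1) : (Set.Iio a).Countable := by
  obtain ⟨b, hb⟩ : ∃ b : Om1, a ≤ b := ⟨a, le_rfl⟩
  rw [← Cardinal.le_aleph0_iff_set_countable, ← Order.lt_succ_iff, Cardinal.succ_aleph0]
  exact Cardinal.mk_Iio_toType_ord_lt a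

theorem bl_aux_enum : ∃ h : Om1 → ℕ → Om1, ∀ δ, ∀ y < δ, ∃ m, h δ m = y := by
  have : ∀ δ : Om1, ∃ f : ℕ → Om1, ∀ y < δ, ∃ m, f m = y := by
    intro δ
    by_cases hne : (Set.Iio δ).Nonempty
    · obtain ⟨f, hf⟩ := (bl_aux_ctbl δ).exists_eq_range hne
      refine ⟨f, fun y hy => ?_⟩
      have : y ∈ Set.range f := by rw [← hf]; exact hy
      exact this
    · refine ⟨fun _ => δ, fun y hy => absurd ⟨y, hy⟩ hne⟩
  choose h hh using this
  exact ⟨h, hh⟩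

theorem bl : S_bl := by
  intro R _ r0 hom Φ hdown htot
  by_contra hcon
  push Not at hcon
  -- the name of the function
  let F : ℕ → Om1 → Set R := fun n δ => {r | r ∈ Φ n δ ∧ ∀ r' ≤ r, ∀ δ' < δ, r' ∉ Φ n δ'}
  have Fdown : ∀ n δ, Down (F n δ) := by
    intro n δ p hp q hq
    exact ⟨hdown n δ p hp.1 q hq, fun r' hr' δ' hδ' => hp.2 r' (hr'.trans hq) δ' hδ'⟩
  have Ftot : ∀ n, ∀ r ≤ r0, ∃ r' ≤ r, ∃ δ, r' ∈ F n δ := by
    intro n r hr
    have hne : {δ : Om1 | ∃ r' ≤ r, r' ∈ Φ n δ}.Nonempty := by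
      obtain ⟨r', hr', δ, hδ⟩ := htot n r hr
      exact ⟨δ, r', hr', hδ⟩
    obtain ⟨r', hr', hm⟩ := WellFounded.min_mem (wellFounded_lt (α := Om1)) _ hne
    refine ⟨r', hr', _, hm, ?_⟩
    intro r'' hr'' δ' hδ' hmem
    have hmem' : δ' ∈ {δ : Om1 | ∃ r' ≤ r, r' ∈ Φ n δ} := ⟨r'', hr''.trans hr', hmem⟩
    exact WellFounded.not_lt_min (wellFounded_lt (α := Om1)) _ hmem' hδ'
  have Funi : ∀ n r δ δ', r ∈ F n δ → r ∈ F n δ' → δ = δ' := by
    intro n r δ δ' h h'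
    rcases lt_trichotomy δ δ' with hlt | heq | hlt
    · exact absurd h.1 (h'.2 r le_rfl δ hlt)
    · exact heq
    · exact absurd h'.1 (h.2 r le_rfl δ' hlt)
  obtain ⟨e, he⟩ := bl_aux_enum
  let G : ℕ → Om1 → Set R := fun k y => {r | ∃ δ, r ∈ F (Nat.unpair k).1 δ ∧
    e δ (Nat.unpair k).2 = y}
  have Gdown : ∀ k y, Down (G k y) := by
    rintro k y p ⟨δ, h1, h2⟩ q hq
    exact ⟨δ, Fdown _ _ p h1 q hq, h2⟩
  have hfun : r0 ∈ IsFun G := by
    refine ⟨?_, ?_⟩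
    · intro k
      rw [mem_fex]
      intro q hq
      obtain ⟨r', hr', δ, hδ⟩ := Ftot (Nat.unpair k).1 q hq
      exact ⟨r', hr', e δ (Nat.unpair k).2, meets_of_mem ⟨δ, hδ, rfl⟩⟩
    · intro k y y'
      rw [mem_fimp]
      rintro q hq ⟨h1, h2⟩
      obtain ⟨r, hr, δ, h3, h4⟩ := exists_of_meets (Gdown k y) h1
      obtain ⟨r', hr', δ', h5, h6⟩ := exists_of_meets (Gdown k y') (down_meets _ q h2 r hr)
      have h7 := Funi _ r' δ δ' (Fdown _ _ r h3 r' hr') h5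
      refine ⟨r', hr'.trans hr, ?_⟩
      rw [mem_fground, ← h4, ← h6, h7]
  have honto : r0 ∈ IsOnto G := by
    intro y
    rw [mem_fex]
    intro q hq
    obtain ⟨n, r', hr', h1⟩ := hcon q hq y
    obtain ⟨r'', hr'', δ, hδ⟩ := Ftot n r' (hr'.trans hq)
    have h2 : y < δ := by
      by_contra h3
      exact h1 r'' hr'' δ (not_lt.1 h3) hδ.1
    obtain ⟨m, hm⟩ := he δ y h2
    refine ⟨r'', hr''.trans hr', Nat.pair n m, meets_of_mem ⟨δ, ?_, ?_⟩⟩
    · rw [Nat.unpair_pair]; exact hδ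
    · rw [Nat.unpair_pair]; exact hm
  have h1 := hom r0 le_rfl r0 le_rfl
  apply h1
  rw [mem_fex]
  intro q hq
  exact ⟨q, le_rfl, G, down_IsFun G r0 hfun q hq, down_IsOnto G r0 honto q hq⟩

theorem om1 : S_om1 := by
  intro P _ hcov p q hq hmem
  rw [mem_fex] at hmem
  obtain ⟨r, hr, R, hfun, honto⟩ := hmem q le_rfl
  obtain ⟨q', hq', C, hC, hpre⟩ := hcov (fun n => {u | ∃ y, u ∈ meets (R n y)}) r (by
    intro n u hu
    obtain ⟨v, hv, y, hy⟩ := IsFun.total (down_IsFun R r hfun u hu) n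
    exact ⟨v, ⟨y, hy⟩, hv⟩)
  have hch : ∀ n u, ∃ y, (∃ y, u ∈ meets (R n y)) → u ∈ meets (R n y) := by
    intro n u
    by_cases h : ∃ y, u ∈ meets (R n y)
    · obtain ⟨y, hy⟩ := h
      exact ⟨y, fun _ => hy⟩
    · exact ⟨Classical.arbitrary Om1, fun h' => absurd h' h⟩
  choose val hval using hch
  let Y : Set Om1 := insert (Classical.arbitrary Om1) (⋃ n, (val n) '' (C n))
  have hY : Y.Countable := by
    apply Set.Countable.insert
    apply Set.countable_iUnion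
    intro n
    exact (hC n).1.image _
  obtain ⟨f, hf⟩ := hY.exists_eq_range ⟨_, Set.mem_insert _ _⟩
  obtain ⟨a, ha⟩ := Pool.Agent.W684.FM.exists_bound f
  obtain ⟨b, hb⟩ := Pool.Agent.W684.FM.exists_gt_om1 a
  obtain ⟨s, hs, n, hn⟩ := mem_fex.1 (down_IsOnto R r honto q' hq' b) q' le_rfl
  obtain ⟨e, heC, v, hv1, hv2⟩ := hpre n s hs
  have h1 : v ∈ meets (R n b) := down_meets _ s hn v hv1
  have h2 : v ∈ meets (R n (val n e)) := down_meets _ e (hval n e ((hC n).2 heC)) v hv2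
  have h3 : v ∈ IsFun R := down_IsFun R r hfun v (hv1.trans (hs.trans hq'))
  have h4 : b = val n e := IsFun.unique h3 h1 h2
  have h5 : b ∈ Y := by
    rw [h4]
    exact Set.mem_insert_of_mem _ (Set.mem_iUnion.2 ⟨n, Set.mem_image_of_mem _ heC⟩)
  rw [hf] at h5
  obtain ⟨k, hk⟩ := h5
  have h6 := ha k
  rw [hk] at h6
  exact absurd hb (not_lt.2 h6)

end Pool.Agent.H915.Om
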