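import Pool.Agent.H915.Stmts1

/-!
# Side conditions: amalgamation over a small node
-/

set_option autoImplicit false

namespace Pool.Agent.H915.P0b

open Cardinal Set Pool.Agent.Helper669.Forcing

section aux

variable {K : Type} [LinearOrder K] [Cod K]

/-- comparability -/
def Cm (Q R : Set K) : Prop := Q = R ∨ cd Q ∈ R ∨ cd R ∈ Q

theorem Cm.symm {Q R : Set K} (h : Cm Q R) : Cm R Q := by
  rcases h with h | h | h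
  · exact Or.inl h.symm
  · exact Or.inr (Or.inr h)
  · exact Or.inr (Or.inl h)

/-- not separated by `A` -/
def Un (A Q R : Set K) : Prop := ∀ τ ∈ A, Q ⊆ Iio τ ↔ R ⊆ Iio τ

theorem Un.symm {A Q R : Set K} (h : Un A Q R) : Un A R Q := fun τ hτ => (h τ hτ).symm

theorem Un.left {A B Q R : Set K} (h : Un (A ∪ B) Q R) : Un A Q R := fun τ hτ => h τ (Or.inl hτ)

theorem Un.right {A B Q R : Set K} (h : Un (A ∪ B) Q R) : Un B Q R := fun τ hτ => h τ (Or.inr hτ)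

theorem sub_of_mem {Q R : Set K} (hQ : Node Q) (hR : Node R) (h : cd Q ∈ R) : Q ⊆ R :=
  hR.sub Q hQ.ctbl h

theorem not_sub {Q : Set K} {σ ρ x : K} (hx : x ∈ Q) (h1 : σ < ρ) (h2 : ρ ≤ x) : ¬ Q ⊆ Iio σ :=
  fun h => absurd (h hx) (not_lt.2 (h1.le.trans h2))

variable [WellFoundedLT K]

theorem exists_min {P : K → Prop} (h : ∃ x, P x) : ∃ ξ, P ξ ∧ ∀ η, P η → ξ ≤ η := by
  obtain ⟨m, hm, hmin⟩ := WellFounded.has_min (wellFounded_lt (α := K)) {x | P x} h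
  exact ⟨m, hm, fun η hη => not_lt.1 (hmin η hη)⟩

/-- caps -/
structure Cap (s : C0 K) (ρ : K) (D : Set K) : Prop where
  nd : ∀ Q ∈ s.Nd, Q ∩ D ∈ s.Nd
  le : ∀ σ ∈ s.A, ρ ≤ σ → D ⊆ Iio σ
  out : ∀ x, x ∉ D → ∃ δ ∈ s.A, ρ ≤ δ ∧ δ ≤ x

theorem exists_cap (s : C0 K) (ρ : K) : ∃ D, Cap s ρ D := by
  by_cases h : ∃ δ, δ ∈ s.A ∧ ρ ≤ δ
  · obtain ⟨δ, ⟨hδ, hρ⟩, hmin⟩ := exists_min h
    exact ⟨Iio δ, fun Q hQ => s.cl Q hQ δ hδ, fun σ hσ h1 => Iio_subset_Iio (hmin σ ⟨hσ, h1⟩),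
      fun x hx => ⟨δ, hδ, hρ, not_lt.1 hx⟩⟩
  · exact ⟨univ, fun Q hQ => by rwa [inter_univ], fun σ hσ h1 => absurd ⟨σ, hσ, h1⟩ h,
      fun x hx => absurd (mem_univ x) hx⟩

theorem Cap.Iio_sub {s : C0 K} {ρ : K} {D : Set K} (hD : Cap s ρ D) : Iio ρ ⊆ D := by
  intro x hx
  by_contra h
  obtain ⟨δ, _, h1, h2⟩ := hD.out x h
  exact absurd (h1.trans h2) (not_le.2 hx)

theorem Cap.mem {s : C0 K} {ρ : K} {D : Set K} (hD : Cap s ρ D) (hρ : ρ ∉ s.A) : ρ ∈ D := by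
  by_contra h
  obtain ⟨δ, hδ, h1, h2⟩ := hD.out ρ h
  exact hρ (le_antisymm h1 h2 ▸ hδ)

/-- two nodes inside the cap with elements above `ρ` are not separated -/
theorem Cap.un {s : C0 K} {ρ : K} {D : Set K} (hD : Cap s ρ D) {Q R : Set K} (hQ : Q ⊆ D)
    (hR : R ⊆ D) {x y : K} (hx : x ∈ Q) (hxρ : ρ ≤ x) (hy : y ∈ R) (hyρ : ρ ≤ y) : Un s.A Q R := by
  intro σ hσ
  rcases le_or_gt ρ σ with h | h
  · exact ⟨fun _ => hR.trans (hD.le σ hσ h), fun _ => hQ.trans (hD.le σ hσ h)⟩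
  · exact ⟨fun h' => absurd h' (not_sub hx h hxρ), fun h' => absurd h' (not_sub hy h hyρ)⟩

/-- the hypotheses of Lemma S -/
structure Hyp (s t : C0 K) (N : Set K) : Prop where
  hN : N ∈ s.Nd
  ins : t.Inside N
  hA : s.A ∩ N ⊆ t.A
  hNd : ∀ Q ∈ s.Nd, cd Q ∈ N → Q ∈ t.Nd

variable {s t : C0 K} {N : Set K}

theorem Hyp.sub (H : Hyp s t N) {R : Set K} (hR : R ∈ t.Nd) : R ⊆ N :=
  sub_of_mem (t.nd R hR) (s.nd N H.hN) (H.ins.2 R hR)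

/-- (F) -/
theorem Hyp.F (H : Hyp s t N) {σ : K} (hσ : σ ∈ s.A) (h : ¬ N ⊆ Iio σ) :
    ∃ ξ ∈ t.A, σ ≤ ξ ∧ ∀ η ∈ N, σ ≤ η → ξ ≤ η := by
  have h1 : ∃ ξ, ξ ∈ N ∧ σ ≤ ξ := by
    rw [not_subset] at h
    obtain ⟨x, hx, hx'⟩ := h
    exact ⟨x, hx, not_lt.1 hx'⟩
  obtain ⟨ξ, ⟨hξ, hσξ⟩, hmin⟩ := exists_min h1
  have h2 : ∀ η ∈ N, σ ≤ η → ξ ≤ η := fun η hη h' => hmin η ⟨hη, h'⟩
  exact ⟨ξ, H.hA ⟨s.gap N H.hN σ hσ ξ hξ hσξ h2, hξ⟩, hσξ, h2⟩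

theorem inter_eq {Z : Set K} {σ ξ : K} (hZ : Z ⊆ N) (h1 : σ ≤ ξ)
    (h2 : ∀ η ∈ N, σ ≤ η → ξ ≤ η) : Z ∩ Iio σ = Z ∩ Iio ξ := by
  ext x
  constructor
  · rintro ⟨hx, hx'⟩
    exact ⟨hx, lt_of_lt_of_le hx' h1⟩
  · rintro ⟨hx, hx'⟩
    refine ⟨hx, ?_⟩
    by_contra h
    exact absurd (h2 x (hZ hx) (not_lt.1 h)) (not_le.2 hx')

theorem Hyp.cl (H : Hyp s t N) : ∀ Z ∈ s.Nd ∪ t.Nd ∪ {X | ∃ Q ∈ s.Nd, ∃ τ ∈ t.A, X = Q ∩ Iio τ},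
    ∀ τ ∈ s.A ∪ t.A, Z ∩ Iio τ ∈ s.Nd ∪ t.Nd ∪ {X | ∃ Q ∈ s.Nd, ∃ τ ∈ t.A, X = Q ∩ Iio τ} := by
  rintro Z ((hZ | hZ) | ⟨Q, hQ, ρ, hρ, rfl⟩) τ (hτ | hτ)
  · exact Or.inl (Or.inl (s.cl Z hZ τ hτ))
  · exact Or.inr ⟨Z, hZ, τ, hτ, rfl⟩
  · by_cases h : N ⊆ Iio τ
    · rw [inter_eq_left.2 ((H.sub hZ).trans h)]
      exact Or.inl (Or.inr hZ)
    · obtain ⟨ξ, hξ, h1, h2⟩ := H.F hτ h
      rw [inter_eq (H.sub hZ) h1 h2]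
      exact Or.inl (Or.inr (t.cl Z hZ ξ hξ))
  · exact Or.inl (Or.inr (t.cl Z hZ τ hτ))
  · rw [inter_assoc, Iio_inter_Iio]
    rcases le_total ρ τ with h | h
    · rw [inf_eq_left.2 h]
      exact Or.inr ⟨Q, hQ, ρ, hρ, rfl⟩
    · rw [inf_eq_right.2 h]
      exact Or.inl (Or.inl (s.cl Q hQ τ hτ))
  · rw [inter_assoc, Iio_inter_Iio]
    rcases le_total ρ τ with h | h
    · rw [inf_eq_left.2 h]
      exact Or.inr ⟨Q, hQ, ρ, hρ, rfl⟩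
    · rw [inf_eq_right.2 h]
      exact Or.inr ⟨Q, hQ, τ, hτ, rfl⟩

/-- the gap condition for nodes of `s` -/
theorem Hyp.gap1 (H : Hyp s t N) {Q : Set K} (hQ : Q ∈ s.Nd) {τ : K} (hτ : τ ∈ s.A ∪ t.A) {ξ : K}
    (hξ : ξ ∈ Q) (h1 : τ ≤ ξ) (h2 : ∀ η ∈ Q, τ ≤ η → ξ ≤ η) : ξ ∈ s.A ∪ t.A := by
  rcases hτ with hτ | hτ
  · exact Or.inl (s.gap Q hQ τ hτ ξ hξ h1 h2)
  · obtain ⟨D, hD⟩ := exists_cap s τ
    by_cases hξD : ξ ∈ D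
    · have hτD : τ ∈ D := by
        by_contra h
        obtain ⟨δ, hδ, h3, h4⟩ := hD.out τ h
        have : δ = τ := le_antisymm h4 h3
        subst this
        exact absurd (hD.le δ hδ le_rfl hξD) (not_lt.2 h1)
      have hτN : τ ∈ N := H.ins.1 hτ
      have hun : Un s.A (Q ∩ D) (N ∩ D) :=
        hD.un inter_subset_right inter_subset_right ⟨hξ, hξD⟩ h1 ⟨hτN, hτD⟩ le_rfl
      have hN' : N ∩ D ∈ s.Nd := hD.nd N H.hN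
      have hQ' : Q ∩ D ∈ s.Nd := hD.nd Q hQ
      rcases s.cmp _ hQ' _ hN' hun with h | h | h
      · have : τ ∈ Q := (h.symm.subset ⟨hτN, hτD⟩).1
        have : ξ = τ := le_antisymm (h2 τ this le_rfl) h1
        rw [this]
        exact Or.inr hτ
      · have hQt : Q ∩ D ∈ t.Nd := H.hNd _ hQ' h.1
        exact Or.inr (t.gap _ hQt τ hτ ξ ⟨hξ, hξD⟩ h1 fun η hη h' => h2 η hη.1 h')
      · have : τ ∈ Q := (sub_of_mem (s.nd _ hN') (s.nd _ hQ') h ⟨hτN, hτD⟩).1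
        have : ξ = τ := le_antisymm (h2 τ this le_rfl) h1
        rw [this]
        exact Or.inr hτ
    · obtain ⟨δ, hδ, h3, h4⟩ := hD.out ξ hξD
      exact Or.inl (s.gap Q hQ δ hδ ξ hξ h4 fun η hη h' => h2 η hη (h3.trans h'))

theorem Hyp.gap (H : Hyp s t N) : ∀ Z ∈ s.Nd ∪ t.Nd ∪ {X | ∃ Q ∈ s.Nd, ∃ τ ∈ t.A, X = Q ∩ Iio τ},
    ∀ τ ∈ s.A ∪ t.A, ∀ ξ ∈ Z, τ ≤ ξ → (∀ η ∈ Z, τ ≤ η → ξ ≤ η) → ξ ∈ s.A ∪ t.A := by
  rintro Z ((hZ | hZ) | ⟨Q, hQ, ρ, hρ, rfl⟩) τ hτ ξ hξ h1 h2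
  · exact H.gap1 hZ hτ hξ h1 h2
  · rcases hτ with hτ | hτ
    · have h : ¬ N ⊆ Iio τ := fun h => absurd (h (H.sub hZ hξ)) (not_lt.2 h1)
      obtain ⟨ξ', hξ', h3, h4⟩ := H.F hτ h
      exact Or.inr (t.gap Z hZ ξ' hξ' ξ hξ (h4 ξ (H.sub hZ hξ) h1)
        fun η hη h' => h2 η hη (h3.trans h'))
    · exact Or.inr (t.gap Z hZ τ hτ ξ hξ h1 h2)
  · refine H.gap1 hQ hτ hξ.1 h1 fun η hη h' => ?_
    rcases lt_or_ge η ρ with h | h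
    · exact h2 η ⟨hη, h⟩ h'
    · exact (lt_of_lt_of_le hξ.2 h).le

/-- (i) -/
theorem Hyp.st (H : Hyp s t N) (hR : S_relRestr K) {Q R : Set K} (hQ : Q ∈ s.Nd) (hRt : R ∈ t.Nd)
    (hu : Un (s.A ∪ t.A) Q R) : Cm Q R := by
  have hRN : R ⊆ N := H.sub hRt
  have hcd : cd R ∈ N := H.ins.2 R hRt
  by_cases h : ∃ δ, δ ∈ s.A ∧ R ⊆ Iio δ
  · obtain ⟨δ, ⟨hδ, hRδ⟩, hmin⟩ := exists_min h
    have hQδ : Q ⊆ Iio δ := (hu δ (Or.inl hδ)).2 hRδ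
    have hN1 : N ∩ Iio δ ∈ s.Nd := s.cl N H.hN δ hδ
    have hmem : cd R ∈ N ∩ Iio δ := by
      have := hR R N (t.nd R hRt) (s.nd N H.hN) hcd δ (s.tr δ hδ)
      rwa [inter_eq_left.2 hRδ] at this
    have hun : Un s.A Q (N ∩ Iio δ) := by
      intro σ hσ
      rcases le_or_gt δ σ with h3 | h3
      · exact ⟨fun _ => inter_subset_right.trans (Iio_subset_Iio h3),
          fun _ => hQδ.trans (Iio_subset_Iio h3)⟩
      · have h4 : ¬ R ⊆ Iio σ := fun h' => absurd (hmin σ ⟨hσ, h'⟩) (not_le.2 h3)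
        exact ⟨fun h' => absurd ((hu σ (Or.inl hσ)).1 h') h4,
          fun h' => absurd ((subset_inter hRN hRδ).trans h') h4⟩
    rcases s.cmp Q hQ _ hN1 hun with h5 | h5 | h5
    · right; right
      rw [h5]
      exact hmem
    · exact t.cmp Q (H.hNd Q hQ h5.1) R hRt hu.right
    · right; right
      exact sub_of_mem (s.nd _ hN1) (s.nd _ hQ) h5 hmem
  · have hun : Un s.A Q N := by
      intro σ hσ
      exact ⟨fun h' => absurd ⟨σ, hσ, (hu σ (Or.inl hσ)).1 h'⟩ h,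
        fun h' => absurd ⟨σ, hσ, hRN.trans h'⟩ h⟩
    rcases s.cmp Q hQ N H.hN hun with h5 | h5 | h5
    · right; right
      rw [h5]
      exact hcd
    · exact t.cmp Q (H.hNd Q hQ h5) R hRt hu.right
    · right; right
      exact sub_of_mem (s.nd _ H.hN) (s.nd _ hQ) h5 hcd

/-- the nodes `X'` -/
structure XP (s : C0 K) (N : Set K) (ρ : K) (D Y : Set K) : Prop where
  hρ : ρ ∉ s.A
  ex : ∃ Q ∈ s.Nd, Q ⊆ D ∧ ρ ∈ Q ∧ Y = Q ∩ Iio ρ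
  sub : N ∩ Iio ρ ⊆ Y

/-- (ii) -/
theorem Hyp.classify (H : Hyp s t N) {Q : Set K} (hQ : Q ∈ s.Nd) {ρ : K} (hρ : ρ ∈ t.A)
    {D : Set K} (hD : Cap s ρ D) :
    Q ∩ Iio ρ ∈ s.Nd ∨ Q ∩ Iio ρ ∈ t.Nd ∨ XP s N ρ D (Q ∩ Iio ρ) := by
  by_cases hρs : ρ ∈ s.A
  · exact Or.inl (s.cl Q hQ ρ hρs)
  · have hρD : ρ ∈ D := hD.mem hρs
    have hρN : ρ ∈ N := H.ins.1 hρ
    have hQ' : Q ∩ D ∈ s.Nd := hD.nd Q hQ
    have hN' : N ∩ D ∈ s.Nd := hD.nd N H.hN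
    have hY : Q ∩ Iio ρ = (Q ∩ D) ∩ Iio ρ := by
      rw [inter_assoc, inter_eq_right.2 hD.Iio_sub]
    have hNY : N ∩ Iio ρ = (N ∩ D) ∩ Iio ρ := by
      rw [inter_assoc, inter_eq_right.2 hD.Iio_sub]
    by_cases h : Q ∩ D ⊆ Iio ρ
    · left
      rw [hY, inter_eq_left.2 h]
      exact hQ'
    · rw [not_subset] at h
      obtain ⟨x, hx, hx'⟩ := h
      have hun : Un s.A (Q ∩ D) (N ∩ D) :=
        hD.un inter_subset_right inter_subset_right hx (not_lt.1 hx') ⟨hρN, hρD⟩ le_rfl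
      have fin : N ∩ D ⊆ Q ∩ D → XP s N ρ D (Q ∩ Iio ρ) := by
        intro h3
        refine ⟨hρs, ⟨Q ∩ D, hQ', inter_subset_right, h3 ⟨hρN, hρD⟩, hY⟩, ?_⟩
        rw [hY, hNY]
        exact inter_subset_inter_left _ h3
      rcases s.cmp _ hQ' _ hN' hun with h3 | h3 | h3
      · exact Or.inr (Or.inr (fin h3.symm.subset))
      · right; left
        rw [hY]
        exact t.cl _ (H.hNd _ hQ' h3.1) ρ hρ
      · exact Or.inr (Or.inr (fin (sub_of_mem (s.nd _ hN') (s.nd _ hQ') h3)))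

theorem Hyp.xt (H : Hyp s t N) (hR : S_relRestr K) {Y R : Set K} {ρ : K} {D : Set K}
    (hρ : ρ ∈ t.A) (hY : XP s N ρ D Y) (hRt : R ∈ t.Nd) (hRρ : R ⊆ Iio ρ) : Cm Y R := by
  right; right
  apply hY.sub
  have := hR R N (t.nd R hRt) (s.nd N H.hN) (H.ins.2 R hRt) ρ (t.tr ρ hρ)
  rwa [inter_eq_left.2 hRρ] at this

theorem Hyp.xs (H : Hyp s t N) (hR : S_relRestr K) {Y R : Set K} {ρ : K} {D : Set K}
    (hD : Cap s ρ D) (hρ : ρ ∈ t.A) (hY : XP s N ρ D Y) (hRs : R ∈ s.Nd) (hRρ : R ⊆ Iio ρ)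
    (hu : Un (s.A ∪ t.A) Y R) : Cm Y R := by
  by_cases h : ∃ σ ∈ s.A, σ < ρ ∧ R ⊆ Iio σ
  · obtain ⟨σ, hσ, hσρ, hRσ⟩ := h
    have hYσ : Y ⊆ Iio σ := (hu σ (Or.inl hσ)).2 hRσ
    obtain ⟨Q, hQ, _, _, hYQ⟩ := hY.ex
    have hYs : Y ∈ s.Nd := by
      have : Y = Q ∩ Iio σ := by
        apply Subset.antisymm
        · intro x hx
          exact ⟨(hYQ.subset hx).1, hYσ hx⟩
        · intro x hx
          exact hYQ.symm.subset ⟨hx.1, lt_trans hx.2 hσρ⟩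
      rw [this]
      exact s.cl Q hQ σ hσ
    exact s.cmp Y hYs R hRs hu.left
  · have hρD : ρ ∈ D := hD.mem hY.hρ
    have hρN : ρ ∈ N := H.ins.1 hρ
    have hN' : N ∩ D ∈ s.Nd := hD.nd N H.hN
    have hun : Un s.A R (N ∩ D) := by
      intro σ hσ
      rcases le_or_gt ρ σ with h3 | h3
      · exact ⟨fun _ => inter_subset_right.trans (hD.le σ hσ h3),
          fun _ => hRρ.trans (Iio_subset_Iio h3)⟩
      · exact ⟨fun h' => absurd ⟨σ, hσ, h3, h'⟩ h,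
          fun h' => absurd h' (not_sub (x := ρ) ⟨hρN, hρD⟩ h3 le_rfl)⟩
    rcases s.cmp R hRs _ hN' hun with h4 | h4 | h4
    · exact absurd (hRρ (h4.symm.subset ⟨hρN, hρD⟩)) (lt_irrefl ρ)
    · right; right
      apply hY.sub
      have := hR R N (s.nd R hRs) (s.nd N H.hN) h4.1 ρ (t.tr ρ hρ)
      rwa [inter_eq_left.2 hRρ] at this
    · exact absurd (hRρ (sub_of_mem (s.nd _ hN') (s.nd _ hRs) h4 ⟨hρN, hρD⟩)) (lt_irrefl ρ)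

/-- two nodes which are restrictions to the same `ρ` -/
theorem Hyp.xx (H : Hyp s t N) (hR : S_relRestr K) {Q₁ Q₂ : Set K} {ρ : K}
    (hρ : ρ ∈ t.A) (hQ₁ : Q₁ ∈ s.Nd) (hQ₂ : Q₂ ∈ s.Nd)
    (hu : Un (s.A ∪ t.A) (Q₁ ∩ Iio ρ) (Q₂ ∩ Iio ρ)) : Cm (Q₁ ∩ Iio ρ) (Q₂ ∩ Iio ρ) := by
  obtain ⟨D, hD⟩ := exists_cap s ρ
  rcases H.classify hQ₁ hρ hD with h1 | h1 | h1
  · rcases H.classify hQ₂ hρ hD with h2 | h2 | h2
    · exact s.cmp _ h1 _ h2 hu.left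
    · exact H.st hR h1 h2 hu
    · exact (H.xs hR hD hρ h2 h1 inter_subset_right hu.symm).symm
  · rcases H.classify hQ₂ hρ hD with h2 | h2 | h2
    · exact (H.st hR h2 h1 hu.symm).symm
    · exact t.cmp _ h1 _ h2 hu.right
    · exact (H.xt hR hρ h2 h1 inter_subset_right).symm
  · rcases H.classify hQ₂ hρ hD with h2 | h2 | h2
    · exact H.xs hR hD hρ h1 h2 inter_subset_right hu
    · exact H.xt hR hρ h1 h2 inter_subset_right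
    · obtain ⟨R₁, hR₁, hR₁D, hρ₁, e1⟩ := h1.ex
      obtain ⟨R₂, hR₂, hR₂D, hρ₂, e2⟩ := h2.ex
      rw [e1, e2]
      rcases s.cmp _ hR₁ _ hR₂ (hD.un hR₁D hR₂D hρ₁ le_rfl hρ₂ le_rfl) with h3 | h3 | h3
      · left
        rw [h3]
      · exact Or.inr (Or.inl (hR _ _ (s.nd _ hR₁) (s.nd _ hR₂) h3 ρ (t.tr ρ hρ)))
      · exact Or.inr (Or.inr (hR _ _ (s.nd _ hR₂) (s.nd _ hR₁) h3 ρ (t.tr ρ hρ)))

theorem Hyp.x2 (H : Hyp s t N) (hR : S_relRestr K) {Q₁ Q₂ : Set K} {ρ₁ ρ₂ : K}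
    (hρ₁ : ρ₁ ∈ t.A) (hQ₁ : Q₁ ∈ s.Nd) (hQ₂ : Q₂ ∈ s.Nd) (hle : ρ₁ ≤ ρ₂)
    (hu : Un (s.A ∪ t.A) (Q₁ ∩ Iio ρ₁) (Q₂ ∩ Iio ρ₂)) : Cm (Q₁ ∩ Iio ρ₁) (Q₂ ∩ Iio ρ₂) := by
  have h1 : Q₂ ∩ Iio ρ₂ ⊆ Iio ρ₁ := (hu ρ₁ (Or.inr hρ₁)).1 inter_subset_right
  have h2 : Q₂ ∩ Iio ρ₂ = Q₂ ∩ Iio ρ₁ :=
    Subset.antisymm (fun x hx => ⟨hx.1, h1 hx⟩) (inter_subset_inter_right _ (Iio_subset_Iio hle))
  rw [h2] at hu ⊢
  exact H.xx hR hρ₁ hQ₁ hQ₂ hu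

theorem Hyp.cmp (H : Hyp s t N) (hR : S_relRestr K) :
    ∀ Y ∈ s.Nd ∪ t.Nd ∪ {X | ∃ Q ∈ s.Nd, ∃ τ ∈ t.A, X = Q ∩ Iio τ},
    ∀ Z ∈ s.Nd ∪ t.Nd ∪ {X | ∃ Q ∈ s.Nd, ∃ τ ∈ t.A, X = Q ∩ Iio τ},
    Un (s.A ∪ t.A) Y Z → Cm Y Z := by
  have hXs : ∀ (Q : Set K) (ρ : K) (R : Set K), Q ∈ s.Nd → ρ ∈ t.A → R ∈ s.Nd →
      Un (s.A ∪ t.A) (Q ∩ Iio ρ) R → Cm (Q ∩ Iio ρ) R := by
    intro Q ρ R hQ hρ hRs hu
    have hRρ : R ⊆ Iio ρ := (hu ρ (Or.inr hρ)).1 inter_subset_right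
    obtain ⟨D, hD⟩ := exists_cap s ρ
    rcases H.classify hQ hρ hD with h1 | h1 | h1
    · exact s.cmp _ h1 _ hRs hu.left
    · exact (H.st hR hRs h1 hu.symm).symm
    · exact H.xs hR hD hρ h1 hRs hRρ hu
  have hXt : ∀ (Q : Set K) (ρ : K) (R : Set K), Q ∈ s.Nd → ρ ∈ t.A → R ∈ t.Nd →
      Un (s.A ∪ t.A) (Q ∩ Iio ρ) R → Cm (Q ∩ Iio ρ) R := by
    intro Q ρ R hQ hρ hRt hu
    have hRρ : R ⊆ Iio ρ := (hu ρ (Or.inr hρ)).1 inter_subset_right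
    obtain ⟨D, hD⟩ := exists_cap s ρ
    rcases H.classify hQ hρ hD with h1 | h1 | h1
    · exact H.st hR h1 hRt hu
    · exact t.cmp _ h1 _ hRt hu.right
    · exact H.xt hR hρ h1 hRt hRρ
  rintro Y ((hY | hY) | ⟨Q, hQ, ρ, hρ, rfl⟩) Z ((hZ | hZ) | ⟨Q', hQ', ρ', hρ', rfl⟩) hu
  · exact s.cmp _ hY _ hZ hu.left
  · exact H.st hR hY hZ hu
  · exact (hXs Q' ρ' Y hQ' hρ' hY hu.symm).symm
  · exact (H.st hR hZ hY hu.symm).symm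
  · exact t.cmp _ hY _ hZ hu.right
  · exact (hXt Q' ρ' Y hQ' hρ' hY hu.symm).symm
  · exact hXs Q ρ Z hQ hρ hZ hu
  · exact hXt Q ρ Z hQ hρ hZ hu
  · rcases le_total ρ ρ' with h | h
    · exact H.x2 hR hρ hQ hQ' h hu
    · exact (H.x2 hR hρ' hQ' hQ h hu.symm).symm

end aux

variable (K : Type) [LinearOrder K] [WellFoundedLT K] [Cod K]

theorem amalgS (h1 : S_nodeRestr K) (h2 : S_relRestr K) (h3 : S_irrefl K) : S_amalgS K := by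
  clear h3
  intro s t N hN hins hA hNd
  have H : Hyp s t N := ⟨hN, hins, hA, hNd⟩
  refine ⟨{ A := s.A ∪ t.A
            Nd := s.Nd ∪ t.Nd ∪ {X | ∃ Q ∈ s.Nd, ∃ τ ∈ t.A, X = Q ∩ Iio τ}
            finA := s.finA.union t.finA
            finN := ?_
            tr := ?_
            nd := ?_
            cl := H.cl
            gap := H.gap
            cmp := H.cmp h2 }, rfl, rfl⟩
  · refine (s.finN.union t.finN).union ?_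
    refine (Set.Finite.image2 (fun Q τ => Q ∩ Iio τ) s.finN t.finA).subset ?_
    rintro X ⟨Q, hQ, τ, hτ, rfl⟩
    exact ⟨Q, hQ, τ, hτ, rfl⟩
  · rintro τ (hτ | hτ)
    · exact s.tr τ hτ
    · exact t.tr τ hτ
  · rintro Q ((hQ | hQ) | ⟨R, hR, τ, hτ, rfl⟩)
    · exact s.nd Q hQ
    · exact t.nd Q hQ
    · exact h1 R (s.nd R hR) τ (t.tr τ hτ)

theorem addNode (h1 : S_amalgS K) (h3 : S_irrefl K) : S_addNode K := by
  intro t N hN hins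
  obtain ⟨r, hA, hNd⟩ := h1
    { A := ∅
      Nd := {N}
      finA := finite_empty
      finN := finite_singleton N
      tr := fun τ h => absurd h (notMem_empty τ)
      nd := fun Q h => by rw [mem_singleton_iff.1 h]; exact hN
      cl := fun Q _ τ h => absurd h (notMem_empty τ)
      gap := fun Q _ τ h => absurd h (notMem_empty τ)
      cmp := fun Q hQ R hR _ => Or.inl ((mem_singleton_iff.1 hQ).trans (mem_singleton_iff.1 hR).symm) }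
    t N (mem_singleton N) hins (fun x hx => absurd hx.1 (notMem_empty x))
    (fun Q hQ h => by
      rw [mem_singleton_iff.1 hQ] at h
      exact absurd h (h3 N hN))
  refine ⟨r, ⟨?_, ?_⟩, ?_⟩
  · rw [hA]
    exact subset_union_right
  · rw [hNd]
    exact fun Q hQ => Or.inl (Or.inr hQ)
  · rw [hNd]
    exact Or.inl (Or.inl (mem_singleton N))

end Pool.Agent.H915.P0b
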