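import Pool.Agent.H915.Stmts1

/-!
# Side conditions: adding a transitive node
-/

set_option autoImplicit false

namespace Pool.Agent.H915.P0c

open Cardinal Set Pool.Agent.Helper669.Forcing

section aux

variable {K : Type} [LinearOrder K] [WellFoundedLT K] [Cod K]

/-- the part of `Q` below all elements of `A_p` above `α` -/
def up (p : C0 K) (α : K) (Q : Set K) : Set K := {x | x ∈ Q ∧ ∀ σ ∈ p.A, α ≤ σ → x < σ}

theorem up_mem (p : C0 K) (α : K) (Q : Set K) (hQ : Q ∈ p.Nd) : up p α Q ∈ p.Nd := by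
  by_cases h : ∃ σ, σ ∈ p.A ∧ α ≤ σ
  · obtain ⟨δ, ⟨hδA, hδα⟩, hmin⟩ :=
      WellFounded.has_min (wellFounded_lt (α := K)) {σ | σ ∈ p.A ∧ α ≤ σ} h
    have : up p α Q = Q ∩ Iio δ := by
      ext x
      constructor
      · rintro ⟨h1, h2⟩
        exact ⟨h1, h2 δ hδA hδα⟩
      · rintro ⟨h1, h2⟩
        exact ⟨h1, fun σ hσ hασ => lt_of_lt_of_le h2 (not_lt.1 (hmin σ ⟨hσ, hασ⟩))⟩
    rw [this]
    exact p.cl Q hQ δ hδA
  · have : up p α Q = Q := by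
      ext x
      constructor
      · rintro ⟨h1, _⟩
        exact h1
      · intro h1
        exact ⟨h1, fun σ hσ hασ => (h ⟨σ, hσ, hασ⟩).elim⟩
    rw [this]
    exact hQ

/-- `ξ` is the least element of `Q` above `τ` -/
def IsM (Q : Set K) (τ ξ : K) : Prop := ξ ∈ Q ∧ τ ≤ ξ ∧ ∀ η ∈ Q, τ ≤ η → ξ ≤ η

theorem IsM_exists (Q : Set K) (τ η : K) (h : η ∈ Q) (h' : τ ≤ η) : ∃ ξ, IsM Q τ ξ := by
  obtain ⟨ξ, ⟨h1, h2⟩, hmin⟩ :=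
    WellFounded.has_min (wellFounded_lt (α := K)) {ξ | ξ ∈ Q ∧ τ ≤ ξ} ⟨η, h, h'⟩
  exact ⟨ξ, h1, h2, fun η hη hτ => not_lt.1 (hmin η ⟨hη, hτ⟩)⟩

/-- the new transitive nodes -/
def BB (p : C0 K) (α : K) : Set K := {ξ | ξ = α ∨ ∃ Q ∈ p.Nd, IsM Q α ξ}

theorem BB_finite (p : C0 K) (α : K) : (BB p α).Finite := by
  have h1 : (⋃ Q ∈ p.Nd, {ξ | IsM Q α ξ}).Finite := by
    apply Set.Finite.biUnion p.finN
    intro Q _
    apply Set.Subsingleton.finite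
    intro ξ hξ ξ' hξ'
    exact le_antisymm (hξ.2.2 ξ' hξ'.1 hξ'.2.1) (hξ'.2.2 ξ hξ.1 hξ.2.1)
  refine ((finite_singleton α).union h1).subset ?_
  rintro ξ (h | ⟨Q, hQ, h⟩)
  · exact Or.inl h
  · exact Or.inr (mem_biUnion hQ h)

theorem BB_ge (p : C0 K) (α : K) (ξ : K) (h : ξ ∈ BB p α) : α ≤ ξ := by
  rcases h with rfl | ⟨Q, _, h⟩
  · exact le_refl _
  · exact h.2.1

/-- if `A_p` meets `[α, ξ]` then `ξ ∈ A_p` -/
theorem BB_mem (p : C0 K) (α : K) (ξ : K) (h : ξ ∈ BB p α) (σ : K) (hσ : σ ∈ p.A) (h1 : α ≤ σ)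
    (h2 : σ ≤ ξ) : ξ ∈ p.A := by
  rcases h with rfl | ⟨Q, hQ, h⟩
  · rw [le_antisymm h1 h2]
    exact hσ
  · exact p.gap Q hQ σ hσ ξ h.1 h2 fun η hη hη' => h.2.2 η hη (h1.trans hη')

/-- gap for old small nodes and new transitive nodes -/
theorem gap_aux (p : C0 K) (α : K) (Q : Set K) (hQ : Q ∈ p.Nd) (ξ : K) (hξ : ξ ∈ BB p α) (η : K)
    (hη : IsM Q ξ η) : η ∈ p.A ∪ BB p α := by
  rcases hξ with rfl | ⟨R, hR, hRξ⟩
  · exact Or.inr (Or.inr ⟨Q, hQ, hη⟩)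
  have hξB : ξ ∈ BB p α := Or.inr ⟨R, hR, hRξ⟩
  by_cases hA : ∃ σ ∈ p.A, α ≤ σ ∧ σ ≤ ξ
  · obtain ⟨σ, hσ, h1, h2⟩ := hA
    exact Or.inl (p.gap Q hQ ξ (BB_mem p α ξ hξB σ hσ h1 h2) η hη.1 hη.2.1 hη.2.2)
  push Not at hA
  by_cases hδ : ∃ σ ∈ p.A, α ≤ σ ∧ σ ≤ η
  · obtain ⟨σ, hσ, h1, h2⟩ := hδ
    refine Or.inl (p.gap Q hQ σ hσ η hη.1 h2 fun x hx hx' => ?_)
    exact hη.2.2 x hx ((hA σ hσ h1).le.trans hx')
  push Not at hδ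
  obtain ⟨ζ, hζ⟩ := IsM_exists Q α η hη.1 (hRξ.2.1.trans hη.2.1)
  by_cases hζξ : ξ ≤ ζ
  · -- then `ζ = η`
    have h1 : η ≤ ζ := hη.2.2 ζ hζ.1 hζξ
    have h2 : ζ ≤ η := hζ.2.2 η hη.1 (hRξ.2.1.trans hη.2.1)
    have h3 : ζ = η := le_antisymm h2 h1
    subst h3
    exact Or.inr (Or.inr ⟨Q, hQ, hζ⟩)
  push Not at hζξ
  -- `Q' = up Q`, `R' = up R`
  have hζQ : ζ ∈ up p α Q := ⟨hζ.1, fun σ hσ h => hζξ.trans (hA σ hσ h)⟩
  have hηQ : η ∈ up p α Q := ⟨hη.1, fun σ hσ h => hδ σ hσ h⟩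
  have hξR : ξ ∈ up p α R := ⟨hRξ.1, fun σ hσ h => hA σ hσ h⟩
  have hcmp := p.cmp (up p α Q) (up_mem p α Q hQ) (up p α R) (up_mem p α R hR) (by
    intro σ hσ
    rcases lt_or_ge σ α with h | h
    · constructor
      · intro h'
        exact absurd (h' hζQ) (not_lt.2 (h.le.trans hζ.2.1))
      · intro h'
        exact absurd (h' hξR) (not_lt.2 (h.le.trans hRξ.2.1))
    · exact ⟨fun _ x hx => hx.2 σ hσ h, fun _ x hx => hx.2 σ hσ h⟩)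
  have hNQ : Node (up p α Q) := p.nd _ (up_mem p α Q hQ)
  have hNR : Node (up p α R) := p.nd _ (up_mem p α R hR)
  have hno : ¬ (up p α Q ⊆ up p α R) := fun hs =>
    absurd (hRξ.2.2 ζ (hs hζQ).1 hζ.2.1) (not_le.2 hζξ)
  rcases hcmp with h | h | h
  · exact absurd h.subset hno
  · exact absurd (hNR.sub _ hNQ.ctbl h) hno
  · have hξQ : ξ ∈ Q := (hNQ.sub _ hNR.ctbl h hξR).1
    have : η = ξ := le_antisymm (hη.2.2 ξ hξQ (le_refl _)) hη.2.1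
    rw [this]
    exact Or.inr hξB

/-- comparison of restrictions of old nodes to a new transitive node -/
theorem cmp_aux (h2 : S_relRestr K) (p : C0 K) (α : K) (Q : Set K) (hQ : Q ∈ p.Nd) (R : Set K)
    (hR : R ∈ p.Nd) (ξ : K) (hξ : ξ ∈ BB p α) (hξT : Tr ξ)
    (hs : ∀ τ ∈ p.A, Q ∩ Iio ξ ⊆ Iio τ ↔ R ∩ Iio ξ ⊆ Iio τ) :
    Q ∩ Iio ξ = R ∩ Iio ξ ∨ cd (Q ∩ Iio ξ) ∈ R ∩ Iio ξ ∨ cd (R ∩ Iio ξ) ∈ Q ∩ Iio ξ := by
  by_cases hξA : ξ ∈ p.A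
  · exact p.cmp _ (p.cl Q hQ ξ hξA) _ (p.cl R hR ξ hξA) hs
  have hA : ∀ σ ∈ p.A, α ≤ σ → ξ < σ := by
    intro σ hσ h
    by_contra hc
    exact hξA (BB_mem p α ξ hξ σ hσ h (not_lt.1 hc))
  have hαξ := BB_ge p α ξ hξ
  by_cases hσ : ∃ σ ∈ p.A, σ < α ∧ Q ∩ Iio ξ ⊆ Iio σ
  · obtain ⟨σ, hσA, hσα, hσQ⟩ := hσ
    have hσR := (hs σ hσA).1 hσQ
    have e : ∀ Z : Set K, Z ∩ Iio ξ ⊆ Iio σ → Z ∩ Iio ξ = Z ∩ Iio σ := by
      intro Z hZ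
      apply Subset.antisymm
      · exact fun x hx => ⟨hx.1, hZ hx⟩
      · exact fun x hx => ⟨hx.1, lt_of_lt_of_le hx.2 (hσα.le.trans hαξ)⟩
    rw [e Q hσQ, e R hσR] at hs ⊢
    exact p.cmp _ (p.cl Q hQ σ hσA) _ (p.cl R hR σ hσA) hs
  push Not at hσ
  have hup : ∀ Z : Set K, up p α Z ∩ Iio ξ = Z ∩ Iio ξ := by
    intro Z
    apply Subset.antisymm
    · exact fun x hx => ⟨hx.1.1, hx.2⟩
    · exact fun x hx => ⟨⟨hx.1, fun σ hσ h => lt_trans hx.2 (hA σ hσ h)⟩, hx.2⟩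
  have hcmp := p.cmp (up p α Q) (up_mem p α Q hQ) (up p α R) (up_mem p α R hR) (by
    intro σ hσA
    rcases lt_or_ge σ α with h | h
    · constructor
      · intro h'
        refine absurd ?_ (hσ σ hσA h)
        rw [← hup]
        exact inter_subset_left.trans h'
      · intro h'
        refine absurd ?_ (hσ σ hσA h)
        rw [hs σ hσA, ← hup]
        exact inter_subset_left.trans h'
    · exact ⟨fun _ x hx => hx.2 σ hσA h, fun _ x hx => hx.2 σ hσA h⟩)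
  have hNQ : Node (up p α Q) := p.nd _ (up_mem p α Q hQ)
  have hNR : Node (up p α R) := p.nd _ (up_mem p α R hR)
  rw [← hup Q, ← hup R]
  rcases hcmp with h | h | h
  · exact Or.inl (by rw [h])
  · exact Or.inr (Or.inl (h2 _ _ hNQ hNR h ξ hξT))
  · exact Or.inr (Or.inr (h2 _ _ hNR hNQ h ξ hξT))

end aux

variable (K : Type) [LinearOrder K] [WellFoundedLT K] [Cod K]

theorem addTr (h1 : S_nodeRestr K) (h2 : S_relRestr K) : S_addTr K := by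
  intro p α hα
  have hBtr : ∀ ξ ∈ BB p α, Tr ξ := by
    rintro ξ (rfl | ⟨Q, hQ, h⟩)
    · exact hα
    · exact (p.nd Q hQ).gap α hα ξ h.1 h.2.1 h.2.2
  -- every node of the new condition has one of two forms
  have hform : ∀ X : Set K, X ∈ p.Nd ∪ {X | ∃ Q ∈ p.Nd, ∃ ξ ∈ BB p α, X = Q ∩ Iio ξ} →
      X ∈ p.Nd ∨ ∃ Q ∈ p.Nd, ∃ ξ ∈ BB p α, X = Q ∩ Iio ξ := fun X h => h
  have hgap : ∀ Q ∈ p.Nd, ∀ τ ∈ p.A ∪ BB p α, ∀ ζ, IsM Q τ ζ → ζ ∈ p.A ∪ BB p α := by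
    rintro Q hQ τ (hτ | hτ) ζ hζ
    · exact Or.inl (p.gap Q hQ τ hτ ζ hζ.1 hζ.2.1 hζ.2.2)
    · exact gap_aux p α Q hQ τ hτ ζ hζ
  have hcmp1 : ∀ X Y : Set K, (∃ Q ∈ p.Nd, ∃ ξ ∈ BB p α, X = Q ∩ Iio ξ) →
      (Y ∈ p.Nd ∨ ∃ Q ∈ p.Nd, ∃ ξ ∈ BB p α, Y = Q ∩ Iio ξ) →
      (∀ τ ∈ p.A ∪ BB p α, X ⊆ Iio τ ↔ Y ⊆ Iio τ) → X = Y ∨ cd X ∈ Y ∨ cd Y ∈ X := by
    rintro X Y ⟨Q, hQ, ξ, hξ, rfl⟩ hY hs
    have hYξ : Y ⊆ Iio ξ := (hs ξ (Or.inr hξ)).1 inter_subset_right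
    rcases hY with hY | ⟨R, hR, ξ', hξ', rfl⟩
    · have e : Y = Y ∩ Iio ξ := (inter_eq_left.2 hYξ).symm
      rw [e] at hs ⊢
      exact cmp_aux h2 p α Q hQ Y hY ξ hξ (hBtr ξ hξ) fun τ hτ => hs τ (Or.inl hτ)
    · have hXξ' : Q ∩ Iio ξ ⊆ Iio ξ' := (hs ξ' (Or.inr hξ')).2 inter_subset_right
      rcases le_total ξ ξ' with h | h
      · have e : R ∩ Iio ξ' = R ∩ Iio ξ := by
          apply Subset.antisymm
          · exact fun x hx => ⟨hx.1, hYξ hx⟩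
          · exact fun x hx => ⟨hx.1, lt_of_lt_of_le hx.2 h⟩
        rw [e] at hs ⊢
        exact cmp_aux h2 p α Q hQ R hR ξ hξ (hBtr ξ hξ) fun τ hτ => hs τ (Or.inl hτ)
      · have e : Q ∩ Iio ξ = Q ∩ Iio ξ' := by
          apply Subset.antisymm
          · exact fun x hx => ⟨hx.1, hXξ' hx⟩
          · exact fun x hx => ⟨hx.1, lt_of_lt_of_le hx.2 h⟩
        rw [e] at hs ⊢
        exact cmp_aux h2 p α Q hQ R hR ξ' hξ' (hBtr ξ' hξ') fun τ hτ => hs τ (Or.inl hτ)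
  refine ⟨{ A := p.A ∪ BB p α
            Nd := p.Nd ∪ {X | ∃ Q ∈ p.Nd, ∃ ξ ∈ BB p α, X = Q ∩ Iio ξ}
            finA := p.finA.union (BB_finite p α)
            finN := ?_
            tr := ?_
            nd := ?_
            cl := ?_
            gap := ?_
            cmp := ?_ }, ⟨subset_union_left, subset_union_left⟩, Or.inr (Or.inl rfl)⟩
  · refine p.finN.union ((Set.Finite.image2 (fun Q ξ => Q ∩ Iio ξ) p.finN
      (BB_finite p α)).subset ?_)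
    rintro X ⟨Q, hQ, ξ, hξ, rfl⟩
    exact ⟨Q, hQ, ξ, hξ, rfl⟩
  · rintro τ (hτ | hτ)
    · exact p.tr τ hτ
    · exact hBtr τ hτ
  · rintro X (hX | ⟨Q, hQ, ξ, hξ, rfl⟩)
    · exact p.nd X hX
    · exact h1 Q (p.nd Q hQ) ξ (hBtr ξ hξ)
  · rintro X (hX | ⟨Q, hQ, ξ, hξ, rfl⟩) τ (hτ | hτ)
    · exact Or.inl (p.cl X hX τ hτ)
    · exact Or.inr ⟨X, hX, τ, hτ, rfl⟩
    · refine Or.inr ⟨Q ∩ Iio τ, p.cl Q hQ τ hτ, ξ, hξ, ?_⟩
      rw [inter_assoc, inter_assoc, inter_comm (Iio ξ)]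
    · refine Or.inr ⟨Q, hQ, min ξ τ, ?_, ?_⟩
      · rcases min_choice ξ τ with h | h <;> rw [h] <;> assumption
      · rw [inter_assoc, Iio_inter_Iio]
  · rintro X hX τ hτ ζ hζ h3 h4
    rcases hX with hX | ⟨Q, hQ, ξ, hξ, rfl⟩
    · exact hgap X hX τ hτ ζ ⟨hζ, h3, h4⟩
    · refine hgap Q hQ τ hτ ζ ⟨hζ.1, h3, fun η hη hη' => ?_⟩
      rcases lt_or_ge η ξ with h | h
      · exact h4 η ⟨hη, h⟩ hη'
      · exact (lt_of_lt_of_le hζ.2 h).le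
  · intro X hX Y hY hs
    rcases hform X hX with hX' | hX'
    · rcases hform Y hY with hY' | hY'
      · exact p.cmp X hX' Y hY' fun τ hτ => hs τ (Or.inl hτ)
      · rcases hcmp1 Y X hY' (hform X hX) (fun τ hτ => (hs τ hτ).symm) with h | h | h
        · exact Or.inl h.symm
        · exact Or.inr (Or.inr h)
        · exact Or.inr (Or.inl h)
    · exact hcmp1 X Y hX' (hform Y hY) hs

end Pool.Agent.H915.P0c
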