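import Pool.Agent.H915.Stmts2

/-!
# Passing to larger sets, and capturing, for a single model
-/

set_option autoImplicit false

namespace Pool.Agent.H915.Sg

open Cardinal Set Pool.Agent.Helper669.Forcing

variable (K W : Type) [LinearOrder K] [WellFoundedLT K] [Cod K] [LinearOrder W] [WellFoundedLT W]


section aux

variable {P : Type} [Preorder P] {L : Type}

/-- `u` forces that the sets named by `x` and `y` disagree at `l` -/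
def Dis (x y : L → Set P) (u : P) (l : L) : Prop :=
  (u ∈ meets (x l) ∧ ∀ r ≤ u, r ∉ meets (y l)) ∨ (u ∈ meets (y l) ∧ ∀ r ≤ u, r ∉ meets (x l))

theorem exists_notMem_meets {N : Set P} {u : P} (h : u ∉ meets N) :
    ∃ u' ≤ u, ∀ r ≤ u', r ∉ meets N := by
  by_contra hc
  push Not at hc
  apply h
  intro q hq
  obtain ⟨r, hr, hm⟩ := hc q hq
  obtain ⟨r', hr', s, hs, hrs⟩ := hm r le_rfl
  exact ⟨r', hr'.trans hr, s, hs, hrs⟩

theorem exists_dis {x y : L → Set P} {u : P} {a : Set L} (h : ¬ EqOn u a x y) :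
    ∃ l ∈ a, ∃ u' ≤ u, Dis x y u' l := by
  unfold EqOn at h
  push Not at h
  obtain ⟨l, hl, q, hq, hd⟩ := h
  refine ⟨l, hl, ?_⟩
  rcases hd with ⟨h1, h2⟩ | ⟨h1, h2⟩
  · obtain ⟨u', hu', hr⟩ := exists_notMem_meets h2
    exact ⟨u', hu'.trans hq, Or.inl ⟨down_meets _ _ h1 _ hu', hr⟩⟩
  · obtain ⟨u', hu', hr⟩ := exists_notMem_meets h1
    exact ⟨u', hu'.trans hq, Or.inr ⟨down_meets _ _ h2 _ hu', hr⟩⟩

theorem not_dis {x y : L → Set P} {e q v : P} {a : Set L} {l : L} (hd : Dis x y e l)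
    (hE : EqOn q a x y) (hl : l ∈ a) (hq : v ≤ q) (he : v ≤ e) : False := by
  have h := hE l hl v hq
  rcases hd with ⟨h1, h2⟩ | ⟨h1, h2⟩
  · exact h2 v he (h.1 (down_meets _ _ h1 _ he))
  · exact h2 v he (h.2 (down_meets _ _ h1 _ he))

theorem eqOn_down {x y : L → Set P} {u v : P} {a : Set L} (hE : EqOn u a x y) (h : v ≤ u) :
    EqOn v a x y := fun l hl q hq => hE l hl q (hq.trans h)

end aux

variable {K W} in
theorem trc_le {L : Type} {t : Trace K W L} (ht : t.Ok) {m' w w2 m2 : PP K W} {s2 : C0 K}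
    (hIn : t.In m') (hw : w ≤ m') (hwt : w.1.top = m'.1.top) (hs : s2 ≤ w.1.base)
    (hb : w2.1.base = s2) (htop : w2.1.top = w.1.top) (h2 : m2.1 = trc t w2.1) :
    m2 ≤ m' := by
  classical
  change m2.1 ≤ m'.1
  rw [h2]
  have hs' : s2 ≤ m'.1.base := hs.trans hw.1
  refine ⟨⟨?_, ?_⟩, ?_⟩
  · intro τ hτ
    change τ ∈ w2.1.base.A ∧ τ < t.α
    rw [hb]
    exact ⟨hs'.1 hτ, (ht.ini τ).1 (hIn.1 τ hτ)⟩
  · intro Q hQ
    change Q ∈ w2.1.base.Nd ∧ Q ⊆ Iio t.α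
    rw [hb]
    exact ⟨hs'.2 hQ, (ht.tr.2 Q (m'.1.base.nd Q hQ).ctbl).2 ((ht.ini _).1 (hIn.2.1 Q hQ))⟩
  · intro x hx
    change x ∈ w2.1.top.filter fun a => Sum.inr a.1 ∈ t.M
    rw [Finset.mem_filter, htop, hwt]
    exact ⟨hx, (hIn.2.2 x hx).1⟩

variable {K W} in
theorem comp_trc {L : Type} {t : Trace K W L} {w2 m2 m3 : PP K W} {s2 : C0 K}
    (hα : t.α ∈ s2.A) (hb : w2.1.base = s2) (h2 : m2.1 = trc t w2.1) (h3 : m3 ≤ m2) :
    Comp t m3 s2 := by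
  refine ⟨hα, ?_⟩
  have h : m3.1.base ≤ m2.1.base := h3.1
  rw [h2] at h
  change m3.1.base ≤ w2.1.base.below t.α at h
  rwa [hb] at h

theorem st (h1 : S_dd K W) (h2 : S_ext K W) (h3 : S_g1 K W) (h4 : S_g4 K W) : S_St K W := by
  classical
  intro L t ht p d s m D B hIn hC H m' hm' hIn' s' hs' hC'
  by_contra hno
  obtain ⟨w, hwm, hws, hwt, -, -⟩ := h4 L t ht m' s' hIn' hC'
  let E : Set (PP K W) := {u | (∃ l, l ∈ D ∧ Dis d B u l) ∨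
    ∀ u' ≤ u, ¬ (u' ≤ p ∧ u' ≤ m' ∧ u'.1.base ≤ s')}
  have hE : ∀ n : ℕ, ∀ u, ∃ e ∈ (fun _ : ℕ => E) n, e ≤ u := by
    intro _ u
    by_cases h : ∃ u' ≤ u, u' ≤ p ∧ u' ≤ m' ∧ u'.1.base ≤ s'
    · obtain ⟨u', hu', hup, hum, hus⟩ := h
      have hn : ¬ EqOn u' D d B := fun hEq => hno ⟨u', hup, hum, hus, hEq⟩
      obtain ⟨l, hl, u2, hu2, hd⟩ := exists_dis hn
      exact ⟨u2, Or.inl ⟨l, hl, hd⟩, hu2.trans hu'⟩
    · exact ⟨u, Or.inr fun u' hu' hc => h ⟨u', hu', hc⟩, le_rfl⟩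
  obtain ⟨s2, hs2, C, hCc, hCd⟩ := h1 (fun _ => E) hE w.1.base
  obtain ⟨w2, hw2b, hw2t⟩ := h2 w s2 hs2
  have hα : t.α ∈ s2.A := hs2.1 (hws.1 hC'.1)
  obtain ⟨m2, hm2, hIn2⟩ := h3 L t ht w2 (by rw [hw2b]; exact hα)
  have hm2' : m2 ≤ m' := trc_le ht hIn' hwm hwt hs2 hw2b hw2t hm2
  let a : Set L := ⋃ e ∈ C 0, {l | ∃ h : (∃ l, l ∈ D ∧ Dis d B e l), l = h.choose}
  have hac : a.Countable := by
    refine (hCc 0).1.biUnion fun e _ => Set.Subsingleton.countable ?_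
    rintro x ⟨hx, rfl⟩ y ⟨hy, rfl⟩
    rfl
  have haD : a ⊆ D := by
    intro l hl
    simp only [a, Set.mem_iUnion] at hl
    obtain ⟨e, he, hh, rfl⟩ := hl
    exact hh.choose_spec.1
  obtain ⟨m3, hm3, hIn3, hPsi⟩ := H a hac haD m2 (hm2'.trans hm') hIn2
  obtain ⟨q, hqp, hqm, hqs, hqE⟩ := hPsi m3 le_rfl hIn3 s2 ((hs2.trans hws).trans hs')
    (comp_trc hα hw2b hm2 hm3)
  obtain ⟨e, he, v, hvq, hve⟩ := hCd q hqs 0
  rcases (hCc 0).2 he with hk | hk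
  · have hla : hk.choose ∈ a := by
      simp only [a, Set.mem_iUnion]
      exact ⟨e, he, hk, rfl⟩
    exact not_dis hk.choose_spec.2 hqE hla hvq hve
  · exact hk v hve ⟨hvq.trans hqp, ((hvq.trans hqm).trans hm3).trans hm2',
      ((show v.1.base ≤ q.1.base from hvq.1).trans hqs).trans (hs2.trans hws)⟩

theorem gc (h1 : S_dd K W) (h2 : S_ext K W) (h3 : S_g1 K W) (h4 : S_g4 K W) : S_gc K W := by
  classical
  intro L t ht p d s m Z A a y hA hIn hC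
  obtain ⟨w, hwm, hws, hwt, -, -⟩ := h4 L t ht m s hIn hC
  let E : Set (PP K W) := {u | (∃ z, u ∈ A z ∧ EqOn u (a z) d (y z)) ∨
    ∀ u' ≤ u, ¬ ∃ z, u' ∈ A z ∧ EqOn u' (a z) d (y z)}
  have hE : ∀ n : ℕ, ∀ u, ∃ e ∈ (fun _ : ℕ => E) n, e ≤ u := by
    intro _ u
    by_cases h : ∃ u' ≤ u, ∃ z, u' ∈ A z ∧ EqOn u' (a z) d (y z)
    · obtain ⟨u', hu', hz⟩ := h
      exact ⟨u', Or.inl hz, hu'⟩
    · exact ⟨u, Or.inr fun u' hu' hc => h ⟨u', hu', hc⟩, le_rfl⟩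
  obtain ⟨s2, hs2, C, hCc, hCd⟩ := h1 (fun _ => E) hE w.1.base
  obtain ⟨w2, hw2b, hw2t⟩ := h2 w s2 hs2
  have hα : t.α ∈ s2.A := hs2.1 (hws.1 hC.1)
  obtain ⟨m2, hm2, hIn2⟩ := h3 L t ht w2 (by rw [hw2b]; exact hα)
  have hm2' : m2 ≤ m := trc_le ht hIn hwm hwt hs2 hw2b hw2t hm2
  refine ⟨m2, hm2', hIn2,
    ⋃ e ∈ C 0, {z | ∃ h : (∃ z, e ∈ A z ∧ EqOn e (a z) d (y z)), z = h.choose}, ?_, ?_⟩
  · refine (hCc 0).1.biUnion fun e _ => Set.Subsingleton.countable ?_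
    rintro x ⟨hx, rfl⟩ y ⟨hy, rfl⟩
    rfl
  · intro m' hm' hIn' z hz hPsi
    obtain ⟨q, hqp, hqm, hqs, hqE⟩ := hPsi m' le_rfl hIn' s2 (hs2.trans hws)
      (comp_trc hα hw2b hm2 hm')
    obtain ⟨e, he, v, hvq, hve⟩ := hCd q hqs 0
    have hvz : v ∈ A z := hA z _ hz _ (hvq.trans hqm)
    have hvE : EqOn v (a z) d (y z) := eqOn_down hqE hvq
    rcases (hCc 0).2 he with hk | hk
    · refine ⟨hk.choose, ?_, v, hvq.trans hqm, ?_, ?_, hvE, ?_⟩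
      · simp only [Set.mem_iUnion]
        exact ⟨e, he, hk, rfl⟩
      · have hvb : v.1.base ≤ s2 := (show v.1.base ≤ q.1.base from hvq.1).trans hqs
        exact hvb.1 hα
      · exact hA _ _ hk.choose_spec.1 _ hve
      · exact eqOn_down hk.choose_spec.2 hve
    · exact absurd ⟨z, hvz, hvE⟩ (hk v hve)

end Pool.Agent.H915.Sg
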