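import Pool.Agent.H915.Stmts2
import Pool.Agent.W684.FM.Forced

/-!
# Small names and restrictions
-/

set_option autoImplicit false

namespace Pool.Agent.H915.Sm

open Cardinal Set Pool.Agent.Helper669.Forcing


open Pool.Agent.W910.LC (Supercompact)
open Pool.Agent.W873.Tp (NormalFine)

section

variable {K W : Type} [LinearOrder K] [Cod K] [LinearOrder W]

theorem maxM_sub {α : W} {S₀ : Set (Crd K W)} : ∀ c ∈ maxM α S₀, c.st = α ∧ Proper c := by
  intro c hc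
  by_cases h : ∃ M, Maximal (fun M => M ∈ Cand α S₀) M
  · rw [maxM, dif_pos h] at hc
    have := h.choose_spec.1.1 c hc
    exact ⟨this.1, this.2.1⟩
  · rw [maxM, dif_neg h] at hc
    exact absurd hc (Set.notMem_empty c)

theorem mem_restr_top {T : Set (Crd K W)} {p : Pre K W} {a : Crd K W × K} :
    a ∈ (restr T p).top ↔ a ∈ p.top ∧ a.1 ∈ T := by
  classical
  unfold restr
  simp only [Finset.mem_filter]

omit [LinearOrder W] in
theorem valid_mono {S T : Set (Crd K W)} (h : S ⊆ T) {p : Pre K W} (hp : Valid S p) :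
    Valid T p := fun a ha => ⟨h (hp a ha).1, (hp a ha).2⟩

variable [WellFoundedLT W]

theorem V_eq (α : W) : (V α : Set (Crd K W)) = maxM α (Slt α) := by
  rw [V, WellFounded.fix_eq]
  rfl

theorem V_sub {α : W} {c : Crd K W} (hc : c ∈ V α) : c.st = α ∧ Proper c := by
  rw [V_eq] at hc
  exact maxM_sub c hc

theorem mem_Slt {α : W} {c : Crd K W} : c ∈ Slt α ↔ c.st < α ∧ c ∈ V c.st := by
  rw [Slt, Set.mem_iUnion]
  constructor
  · rintro ⟨⟨β, hβ⟩, h⟩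
    have h1 := (V_sub h).1
    simp only at h1 h
    subst h1
    exact ⟨hβ, h⟩
  · rintro ⟨h1, h2⟩
    exact ⟨⟨c.st, h1⟩, h2⟩

theorem mem_Sall {c : Crd K W} : c ∈ (Sall : Set (Crd K W)) ↔ c ∈ V c.st := by
  rw [Sall, Set.mem_iUnion]
  constructor
  · rintro ⟨β, h⟩
    have h1 := (V_sub h).1
    subst h1
    exact h
  · exact fun h => ⟨_, h⟩

theorem proper_Sall {c : Crd K W} (hc : c ∈ (Sall : Set (Crd K W))) : Proper c :=
  (V_sub (mem_Sall.1 hc)).2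

theorem Slt_sub_Sall (α : W) : Slt α ⊆ (Sall : Set (Crd K W)) := fun _ hc =>
  mem_Sall.2 (mem_Slt.1 hc).2

theorem initial_Slt (α : W) : Initial (Slt α) (Sall : Set (Crd K W)) :=
  ⟨Slt_sub_Sall α, fun _ hc _ hc' hlt => mem_Slt.2 ⟨hlt.trans (mem_Slt.1 hc).1, mem_Sall.1 hc'⟩⟩

end

theorem rlt (h1 : ∀ (K W : Type) [LinearOrder K] [WellFoundedLT K] [Cod K] [LinearOrder W] [WellFoundedLT W], S_validRestr K W) :
    S_rlt := by
  intro K W _ _ _ _ _ α u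
  have hv : Valid (Slt α) (restr (Slt α) u.1) :=
    h1 K W (Slt α) Sall (fun _ => proper_Sall) (initial_Slt α) u.1 u.2
  refine ⟨⟨restr (Slt α) u.1, valid_mono (Slt_sub_Sall α) hv⟩, rfl, ?_⟩
  exact PP.le_def.2 (Pre.le_def.2 ⟨le_refl _, fun a ha => (mem_restr_top.1 ha).1⟩)

/-- a maximal antichain inside a set -/
theorem exists_predense {P : Type} [Preorder P] (φ : Set P) :
    ∃ A : Set P, (∀ p ∈ A, ∀ q ∈ A, p ≠ q → ¬ ∃ r, r ≤ p ∧ r ≤ q) ∧ A ⊆ φ ∧
      ∀ p ∈ φ, ∃ a ∈ A, ∃ r, r ≤ p ∧ r ≤ a := by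
  have : ∃ A, Maximal (fun A : Set P => A ⊆ φ ∧
      ∀ p ∈ A, ∀ q ∈ A, p ≠ q → ¬ ∃ r, r ≤ p ∧ r ≤ q) A := by
    apply zorn_subset {A : Set P | A ⊆ φ ∧ ∀ p ∈ A, ∀ q ∈ A, p ≠ q → ¬ ∃ r, r ≤ p ∧ r ≤ q}
    intro c hc hchain
    refine ⟨⋃₀ c, ⟨Set.sUnion_subset fun A hA => (hc hA).1, ?_⟩,
      fun s hs => Set.subset_sUnion_of_mem hs⟩
    rintro p ⟨A, hA, hpA⟩ q ⟨B, hB, hqB⟩ hne
    rcases hchain.total hA hB with h | h
    · exact (hc hB).2 p (h hpA) q hqB hne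
    · exact (hc hA).2 p hpA q (h hqB) hne
  obtain ⟨A, ⟨h1, h2⟩, hmax⟩ := this
  refine ⟨A, h2, h1, fun p hp => ?_⟩
  by_contra hcon
  push Not at hcon
  have hpA : p ∉ A := fun h => hcon p h p le_rfl le_rfl
  apply hpA
  refine hmax (y := insert p A) ⟨Set.insert_subset hp h1, ?_⟩ (Set.subset_insert p A)
    (Set.mem_insert p A)
  rintro x (rfl | hx) y (rfl | hy) hne
  · exact absurd rfl hne
  · rintro ⟨r, hr1, hr2⟩
    exact hcon y hy r hr1 hr2
  · rintro ⟨r, hr1, hr2⟩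
    exact hcon x hx r hr2 hr1
  · exact h2 x hx y hy hne

/-- boundedness of sets of stages -/
theorem bdd (κ : Cardinal.{0}) (hκ : ℵ₀ ≤ κ) (L : Set (Wp κ)) (hL : #L ≤ κ) :
    ∃ α : Wp κ, ∀ β ∈ L, β < α := by
  by_contra hcon
  push Not at hcon
  have h1 : (Set.univ : Set (Wp κ)) ⊆ ⋃ β : L, insert β.1 (Set.Iio β.1) := by
    intro α _
    obtain ⟨β, hβ, h2⟩ := hcon α
    refine Set.mem_iUnion.2 ⟨⟨β, hβ⟩, ?_⟩
    rcases h2.lt_or_eq with h3 | h3
    · exact Or.inr h3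
    · exact Or.inl h3
  have h2 : #(⋃ β : L, insert β.1 (Set.Iio β.1)) ≤ κ := by
    refine (Cardinal.mk_iUnion_le _).trans ?_
    calc #L * _ ≤ κ * κ := by
          apply mul_le_mul' hL
          apply ciSup_le'
          intro i
          refine (Cardinal.mk_insert_le).trans ?_
          have h3 : #(Set.Iio i.1) ≤ κ := by
            have := Cardinal.mk_Iio_toType_ord_lt i.1
            exact Order.lt_succ_iff.1 this
          calc #(Set.Iio i.1) + 1 ≤ κ + κ :=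
                add_le_add h3 ((Cardinal.one_le_aleph0).trans hκ)
            _ = κ := Cardinal.add_eq_self hκ
      _ = κ := Cardinal.mul_eq_self hκ
  have h3 := (Cardinal.mk_le_mk_of_subset h1).trans h2
  rw [Cardinal.mk_univ, Cardinal.mk_ord_toType] at h3
  exact absurd h3 (not_le.2 (Order.lt_succ _))

open Classical in
/-- amalgamation of one condition -/
theorem amalg_one {K W : Type} [LinearOrder K] [WellFoundedLT K] [Cod K] [LinearOrder W]
    (h2 : S_amalg K W) {T S : Set (Crd K W)} (hT : T ⊆ S) {p q : Pre K W} (hp : Valid S p)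
    (hq : Valid T q) (h : q ≤ restr T p) : Valid S ⟨q.base, q.top ∪ p.top⟩ := by
  have h3 := h2 T S hT p ⟨q.base, ∅⟩ q hp (fun a ha => absurd ha (Finset.notMem_empty a)) hq h
    (by
      rw [Pre.le_def]
      refine ⟨le_refl _, fun a ha => ?_⟩
      have := (mem_restr_top.1 ha).1
      exact absurd this (Finset.notMem_empty a))
    (fun a _ b hb => absurd hb (Finset.notMem_empty b))
  have e : q.top ∪ p.top ∪ (⟨q.base, ∅⟩ : Pre K W).top = q.top ∪ p.top := by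
    show q.top ∪ p.top ∪ ∅ = _
    rw [Finset.union_empty]
  rw [e] at h3
  exact h3

theorem small (h1 : ∀ (K W : Type) [LinearOrder K] [WellFoundedLT K] [Cod K] [LinearOrder W] [WellFoundedLT W], S_validRestr K W)
    (h2 : ∀ (K W : Type) [LinearOrder K] [WellFoundedLT K] [Cod K] [LinearOrder W] [WellFoundedLT W], S_amalg K W)
    (h3 : S_kcc) : S_small := by
  classical
  intro κ _ hκ ι N hι
  have hinf : ℵ₀ ≤ κ := hκ.1.1.le
  have hA : ∀ i, ∃ A : Set (PP (Kp κ) (Wp κ)), #A ≤ κ ∧ (∀ a ∈ A, ∃ s ∈ N i, a ≤ s) ∧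
      ∀ p : PP (Kp κ) (Wp κ), (∃ s ∈ N i, p ≤ s) → ∃ a ∈ A, ∃ r, r ≤ p ∧ r ≤ a := by
    intro i
    obtain ⟨A, ha1, ha2, ha3⟩ := exists_predense {p : PP (Kp κ) (Wp κ) | ∃ s ∈ N i, p ≤ s}
    exact ⟨A, (h3 κ hκ A ha1).le, fun a ha => ha2 ha, ha3⟩
  choose A hA1 hA2 hA3 using hA
  let L : Set (Wp κ) := ⋃ i, ⋃ s ∈ A i, (fun a : Crd (Kp κ) (Wp κ) × Kp κ => a.1.st) ''
    (s.1.top : Set (Crd (Kp κ) (Wp κ) × Kp κ))
  have hL : #L ≤ κ := by
    refine (Cardinal.mk_iUnion_le _).trans ?_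
    calc #ι * _ ≤ κ * κ := by
          apply mul_le_mul' hι
          apply ciSup_le'
          intro i
          rw [Set.biUnion_eq_iUnion]
          refine (Cardinal.mk_iUnion_le _).trans ?_
          calc #(A i) * _ ≤ κ * ℵ₀ := by
                apply mul_le_mul' (hA1 i)
                apply ciSup_le'
                intro s
                exact Cardinal.le_aleph0_iff_set_countable.2 ((s.1.1.top.countable_toSet).image _)
            _ ≤ κ * κ := mul_le_mul' le_rfl hinf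
            _ = κ := Cardinal.mul_eq_self hinf
      _ = κ := Cardinal.mul_eq_self hinf
  obtain ⟨β, hβ⟩ := bdd κ hinf L hL
  have hst : ∀ i, ∀ s ∈ A i, ∀ a ∈ s.1.top, a.1.st < β := by
    intro i s hs a ha
    apply hβ
    simp only [L, Set.mem_iUnion]
    exact ⟨i, s, hs, a, ha, rfl⟩
  refine ⟨β, fun i α hα u r hr hu => ?_⟩
  have hcrd : ∀ s ∈ A i, ∀ a ∈ s.1.top, a.1 ∈ (Slt α : Set (Crd (Kp κ) (Wp κ))) := by
    intro s hs a ha
    exact mem_Slt.2 ⟨(hst i s hs a ha).trans_le hα, mem_Sall.1 (s.2 a ha).1⟩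
  have hvr : ∀ p : PP (Kp κ) (Wp κ), Valid (Slt α) (restr (Slt α) p.1) := fun p =>
    h1 _ _ (Slt α) Sall (fun _ => proper_Sall) (initial_Slt α) p.1 p.2
  intro q hq
  have hr' : r.1 = restr (Slt α) u.1 := hr
  have hq' : q.1 ≤ restr (Slt α) u.1 := by
    rw [← hr']; exact hq
  rw [Pre.le_def] at hq'
  -- the first amalgamation
  have hx : Valid Sall (⟨q.1.base, (restr (Slt α) q.1).top ∪ u.1.top⟩ : Pre (Kp κ) (Wp κ)) := by
    refine amalg_one (h2 _ _) (Slt_sub_Sall α) u.2 (hvr q) ?_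
    rw [Pre.le_def]
    refine ⟨hq'.1, fun a ha => ?_⟩
    exact mem_restr_top.2 ⟨hq'.2 ha, (mem_restr_top.1 ha).2⟩
  let x : PP (Kp κ) (Wp κ) := ⟨_, hx⟩
  have hxu : x ≤ u := by
    rw [PP.le_def, Pre.le_def]
    exact ⟨hq'.1, Finset.subset_union_right⟩
  obtain ⟨r1, hr1, s, hs, hr1s⟩ := hu x hxu
  obtain ⟨a, ha, w, hwr1, hwa⟩ := hA3 i r1 ⟨s, hs, hr1s⟩
  obtain ⟨s', hs', has'⟩ := hA2 i a ha
  have hwx : w.1 ≤ x.1 := hwr1.trans hr1
  rw [Pre.le_def] at hwx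
  have hwa' : w.1 ≤ a.1 := hwa
  rw [Pre.le_def] at hwa'
  -- the second amalgamation
  have hy : Valid Sall (⟨w.1.base, (restr (Slt α) w.1).top ∪ q.1.top⟩ : Pre (Kp κ) (Wp κ)) := by
    refine amalg_one (h2 _ _) (Slt_sub_Sall α) q.2 (hvr w) ?_
    rw [Pre.le_def]
    refine ⟨hwx.1, fun b hb => ?_⟩
    exact mem_restr_top.2 ⟨hwx.2 (Finset.mem_union_left _ hb), (mem_restr_top.1 hb).2⟩
  refine ⟨⟨_, hy⟩, ?_, s', hs', ?_⟩
  · exact PP.le_def.2 (Pre.le_def.2 ⟨hwx.1, Finset.subset_union_right⟩)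
  · refine le_trans (PP.le_def.2 (Pre.le_def.2 ⟨hwa'.1, fun b hb => ?_⟩)) has'
    exact Finset.mem_union_left _ (mem_restr_top.2 ⟨hwa'.2 hb, hcrd a ha b hb⟩)

end Pool.Agent.H915.Sm
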