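import Pool.Agent.H915.Stmts3

/-!
# Guessing: branches of size less than kappa
-/

set_option autoImplicit false

namespace Pool.Agent.H915.T5

open Cardinal Set Pool.Agent.Helper669.Forcing


open Pool.Agent.W910.LC (Supercompact)
open Pool.Agent.W873.Tp (NormalFine)

section
variable {P : Type} [Preorder P] {L : Type}

theorem eqOn_refl (q : P) (a : Set L) (x : L → Set P) : EqOn q a x x :=
  fun _ _ _ _ => Iff.rfl

theorem eqOn_symm {q : P} {a : Set L} {x y : L → Set P} (h : EqOn q a x y) : EqOn q a y x :=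
  fun l hl q' hq => (h l hl q' hq).symm

theorem eqOn_trans {q : P} {a : Set L} {x y z : L → Set P} (h : EqOn q a x y)
    (h' : EqOn q a y z) : EqOn q a x z :=
  fun l hl q' hq => (h l hl q' hq).trans (h' l hl q' hq)

theorem eqOn_sub {q : P} {a b : Set L} {x y : L → Set P} (hab : b ⊆ a) (h : EqOn q a x y) :
    EqOn q b x y :=
  fun l hl => h l (hab hl)

theorem eqOn_mono {q q' : P} {a : Set L} {x y : L → Set P} (hq : q' ≤ q) (h : EqOn q a x y) :
    EqOn q' a x y :=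
  fun l hl r hr => h l hl r (hr.trans hq)

end

section
variable {K W L : Type} [LinearOrder K] [WellFoundedLT K] [Cod K] [LinearOrder W] [WellFoundedLT W]

/-- the family -/
def Ph (τ : K) (hh : K → L) (y : Set K → L → Set (PP K W)) (m : PP K W) (F : Finset K) :
    Set (PP K W) :=
  {u | u ≤ m ∧ (∀ x ∈ F, ∃ N : Set K, N.Countable ∧ N ⊆ Iio τ ∧ x = cd N ∧ u ∈ CT τ N) ∧
    ∀ N N' : Set K, N.Countable → N'.Countable → cd N ∈ F → cd N' ∈ F → N ⊆ N' →
      EqOn u (hh '' N) (y N) (y N')}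

variable {τ : K} {hh : K → L} {y : Set K → L → Set (PP K W)} {m : PP K W}

theorem Ph_down (h6 : S_ct K W) (F : Finset K) : Down (Ph τ hh y m F) := by
  rintro u ⟨h1, h2, h3⟩ v hv
  refine ⟨hv.trans h1, fun x hx => ?_, fun N N' c c' k k' hs => eqOn_mono hv (h3 N N' c c' k k' hs)⟩
  obtain ⟨N, a, b, c, d⟩ := h2 x hx
  exact ⟨N, a, b, c, h6.1 τ N u d v hv⟩

theorem Ph_ct {F : Finset K} {u : PP K W} (hu : u ∈ Ph τ hh y m F) {N : Set K}
    (hN : N.Countable) (hF : cd N ∈ F) : u ∈ CT τ N := by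
  obtain ⟨N', a, b, c, d⟩ := hu.2.1 _ hF
  rw [Cod.cd_inj N N' hN a c]
  exact d

theorem ct_chain (h6 : S_ct K W) (hτ : Tr τ) {u : PP K W} {N N' : Set K} (h : u ∈ CT τ N)
    (h' : u ∈ CT τ N') : N ⊆ N' ∨ N' ⊆ N := by
  have a := (h6.2.1 τ N u hτ h).1
  have a' := (h6.2.1 τ N' u hτ h').1
  rcases h6.2.2.1 τ N N' u hτ h h' with e | e | e
  · exact Or.inl e.subset
  · exact Or.inl (a'.sub N a.ctbl e)
  · exact Or.inr (a.sub N' a'.ctbl e)

theorem exists_top (h6 : S_ct K W) (hτ : Tr τ) {F : Finset K} (hne : F.Nonempty) {u : PP K W}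
    (hu : u ∈ Ph τ hh y m F) :
    ∃ N : Set K, N.Countable ∧ cd N ∈ F ∧ ∀ N' : Set K, N'.Countable → cd N' ∈ F → N' ⊆ N := by
  have hfin : {N : Set K | N.Countable ∧ cd N ∈ F}.Finite := by
    refine Set.Finite.of_finite_image (f := fun N : Set K => (cd N : K))
      (F.finite_toSet.subset ?_) ?_
    · rintro _ ⟨N, hN, rfl⟩
      exact hN.2
    · intro N hN N' hN' e
      exact Cod.cd_inj N N' hN.1 hN'.1 e
  have hn : {N : Set K | N.Countable ∧ cd N ∈ F}.Nonempty := by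
    obtain ⟨x, hx⟩ := hne
    obtain ⟨N, a, b, c, d⟩ := hu.2.1 x hx
    exact ⟨N, a, c ▸ hx⟩
  obtain ⟨N, hN⟩ := hfin.exists_maximal hn
  refine ⟨N, hN.1.1, hN.1.2, fun N' c k => ?_⟩
  rcases ct_chain h6 hτ (Ph_ct hu hN.1.1 hN.1.2) (Ph_ct hu c k) with e | e
  · exact hN.2 ⟨c, k⟩ e
  · exact e

theorem Ph_union {F F' G : Finset K} {u : PP K W}
    (hG : ∀ x, x ∈ G ↔ x ∈ F ∨ x ∈ F') (hu : u ∈ Ph τ hh y m F) (hu' : u ∈ Ph τ hh y m F')
    {M M' : Set K} (hM : M.Countable ∧ cd M ∈ F ∧ ∀ N' : Set K, N'.Countable → cd N' ∈ F → N' ⊆ M)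
    (hM' : M'.Countable ∧ cd M' ∈ F' ∧ ∀ N' : Set K, N'.Countable → cd N' ∈ F' → N' ⊆ M')
    (he : EqOn u (hh '' M ∩ hh '' M') (y M) (y M')) : u ∈ Ph τ hh y m G := by
  refine ⟨hu.1, fun x hx => ?_, fun N N' c c' k k' hs => ?_⟩
  · rcases (hG x).1 hx with h | h
    · exact hu.2.1 x h
    · exact hu'.2.1 x h
  · rcases (hG _).1 k with h | h <;> rcases (hG _).1 k' with h' | h'
    · exact hu.2.2 N N' c c' h h' hs
    · have e1 := hu.2.2 N M c hM.1 h hM.2.1 (hM.2.2 N c h)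
      have e2 := hu'.2.2 N' M' c' hM'.1 h' hM'.2.1 (hM'.2.2 N' c' h')
      have e3 : EqOn u (hh '' N) (y M) (y M') := eqOn_sub (subset_inter
        (image_mono (hM.2.2 N c h)) (image_mono (hs.trans (hM'.2.2 N' c' h')))) he
      exact eqOn_trans (eqOn_trans e1 e3) (eqOn_symm (eqOn_sub (image_mono hs) e2))
    · have e1 := hu'.2.2 N M' c hM'.1 h hM'.2.1 (hM'.2.2 N c h)
      have e2 := hu.2.2 N' M c' hM.1 h' hM.2.1 (hM.2.2 N' c' h')
      have e3 : EqOn u (hh '' N) (y M) (y M') := eqOn_sub (subset_inter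
        (image_mono (hs.trans (hM.2.2 N' c' h'))) (image_mono (hM'.2.2 N c h))) he
      exact eqOn_trans (eqOn_trans e1 (eqOn_symm e3)) (eqOn_symm (eqOn_sub (image_mono hs) e2))
    · exact hu'.2.2 N N' c c' h h' hs

theorem Ph_sub (hτ : Tr τ) {F : Finset K} (hF : (Ph τ hh y m F).Nonempty) : ∀ x ∈ F, x < τ := by
  intro x hx
  obtain ⟨u, hu⟩ := hF
  obtain ⟨N, a, b, c, d⟩ := hu.2.1 x hx
  rw [c]
  exact (hτ.2 N a).1 b

theorem mem_fib {u : PP K W} {c : Crd K W} {x : K} : x ∈ fib u.1 c ↔ (c, x) ∈ u.1.top := by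
  classical
  unfold fib
  simp only [Finset.mem_image, Finset.mem_filter]
  constructor
  · rintro ⟨a, ⟨h1, h2⟩, h3⟩
    have : a = (c, x) := Prod.ext h2 h3
    exact this ▸ h1
  · intro h
    exact ⟨(c, x), ⟨h, rfl⟩, rfl⟩

/-- the generic set is uncountable -/
theorem uncount (h6 : S_ct K W) (h7 : S_dd K W) (h8 : S_ext K W) (hτ : Tr τ)
    (hunc : ¬ (Iio τ).Countable) {β : W} {c : Crd K W} (hc : IsCrd β m (Ph τ hh y m) c) :
    ∃ u ≤ m, ∀ Z : Set K, Z.Countable → ∀ e ≤ u, ∃ v ≤ e, ∃ x, (c, x) ∈ v.1.top ∧ x ∉ Z := by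
  classical
  by_contra hcon
  push Not at hcon
  -- for every u ≤ m there are a countable Z and e ≤ u
  let E : Set (PP K W) := {e | (∃ Z : Set K, Z.Countable ∧ ∀ v ≤ e, ∀ x, (c, x) ∈ v.1.top → x ∈ Z) ∨
    ¬ ∃ r, r ≤ e ∧ r ≤ m}
  have hE : ∀ u, ∃ e ∈ E, e ≤ u := by
    intro u
    by_cases hr : ∃ r, r ≤ u ∧ r ≤ m
    · obtain ⟨r, hru, hrm⟩ := hr
      obtain ⟨Z, hZ, e, he, h⟩ := hcon r hrm
      exact ⟨e, Or.inl ⟨Z, hZ, h⟩, he.trans hru⟩
    · exact ⟨u, Or.inr hr, le_rfl⟩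
  obtain ⟨s', hs', C, hC, hCd⟩ := h7 (fun _ => E) (fun _ => hE) m.1.base
  obtain ⟨q', hq'b, hq't⟩ := h8 m s' hs'
  have hq'm : q' ≤ m := by
    rw [PP.le_def, Pre.le_def]
    exact ⟨hq'b ▸ hs', hq't ▸ Finset.Subset.refl _⟩
  -- the countable cover
  have hZe : ∀ e ∈ C 0, (∃ r, r ≤ e ∧ r ≤ m) → ∃ Z : Set K, Z.Countable ∧ ∀ v ≤ e, ∀ x,
      (c, x) ∈ v.1.top → x ∈ Z := by
    intro e he hr
    rcases (hC 0).2 he with h | h
    · exact h
    · exact absurd hr h
  let Zf : PP K W → Set K := fun e => if h : e ∈ C 0 ∧ ∃ r, r ≤ e ∧ r ≤ m then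
    (hZe e h.1 h.2).choose else ∅
  have hZf : ∀ e ∈ C 0, (∃ r, r ≤ e ∧ r ≤ m) → (Zf e).Countable ∧ ∀ v ≤ e, ∀ x,
      (c, x) ∈ v.1.top → x ∈ Zf e := by
    intro e he hr
    have := (hZe e he hr).choose_spec
    simp only [Zf]
    rw [dif_pos ⟨he, hr⟩]
    exact this
  let Zs : Set K := ⋃ e ∈ C 0, Zf e
  have hZs : Zs.Countable := by
    refine (hC 0).1.biUnion fun e he => ?_
    by_cases hr : ∃ r, r ≤ e ∧ r ≤ m
    · exact (hZf e he hr).1
    · simp only [Zf]
      rw [dif_neg (fun h => hr h.2)]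
      exact countable_empty
  have hcov : ∀ u : PP K W, u.1.base ≤ s' → u ≤ m → ∀ x, (c, x) ∈ u.1.top → x ∈ Zs := by
    intro u hub hum x hx
    obtain ⟨e, he, v, hvu, hve⟩ := hCd u hub 0
    have hr : ∃ r, r ≤ e ∧ r ≤ m := ⟨v, hve, hvu.trans hum⟩
    have h1 : (c, x) ∈ v.1.top := (Pre.le_def.1 (PP.le_def.1 hvu)).2 hx
    exact mem_biUnion he ((hZf e he hr).2 v hve x h1)
  -- an element of Iio τ outside all the sets with codes in Zs
  have hN : {N : Set K | N.Countable ∧ cd N ∈ Zs}.Countable := by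
    refine Set.countable_of_injective_of_countable_image (f := fun N : Set K => (cd N : K)) ?_
      (hZs.mono ?_)
    · intro N hN N' hN' e
      exact Cod.cd_inj N N' hN.1 hN'.1 e
    · rintro _ ⟨N, hN, rfl⟩
      exact hN.2
  have hU : (⋃ N ∈ {N : Set K | N.Countable ∧ cd N ∈ Zs}, N).Countable :=
    hN.biUnion fun N hN => hN.1
  obtain ⟨x0, hx0, hx0'⟩ : ∃ x0 ∈ Iio τ, x0 ∉ ⋃ N ∈ {N : Set K | N.Countable ∧ cd N ∈ Zs}, N := by
    by_contra h
    push Not at h
    exact hunc (hU.mono h)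
  obtain ⟨v, hv, hvt, N, hbN, hvN⟩ := h6.2.2.2 τ {x0} q' hτ (countable_singleton _)
    (singleton_subset_iff.2 hx0)
  have hNn := h6.2.1 τ N v hτ hvN
  have hcdN : cd N ∉ Zs := by
    intro h
    apply hx0'
    exact mem_biUnion (x := N) ⟨hNn.1.ctbl, h⟩ (hbN rfl)
  have hfib : fib v.1 c = ∅ := by
    have : fib v.1 c = fib m.1 c := by
      unfold fib
      rw [hvt, hq't]
    rw [this]
    exact hc.ff
  have hvm : v ≤ m := hv.trans hq'm
  have hPh : v ∈ Ph τ hh y m (insert (cd N) (fib v.1 c)) := by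
    rw [hfib]
    refine ⟨hvm, fun x hx => ?_, fun N1 N2 c1 c2 k1 k2 _ => ?_⟩
    · rw [Finset.mem_insert] at hx
      rcases hx with hx | hx
      · exact ⟨N, hNn.1.ctbl, hNn.2, hx, hvN⟩
      · simp at hx
    · simp only [Finset.mem_insert, Finset.notMem_empty, or_false] at k1 k2
      have e1 := Cod.cd_inj N1 N c1 hNn.1.ctbl k1
      have e2 := Cod.cd_inj N2 N c2 hNn.1.ctbl k2
      rw [e1, e2]
      exact eqOn_refl _ _ _
  obtain ⟨u', hu', -, hmem, -⟩ := hc.add v v (cd N) le_rfl hPh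
  have hub : u'.1.base ≤ s' := by
    have h1 := (Pre.le_def.1 (PP.le_def.1 (hu'.trans hv))).1
    rw [hq'b] at h1
    exact h1
  exact hcdN (hcov u' hub (hu'.trans hvm) _ hmem)

/-- the name for the branch -/
def Br (hh : K → L) (y : Set K → L → Set (PP K W)) (c : Crd K W) (l : L) : Set (PP K W) :=
  {v | ∃ N : Set K, N.Countable ∧ (c, cd N) ∈ v.1.top ∧ l ∈ hh '' N ∧ v ∈ meets (y N l)}

theorem br_eq (h6 : S_ct K W) (hτ : Tr τ) {β : W} {c : Crd K W}
    (hc : IsCrd β m (Ph τ hh y m) c) {v : PP K W} {N : Set K} (hN : N.Countable)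
    (hv : (c, cd N) ∈ v.1.top) : EqOn v (hh '' N) (Br hh y c) (y N) := by
  intro l hl q' hq'
  have hq : (c, cd N) ∈ q'.1.top := (Pre.le_def.1 (PP.le_def.1 hq')).2 hv
  constructor
  · intro h r hr
    obtain ⟨r', hr', s, hs, hle⟩ := h r hr
    obtain ⟨N', hN', hsN, hlN, hsm⟩ := hs
    have t1 : (c, cd N) ∈ r'.1.top := (Pre.le_def.1 (PP.le_def.1 (hr'.trans hr))).2 hq
    have t2 : (c, cd N') ∈ r'.1.top := (Pre.le_def.1 (PP.le_def.1 hle)).2 hsN
    have hf := hc.fam r' _ t1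
    have k1 := mem_fib.2 t1
    have k2 := mem_fib.2 t2
    have hrm : r' ∈ meets (y N' l) := down_meets _ s hsm r' hle
    have : r' ∈ meets (y N l) := by
      rcases ct_chain h6 hτ (Ph_ct hf hN k1) (Ph_ct hf hN' k2) with e | e
      · exact (hf.2.2 N N' hN hN' k1 k2 e l hl r' le_rfl).2 hrm
      · exact (hf.2.2 N' N hN' hN k2 k1 e l hlN r' le_rfl).1 hrm
    obtain ⟨r'', hr'', s', hs', hle'⟩ := this r' le_rfl
    exact ⟨r'', hr''.trans hr', s', hs', hle'⟩
  · intro h r hr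
    exact ⟨r, le_rfl, r, ⟨N, hN, (Pre.le_def.1 (PP.le_def.1 hr)).2 hq, hl,
      down_meets _ q' h r hr⟩, le_rfl⟩

end

theorem mk_Iio_lt' (κ : Cardinal.{0}) (τ : Kp κ) : #(Iio τ) < κ := by
  have h1 := Ordinal.typein_lt_type (α := Kp κ) (· < ·) τ
  rw [Ordinal.type_toType, Cardinal.lt_ord, Ordinal.card_typein] at h1
  exact h1

theorem exists_tr (h5 : S_tr) (κ : Cardinal.{0}) [Cod (Kp κ)] (hκ : Supercompact κ) (L : Type)
    (D : Set L) (hD : #D < κ) : ∃ τ : Kp κ, Tr τ ∧ #D ≤ #(Iio τ) := by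
  obtain ⟨k, hk⟩ : ∃ k : Kp κ, #D ≤ #(Iio k) := by
    have ho : (#D).ord < Ordinal.type (α := Kp κ) (· < ·) := by
      rw [Ordinal.type_toType]
      exact Cardinal.ord_lt_ord.2 hD
    refine ⟨Ordinal.enum (α := Kp κ) (· < ·) ⟨(#D).ord, ho⟩, le_of_eq ?_⟩
    have h1 := Ordinal.typein_enum (α := Kp κ) (· < ·) ho
    have h2 := congrArg Ordinal.card h1
    rw [Ordinal.card_typein, Cardinal.card_ord] at h2
    exact h2.symm
  obtain ⟨α, h1, h2⟩ := h5 κ hκ k
  exact ⟨α, h2, hk.trans (Cardinal.mk_le_mk_of_subset (Iio_subset_Iio h1.le))⟩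

theorem t5 (h1 : S_tt) (h2 : S_ttgc) (h3 : S_ttst) (h4 : S_addCrd) (h5 : S_tr)
    (h6 : ∀ (K W : Type) [LinearOrder K] [WellFoundedLT K] [Cod K] [LinearOrder W] [WellFoundedLT W], S_ct K W)
    (h7 : ∀ (K W : Type) [LinearOrder K] [WellFoundedLT K] [Cod K] [LinearOrder W] [WellFoundedLT W], S_dd K W)
    (h8 : ∀ (K W : Type) [LinearOrder K] [WellFoundedLT K] [Cod K] [LinearOrder W] [WellFoundedLT W], S_ext K W) (h9 : S_kcc) : S_T5 := by
  intro κ _ _ hκ L U p d s m1 hS D hD m hm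
  classical
  obtain ⟨T1, T2, T3, T4, T5, T6, T7⟩ := h1 κ hκ L U p d s m1 hS
  by_cases hDe : D = ∅
  · subst hDe
    exact T6 ∅ countable_empty m hm
  obtain ⟨d0, hd0⟩ := Set.nonempty_iff_ne_empty.2 hDe
  obtain ⟨τ, hτ, hcard⟩ := exists_tr h5 κ hκ L D hD
  obtain ⟨e⟩ : Nonempty (D ↪ Iio τ) := hcard
  let hh : Kp κ → L := fun k => if h : ∃ x : D, (e x : Kp κ) = k then (h.choose : L) else d0
  have hhe : ∀ x : D, hh (e x) = x := by
    intro x
    have hx : ∃ x' : D, (e x' : Kp κ) = e x := ⟨x, rfl⟩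
    simp only [hh]
    rw [dif_pos hx]
    have := hx.choose_spec
    rw [Subtype.coe_injective.eq_iff, e.injective.eq_iff] at this
    rw [this]
  choose yD hyD using T7
  let y : Set (Kp κ) → L → Set (PP (Kp κ) (Wp κ)) := fun N =>
    if h : N.Countable then yD (hh '' N) (h.image _) else fun _ => ∅
  have hy : ∀ N : Set (Kp κ), N.Countable → TT U p d s (hh '' N) (y N) m1 := by
    intro N hN
    simp only [y]
    rw [dif_pos hN]
    exact hyD _ _
  have c6 := h6 (Kp κ) (Wp κ)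
  have hinf : Function.Injective (fun x : Om1 => (⟨om x, hτ.1 x⟩ : Iio τ)) := by
    intro a b hab
    exact (Cod.om_lt (K := Kp κ)).injective (congrArg Subtype.val hab)
  have hunc : ¬ (Iio τ).Countable := by
    intro hc
    have : Countable (Iio τ) := hc
    have h2 : Countable Om1 := hinf.countable
    rw [← Cardinal.mk_le_aleph0_iff, Cardinal.mk_ord_toType] at h2
    exact absurd h2 (not_le.2 Cardinal.aleph0_lt_aleph_one)
  have hInf : Infinite (Iio τ) := by
    by_contra h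
    rw [not_infinite_iff_finite] at h
    exact hunc (Set.Finite.countable (Set.toFinite _))
  -- the family
  have hfam : IsFam m (Ph τ hh y m) := by
    refine ⟨Ph_down c6, fun F u hu => hu.1, fun F F' hFF u hu => ?_, ?_, ?_⟩
    · exact ⟨hu.1, fun x hx => hu.2.1 x (hFF hx),
        fun N N' c c' k k' hs => hu.2.2 N N' c c' (hFF k) (hFF k') hs⟩
    · have hlt : #(Finset (Iio τ)) < #(Kp κ) := by
        rw [Cardinal.mk_finset_of_infinite, Cardinal.mk_ord_toType]
        exact mk_Iio_lt' κ τ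
      refine lt_of_le_of_lt ?_ hlt
      have hinj : Function.Injective (fun F : {F : Finset (Kp κ) | (Ph τ hh y m F).Nonempty} =>
          (F.1.subtype (fun x => x ∈ Iio τ) : Finset (Iio τ))) := by
        intro F F' he
        apply Subtype.ext
        have a1 := Ph_sub hτ F.2
        have a2 := Ph_sub hτ F'.2
        simp only at he
        ext x
        constructor
        · intro hx
          have : (⟨x, a1 x hx⟩ : Iio τ) ∈ F.1.subtype (fun x => x ∈ Iio τ) :=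
            Finset.mem_subtype.2 hx
          rw [he] at this
          exact Finset.mem_subtype.1 this
        · intro hx
          have : (⟨x, a2 x hx⟩ : Iio τ) ∈ F'.1.subtype (fun x => x ∈ Iio τ) :=
            Finset.mem_subtype.2 hx
          rw [← he] at this
          exact Finset.mem_subtype.1 this
      exact Cardinal.mk_le_of_injective hinj
    · intro A hAd hAs hAinc q hq
      let ZZ : Type := {F : Finset (Kp κ) // F.Nonempty ∧ (Ph τ hh y m F).Nonempty}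
      have htop : ∀ z : ZZ, ∃ N : Set (Kp κ), N.Countable ∧ cd N ∈ z.1 ∧
          ∀ N' : Set (Kp κ), N'.Countable → cd N' ∈ z.1 → N' ⊆ N :=
        fun z => exists_top c6 hτ z.2.1 z.2.2.some_mem
      choose tp htp using htop
      have hZ : #ZZ < κ := by
        have : #ZZ ≤ #(Finset (Iio τ)) := by
          have hinj : Function.Injective (fun F : ZZ =>
              (F.1.subtype (fun x => x ∈ Iio τ) : Finset (Iio τ))) := by
            intro F F' he
            apply Subtype.ext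
            have a1 := Ph_sub hτ F.2.2
            have a2 := Ph_sub hτ F'.2.2
            simp only at he
            ext x
            constructor
            · intro hx
              have : (⟨x, a1 x hx⟩ : Iio τ) ∈ F.1.subtype (fun x => x ∈ Iio τ) :=
                Finset.mem_subtype.2 hx
              rw [he] at this
              exact Finset.mem_subtype.1 this
            · intro hx
              have : (⟨x, a2 x hx⟩ : Iio τ) ∈ F'.1.subtype (fun x => x ∈ Iio τ) :=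
                Finset.mem_subtype.2 hx
              rw [← he] at this
              exact Finset.mem_subtype.1 this
          exact Cardinal.mk_le_of_injective hinj
        refine lt_of_le_of_lt this ?_
        rw [Cardinal.mk_finset_of_infinite]
        exact mk_Iio_lt' κ τ
      obtain ⟨m2, hm2, Z0, hZ0, hc0⟩ := h2 κ hκ L U p d s m1 hS ZZ (fun z => A z.1)
        (fun z => hh '' tp z) (fun z => y (tp z)) hZ (fun z => hAd z.1)
        (fun z => hy _ (htp z).1) q (hq.trans hm)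
      refine ⟨m2, hm2, insert ∅ (Subtype.val '' Z0), (hZ0.image _).insert _, ?_⟩
      intro F hF u hu huA
      have hFe : F ≠ ∅ := fun h => hF (h ▸ Set.mem_insert _ _)
      let z : ZZ := ⟨F, Finset.nonempty_iff_ne_empty.2 hFe, ⟨u, hAs F huA⟩⟩
      obtain ⟨z', hz', v, hv, hvA, hve⟩ := hc0 u hu z huA
      have hne : F ≠ z'.1 := by
        intro h
        exact hF (Set.mem_insert_of_mem _ ⟨z', hz', h.symm⟩)
      have hvF : v ∈ A F := hAd F u huA v hv
      refine hAinc F z'.1 hne v hvF hvA (F ∪ z'.1) Finset.subset_union_left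
        Finset.subset_union_right ?_
      exact Ph_union (fun x => Finset.mem_union) (hAs F hvF) (hAs _ hvA) (htp z) (htp z') hve
  have hW : Nonempty (Wp κ) := by
    rw [← Cardinal.mk_ne_zero_iff, Cardinal.mk_ord_toType]
    exact (Order.succ_ne_bot κ)
  obtain ⟨c, hc⟩ := h4 κ hκ m (Ph τ hh y m) hfam (Classical.choice hW)
  obtain ⟨m2, hm2, hun⟩ := uncount c6 (h7 _ _) (h8 _ _) hτ hunc hc
  refine ⟨m2, hm2, Br hh y c, ?_⟩
  refine (h3 κ hκ L U p d s m1 hS (Br hh y c) m2 (hm2.trans hm)).1 D ?_ hD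
  intro a ha haD m' hm'
  -- a countable set of indices
  obtain ⟨v, hv, hvt, Nb, hbN, hvN⟩ := c6.2.2.2 τ ((fun x : D => (e x : Kp κ)) '' {x | (x : L) ∈ a})
    m' hτ ((ha.preimage Subtype.val_injective).image _) (by
      rintro _ ⟨x, -, rfl⟩
      exact (e x).2)
  have hNb := c6.2.1 τ Nb v hτ hvN
  obtain ⟨v', hv', x, hx, hxZ⟩ := hun (insert (cd Nb) Nb) (hNb.1.ctbl.insert _) v
    (hv.trans hm')
  have hPh := hc.fam v' x hx
  have hxf := mem_fib.2 hx
  obtain ⟨N, hN, hNτ, hxN, hvN'⟩ := hPh.2.1 x hxf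
  have hNn := c6.2.1 τ N v' hτ hvN'
  have hsub : Nb ⊆ N := by
    rcases c6.2.2.1 τ Nb N v' hτ (c6.1 τ Nb v hvN v' hv') hvN' with h | h | h
    · exact h.subset
    · exact hNn.1.sub Nb hNb.1.ctbl h
    · exact absurd (Set.mem_insert_of_mem _ (hxN ▸ h)) hxZ
  have haN : a ⊆ hh '' N := by
    intro l hl
    refine ⟨e ⟨l, haD hl⟩, hsub (hbN ⟨⟨l, haD hl⟩, hl, rfl⟩), hhe _⟩
  rw [hxN] at hx
  refine ⟨v', hv'.trans hv, T2 _ _ _ _ haN (T3 _ _ _ _ (eqOn_symm (br_eq c6 hτ hc hN hx)) ?_)⟩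
  exact T1 _ _ _ _ ((hv'.trans (hv.trans hm')).trans (hm2.trans hm)) (hy N hN)


end Pool.Agent.H915.T5
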