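import Pool.Agent.H915.Stmts3

/-!
# The tree of restrictions
-/

set_option autoImplicit false

namespace Pool.Agent.H915.Tr

open Cardinal Set Pool.Agent.Helper669.Forcing

/-- Coverings of named partial functions with a countable domain. -/
theorem cov_unique {P : Type} [Preorder P] (hc : Cov P) {ι X : Type} (J : Set ι)
    (hJ : J.Countable) (φ : ι → X → Set P) (hφ : ∀ i x, Down (φ i x)) (q : P)
    (hu : ∀ i ∈ J, ∀ x x' : X, ∀ u ≤ q, u ∈ φ i x → u ∈ φ i x' → x = x') :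
    ∃ q' ≤ q, ∃ Z : Set X, Z.Countable ∧ ∀ i ∈ J, ∀ x, ∀ u ≤ q', u ∈ φ i x → x ∈ Z := by
  rcases J.eq_empty_or_nonempty with hJe | hJn
  · exact ⟨q, le_rfl, ∅, countable_empty, fun i hi => by rw [hJe] at hi; exact absurd hi (by simp)⟩
  obtain ⟨g, hg⟩ := hJ.exists_eq_range hJn
  let E : ℕ → Set P := fun n => {e | e ≤ q ∧ ((∃ x, e ∈ φ (g n) x) ∨ ∀ e' ≤ e, ∀ x, e' ∉ φ (g n) x)}
  have hE : ∀ n, ∀ u ≤ q, ∃ e ∈ E n, e ≤ u := by
    intro n u huq
    by_cases h : ∃ e' ≤ u, ∃ x, e' ∈ φ (g n) x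
    · obtain ⟨e', he', x, hx⟩ := h
      exact ⟨e', ⟨he'.trans huq, Or.inl ⟨x, hx⟩⟩, he'⟩
    · push Not at h
      exact ⟨u, ⟨huq, Or.inr h⟩, le_rfl⟩
  obtain ⟨q', hq', C, hC1, hC2⟩ := hc E q hE
  have hgJ : ∀ n, g n ∈ J := fun n => by rw [hg]; exact mem_range_self n
  refine ⟨q', hq', ⋃ n, ⋃ e ∈ C n, {x | e ∈ φ (g n) x}, ?_, ?_⟩
  · refine countable_iUnion fun n => (hC1 n).1.biUnion fun e he => ?_
    apply Set.Subsingleton.countable
    intro x hx x' hx'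
    exact hu (g n) (hgJ n) x x' e ((hC1 n).2 he).1 hx hx'
  · intro i hi x u hu' hx
    rw [hg] at hi
    obtain ⟨n, rfl⟩ := hi
    obtain ⟨e, he, v, hvu, hve⟩ := hC2 n u hu'
    have hv : v ∈ φ (g n) x := hφ _ _ u hx v hvu
    obtain ⟨he1, he2⟩ := (hC1 n).2 he
    rcases he2 with ⟨x', hx'⟩ | h
    · have hv' : v ∈ φ (g n) x' := hφ _ _ e hx' v hve
      have hxx : x = x' := hu (g n) (hgJ n) x x' v (hvu.trans (hu'.trans hq')) hv hv'
      simp only [mem_iUnion]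
      exact ⟨n, e, he, by rw [hxx]; exact hx'⟩
    · exact absurd hv (h v hve x)

section

variable {K W L : Type} [LinearOrder K] [WellFoundedLT K] [Cod K] [LinearOrder W] [WellFoundedLT W]
variable {D : Dat K W L}

theorem eqOn_mono {P : Type} [Preorder P] {L : Type} {q q' : P} {a a' : Set L} {x y : L → Set P}
    (h : EqOn q a x y) (hq : q' ≤ q) (ha : a' ⊆ a) : EqOn q' a' x y :=
  fun l hl r hr => h l (ha hl) r (hr.trans hq)

theorem eqOn_symm {P : Type} [Preorder P] {L : Type} {q : P} {a : Set L} {x y : L → Set P}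
    (h : EqOn q a x y) : EqOn q a y x :=
  fun l hl r hr => (h l hl r hr).symm

theorem eqOn_trans {P : Type} [Preorder P] {L : Type} {q : P} {a : Set L} {x y z : L → Set P}
    (h : EqOn q a x y) (h' : EqOn q a y z) : EqOn q a x z :=
  fun l hl r hr => (h l hl r hr).trans (h' l hl r hr)

theorem aN_mono {N N' : Set K} (h : N ⊆ N') : D.aN N ⊆ D.aN N' := by
  rintro l ⟨k, hk, hl⟩
  exact ⟨k, h hk, hl⟩

theorem rep_mono {u u' : PP K W} {N N' : Set K} {ξ η : K} (h : D.Rep u N ξ η) (hu : u' ≤ u)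
    (hN : N' ⊆ N) : D.Rep u' N' ξ η := by
  obtain ⟨y, y', h1, h2, h3⟩ := h
  exact ⟨y, y', h1, h2, eqOn_mono h3 hu (aN_mono hN)⟩

theorem rep_symm {u : PP K W} {N : Set K} {ξ η : K} (h : D.Rep u N ξ η) : D.Rep u N η ξ := by
  obtain ⟨y, y', h1, h2, h3⟩ := h
  exact ⟨y', y, h2, h1, eqOn_symm h3⟩

theorem rep_trans {u : PP K W} {N : Set K} {ξ η ζ : K} (h : D.Rep u N ξ η) (h' : D.Rep u N η ζ) :
    D.Rep u N ξ ζ := by
  obtain ⟨y, y', h1, h2, h3⟩ := h
  obtain ⟨z, z', g1, g2, g3⟩ := h'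
  have e : y' = z := by
    rw [h2] at g1
    exact Sum.inr_injective g1
  subst e
  exact ⟨y, z', h1, g2, eqOn_trans h3 g3⟩

theorem down_A (hct : S_ct K W) (x : D.T) : Down (D.A x) := by
  rintro p ⟨h1, h2, h3, h4, h5⟩ q hq
  exact ⟨hct.1 _ _ p h1 q hq, h2, fun u' hu' => h3 u' (hu'.trans hq),
    fun u' hu' => h4 u' (hu'.trans hq), fun u' hu' => h5 u' (hu'.trans hq)⟩

theorem down_lt (hct : S_ct K W) (x y : D.T) : Down (D.lt x y) := by
  rintro p ⟨h1, h2, h3, h4⟩ q hq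
  exact ⟨hct.1 _ _ p h1 q hq, hct.1 _ _ p h2 q hq, h3, rep_mono h4 hq Subset.rfl⟩

theorem uniq_aux {x y : D.T} {u : PP K W} (hx : u ∈ D.A x) (hy : u ∈ D.A y)
    (hN : x.1.1 = y.1.1) (hr : D.Rep u x.1.1 x.1.2 y.1.2) : ¬ y.1.2 < x.1.2 := by
  intro hlt
  obtain ⟨_, _, _, h4, _⟩ := hx
  obtain ⟨_, _, g3, _, _⟩ := hy
  obtain ⟨u'', hu'', hl⟩ := h4 u le_rfl _ hlt (rep_symm hr)
  exact g3 u'' hu'' _ hl (by rw [← hN]; exact rep_mono hr hu'' Subset.rfl)

theorem uniq {x y : D.T} {u : PP K W} (hx : u ∈ D.A x) (hy : u ∈ D.A y)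
    (hN : x.1.1 = y.1.1) (hr : D.Rep u x.1.1 x.1.2 y.1.2) : x = y := by
  have h1 := uniq_aux hx hy hN hr
  have h2 := uniq_aux hy hx hN.symm (by rw [← hN]; exact rep_symm hr)
  exact Subtype.ext (Prod.ext hN (le_antisymm (not_lt.1 h1) (not_lt.1 h2)))

end

theorem isTree (h1 : ∀ (K W : Type) [LinearOrder K] [WellFoundedLT K] [Cod K] [LinearOrder W] [WellFoundedLT W], S_ct K W)
    (h2 : ∀ (K W : Type) [LinearOrder K] [WellFoundedLT K] [Cod K] [LinearOrder W] [WellFoundedLT W], S_cov K W)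
    (h3 : ∀ (K : Type) [LinearOrder K] [WellFoundedLT K] [Cod K], S_irrefl K) (h4 : ∀ (K : Type) [LinearOrder K] [WellFoundedLT K] [Cod K], S_dl K) : S_isTree := by
  intro K W L _ _ _ _ _ D hD q0
  have hct := h1 K W
  have hcov : Cov (PP K W) := h2 K W
  have hirr := h3 K
  obtain ⟨ct1, ct2, ct3, ct4⟩ := hct
  have hct : S_ct K W := h1 K W
  have hτ := hD.tr
  have hnode : ∀ {N : Set K} {u : PP K W}, u ∈ CT D.τ N → Node N := fun h => (ct2 _ _ _ hτ h).1
  have hsub : ∀ {N N' : Set K} {u : PP K W}, u ∈ CT D.τ N → u ∈ CT D.τ N' → cd N ∈ N' → N ⊆ N' :=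
    fun h h' hc => (hnode h').sub _ (hnode h).ctbl hc
  have htree : ∀ u : PP K W, ∀ s s' t, u ∈ D.A s → u ∈ D.A s' → u ∈ D.A t → u ∈ D.lt s t →
      u ∈ D.lt s' t → s = s' ∨ u ∈ D.lt s s' ∨ u ∈ D.lt s' s := by
    intro u s s' t hs hs' ht hst hs't
    obtain ⟨a1, a2, a3, a4⟩ := hst
    obtain ⟨b1, b2, b3, b4⟩ := hs't
    rcases ct3 D.τ s.1.1 s'.1.1 u hτ a1 b1 with h | h | h
    · left
      refine uniq hs hs' h (rep_trans a4 (rep_symm ?_))
      rw [h]
      exact b4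
    · right; left
      exact ⟨a1, b1, h, rep_trans a4 (rep_symm (rep_mono b4 le_rfl (hsub a1 b1 h)))⟩
    · right; right
      exact ⟨b1, a1, h, rep_trans b4 (rep_symm (rep_mono a4 le_rfl (hsub b1 a1 h)))⟩
  have hirr' : ∀ s t : D.T, s.1.1 = t.1.1 → ∀ u : PP K W, u ∉ D.lt s t := by
    rintro s t hst u ⟨a1, a2, a3, a4⟩
    rw [← hst] at a3
    exact hirr _ (hnode a1) a3
  have hcount : ∀ N : Set K, N.Countable → {M : Set K | M.Countable ∧ cd M ∈ N}.Countable := by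
    intro N hN
    have h5 : Set.InjOn (cd : Set K → K) {M : Set K | M.Countable ∧ cd M ∈ N} :=
      fun M hM M' hM' he => Cod.cd_inj M M' hM.1 hM'.1 he
    refine (Set.MapsTo.countable_of_injOn (t := N) ?_ h5 hN)
    intro M hM
    exact hM.2
  refine ⟨fun t => down_A hct t, fun s t => down_lt hct s t, fun t u _ => hirr' t t rfl u, ?_, ?_, ?_⟩
  · -- tree
    intro u _ s s' t hs hs' ht hst hs't
    rcases htree u s s' t hs hs' ht hst hs't with h | h | h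
    · exact Or.inl h
    · exact Or.inr ⟨u, le_rfl, Or.inl h⟩
    · exact Or.inr ⟨u, le_rfl, Or.inr h⟩
  · -- pred
    intro t u _ hut
    have hNt := hnode hut.1
    obtain ⟨u', hu', Z, hZ, hZ'⟩ := cov_unique hcov {M : Set K | M.Countable ∧ cd M ∈ t.1.1}
      (hcount _ hNt.ctbl) (fun (N : Set K) (s : D.T) => {e | s.1.1 = N ∧ e ∈ D.A s ∧ e ∈ D.lt s t})
      (fun N s e he e' hle => ⟨he.1, down_A hct s e he.2.1 e' hle, down_lt hct s t e he.2.2 e' hle⟩)
      u (by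
        intro N _ s s' v hv hs hs'
        rcases htree v s s' t hs.2.1 hs'.2.1 (down_A hct t u hut v hv) hs.2.2 hs'.2.2 with h | h | h
        · exact h
        · exact absurd h (hirr' s s' (hs.1.trans hs'.1.symm) v)
        · exact absurd h (hirr' s' s (hs'.1.trans hs.1.symm) v))
    refine ⟨u', hu', Z, hZ, ?_⟩
    intro s v hv hs hst
    exact hZ' s.1.1 ⟨s.2.1, hst.2.2.1⟩ s v hv ⟨rfl, hs, hst⟩
  · -- chain
    intro B hB hBA hBc u hu
    by_contra hcon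
    push Not at hcon
    -- comparability at each condition
    have hcomp : ∀ v ≤ q0, ∀ s t, v ∈ B s → v ∈ B t → s.1.1 = t.1.1 → s = t := by
      intro v hv s t hs ht hst
      rcases hBc v hv s t hs ht with h | ⟨w, _, h | h⟩
      · exact h
      · exact absurd h (hirr' s t hst w)
      · exact absurd h (hirr' t s hst.symm w)
    -- (a)
    have ha : ∀ N0 : Set K, ∀ u1 ≤ u, u1 ∈ CT D.τ N0 → ∃ u' ≤ u1, ∃ t : D.T, u' ∈ B t ∧
        cd N0 ∈ t.1.1 := by
      intro N0 u1 hu1 hN0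
      by_contra hno
      push Not at hno
      have hN0c := (hnode hN0).ctbl
      obtain ⟨u', hu', Z, hZ, hZ'⟩ := cov_unique hcov
        (insert N0 {M : Set K | M.Countable ∧ cd M ∈ N0}) ((hcount _ hN0c).insert _)
        (fun (N : Set K) (s : D.T) => {e | s.1.1 = N ∧ e ∈ B s})
        (fun N s e he e' hle => ⟨he.1, hB s e he.2 e' hle⟩) u1 (by
          intro N _ s s' v hv hs hs'
          exact hcomp v (hv.trans (hu1.trans hu)) s s' hs.2 hs'.2 (hs.1.trans hs'.1.symm))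
      obtain ⟨t, htZ, v, hv, hvt⟩ := hcon u' (hu'.trans hu1) Z hZ
      apply htZ
      refine hZ' t.1.1 ?_ t v hv ⟨rfl, hvt⟩
      have hvA := hBA t hvt
      rcases ct3 D.τ t.1.1 N0 v hτ hvA.1 (ct1 _ _ u1 hN0 v (hv.trans hu')) with h | h | h
      · rw [h]; exact mem_insert _ _
      · exact mem_insert_of_mem _ ⟨t.2.1, h⟩
      · exact absurd h (hno v (hv.trans hu') t hvt)
    -- (b)
    let d : L → Set (PP K W) := fun l => {v | ∃ t : D.T, v ∈ B t ∧ l ∈ D.aN t.1.1 ∧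
      ∃ y, D.h t.1.2 = Sum.inr y ∧ v ∈ meets (y l)}
    have hb : ∀ v ≤ q0, ∀ t : D.T, v ∈ B t → ∀ y, D.h t.1.2 = Sum.inr y →
        EqOn v (D.aN t.1.1) d y := by
      intro v hv t hvt y hy l hl q' hq'
      constructor
      · intro hd r hr
        obtain ⟨r1, hr1, s, ⟨t', hst', hl', y', hy', hsy'⟩, hr1s⟩ := hd r hr
        have g1 : r1 ∈ B t' := hB t' s hst' r1 hr1s
        have g2 : r1 ∈ B t := hB t v hvt r1 (hr1.trans (hr.trans hq'))
        have g3 : r1 ≤ q0 := hr1.trans (hr.trans (hq'.trans hv))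
        have fin : ∀ w ≤ r1, w ∈ meets (y l) → ∃ r' ≤ r, ∃ s ∈ y l, r' ≤ s := by
          intro w hw hwy
          obtain ⟨r', hr', s', hs', hle⟩ := hwy w le_rfl
          exact ⟨r', hr'.trans (hw.trans hr1), s', hs', hle⟩
        rcases hBc r1 g3 t t' g2 g1 with h | ⟨w, hw, h | h⟩
        · subst h
          have e : y = y' := Sum.inr_injective (hy.symm.trans hy')
          subst e
          exact fin r1 le_rfl (down_meets _ s hsy' r1 hr1s)
        · obtain ⟨_, _, _, z, z', hz, hz', hE⟩ := h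
          have e1 : z = y := Sum.inr_injective (hz.symm.trans hy)
          have e2 : z' = y' := Sum.inr_injective (hz'.symm.trans hy')
          subst e1 e2
          exact fin w hw ((hE l hl w le_rfl).2 (down_meets _ s hsy' w (hw.trans hr1s)))
        · obtain ⟨_, _, _, z, z', hz, hz', hE⟩ := h
          have e1 : z = y' := Sum.inr_injective (hz.symm.trans hy')
          have e2 : z' = y := Sum.inr_injective (hz'.symm.trans hy)
          subst e1 e2
          exact fin w hw ((hE l hl' w le_rfl).1 (down_meets _ s hsy' w (hw.trans hr1s)))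
      · intro hy'
        exact meets_of_mem ⟨t, hB t v hvt q' hq', hl, y, hy, hy'⟩
    -- (c)
    have hc : D.t.Approx u d := by
      intro a hac haL q' hq'
      have hk : ∀ l : L, ∃ k : K, l ∈ a → k < D.τ ∧ D.h k = Sum.inl l := by
        intro l
        by_cases hl : l ∈ a
        · obtain ⟨k, hk, hk'⟩ := hD.hL l (haL hl)
          exact ⟨k, fun _ => ⟨hk, hk'⟩⟩
        · obtain ⟨t, -⟩ := hcon u le_rfl ∅ countable_empty
          exact ⟨t.1.2, fun h => absurd h hl⟩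
      choose kf hkf using hk
      obtain ⟨v, hv, _, N0, hbN, hvN⟩ := ct4 D.τ (kf '' a) q' hτ (hac.image _) (by
        rintro _ ⟨l, hl, rfl⟩
        exact (hkf l hl).1)
      obtain ⟨q'', hq'', t, htB, htN⟩ := ha N0 v (hv.trans hq') hvN
      have htA := hBA t htB
      obtain ⟨y, hy⟩ := htA.2.1
      have hN0t : N0 ⊆ t.1.1 := (hnode htA.1).sub _ (hnode hvN).ctbl htN
      refine ⟨q'', hq''.trans hv, y, hD.hN' _ t.2.2.2 y hy, ?_⟩
      refine eqOn_mono (hb q'' (hq''.trans (hv.trans (hq'.trans hu))) t htB y hy) le_rfl ?_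
      intro l hl
      exact ⟨kf l, hN0t (hbN ⟨l, hl, rfl⟩), (hkf l hl).2⟩
    -- (d)
    obtain ⟨u1, hu1, y, hyN, hyE⟩ := hD.guess u d hc u le_rfl
    obtain ⟨η, hη, hηy⟩ := hD.hN y hyN
    obtain ⟨u2, hu2, _, Nη, hNη, hu2N⟩ := ct4 D.τ {η} u1 hτ (countable_singleton _)
      (singleton_subset_iff.2 hη)
    have hηN : η ∈ Nη := hNη rfl
    have hu2q : u2 ≤ q0 := hu2.trans (hu1.trans hu)
    have hd : ∀ v ≤ u2, ∀ t : D.T, v ∈ B t → t.1.2 ∈ Nη := by
      intro v hv t hvt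
      have hvA := hBA t hvt
      obtain ⟨yt, hyt⟩ := hvA.2.1
      have hsubL : D.aN t.1.1 ⊆ D.t.mL := by
        rintro l ⟨k, hk, hkl⟩
        exact hD.hL' k (t.2.2.1 hk) l hkl
      have hrep : D.Rep v t.1.1 η t.1.2 :=
        ⟨y, yt, hηy, hyt, eqOn_trans (eqOn_symm (eqOn_mono hyE (hv.trans hu2) hsubL))
          (hb v (hv.trans hu2q) t hvt yt hyt)⟩
      by_contra hno
      exact hvA.2.2.1 v le_rfl η ⟨Nη, ct1 _ _ u2 hu2N v hv, hηN, hno⟩ hrep
    -- (e)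
    have he : ∀ v ≤ u2, ∀ s t : D.T, v ∈ B s → v ∈ B t → s.1.2 = t.1.2 → ¬ cd s.1.1 ∈ t.1.1 := by
      intro v hv s t hs ht hst hcd
      have hsA := hBA s hs
      have htA := hBA t ht
      obtain ⟨v', hv', ξ, hξ1, hξ2⟩ := htA.2.2.2.2 v le_rfl s.1.1 s.2.1 hcd hsA.1
      rw [← hst] at hξ1 hξ2
      exact hsA.2.2.1 v' hv' ξ hξ1 hξ2
    obtain ⟨u3, hu3, Z, hZ, hZ'⟩ := cov_unique hcov Nη (hnode hu2N).ctbl
      (fun (ξ : K) (s : D.T) => {e | s.1.2 = ξ ∧ e ∈ B s})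
      (fun ξ s e he' e' hle => ⟨he'.1, hB s e he'.2 e' hle⟩) u2 (by
        intro ξ _ s s' v hv hs hs'
        have hst : s.1.2 = s'.1.2 := hs.1.trans hs'.1.symm
        rcases ct3 D.τ s.1.1 s'.1.1 v hτ (hBA s hs.2).1 (hBA s' hs'.2).1 with h | h | h
        · exact Subtype.ext (Prod.ext h hst)
        · exact absurd h (he v hv s s' hs.2 hs'.2 hst)
        · exact absurd h (he v hv s' s hs'.2 hs.2 hst.symm))
    obtain ⟨t, htZ, v, hv, hvt⟩ := hcon u3 (hu3.trans (hu2.trans hu1)) Z hZ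
    exact htZ (hZ' t.1.2 (hd v (hv.trans hu3) t hvt) t v hv ⟨rfl, hvt⟩)

end Pool.Agent.H915.Tr
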