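import Pool.Agent.H915.Stmts3

/-!
# Guessing: setup
-/

set_option autoImplicit false

namespace Pool.Agent.H915.Tt

open Cardinal Set Pool.Agent.Helper669.Forcing


open Pool.Agent.W910.LC (Supercompact)
open Pool.Agent.W873.Tp (NormalFine)

section
variable {K W L : Type} [LinearOrder K] [WellFoundedLT K] [Cod K] [LinearOrder W] [WellFoundedLT W]

theorem comp_le {t : Trace K W L} {m m' : PP K W} {s : C0 K} (h : m' ≤ m) (hc : Comp t m s) :
    Comp t m' s := ⟨hc.1, le_trans h.1 hc.2⟩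

theorem eqOn_le {P L' : Type} [Preorder P] {q q' : P} {a : Set L'} {x y : L' → Set P} (h : q' ≤ q)
    (he : EqOn q a x y) : EqOn q' a x y := fun l hl r hr => he l hl r (hr.trans h)

theorem eqOn_trans {P L' : Type} [Preorder P] {q : P} {a : Set L'} {x y z : L' → Set P}
    (h : EqOn q a x y) (h' : EqOn q a y z) : EqOn q a x z :=
  fun l hl r hr => (h l hl r hr).trans (h' l hl r hr)

theorem eqOn_symm {P L' : Type} [Preorder P] {q : P} {a : Set L'} {x y : L' → Set P}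
    (h : EqOn q a x y) : EqOn q a y x :=
  fun l hl r hr => (h l hl r hr).symm

theorem psi_le {t : Trace K W L} {p : PP K W} {d : L → Set (PP K W)} {m m' : PP K W} {s : C0 K}
    {a : Set L} {y : L → Set (PP K W)} (h : m' ≤ m) (hp : Psi t p d m s a y) :
    Psi t p d m' s a y := fun m'' h'' => hp m'' (h''.trans h)

end

theorem setup (h1 : S_ok) (h2 : ∀ (K W : Type) [LinearOrder K] [WellFoundedLT K] [Cod K] [LinearOrder W] [WellFoundedLT W], S_K1 K W) (h3 : ∀ (K W : Type) [LinearOrder K] [WellFoundedLT K] [Cod K] [LinearOrder W] [WellFoundedLT W], S_g3 K W) : S_setup := by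
  intro κ _ _ hκ L U hU hG
  have hok := h1 κ hκ L U hU
  rw [← Ultrafilter.eventually_not] at hG
  have key : ∀ᶠ X in (U : Filter (Set (Uni (Kp κ) (Wp κ) L))), ∃ a ∈ X,
      ∃ m : PP (Kp κ) (Wp κ), a = Sum.inr (Sum.inl m) ∧
      ∃ (v : PP (Kp κ) (Wp κ)) (d : L → Set (PP (Kp κ) (Wp κ))) (s : C0 (Kp κ)),
        (trU X).α ∈ v.1.base.A ∧ Comp (trU X) m s ∧
        (∀ a : Set L, a.Countable → a ⊆ (trU X).mL → ∀ m' ≤ m, (trU X).In m' →
          ∃ m'' ≤ m', (trU X).In m'' ∧ ∃ y ∈ (trU X).mN, Psi (trU X) v d m'' s a y) ∧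
        ∀ q ≤ v, ∀ y ∈ (trU X).mN, ¬ EqOn q (trU X).mL d y := by
    filter_upwards [hok, hG] with X hX hGX
    obtain ⟨hXok, hmem, hctb⟩ := hX
    simp only [Trace.Guess, not_forall] at hGX
    obtain ⟨q, d, happ, q', hq', hno⟩ := hGX
    push Not at hno
    obtain ⟨v, hv, hvA, -⟩ := h3 (Kp κ) (Wp κ) q' (trU X).α hXok.tr
    have happ' : (trU X).Approx v d := fun a ha ha' r hr => happ a ha ha' r (hr.trans (hv.trans hq'))
    obtain ⟨s, m, hm, hcm, hstep⟩ := h2 (Kp κ) (Wp κ) L (trU X) hXok v d hvA happ'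
    refine ⟨Sum.inr (Sum.inl m), (hmem m).2 hm, m, rfl, v, d, s, hvA, hcm, hstep, ?_⟩
    intro r hr y hy
    exact hno r (hr.trans hv) y hy
  obtain ⟨a, ha⟩ := hU.const key
  obtain ⟨X0, m1, rfl, -⟩ := ha.exists
  have ha' : ∀ᶠ X in (U : Filter (Set (Uni (Kp κ) (Wp κ) L))),
      ∃ w : PP (Kp κ) (Wp κ) × (L → Set (PP (Kp κ) (Wp κ))) × C0 (Kp κ),
        (trU X).α ∈ w.1.1.base.A ∧ Comp (trU X) m1 w.2.2 ∧
        (∀ a : Set L, a.Countable → a ⊆ (trU X).mL → ∀ m' ≤ m1, (trU X).In m' →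
          ∃ m'' ≤ m', (trU X).In m'' ∧ ∃ y ∈ (trU X).mN, Psi (trU X) w.1 w.2.1 m'' w.2.2 a y) ∧
        ∀ q ≤ w.1, ∀ y ∈ (trU X).mN, ¬ EqOn q (trU X).mL w.2.1 y := by
    filter_upwards [ha] with X hX
    obtain ⟨m, hm, v, d, s, h⟩ := hX
    have hm' : m1 = m := Sum.inl.inj (Sum.inr.inj hm)
    subst hm'
    exact ⟨(v, d, s), h⟩
  obtain ⟨f, hf⟩ := ha'.choice
  refine ⟨fun X => (f X).1, fun X => (f X).2.1, fun X => (f X).2.2, m1, ?_, ?_⟩
  · exact
      { nf := hU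
        ok := hok.mono fun X h => h.1
        mem := hok.mono fun X h => h.2.1
        ctb := hok.mono fun X h => h.2.2
        al := hf.mono fun X h => h.1
        cmp := hf.mono fun X h => h.2.1
        one := hf.mono fun X h => h.2.2.1 }
  · exact hf.mono fun X h => h.2.2.2

section tt

variable {κ : Cardinal.{0}} {K W L : Type} [LinearOrder K] [WellFoundedLT K] [Cod K]
  [LinearOrder W] [WellFoundedLT W] [Nonempty K]
  {U : Ultrafilter (Set (Uni K W L))} {p : Set (Uni K W L) → PP K W}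
  {d : Set (Uni K W L) → L → Set (PP K W)} {s : Set (Uni K W L) → C0 K} {m1 : PP K W}

/-- a condition belongs to almost all models -/
theorem in_ae (S : Setup κ U p d s m1) (m : PP K W) :
    ∀ᶠ X in (U : Filter (Set (Uni K W L))), (trU X).In m := by
  filter_upwards [S.mem, S.nf.fine (Sum.inr (Sum.inl m))] with X h h'
  exact (h m).1 h'

/-- countable completeness -/
theorem ae_nat (hκ : ℵ₀ < κ) (S : Setup κ U p d s m1) {φ : ℕ → Set (Uni K W L) → Prop}
    (h : ∀ n, ∀ᶠ X in (U : Filter (Set (Uni K W L))), φ n X) :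
    ∀ᶠ X in (U : Filter (Set (Uni K W L))), ∀ n, φ n X :=
  S.nf.complete ℕ φ (by simpa using hκ) h

/-- countable sets are contained in almost all models -/
theorem sub_ae (hκ : ℵ₀ < κ) (S : Setup κ U p d s m1) (D : Set L) (hD : D.Countable) :
    ∀ᶠ X in (U : Filter (Set (Uni K W L))), D ⊆ (trU X).mL := by
  rcases D.eq_empty_or_nonempty with rfl | hne
  · exact Filter.Eventually.of_forall fun X => empty_subset _
  · obtain ⟨f, rfl⟩ := hD.exists_eq_range hne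
    have h := ae_nat hκ S fun n => S.nf.fine (Sum.inr (Sum.inr (Sum.inl (f n))))
    filter_upwards [h] with X hX
    rintro _ ⟨n, rfl⟩
    exact hX n

theorem tt_le {D : Set L} {B : L → Set (PP K W)} {m m' : PP K W} (h : m' ≤ m)
    (hT : TT U p d s D B m) : TT U p d s D B m' :=
  Filter.Eventually.mono hT fun _ hX => psi_le h hX

theorem tt_sub {D D' : Set L} {B : L → Set (PP K W)} {m : PP K W} (h : D' ⊆ D)
    (hT : TT U p d s D B m) : TT U p d s D' B m :=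
  Filter.Eventually.mono hT fun _ hX m' hm' hin s' hs' hc => by
    obtain ⟨q', h1, h2, h3, h4⟩ := hX m' hm' hin s' hs' hc
    exact ⟨q', h1, h2, h3, fun l hl => h4 l (h hl)⟩

theorem tt_eq {D : Set L} {B B' : L → Set (PP K W)} {m : PP K W} (h : EqOn m D B B')
    (hT : TT U p d s D B m) : TT U p d s D B' m :=
  Filter.Eventually.mono hT fun _ hX m' hm' hin s' hs' hc => by
    obtain ⟨q', h1, h2, h3, h4⟩ := hX m' hm' hin s' hs' hc
    exact ⟨q', h1, h2, h3, eqOn_trans h4 (eqOn_le (h2.trans hm') h)⟩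

theorem tt_dense (S : Setup κ U p d s m1) {D : Set L} {B : L → Set (PP K W)} {m : PP K W}
    (h : ∀ m' ≤ m, ∃ m'' ≤ m', TT U p d s D B m'') : TT U p d s D B m := by
  classical
  have h' : ∀ m' : PP K W, ∃ m'' : PP K W, m' ≤ m → m'' ≤ m' ∧ TT U p d s D B m'' := by
    intro m'
    by_cases hm : m' ≤ m
    · obtain ⟨m'', h1, h2⟩ := h m' hm
      exact ⟨m'', fun _ => ⟨h1, h2⟩⟩
    · exact ⟨m', fun hm' => absurd hm' hm⟩
  choose g hg using h'
  have hdiag : ∀ᶠ X in (U : Filter (Set (Uni K W L))), ∀ a ∈ X, ∀ m' : PP K W,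
      a = Sum.inr (Sum.inl m') → m' ≤ m →
        (trU X).In (g m') ∧ Psi (trU X) (p X) (d X) (g m') (s X) D B := by
    apply S.nf.diag
    intro a
    by_cases ha : ∃ m' : PP K W, a = Sum.inr (Sum.inl m') ∧ m' ≤ m
    · obtain ⟨m', rfl, hm'⟩ := ha
      filter_upwards [(hg m' hm').2, in_ae S (g m')] with X hX hin m'' hm'' _
      have : m' = m'' := Sum.inl.inj (Sum.inr.inj hm'')
      subst this
      exact ⟨hin, hX⟩
    · refine Filter.Eventually.of_forall fun X m' h1 h2 => ?_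
      exact absurd ⟨m', h1, h2⟩ ha
  filter_upwards [hdiag, S.mem] with X hX hmem m' hm' hin s' hs' hc
  obtain ⟨h1, h2⟩ := hX _ ((hmem m').2 hin) m' rfl hm'
  obtain ⟨q', h3, h4, h5, h6⟩ := h2 (g m') le_rfl h1 s' hs' (comp_le (hg m' hm').1 hc)
  exact ⟨q', h3, h4.trans (hg m' hm').1, h5, h6⟩

theorem tt_cap (h1 : S_gc K W) (hκ : ℵ₀ < κ) (S : Setup κ U p d s m1) (D : Set L) (m : PP K W)
    (hm : m ≤ m1) : ∃ m2 ≤ m, ∃ C : Set (L → Set (PP K W)), C.Countable ∧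
      ∀ m' ≤ m2, ∀ B, TT U p d s D B m' → ∃ m'' ≤ m', ∃ B' ∈ C, EqOn m'' D B B' := by
  have key : ∀ᶠ X in (U : Filter (Set (Uni K W L))), ∃ a ∈ X, ∃ m2 : PP K W,
      a = Sum.inr (Sum.inl m2) ∧ m2 ≤ m ∧ ∃ e : ℕ → L → Set (PP K W),
        (∀ n, e n ∈ (trU X).mN) ∧ ∀ m' ≤ m2, (trU X).In m' → ∀ y ∈ (trU X).mN,
          Psi (trU X) (p X) (d X) m' (s X) D y → ∃ n, ∃ v ≤ m', EqOn v D y (e n) := by
    filter_upwards [S.ok, S.mem, S.cmp, in_ae S m,
      S.nf.fine (Sum.inr (Sum.inr (Sum.inr (Sum.inr fun _ => ∅))))] with X hok hmem hcmp hin hne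
    have hne' : (fun _ : L => (∅ : Set (PP K W))) ∈ (trU X).mN := hne
    obtain ⟨m2, hm2, hin2, Z0, hZ0, hcap⟩ := h1 L (trU X) hok (p X) (d X) (s X) m
      {y // y ∈ (trU X).mN} (fun _ => univ) (fun _ => D) (fun z => z.1)
      (fun _ _ _ _ _ => mem_univ _) hin (comp_le hm hcmp)
    have he : ∃ e : ℕ → {y // y ∈ (trU X).mN}, Z0 ⊆ range e := by
      rcases Z0.eq_empty_or_nonempty with rfl | hn
      · exact ⟨fun _ => ⟨_, hne'⟩, empty_subset _⟩
      · obtain ⟨f, hf⟩ := hZ0.exists_eq_range hn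
        exact ⟨f, hf.le⟩
    obtain ⟨e, he⟩ := he
    refine ⟨_, (hmem m2).2 hin2, m2, rfl, hm2, fun n => (e n).1, fun n => (e n).2, ?_⟩
    intro m' hm' hin' y hy hpsi
    obtain ⟨z', hz', v, hv, -, -, hv1, hv2⟩ := hcap m' hm' hin' ⟨y, hy⟩ (mem_univ _) hpsi
    obtain ⟨n, rfl⟩ := he hz'
    exact ⟨n, v, hv, eqOn_trans (eqOn_symm hv1) hv2⟩
  obtain ⟨a, ha⟩ := S.nf.const key
  obtain ⟨X0, m2, rfl, hm2, -⟩ := ha.exists
  have ha' : ∀ᶠ X in (U : Filter (Set (Uni K W L))), ∃ e : ℕ → L → Set (PP K W),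
        (∀ n, e n ∈ (trU X).mN) ∧ ∀ m' ≤ m2, (trU X).In m' → ∀ y ∈ (trU X).mN,
          Psi (trU X) (p X) (d X) m' (s X) D y → ∃ n, ∃ v ≤ m', EqOn v D y (e n) := by
    filter_upwards [ha] with X hX
    obtain ⟨m, hmm, -, h⟩ := hX
    have hm' : m2 = m := Sum.inl.inj (Sum.inr.inj hmm)
    subst hm'
    exact h
  obtain ⟨e, he⟩ := ha'.choice
  have hB : ∀ n, ∃ B : L → Set (PP K W), ∀ᶠ X in (U : Filter (Set (Uni K W L))), e X n = B := by
    intro n
    have h2 : ∀ᶠ X in (U : Filter (Set (Uni K W L))), ∃ a ∈ X,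
        a = Sum.inr (Sum.inr (Sum.inr (Sum.inr (e X n)))) := by
      filter_upwards [he] with X hX
      exact ⟨_, hX.1 n, rfl⟩
    obtain ⟨a, ha⟩ := S.nf.const h2
    obtain ⟨X0, hX0⟩ := ha.exists
    refine ⟨e X0 n, ?_⟩
    filter_upwards [ha] with X hX
    rw [hX0] at hX
    exact (Sum.inr.inj (Sum.inr.inj (Sum.inr.inj (Sum.inr.inj hX)))).symm
  choose B hB using hB
  have hB' := ae_nat hκ S hB
  refine ⟨m2, hm2, range B, countable_range B, ?_⟩
  intro m' hm' B' hT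
  have hall : ∀ᶠ X in (U : Filter (Set (Uni K W L))), ∃ n, ∃ v ≤ m', EqOn v D B' (B n) := by
    filter_upwards [he, hB', hT, in_ae S m',
      S.nf.fine (Sum.inr (Sum.inr (Sum.inr (Sum.inr B'))))] with X hX hBX hpsi hin hB'
    obtain ⟨n, v, hv, hev⟩ := hX.2 m' hm' hin B' hB' hpsi
    exact ⟨n, v, hv, by rw [← hBX n]; exact hev⟩
  obtain ⟨X, n, v, hv, hev⟩ := hall.exists
  exact ⟨v, hv, B n, ⟨n, rfl⟩, hev⟩

theorem tt_one (hκ : ℵ₀ < κ) (S : Setup κ U p d s m1) (D : Set L) (hD : D.Countable) (m : PP K W)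
    (hm : m ≤ m1) : ∃ m' ≤ m, ∃ B, TT U p d s D B m' := by
  have key : ∀ᶠ X in (U : Filter (Set (Uni K W L))), ∃ a ∈ X, ∃ m' : PP K W,
      a = Sum.inr (Sum.inl m') ∧ m' ≤ m ∧ ∃ b ∈ X, ∃ y : L → Set (PP K W),
        b = Sum.inr (Sum.inr (Sum.inr (Sum.inr y))) ∧
          Psi (trU X) (p X) (d X) m' (s X) D y := by
    filter_upwards [S.mem, S.one, in_ae S m, sub_ae hκ S D hD] with X hmem hone hin hsub
    obtain ⟨m', hm', hin', y, hy, hpsi⟩ := hone D hD hsub m hm hin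
    exact ⟨_, (hmem m').2 hin', m', rfl, hm', _, hy, y, rfl, hpsi⟩
  obtain ⟨a, ha⟩ := S.nf.const key
  obtain ⟨X0, m', rfl, hm', -⟩ := ha.exists
  have ha' : ∀ᶠ X in (U : Filter (Set (Uni K W L))), ∃ b ∈ X, ∃ y : L → Set (PP K W),
        b = Sum.inr (Sum.inr (Sum.inr (Sum.inr y))) ∧
          Psi (trU X) (p X) (d X) m' (s X) D y := by
    filter_upwards [ha] with X hX
    obtain ⟨m, hmm, -, h⟩ := hX
    have hm' : m' = m := Sum.inl.inj (Sum.inr.inj hmm)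
    subst hm'
    exact h
  obtain ⟨b, hb⟩ := S.nf.const ha'
  obtain ⟨X0, B, rfl, -⟩ := hb.exists
  refine ⟨m', hm', B, ?_⟩
  filter_upwards [hb] with X hX
  obtain ⟨y, hy, h⟩ := hX
  have hy' : B = y := Sum.inr.inj (Sum.inr.inj (Sum.inr.inj (Sum.inr.inj hy)))
  subst hy'
  exact h

/-- mixing -/
theorem tt_mix (hκ : ℵ₀ < κ) (S : Setup κ U p d s m1) (D : Set L) (hD : D.Countable) :
    ∃ B, TT U p d s D B m1 := by
  classical
  let G : Set (PP K W) := {m | m ≤ m1 ∧ ∃ B, TT U p d s D B m}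
  -- a maximal antichain
  obtain ⟨A, hA⟩ := zorn_subset {A : Set (PP K W) | A ⊆ G ∧ ∀ x ∈ A, ∀ y ∈ A, x ≠ y →
      ¬ ∃ r, r ≤ x ∧ r ≤ y} (by
    intro c hc hchain
    refine ⟨⋃₀ c, ⟨?_, ?_⟩, fun s hs => subset_sUnion_of_mem hs⟩
    · exact sUnion_subset fun s hs => (hc hs).1
    · rintro x ⟨s, hs, hx⟩ y ⟨s', hs', hy⟩ hxy
      rcases hchain.total hs hs' with h | h
      · exact (hc hs').2 x (h hx) y hy hxy
      · exact (hc hs).2 x hx y (h hy) hxy)
  have hAG := hA.prop.1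
  have hAA := hA.prop.2
  have hch : ∀ m : PP K W, ∃ B : L → Set (PP K W), m ∈ A → TT U p d s D B m := by
    intro m
    by_cases hm : m ∈ A
    · obtain ⟨B, hB⟩ := (hAG hm).2
      exact ⟨B, fun _ => hB⟩
    · exact ⟨fun _ => ∅, fun h => absurd h hm⟩
  choose b hb using hch
  let B : L → Set (PP K W) := fun l => {u | ∃ m ∈ A, u ≤ m ∧ u ∈ meets (b m l)}
  have hBe : ∀ m ∈ A, EqOn m D (b m) B := by
    intro m hm l _ q' hq'
    constructor
    · intro h q hq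
      exact ⟨q, le_rfl, q, ⟨m, hm, hq.trans hq', down_meets _ q' h q hq⟩, le_rfl⟩
    · intro h q hq
      obtain ⟨r, hr, u, ⟨m', hm', hum', hu⟩, hru⟩ := h q hq
      have hmm : m' = m := by
        by_contra hne
        exact hAA m' hm' m hm hne ⟨r, hru.trans hum', hr.trans (hq.trans hq')⟩
      subst hmm
      obtain ⟨r', hr', w, hw, hrw⟩ := hu r hru
      exact ⟨r', hr'.trans hr, w, hw, hrw⟩
  refine ⟨B, tt_dense S ?_⟩
  intro m' hm'
  obtain ⟨m'', hm'', B', hT⟩ := tt_one hκ S D hD m' hm'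
  have hcomp : ∃ m ∈ A, ∃ r, r ≤ m'' ∧ r ≤ m := by
    by_contra hcon
    push Not at hcon
    have hmem : m'' ∈ A := by
      have hins : insert m'' A ∈ {A : Set (PP K W) | A ⊆ G ∧ ∀ x ∈ A, ∀ y ∈ A, x ≠ y →
          ¬ ∃ r, r ≤ x ∧ r ≤ y} := by
        constructor
        · exact insert_subset ⟨hm''.trans hm', B', hT⟩ hAG
        · rintro x (rfl | hx) y (rfl | hy) hxy
          · exact absurd rfl hxy
          · rintro ⟨r, h1, h2⟩
            exact hcon y hy r h1 h2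
          · rintro ⟨r, h1, h2⟩
            exact hcon x hx r h2 h1
          · exact hAA x hx y hy hxy
      exact hA.le_of_ge hins (subset_insert _ _) (mem_insert _ _)
    exact hcon m'' hmem m'' le_rfl le_rfl
  obtain ⟨m, hm, r, hr1, hr2⟩ := hcomp
  exact ⟨r, hr1.trans hm'', tt_eq (eqOn_le hr2 (hBe m hm)) (tt_le hr2 (hb m hm))⟩

end tt

theorem tt (h1 : ∀ (K W : Type) [LinearOrder K] [WellFoundedLT K] [Cod K] [LinearOrder W] [WellFoundedLT W], S_gc K W) (h2 : ∀ (K W : Type) [LinearOrder K] [WellFoundedLT K] [Cod K] [LinearOrder W] [WellFoundedLT W], S_nam K W)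
    (h3 : ∀ (K W : Type) [LinearOrder K] [WellFoundedLT K] [Cod K] [LinearOrder W] [WellFoundedLT W], S_g1 K W) : S_tt := by
  intro κ _ _ hκ L U p d s m1 S
  have hκ0 : ℵ₀ < κ := hκ.1.aleph0_lt
  exact ⟨fun D B m m' h hT => tt_le h hT, fun D D' B m h hT => tt_sub h hT,
    fun D B B' m h hT => tt_eq h hT, fun D B m h => tt_dense S h,
    fun D _ m hm => tt_cap (h1 _ _) hκ0 S D m hm, fun D hD m hm => tt_one hκ0 S D hD m hm,
    fun D hD => tt_mix hκ0 S D hD⟩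

end Pool.Agent.H915.Tt

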