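import Pool.Agent.H915.Stmts3

/-!
# Guessing: capturing
-/

set_option autoImplicit false

namespace Pool.Agent.H915.Ttb

open Cardinal Set Pool.Agent.Helper669.Forcing


open Pool.Agent.W910.LC (Supercompact)
open Pool.Agent.W873.Tp (NormalFine)

section
variable {K W L : Type} [LinearOrder K] [WellFoundedLT K] [Cod K] [LinearOrder W] [WellFoundedLT W]

theorem psi_mono {t : Trace K W L} {p : PP K W} {d : L → Set (PP K W)} {m m' : PP K W} {s : C0 K}
    {a : Set L} {y : L → Set (PP K W)} (hm : m' ≤ m) (h : Psi t p d m s a y) :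
    Psi t p d m' s a y :=
  fun m'' hm'' hI s' hs' hC => h m'' (le_trans hm'' hm) hI s' hs' hC

theorem comp_mono {t : Trace K W L} {m m' : PP K W} {s : C0 K} (hm : m' ≤ m)
    (h : Comp t m s) : Comp t m' s :=
  ⟨h.1, le_trans (PP.le_def.1 hm).1 h.2⟩

variable [Nonempty K] {κ : Cardinal.{0}} {U : Ultrafilter (Set (Uni K W L))}
  {p : Set (Uni K W L) → PP K W} {d : Set (Uni K W L) → L → Set (PP K W)}
  {s : Set (Uni K W L) → C0 K} {m1 : PP K W}

/-- diagonal intersections over the conditions in the model -/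
theorem diagP (S : Setup κ U p d s m1) {Q : PP K W → Set (Uni K W L) → Prop}
    (hQ : ∀ m, ∀ᶠ X in (U : Filter (Set (Uni K W L))), Q m X) :
    ∀ᶠ X in (U : Filter (Set (Uni K W L))), ∀ m : PP K W, (trU X).In m → Q m X := by
  have h1 := S.nf.diag (Q := fun u X => ∀ m : PP K W, u = Sum.inr (Sum.inl m) → Q m X) (by
    intro u
    by_cases hu : ∃ m : PP K W, u = Sum.inr (Sum.inl m)
    · obtain ⟨m, rfl⟩ := hu
      refine (hQ m).mono fun X hX m' hm' => ?_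
      have e : m = m' := Sum.inl_injective (Sum.inr_injective hm')
      rw [← e]
      exact hX
    · exact Filter.Eventually.of_forall fun X m hm => absurd ⟨m, hm⟩ hu)
  refine (h1.and S.mem).mono fun X hX m hm => ?_
  exact hX.1 _ ((hX.2 m).2 hm) m rfl

/-- diagonal intersections over the countable subsets of the model -/
theorem diagS (S : Setup κ U p d s m1) {Q : Set L → Set (Uni K W L) → Prop}
    (hQ : ∀ a : Set L, a.Countable → ∀ᶠ X in (U : Filter (Set (Uni K W L))), Q a X) :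
    ∀ᶠ X in (U : Filter (Set (Uni K W L))), ∀ a : Set L, a.Countable → a ⊆ (trU X).mL →
      Q a X := by
  have h1 := S.nf.diag (Q := fun u X => ∀ a : Set L, a.Countable →
      u = Sum.inr (Sum.inr (Sum.inr (Sum.inl a))) → Q a X) (by
    intro u
    by_cases hu : ∃ a : Set L, a.Countable ∧ u = Sum.inr (Sum.inr (Sum.inr (Sum.inl a)))
    · obtain ⟨a, ha, rfl⟩ := hu
      refine (hQ a ha).mono fun X hX a' _ ha' => ?_
      have e : a = a' := Sum.inl_injective (Sum.inr_injective (Sum.inr_injective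
        (Sum.inr_injective ha')))
      rw [← e]
      exact hX
    · exact Filter.Eventually.of_forall fun X a hc ha => absurd ⟨a, hc, ha⟩ hu)
  refine (h1.and S.ctb).mono fun X hX a ha ha' => ?_
  exact hX.1 _ (hX.2 a ha ha') a ha rfl

theorem fineP (S : Setup κ U p d s m1) (m : PP K W) :
    ∀ᶠ X in (U : Filter (Set (Uni K W L))), (trU X).In m :=
  ((S.nf.fine (Sum.inr (Sum.inl m))).and S.mem).mono fun _ hX => (hX.2 m).1 hX.1

theorem fineD (S : Setup κ U p d s m1) (D : Set L) (hD : #D < κ) :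
    ∀ᶠ X in (U : Filter (Set (Uni K W L))), D ⊆ (trU X).mL := by
  have h := S.nf.complete D (fun l X => (Sum.inr (Sum.inr (Sum.inl (l : L))) : Uni K W L) ∈ X) hD
    fun l => S.nf.fine _
  exact h.mono fun X hX l hl => hX ⟨l, hl⟩

/-- a condition in the model is constant -/
theorem constP (S : Setup κ U p d s m1) {Q : Set (Uni K W L) → PP K W → Prop}
    (hQ : ∀ᶠ X in (U : Filter (Set (Uni K W L))), ∃ m, (trU X).In m ∧ Q X m) :
    ∃ m, ∀ᶠ X in (U : Filter (Set (Uni K W L))), Q X m := by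
  by_contra hc
  have h1 : ∀ m, ∀ᶠ X in (U : Filter (Set (Uni K W L))), ¬ Q X m := fun m => by
    rw [Ultrafilter.eventually_not]
    exact fun h => hc ⟨m, h⟩
  obtain ⟨X, ⟨m, h2, h3⟩, h4⟩ := (hQ.and (diagP S h1)).exists
  exact h4 m h2 h3

end

theorem ttgc (h1 : ∀ (K W : Type) [LinearOrder K] [WellFoundedLT K] [Cod K] [LinearOrder W] [WellFoundedLT W], S_gc K W) : S_ttgc := by
  intro κ _ _ hκ L U p d s m1 S Z A a y hZ hA hT m hm
  have hpsi := S.nf.complete Z (fun z X => Psi (trU X) (p X) (d X) m1 (s X) (a z) (y z)) hZ hT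
  have hX := (((hpsi.and S.ok).and (S.cmp.and S.al)).and (fineP S m)).mono
    (q := fun X => ∃ m2, (trU X).In m2 ∧ (m2 ≤ m ∧ ∃ Z0 : Set Z, Z0.Countable ∧
      ∀ m' ≤ m2, (trU X).In m' → ∀ z, m' ∈ A z →
      ∃ z' ∈ Z0, ∃ v : PP (Kp κ) (Wp κ), v ≤ m' ∧ v ∈ A z' ∧ EqOn v (a z ∩ a z') (y z) (y z'))) (by
    rintro X ⟨⟨⟨h2, h3⟩, h4, h5⟩, h6⟩
    obtain ⟨m2, hm2, hI, Z0, hZ0, h7⟩ := h1 _ _ L (trU X) h3 (p X) (d X) (s X) m Z A a y hA h6
      (comp_mono hm h4)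
    refine ⟨m2, hI, hm2, Z0, hZ0, fun m' hm' hI' z hz => ?_⟩
    obtain ⟨z', hz', v, hv, -, hv', h8, h9⟩ := h7 m' hm' hI' z hz
      (psi_mono (le_trans hm' (le_trans hm2 hm)) (h2 z))
    refine ⟨z', hz', v, hv, hv', fun l hl q' hq' => ?_⟩
    exact (h8 l hl.1 q' hq').symm.trans (h9 l hl.2 q' hq'))
  obtain ⟨m2, hm2⟩ := constP S hX
  have hSet : #(Set Z) < κ := by
    rw [Cardinal.mk_set]
    exact hκ.1.isStrongLimit.isStrongPrelimit hZ
  have hX2 : ∃ Z0 : Set Z, Z0.Countable ∧ ∀ᶠ X in (U : Filter (Set (Uni (Kp κ) (Wp κ) L))),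
      ∀ m' ≤ m2, (trU X).In m' → ∀ z, m' ∈ A z →
      ∃ z' ∈ Z0, ∃ v : PP (Kp κ) (Wp κ), v ≤ m' ∧ v ∈ A z' ∧ EqOn v (a z ∩ a z') (y z) (y z') := by
    by_contra hc
    have h2 := S.nf.complete (Set Z) (fun Z0 X => ¬ (Z0.Countable ∧ ∀ m' ≤ m2, (trU X).In m' →
      ∀ z, m' ∈ A z → ∃ z' ∈ Z0, ∃ v : PP (Kp κ) (Wp κ), v ≤ m' ∧ v ∈ A z' ∧
        EqOn v (a z ∩ a z') (y z) (y z'))) hSet (by
      intro Z0
      rw [Ultrafilter.eventually_not]
      intro h3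
      obtain ⟨X, h4⟩ := h3.exists
      exact hc ⟨Z0, h4.1, h3.mono fun X h => h.2⟩)
    obtain ⟨X, h3, h4⟩ := (hm2.and h2).exists
    obtain ⟨-, Z0, hZ0, h5⟩ := h3
    exact h4 Z0 ⟨hZ0, h5⟩
  obtain ⟨Z0, hZ0, h2⟩ := hX2
  obtain ⟨-, h3, -⟩ := hm2.exists
  refine ⟨m2, h3, Z0, hZ0, fun m' hm' z hz => ?_⟩
  obtain ⟨X, h4, h5⟩ := (h2.and (fineP S m')).exists
  obtain ⟨z', hz', v, hv, h6, h7⟩ := h4 m' hm' h5 z hz
  exact ⟨z', hz', v, hv, h6, h7⟩

theorem ttst (h1 : ∀ (K W : Type) [LinearOrder K] [WellFoundedLT K] [Cod K] [LinearOrder W] [WellFoundedLT W], S_St K W) : S_ttst := by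
  intro κ _ _ hκ L U p d s m1 S B m hm
  refine ⟨fun D hD hDκ => ?_, fun hB => ?_⟩
  · have hch : ∀ (a : Set L) (m' : PP (Kp κ) (Wp κ)), ∃ m'', (a.Countable → a ⊆ D → m' ≤ m →
        m'' ≤ m' ∧ TT U p d s a B m'') := by
      intro a m'
      by_cases h : a.Countable ∧ a ⊆ D ∧ m' ≤ m
      · obtain ⟨m'', h2, h3⟩ := hD a h.1 h.2.1 m' h.2.2
        exact ⟨m'', fun _ _ _ => ⟨h2, h3⟩⟩
      · exact ⟨m', fun h2 h3 h4 => absurd ⟨h2, h3, h4⟩ h⟩
    choose F hF using hch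
    have hX : ∀ᶠ X in (U : Filter (Set (Uni (Kp κ) (Wp κ) L))), ∀ a : Set L, a.Countable →
        a ⊆ (trU X).mL → ∀ m', (trU X).In m' → (a ⊆ D → m' ≤ m → (trU X).In (F a m') ∧
          Psi (trU X) (p X) (d X) (F a m') (s X) a B) := by
      refine diagS S fun a ha => diagP S fun m' => ?_
      by_cases h : a ⊆ D ∧ m' ≤ m
      · obtain ⟨h2, h3⟩ := hF a m' ha h.1 h.2
        refine ((fineP S (F a m')).and h3).mono fun X hX _ _ => hX
      · exact Filter.Eventually.of_forall fun X h2 h3 => absurd ⟨h2, h3⟩ h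
    refine (((hX.and S.ok).and (S.cmp.and (fineP S m))).and (fineD S D hDκ)).mono ?_
    rintro X ⟨⟨⟨h2, h3⟩, h4, h5⟩, h6⟩
    refine h1 _ _ L (trU X) h3 (p X) (d X) (s X) m D B h5 (comp_mono hm h4) ?_
    intro a ha haD m' hm' hI
    obtain ⟨h7, h8⟩ := h2 a ha (haD.trans h6) m' hI haD hm'
    exact ⟨F a m', (hF a m' ha haD hm').1, h7, h8⟩
  · have hX : ∀ᶠ X in (U : Filter (Set (Uni (Kp κ) (Wp κ) L))), ∀ a : Set L, a.Countable →
        a ⊆ (trU X).mL → Psi (trU X) (p X) (d X) m (s X) a B :=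
      diagS S fun a ha => hB a ha
    refine ((hX.and S.ok).and (S.cmp.and (fineP S m))).mono ?_
    rintro X ⟨⟨h2, h3⟩, h4, h5⟩
    refine h1 _ _ L (trU X) h3 (p X) (d X) (s X) m (trU X).mL B h5 (comp_mono hm h4) ?_
    intro a ha haD m' hm' hI
    exact ⟨m', le_refl m', hI, psi_mono hm' (h2 a ha haD)⟩

end Pool.Agent.H915.Ttb
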