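import Pool.Agent.H915.P0a
import Pool.Agent.H915.P0b
import Pool.Agent.H915.P0c
import Pool.Agent.H915.CC
import Pool.Agent.H915.CC2
import Pool.Agent.H915.It1
import Pool.Agent.H915.It2
import Pool.Agent.H915.Br
import Pool.Agent.H915.Bmr
import Pool.Agent.H915.Mo
import Pool.Agent.H915.Me
import Pool.Agent.H915.Ac
import Pool.Agent.H915.K1
import Pool.Agent.H915.Sg
import Pool.Agent.H915.Ma
import Pool.Agent.H915.Om
import Pool.Agent.H915.Dd
import Pool.Agent.H915.Sm
import Pool.Agent.H915.Sp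
import Pool.Agent.H915.Bi
import Pool.Agent.H915.Co
import Pool.Agent.H915.Tt
import Pool.Agent.H915.Ttb
import Pool.Agent.H915.T5
import Pool.Agent.H915.Gu
import Pool.Agent.H915.Tr
import Pool.Agent.H915.Ind
import Pool.Agent.H915.Fa
import Pool.Agent.H915.Ig
import Pool.Agent.H915.L1
import Pool.Agent.H915.L2
import Pool.Agent.H915.L2a
import Pool.Agent.H915.L2b
import Pool.Agent.H915.L3
import Pool.Agent.H915.L4

/-!
# Assembly
-/

set_option autoImplicit false

namespace Pool.Agent.H915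

open Cardinal Set Pool.Agent.Helper669.Forcing
open Pool.Agent.W910.LC (Supercompact)
open Pool.Agent.W684.FM (OmegaOnePreserved)

section
variable (K : Type) [LinearOrder K] [WellFoundedLT K] [Cod K]

theorem m_irrefl : S_irrefl K := P0a.irrefl K
theorem m_dl : S_dl K := P0a.dlS K
theorem m_nodeRestr : S_nodeRestr K := P0a.nodeRestr K
theorem m_relRestr : S_relRestr K := P0a.relRestr K
theorem m_amalgT : S_amalgT K := P0a.amalgT K
theorem m_res : S_res K := P0a.res K
theorem m_chain : S_chain K := P0a.chain K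
theorem m_amalgS : S_amalgS K := P0b.amalgS K (m_nodeRestr K) (m_relRestr K) (m_irrefl K)
theorem m_addNode : S_addNode K := P0b.addNode K (m_amalgS K) (m_irrefl K)
theorem m_addTr : S_addTr K := P0c.addTr K (m_nodeRestr K) (m_relRestr K)

end

theorem m_ccForall : S_ccForall := CC.ccForall
theorem m_ccDiag : S_ccDiag := CC.ccDiag
theorem m_ccMap : S_ccMap := CC.ccMap
theorem m_ccExists : S_ccExists := CC.ccExists
theorem m_ccNode : S_ccNode := CC2.ccNode m_ccForall m_ccDiag

section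
variable (K W : Type) [LinearOrder K] [WellFoundedLT K] [Cod K]

instance nonemptyK : Nonempty K := ⟨cd (∅ : Set K)⟩

theorem m_tokFin : S_tokFin K W := CC2.tokFin K W
theorem m_ccPre : S_ccPre K W := CC2.ccPre K W m_ccDiag (m_tokFin K W)
theorem m_ccIn : S_ccIn K W := CC2.ccIn K W m_ccForall

variable [LinearOrder W] [WellFoundedLT W]

theorem m_code : S_code K W := It1.code K W
theorem m_validRestr : S_validRestr K W := It1.validRestr K W
theorem m_amalg : S_amalg K W := It1.amalg K W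
theorem m_relEmpty : S_relEmpty K W := It2.relEmpty K W m_ccForall (m_ccPre K W) (m_ccIn K W)
  (m_res K) (m_amalgS K) m_ccNode m_ccMap (nonemptyK K)
theorem m_relParts : S_relParts K W := It2.relParts K W m_ccForall m_ccDiag (m_ccPre K W)
  (m_ccIn K W) (m_validRestr K W) (m_amalg K W) (nonemptyK K)
theorem m_relSle : S_relSle K W := It2.relSle K W (m_relEmpty K W) (m_relParts K W)
theorem m_relSlt : S_relSlt K W := It2.relSlt K W (m_relEmpty K W) (m_relParts K W)
theorem m_relSall : S_relSall K W := It2.relSall K W (m_relEmpty K W) (m_relParts K W)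
theorem m_memV : S_memV K W := It2.memV K W (m_relEmpty K W) (m_relParts K W)

theorem m_ext : S_ext K W := Mo.ext K W
theorem m_g1 : S_g1 K W := Mo.g1 K W
theorem m_g2 : S_g2 K W := Mo.g2 K W (m_amalgT K)
theorem m_g3 : S_g3 K W := Mo.g3 K W (m_addTr K)
theorem m_g4 : S_g4 K W := Mo.g4 K W (m_amalgT K)
theorem m_g5 : S_g5 K W := Mo.g5 K W (m_amalgT K) (m_amalgS K) (m_nodeRestr K)
theorem m_nam : S_nam K W := Mo.nam K W (m_g1 K W) (m_g2 K W)
theorem m_dd : S_dd K W := Dd.dd K W (m_relSall K W) m_ccForall m_ccMap m_ccExists m_ccNode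
  (m_addNode K)
theorem m_cov : S_cov K W := Dd.cov K W (m_dd K W) (m_ext K W)
theorem m_ct : S_ct K W := Dd.ct K W (m_chain K) (m_nodeRestr K) m_ccNode m_ccExists (m_addNode K)
  (m_ext K W)
theorem m_K1 : S_K1 K W := K1.k1 K W (m_relSall K W) m_ccForall m_ccDiag m_ccMap m_ccExists
  m_ccNode (m_ccPre K W) (m_ccIn K W) (m_addNode K) (m_res K) (m_ext K W) (m_g1 K W) (m_g2 K W)
  (m_g3 K W) (m_g5 K W) (m_nam K W) (m_tokFin K W)
theorem m_St : S_St K W := Sg.st K W (m_dd K W) (m_ext K W) (m_g1 K W) (m_g4 K W)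
theorem m_gc : S_gc K W := Sg.gc K W (m_dd K W) (m_ext K W) (m_g1 K W) (m_g4 K W)

end

theorem m_cod : S_cod := Me.cod
theorem m_ok : S_ok := Me.ok
theorem m_tr : S_tr := Me.tr
theorem m_kcc : S_kcc := Me.kcc m_ok m_tr (fun K W => m_g1 K W) (fun K W => m_g2 K W)
  fun K W => m_g3 K W
theorem m_addCrd : S_addCrd := Ac.addCrd (fun K W => ⟨m_validRestr K W, m_amalg K W, m_code K W,
  m_relSle K W, m_memV K W, m_ccPre K W, m_ccIn K W⟩) m_ccForall m_ccDiag m_kcc
theorem m_rlt : S_rlt := Sm.rlt fun K W => m_validRestr K W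
theorem m_small : S_small := Sm.small (fun K W => m_validRestr K W) (fun K W => m_amalg K W) m_kcc
theorem m_branch : S_branch := Br.branch
theorem m_bmr : S_bmr := Bmr.bmr
theorem m_bl : S_bl := Om.bl
theorem m_om1 : S_om1 := Om.om1
theorem m_spec : S_spec := Sp.spec m_bmr m_addCrd m_kcc fun K W => m_cov K W
theorem m_coll : S_coll := Co.coll m_tr (fun K W => m_ct K W) fun K => m_dl K
theorem m_ma : S_ma := Ma.ma m_addCrd m_kcc m_small m_rlt fun K W => m_cov K W
theorem m_big : S_big := Bi.big m_addCrd m_kcc m_small m_rlt fun K W => m_cov K W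
theorem m_setup : S_setup := Tt.setup m_ok (fun K W => m_K1 K W) fun K W => m_g3 K W
theorem m_tt : S_tt := Tt.tt (fun K W => m_gc K W) (fun K W => m_nam K W) fun K W => m_g1 K W
theorem m_ttgc : S_ttgc := Ttb.ttgc fun K W => m_gc K W
theorem m_ttst : S_ttst := Ttb.ttst fun K W => m_St K W
theorem m_T5 : S_T5 := T5.t5 m_tt m_ttgc m_ttst m_addCrd m_tr (fun K W => m_ct K W)
  (fun K W => m_dd K W) (fun K W => m_ext K W) m_kcc
theorem m_guess : S_guess := Gu.guess m_setup m_tt m_ttst m_T5 m_branch m_kcc fun K W => m_cov K W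
theorem m_isTree : S_isTree := Tr.isTree (fun K W => m_ct K W) (fun K W => m_cov K W)
  (fun K => m_irrefl K) fun K => m_dl K
theorem m_ind : S_ind := Ind.ind (fun K W => m_ct K W) m_bl (fun K => m_irrefl K) fun K => m_dl K
theorem m_family : S_family := Fa.family m_guess m_ok m_tr m_kcc m_coll m_spec m_isTree m_ind
theorem m_igmp : S_igmp := Ig.igmp m_family

/-- From a supercompact cardinal: a forcing notion which forces the indestructible guessing model
principle, Martin's axiom for `ℵ₁` dense sets and a continuum larger than `ℵ₂`. -/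
theorem main (κ : Cardinal.{0}) (hκ : Supercompact κ) :
    ∃ (P : Type) (_ : Preorder P), Nonempty P ∧ ∀ p : P,
      p ∈ OmegaOnePreserved P ∧ p ∈ IGMPN P ∧ p ∈ MAN P ∧ p ∈ BigContinuumN P := by
  obtain ⟨i⟩ := m_cod κ hκ
  refine ⟨PP (Kp κ) (Wp κ), inferInstance, ⟨⟨⟨C0.one, ∅⟩, fun a ha => absurd ha (by simp)⟩⟩,
    fun p => ⟨m_om1 _ (m_cov (Kp κ) (Wp κ)) p, m_igmp κ hκ p, m_ma κ hκ p, m_big κ hκ p⟩⟩

/-- the meaning of the sentences over the ground model -/
theorem plain : ((() ∈ IGMPN Unit) ↔ IGMP) ∧ ((() ∈ MAN Unit) ↔ MartinAxiomAleph1) ∧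
    ((() ∈ BigContinuumN Unit) ↔ (ℵ_ 2 : Cardinal.{0}) < 𝔠) :=
  ⟨L1.lit1.trans ⟨L2.lit2 L2a.lit2a L2b.lit2b, L3.lit3⟩, L4.lit4, L4.lit5⟩

end Pool.Agent.H915
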