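import Pool.Agent.H915.Stmts1

/-!
# Side conditions: basic facts
-/

set_option autoImplicit false
set_option linter.unusedSectionVars false

namespace Pool.Agent.H915.P0a

open Cardinal Set Pool.Agent.Helper669.Forcing

variable (K : Type) [LinearOrder K] [WellFoundedLT K] [Cod K]

theorem exmin {K : Type} [LinearOrder K] [WellFoundedLT K] (S : Set K) (h : S.Nonempty) :
    ∃ m ∈ S, ∀ x ∈ S, m ≤ x := by
  obtain ⟨m, h1, h2⟩ := WellFounded.has_min (wellFounded_lt (α := K)) S h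
  exact ⟨m, h1, fun x hx => not_lt.1 (h2 x hx)⟩

theorem irrefl : S_irrefl K := by
  intro Q hQ h
  obtain ⟨x, h1, _, h2⟩ := hQ.omc Q hQ.ctbl h
  exact h1 h2

theorem om_not_mem {K : Type} [LinearOrder K] [WellFoundedLT K] [Cod K] (Q : Set K)
    (hQ : Q.Countable) : ∃ x : Om1, om x ∉ Q ∧ ∀ y < x, om y ∈ Q := by
  have h1 : ∃ x : Om1, (om x : K) ∉ Q := by
    by_contra h
    push Not at h
    have h2 : (Set.univ : Set Om1).Countable := by
      have h3 : Set.MapsTo (om : Om1 → K) Set.univ Q := fun x _ => h x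
      exact h3.countable_of_injOn Cod.om_lt.injective.injOn hQ
    have h3 : #Om1 ≤ ℵ₀ := by
      rw [← Cardinal.mk_univ]
      exact h2.le_aleph0
    rw [Cardinal.mk_ord_toType] at h3
    exact absurd h3 (not_le.2 (by
      have := Cardinal.aleph0_lt_aleph_one
      exact this))
  obtain ⟨x, hx, hmin⟩ := exmin {x : Om1 | (om x : K) ∉ Q} h1
  refine ⟨x, hx, fun y hy => ?_⟩
  by_contra h
  exact absurd (hmin y h) (not_le.2 hy)

theorem dl_spec {K : Type} [LinearOrder K] [WellFoundedLT K] [Cod K] (Q : Set K)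
    (hQ : Q.Countable) : om (dl Q) ∉ Q ∧ ∀ y < dl Q, om y ∈ Q := by
  unfold dl
  exact Classical.epsilon_spec (om_not_mem Q hQ)

theorem dlS : S_dl K := by
  refine ⟨fun Q hQ => dl_spec Q hQ.ctbl, ?_, ?_⟩
  · intro Q R hQ hR h
    obtain ⟨x, h1, h2, h3⟩ := hR.omc Q hQ.ctbl h
    have hsub := hR.sub Q hQ.ctbl h
    obtain ⟨d1, d2⟩ := dl_spec Q hQ.ctbl
    obtain ⟨e1, e2⟩ := dl_spec R hR.ctbl
    have hx : x = dl Q := by
      rcases lt_trichotomy x (dl Q) with h4 | h4 | h4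
      · exact absurd (d2 x h4) h1
      · exact h4
      · exact absurd (h2 _ h4) d1
    subst hx
    by_contra h4
    have h4 := not_lt.1 h4
    rcases eq_or_lt_of_le h4 with h5 | h5
    · rw [h5] at e1; exact e1 h3
    · exact e1 (hsub (d2 _ h5))
  · intro Q τ hτ _
    unfold dl
    congr 1
    funext x
    have : ∀ y : Om1, (om y ∈ Q ∩ Iio τ) = (om y ∈ Q) := by
      intro y
      apply propext
      exact ⟨fun h => h.1, fun h => ⟨h, hτ.1 y⟩⟩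
    simp only [this]

theorem nodeRestr : S_nodeRestr K := by
  intro Q hQ τ hτ
  refine ⟨hQ.ctbl.mono inter_subset_left, ?_, ?_, ?_, ?_⟩
  · intro s hs h
    exact subset_inter (hQ.sub s hs h.1) ((hτ.2 s hs).2 h.2)
  · intro s hs h σ hσ
    refine ⟨hQ.inter s hs h.1 σ hσ.1, ?_⟩
    exact (hτ.2 _ (hs.mono inter_subset_left)).1
      (inter_subset_left.trans ((hτ.2 s hs).2 h.2))
  · intro σ hσ ξ hξ h1 h2
    refine hQ.gap σ hσ ξ hξ.1 h1 ?_
    intro η hη h3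
    rcases lt_or_ge η τ with h4 | h4
    · exact h2 η ⟨hη, h4⟩ h3
    · exact (le_of_lt (show ξ < τ from hξ.2)).trans h4
  · intro s hs h
    obtain ⟨x, h1, h2, h3⟩ := hQ.omc s hs h.1
    exact ⟨x, h1, h2, h3, hτ.1 x⟩

theorem relRestr : S_relRestr K := by
  intro Q R hQ hR h τ hτ
  have hsub := hR.sub Q hQ.ctbl h
  refine ⟨?_, (hτ.2 _ (hQ.ctbl.mono inter_subset_left)).1 inter_subset_right⟩
  by_cases h1 : ∃ ξ ∈ R, τ ≤ ξ
  · obtain ⟨ξ, hξ, hmin⟩ := exmin {ξ | ξ ∈ R ∧ τ ≤ ξ} h1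
    have e : Q ∩ Iio τ = Q ∩ Iio ξ := by
      ext x
      constructor
      · rintro ⟨h2, h3⟩
        exact ⟨h2, lt_of_lt_of_le h3 hξ.2⟩
      · rintro ⟨h2, h3⟩
        refine ⟨h2, ?_⟩
        by_contra h4
        exact absurd (hmin x ⟨hsub h2, not_lt.1 h4⟩) (not_le.2 h3)
    rw [e]
    exact hR.inter Q hQ.ctbl h ξ hξ.1
  · have e : Q ∩ Iio τ = Q := by
      apply inter_eq_left.2
      intro x hx
      by_contra h2
      exact h1 ⟨x, hsub hx, not_lt.1 h2⟩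
    rw [e]
    exact h

theorem amalgT : S_amalgT K := by
  intro p q α hα hqA hqN hle
  have hA : ∀ τ ∈ p.A, τ < α → τ ∈ q.A := fun τ h1 h2 => hle.1 ⟨h1, h2⟩
  have hN : ∀ Q ∈ p.Nd, Q ⊆ Iio α → Q ∈ q.Nd := fun Q h1 h2 => hle.2 ⟨h1, h2⟩
  refine ⟨{ A := p.A ∪ q.A
            Nd := p.Nd ∪ q.Nd
            finA := p.finA.union q.finA
            finN := p.finN.union q.finN
            tr := ?_
            nd := ?_
            cl := ?_
            gap := ?_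
            cmp := ?_ }, rfl, rfl⟩
  · rintro τ (h | h)
    · exact p.tr τ h
    · exact q.tr τ h
  · rintro Q (h | h)
    · exact p.nd Q h
    · exact q.nd Q h
  · rintro Q (hQ | hQ) τ (hτ | hτ)
    · exact Or.inl (p.cl Q hQ τ hτ)
    · right
      have h1 := hqA τ hτ
      have h2 := q.cl _ (hN _ (p.cl Q hQ α hα) inter_subset_right) τ hτ
      have e : Q ∩ Iio α ∩ Iio τ = Q ∩ Iio τ := by
        rw [inter_assoc, Iio_inter_Iio, inf_eq_right.2 h1.le]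
      rwa [e] at h2
    · right
      rcases lt_or_ge τ α with h1 | h1
      · exact q.cl Q hQ τ (hA τ hτ h1)
      · have e : Q ∩ Iio τ = Q := inter_eq_left.2 ((hqN Q hQ).trans (Iio_subset_Iio h1))
        rw [e]; exact hQ
    · exact Or.inr (q.cl Q hQ τ hτ)
  · rintro Q (hQ | hQ) τ (hτ | hτ) ξ hξ h1 h2
    · exact Or.inl (p.gap Q hQ τ hτ ξ hξ h1 h2)
    · rcases lt_or_ge ξ α with h3 | h3
      · right
        exact q.gap _ (hN _ (p.cl Q hQ α hα) inter_subset_right) τ hτ ξ ⟨hξ, h3⟩ h1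
          (fun η hη h4 => h2 η hη.1 h4)
      · left
        exact p.gap Q hQ α hα ξ hξ h3 (fun η hη h4 => h2 η hη ((hqA τ hτ).le.trans h4))
    · rcases lt_or_ge τ α with h3 | h3
      · exact Or.inr (q.gap Q hQ τ (hA τ hτ h3) ξ hξ h1 h2)
      · exact absurd (hqN Q hQ hξ) (not_lt.2 (h3.trans h1))
    · exact Or.inr (q.gap Q hQ τ hτ ξ hξ h1 h2)
  · rintro Q (hQ | hQ) R (hR | hR) h
    · exact p.cmp Q hQ R hR fun τ hτ => h τ (Or.inl hτ)
    · have h1 : Q ⊆ Iio α := (h α (Or.inl hα)).2 (hqN R hR)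
      exact q.cmp Q (hN Q hQ h1) R hR fun τ hτ => h τ (Or.inr hτ)
    · have h1 : R ⊆ Iio α := (h α (Or.inl hα)).1 (hqN Q hQ)
      exact q.cmp Q hQ R (hN R hR h1) fun τ hτ => h τ (Or.inr hτ)
    · exact q.cmp Q hQ R hR fun τ hτ => h τ (Or.inr hτ)

/-- separation of residues -/
theorem res_aux {K : Type} [LinearOrder K] [WellFoundedLT K] [Cod K] (s : C0 K) (N : Set K)
    (hN : N ∈ s.Nd) (Q R : Set K) (hR : R ⊆ N)
    (h : ∀ τ ∈ s.A ∩ N, Q ⊆ Iio τ ↔ R ⊆ Iio τ) (τ : K) (hτ : τ ∈ s.A) (hQ : Q ⊆ Iio τ) :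
    R ⊆ Iio τ := by
  by_contra h1
  obtain ⟨x, hx, hx2⟩ := not_subset.1 h1
  obtain ⟨ξ, hξ, hmin⟩ := exmin {ξ | ξ ∈ N ∧ τ ≤ ξ} ⟨x, hR hx, not_lt.1 hx2⟩
  have h2 : ξ ∈ s.A := s.gap N hN τ hτ ξ hξ.1 hξ.2 (fun η hη h3 => hmin η ⟨hη, h3⟩)
  have h3 : R ⊆ Iio ξ := (h ξ ⟨h2, hξ.1⟩).1 (hQ.trans (Iio_subset_Iio hξ.2))
  exact absurd (h3 hx) (not_lt.2 (hmin x ⟨hR hx, not_lt.1 hx2⟩))

theorem res : S_res K := by
  intro s N hN
  have hNN := s.nd N hN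
  refine ⟨{ A := s.A ∩ N
            Nd := {Q | Q ∈ s.Nd ∧ cd Q ∈ N}
            finA := s.finA.subset inter_subset_left
            finN := s.finN.subset fun _ h => h.1
            tr := fun τ h => s.tr τ h.1
            nd := fun Q h => s.nd Q h.1
            cl := ?_
            gap := ?_
            cmp := ?_ }, rfl, rfl⟩
  · intro Q hQ τ hτ
    exact ⟨s.cl Q hQ.1 τ hτ.1, hNN.inter Q (s.nd Q hQ.1).ctbl hQ.2 τ hτ.2⟩
  · intro Q hQ τ hτ ξ hξ h1 h2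
    exact ⟨s.gap Q hQ.1 τ hτ.1 ξ hξ h1 h2, hNN.sub Q (s.nd Q hQ.1).ctbl hQ.2 hξ⟩
  · intro Q hQ R hR h
    refine s.cmp Q hQ.1 R hR.1 fun τ hτ => ⟨?_, ?_⟩
    · exact res_aux s N hN Q R (hNN.sub R (s.nd R hR.1).ctbl hR.2) h τ hτ
    · exact res_aux s N hN R Q (hNN.sub Q (s.nd Q hQ.1).ctbl hQ.2) (fun τ hτ => (h τ hτ).symm) τ hτ

theorem chain : S_chain K := by
  intro p τ hτ Q hQ R hR h1 h2
  have key : ∀ Q' ∈ p.Nd, ∀ R' ∈ p.Nd, Q' ∩ Iio τ = Q ∩ Iio τ → R' ∩ Iio τ = R ∩ Iio τ →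
      (∀ σ ∈ p.A, Q' ⊆ Iio σ ↔ R' ⊆ Iio σ) →
      Q ∩ Iio τ = R ∩ Iio τ ∨ cd (Q ∩ Iio τ) ∈ R ∩ Iio τ ∨ cd (R ∩ Iio τ) ∈ Q ∩ Iio τ := by
    intro Q' hQ' R' hR' e1 e2 h
    rw [← e1, ← e2]
    rcases p.cmp Q' hQ' R' hR' h with h3 | h3 | h3
    · rw [h3]; exact Or.inl rfl
    · exact Or.inr (Or.inl (relRestr K Q' R' (p.nd _ hQ') (p.nd _ hR') h3 τ hτ))
    · exact Or.inr (Or.inr (relRestr K R' Q' (p.nd _ hR') (p.nd _ hQ') h3 τ hτ))
  by_cases h3 : ∃ δ ∈ p.A, τ < δ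
  · obtain ⟨δ, hδ, hmin⟩ := exmin {δ | δ ∈ p.A ∧ τ < δ} h3
    have e : ∀ X : Set K, X ∩ Iio δ ∩ Iio τ = X ∩ Iio τ := by
      intro X
      rw [inter_assoc, Iio_inter_Iio, inf_eq_right.2 hδ.2.le]
    refine key _ (p.cl Q hQ δ hδ.1) _ (p.cl R hR δ hδ.1) (e Q) (e R) ?_
    intro σ hσ
    rcases lt_or_ge σ δ with h4 | h4
    · have h5 : σ ≤ τ := by
        by_contra h6
        exact absurd (hmin σ ⟨hσ, not_le.1 h6⟩) (not_le.2 h4)
      constructor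
      · intro h6
        exact absurd (h6 ⟨h1, hδ.2⟩) (not_lt.2 h5)
      · intro h6
        exact absurd (h6 ⟨h2, hδ.2⟩) (not_lt.2 h5)
    · exact ⟨fun _ => inter_subset_right.trans (Iio_subset_Iio h4),
        fun _ => inter_subset_right.trans (Iio_subset_Iio h4)⟩
  · refine key Q hQ R hR rfl rfl ?_
    intro σ hσ
    have h5 : σ ≤ τ := by
      by_contra h6
      exact h3 ⟨σ, hσ, not_le.1 h6⟩
    constructor
    · intro h6
      exact absurd (h6 h1) (not_lt.2 h5)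
    · intro h6
      exact absurd (h6 h2) (not_lt.2 h5)

end Pool.Agent.H915.P0a
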