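import Pool.Agent.H915.Stmts2

/-!
# Specializing functions
-/

set_option autoImplicit false

namespace Pool.Agent.H915.Sp

open Cardinal Set Pool.Agent.Helper669.Forcing


open Pool.Agent.W910.LC (Supercompact)
open Pool.Agent.W873.Tp (NormalFine)

/-- the family of the coded specializing sets -/
def phiS {P T K : Type} [Preorder P] (q0 : P) (A : T → Set P) (lt : T → T → Set P)
    (e : T × ℕ ↪ K) (F : Finset K) : Set P :=
  {u | ∃ G : Finset (T × ℕ), F = G.map e ∧ u ∈ SpecF q0 A lt G}

theorem specF_mono {P T : Type} [Preorder P] {q0 : P} {A : T → Set P} {lt : T → T → Set P}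
    {G G' : Finset (T × ℕ)} (h : G ⊆ G') : SpecF q0 A lt G' ⊆ SpecF q0 A lt G := by
  rintro u ⟨h1, h2, h3, h4⟩
  exact ⟨h1, fun x hx => h2 x (h hx), fun x hx y hy => h3 x (h hx) y (h hy),
    fun x hx y hy => h4 x (h hx) y (h hy)⟩

theorem specF_down {P T : Type} [Preorder P] {q0 : P} {A : T → Set P} {lt : T → T → Set P}
    (hA : ∀ t, Down (A t)) (G : Finset (T × ℕ)) : Down (SpecF q0 A lt G) := by
  rintro u ⟨h1, h2, h3, h4⟩ v hv
  exact ⟨hv.trans h1, fun x hx => hA _ u (h2 x hx) v hv, h3,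
    fun x hx y hy hxy w hw => h4 x hx y hy hxy w (hw.trans hv)⟩

theorem mem_fib {K W : Type} [LinearOrder K] [Cod K] (p : Pre K W) (c : Crd K W) (x : K) :
    x ∈ fib p c ↔ (c, x) ∈ p.top := by
  unfold fib
  simp only [Finset.mem_image, Finset.mem_filter, Prod.exists, exists_eq_right]

theorem spec (h1 : S_bmr) (h2 : S_addCrd) (h3 : S_kcc)
    (h4 : ∀ (K W : Type) [LinearOrder K] [WellFoundedLT K] [Cod K] [LinearOrder W] [WellFoundedLT W], S_cov K W) : S_spec := by
  classical
  intro κ _ hκ T q0 A lt hT htree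
  have hκ0 : ℵ₀ < κ := hκ.1.aleph0_lt
  have hK : #(Kp κ) = κ := by rw [Cardinal.mk_ord_toType]
  have hTN : #(T × ℕ) < κ := by
    rw [Cardinal.mk_prod, Cardinal.lift_id, Cardinal.lift_id, Cardinal.mk_nat]
    exact Cardinal.mul_lt_of_lt hκ0.le hT hκ0
  obtain ⟨e⟩ : Nonempty (T × ℕ ↪ Kp κ) := by
    rw [← Cardinal.le_def, hK]
    exact hTN.le
  have einj := e.injective
  have himg : ∀ G G' : Finset (T × ℕ), G.map e = G'.map e → G = G' := fun G G' h =>
    Finset.map_injective e h
  set φ : Finset (Kp κ) → Set (PP (Kp κ) (Wp κ)) := phiS q0 A lt e with hφ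
  have hφi : ∀ (G : Finset (T × ℕ)) u, u ∈ φ (G.map e) ↔ u ∈ SpecF q0 A lt G := by
    intro G u
    constructor
    · rintro ⟨G2, hG2, hu⟩
      rw [himg G G2 hG2]
      exact hu
    · intro hu
      exact ⟨G, rfl, hu⟩
  have hfam : IsFam q0 φ := by
    refine ⟨?_, ?_, ?_, ?_, ?_⟩
    · rintro F u ⟨G, hG, hu⟩ v hv
      exact ⟨G, hG, specF_down htree.downA G u hu v hv⟩
    · rintro F u ⟨G, hG, hu⟩
      exact hu.1
    · rintro F F' hFF u ⟨G, hG, hu⟩
      refine ⟨G.filter (fun x => e x ∈ F), ?_, specF_mono (Finset.filter_subset _ _) hu⟩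
      ext y
      simp only [Finset.mem_map, Finset.mem_filter]
      constructor
      · intro hy
        have hy' := hFF hy
        rw [hG, Finset.mem_map] at hy'
        obtain ⟨x, hx, rfl⟩ := hy'
        exact ⟨x, ⟨hx, hy⟩, rfl⟩
      · rintro ⟨x, ⟨_, hx⟩, rfl⟩
        exact hx
    · rw [hK]
      have h5 : {F : Finset (Kp κ) | (φ F).Nonempty} ⊆
          Set.range (fun G : Finset (T × ℕ) => G.map e) := by
        rintro F ⟨u, G, hG, hu⟩
        exact ⟨G, hG.symm⟩
      refine (Cardinal.mk_le_mk_of_subset h5).trans_lt ?_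
      refine Cardinal.mk_range_le.trans_lt ?_
      rcases finite_or_infinite (T × ℕ) with hf | hi
      · exact (Cardinal.lt_aleph0_of_finite _).trans hκ0
      · rw [Cardinal.mk_finset_of_infinite]
        exact hTN
    · intro A' hd hsub hanti q hq
      obtain ⟨q', hq', Z, hZ, hZ'⟩ := h1 (PP (Kp κ) (Wp κ)) T q0 A lt (h4 _ _) htree
        (fun G => A' (G.map e)) (fun G => hd _) (fun G u hu => (hφi G u).1 (hsub _ hu))
        (by
          intro G G' hne u hu hu' H hG hG' hH
          exact hanti _ _ (fun h => hne (himg _ _ h)) u hu hu' (H.map e)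
            (Finset.map_subset_map.2 hG) (Finset.map_subset_map.2 hG') ((hφi H u).2 hH)) q hq
      refine ⟨q', hq', (fun G : Finset (T × ℕ) => G.map e) '' Z, hZ.image _, ?_⟩
      intro F hF u hu huA
      obtain ⟨G, hG, _⟩ := hsub F huA
      have hGZ : G ∉ Z := fun h => hF ⟨G, h, hG.symm⟩
      apply hZ' G hGZ u hu
      rw [← hG]
      exact huA
  have hW : Nonempty (Wp κ) := by
    rw [← Cardinal.mk_ne_zero_iff, Cardinal.mk_ord_toType]
    exact (lt_of_le_of_lt (Cardinal.zero_le κ) (Order.lt_succ κ)).ne'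
  obtain ⟨β⟩ := hW
  obtain ⟨c, hc⟩ := h2 κ hκ q0 φ hfam β
  have hfib : ∀ u : PP (Kp κ) (Wp κ), u ≤ q0 → u ∈ φ (fib u.1 c) := by
    intro u hu
    rcases (fib u.1 c).eq_empty_or_nonempty with h5 | ⟨x, hx⟩
    · rw [h5]
      refine ⟨∅, by simp, hu, ?_, ?_, ?_⟩ <;> simp
    · exact hc.fam u x ((mem_fib _ _ _).1 hx)
  refine ⟨fun t n => {u | (c, e (t, n)) ∈ u.1.top}, ?_, ?_, ?_⟩
  · intro t n u hu v hv
    exact hv.2 hu
  · intro t u hu huA
    by_cases hex : ∃ n, (c, e (t, n)) ∈ u.1.top
    · obtain ⟨n, hn⟩ := hex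
      exact ⟨u, le_rfl, n, hn⟩
    · push Not at hex
      obtain ⟨G, hG, hGs⟩ := hfib u hu
      obtain ⟨n, hn⟩ := Infinite.exists_notMem_finset (G.image Prod.snd)
      have hn' : ∀ x ∈ G, x.2 ≠ n := by
        intro x hx h
        exact hn (Finset.mem_image.2 ⟨x, hx, h⟩)
      have ht' : ∀ x ∈ G, x.1 ≠ t := by
        intro x hx h
        apply hex x.2
        rw [← mem_fib, hG, ← h]
        exact Finset.mem_map_of_mem e hx
      have hspec : u ∈ SpecF q0 A lt (insert (t, n) G) := by
        refine ⟨hu, ?_, ?_, ?_⟩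
        · intro x hx
          rcases Finset.mem_insert.1 hx with rfl | hx
          · exact huA
          · exact hGs.2.1 x hx
        · intro x hx y hy hxy
          rcases Finset.mem_insert.1 hx with rfl | hx <;> rcases Finset.mem_insert.1 hy with rfl | hy
          · rfl
          · exact absurd hxy.symm (ht' y hy)
          · exact absurd hxy (ht' x hx)
          · exact hGs.2.2.1 x hx y hy hxy
        · intro x hx y hy hxy u' hu'
          rcases Finset.mem_insert.1 hx with rfl | hx <;> rcases Finset.mem_insert.1 hy with rfl | hy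
          · exact htree.irr t u' (hu'.trans hu)
          · exact absurd hxy.symm (hn' y hy)
          · exact absurd hxy (hn' x hx)
          · exact hGs.2.2.2 x hx y hy hxy u' hu'
      have hadd : u ∈ φ (insert (e (t, n)) (fib u.1 c)) := by
        have h6 : insert (e (t, n)) (fib u.1 c) = (insert (t, n) G).map e := by
          ext y
          rw [Finset.mem_insert, hG, Finset.mem_map, Finset.mem_map]
          constructor
          · rintro (rfl | ⟨x, hx, rfl⟩)
            · exact ⟨(t, n), Finset.mem_insert_self _ _, rfl⟩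
            · exact ⟨x, Finset.mem_insert_of_mem hx, rfl⟩
          · rintro ⟨x, hx, rfl⟩
            rcases Finset.mem_insert.1 hx with rfl | hx
            · exact Or.inl rfl
            · exact Or.inr ⟨x, hx, rfl⟩
        rw [h6, hφi]
        exact hspec
      obtain ⟨u', hu', _, hm, _⟩ := hc.add u u (e (t, n)) le_rfl hadd
      exact ⟨u', hu', n, hm⟩
  · intro s t n u hu hs ht hlt
    obtain ⟨G, hG, hGs⟩ := hfib u hu
    have hmem : ∀ t : T, (c, e (t, n)) ∈ u.1.top → (t, n) ∈ G := by
      intro t ht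
      have h5 : e (t, n) ∈ G.map e := by rw [← hG, mem_fib]; exact ht
      obtain ⟨x, hx, hxe⟩ := Finset.mem_map.1 h5
      rw [← einj hxe]
      exact hx
    exact hGs.2.2.2 (s, n) (hmem s hs) (t, n) (hmem t ht) rfl u le_rfl hlt

end Pool.Agent.H915.Sp
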