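import Mathlib
import Pool.Agent.H915.Defs2

/-!
# Statements, part 2
-/

set_option autoImplicit false

namespace Pool.Agent.H915

open Cardinal Set Pool.Agent.Helper669.Forcing
open Pool.Agent.W910.LC (Supercompact)
open Pool.Agent.W873.Tp (NormalFine)
open Pool.Agent.W684.FM (OmegaOnePreserved)
open Pool.Agent.W905.HalfCohen (PosetName)

/-! ### Conditions over a model (general `K`, `W`) -/

section
variable (K W : Type) [LinearOrder K] [WellFoundedLT K] [Cod K] [LinearOrder W] [WellFoundedLT W]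

/-- strengthening the base only -/
def S_ext : Prop := ∀ (u : PP K W) (s : C0 K), s ≤ u.1.base → ∃ v : PP K W, v.1.base = s ∧
  v.1.top = u.1.top

def S_g1 : Prop := ∀ (L : Type) (t : Trace K W L), t.Ok → ∀ u : PP K W, t.α ∈ u.1.base.A →
  ∃ m : PP K W, m.1 = trc t u.1 ∧ t.In m

def S_g2 : Prop := ∀ (L : Type) (t : Trace K W L), t.Ok → ∀ u : PP K W, t.α ∈ u.1.base.A →
  ∀ m : PP K W, t.In m → m.1 ≤ trc t u.1 → ∃ v : PP K W, v ≤ u ∧ v ≤ m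

def S_g3 : Prop := ∀ (u : PP K W) (α : K), Tr α → ∃ v ≤ u, α ∈ v.1.base.A ∧ v.1.top = u.1.top

def S_g4 : Prop := ∀ (L : Type) (t : Trace K W L), t.Ok → ∀ (m : PP K W) (s : C0 K), t.In m →
  Comp t m s → ∃ v : PP K W, v ≤ m ∧ v.1.base ≤ s ∧ v.1.top = m.1.top ∧
    v.1.base.A = s.A ∪ m.1.base.A ∧ v.1.base.Nd = s.Nd ∪ m.1.base.Nd

/-- amalgamation over a countable model and over `t` simultaneously -/
def S_g5 : Prop := ∀ (L : Type) (t : Trace K W L), t.Ok → ∀ (q : PP K W) (N : Set K),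
  t.α ∈ q.1.base.A → N ∈ q.1.base.Nd → ∀ s : C0 K, s.Inside N → q.1.base.A ∩ N ⊆ s.A →
    (∀ Q ∈ q.1.base.Nd, cd Q ∈ N → Q ∈ s.Nd) → ∀ m : PP K W, t.In m → m.1 ≤ trc t q.1 →
      Comp t m s → ∃ u : PP K W, u ≤ q ∧ u ≤ m ∧ u.1.base ≤ s

def S_nam : Prop := ∀ (L : Type) (t : Trace K W L), t.Ok → ∀ y ∈ t.mN, ∀ l ∈ t.mL,
  ∀ q m : PP K W, t.α ∈ q.1.base.A → m.1 = trc t q.1 → (q ∈ meets (y l) ↔ m ∈ meets (y l))

/-- strong covering: only the base has to be strengthened -/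
def S_dd : Prop := ∀ E : ℕ → Set (PP K W), (∀ n, ∀ u, ∃ e ∈ E n, e ≤ u) → ∀ s : C0 K,
  ∃ s' ≤ s, ∃ C : ℕ → Set (PP K W), (∀ n, (C n).Countable ∧ C n ⊆ E n) ∧
    ∀ u : PP K W, u.1.base ≤ s' → ∀ n, ∃ e ∈ C n, ∃ v, v ≤ u ∧ v ≤ e

def S_cov : Prop := Cov (PP K W)

/-- the first part of the argument for a single model -/
def S_K1 : Prop := ∀ (L : Type) (t : Trace K W L), t.Ok → ∀ (p : PP K W) (d : L → Set (PP K W)),
  t.α ∈ p.1.base.A → t.Approx p d → ∃ (s : C0 K) (m : PP K W), t.In m ∧ Comp t m s ∧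
    ∀ a : Set L, a.Countable → a ⊆ t.mL → ∀ m' ≤ m, t.In m' →
      ∃ m'' ≤ m', t.In m'' ∧ ∃ y ∈ t.mN, Psi t p d m'' s a y

/-- passing from countable sets to arbitrary sets -/
def S_St : Prop := ∀ (L : Type) (t : Trace K W L), t.Ok → ∀ (p : PP K W) (d : L → Set (PP K W))
  (s : C0 K) (m : PP K W) (D : Set L) (B : L → Set (PP K W)), t.In m → Comp t m s →
    (∀ a : Set L, a.Countable → a ⊆ D → ∀ m' ≤ m, t.In m' →
      ∃ m'' ≤ m', t.In m'' ∧ Psi t p d m'' s a B) → Psi t p d m s D B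

/-- countably many indices capture all -/
def S_gc : Prop := ∀ (L : Type) (t : Trace K W L), t.Ok → ∀ (p : PP K W) (d : L → Set (PP K W))
  (s : C0 K) (m : PP K W) (Z : Type) (A : Z → Set (PP K W)) (a : Z → Set L)
  (y : Z → L → Set (PP K W)), (∀ z, Down (A z)) → t.In m → Comp t m s →
    ∃ m2 ≤ m, t.In m2 ∧ ∃ Z0 : Set Z, Z0.Countable ∧ ∀ m' ≤ m2, t.In m' → ∀ z, m' ∈ A z →
      Psi t p d m' s (a z) (y z) → ∃ z' ∈ Z0, ∃ v : PP K W, v ≤ m' ∧ t.α ∈ v.1.base.A ∧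
        v ∈ A z' ∧ EqOn v (a z) d (y z) ∧ EqOn v (a z') d (y z')

/-- `CT τ` is a chain -/
def S_ct : Prop := (∀ (τ : K) (N : Set K), Down (CT (W := W) τ N)) ∧
  (∀ (τ : K) (N : Set K) (u : PP K W), Tr τ → u ∈ CT τ N → Node N ∧ N ⊆ Iio τ) ∧
  (∀ (τ : K) (N N' : Set K) (u : PP K W), Tr τ → u ∈ CT τ N → u ∈ CT τ N' →
    N = N' ∨ cd N ∈ N' ∨ cd N' ∈ N) ∧
  ∀ (τ : K) (b : Set K) (u : PP K W), Tr τ → b.Countable → b ⊆ Iio τ →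
    ∃ v : PP K W, v ≤ u ∧ v.1.top = u.1.top ∧ ∃ N : Set K, b ⊆ N ∧ v ∈ CT τ N

end

/-! ### The cardinal `κ` -/

def S_cod : Prop := ∀ κ : Cardinal.{0}, Supercompact κ → Nonempty (Cod (Kp κ))

/-- almost all traces are elementary -/
def S_ok : Prop := ∀ (κ : Cardinal.{0}) [Cod (Kp κ)] [Nonempty (Kp κ)], Supercompact κ →
  ∀ (L : Type) (U : Ultrafilter (Set (Uni (Kp κ) (Wp κ) L))), NormalFine κ _ U →
    ∀ᶠ X in (U : Filter (Set (Uni (Kp κ) (Wp κ) L))), (trU X).Ok ∧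
      (∀ m : PP (Kp κ) (Wp κ), Sum.inr (Sum.inl m) ∈ X ↔ (trU X).In m) ∧
      ∀ a : Set L, a.Countable → a ⊆ (trU X).mL → Sum.inr (Sum.inr (Sum.inr (Sum.inl a))) ∈ X

def S_tr : Prop := ∀ (κ : Cardinal.{0}) [Cod (Kp κ)], Supercompact κ →
  ∀ k : Kp κ, ∃ α, k < α ∧ Tr α

def S_kcc : Prop := ∀ (κ : Cardinal.{0}) [Cod (Kp κ)], Supercompact κ →
  KCC κ (PP (Kp κ) (Wp κ))

/-- new coordinates -/
def S_addCrd : Prop := ∀ (κ : Cardinal.{0}) [Cod (Kp κ)], Supercompact κ →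
  ∀ (q0 : PP (Kp κ) (Wp κ)) (φ : Finset (Kp κ) → Set (PP (Kp κ) (Wp κ))), IsFam q0 φ →
    ∀ β : Wp κ, ∃ c, IsCrd β q0 φ c

/-- Names are decided by restrictions to an initial part of the iteration. -/
def S_small : Prop := ∀ (κ : Cardinal.{0}) [Cod (Kp κ)], Supercompact κ →
  ∀ (ι : Type) (N : ι → Set (PP (Kp κ) (Wp κ))), #ι ≤ κ → ∃ β : Wp κ, ∀ i, ∀ α, β ≤ α →
    ∀ u r : PP (Kp κ) (Wp κ), IsRlt α u r → u ∈ meets (N i) → r ∈ meets (N i)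

/-- restrictions exist -/
def S_rlt : Prop := ∀ (K W : Type) [LinearOrder K] [WellFoundedLT K] [Cod K] [LinearOrder W]
  [WellFoundedLT W] (α : W) (u : PP K W), ∃ r : PP K W, IsRlt α u r ∧ u ≤ r

/-! ### General facts -/

/-- a branch through a system with countable levels -/
def S_branch : Prop := ∀ (κ : Cardinal.{0}) (P : Type) [Preorder P] (L : Type)
  (T : Set L → (L → Set P) → P → Prop) (m1 : P), κ.IsRegular → ℵ₁ < κ → Cov P → KCC κ P →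
  (∀ (D : Set L) B m m', m' ≤ m → T D B m → T D B m') →
  (∀ (D D' : Set L) B m, D' ⊆ D → T D B m → T D' B m) →
  (∀ (D : Set L) B B' m, EqOn m D B B' → T D B m → T D B' m) →
  (∀ (D : Set L) B m, #D < κ → (∀ m' ≤ m, ∃ m'' ≤ m', T D B m'') → T D B m) →
  (∀ D : Set L, #D < κ → ∀ m ≤ m1, ∃ m2 ≤ m, ∃ C : Set (L → Set P), C.Countable ∧
    ∀ m' ≤ m2, ∀ B, T D B m' → ∃ m'' ≤ m', ∃ B' ∈ C, EqOn m'' D B B') →
  (∀ D : Set L, #D < κ → ∀ m ≤ m1, ∃ m' ≤ m, ∃ B, T D B m') →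
  ∃ m3 ≤ m1, ∃ B, ∀ D : Set L, #D < κ → T D B m3

/-- names of trees with countable initial segments and without uncountable chains -/
structure IsTree {P : Type} [Preorder P] {T : Type} (q0 : P) (A : T → Set P)
    (lt : T → T → Set P) : Prop where
  downA : ∀ t, Down (A t)
  downlt : ∀ s t, Down (lt s t)
  irr : ∀ t, ∀ u ≤ q0, u ∉ lt t t
  tree : ∀ u ≤ q0, ∀ s s' t, u ∈ A s → u ∈ A s' → u ∈ A t → u ∈ lt s t → u ∈ lt s' t →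
    s = s' ∨ ∃ u' ≤ u, u' ∈ lt s s' ∨ u' ∈ lt s' s
  pred : ∀ t, ∀ u ≤ q0, u ∈ A t → ∃ u' ≤ u, ∃ Z : Set T, Z.Countable ∧
    ∀ s, ∀ u'' ≤ u', u'' ∈ A s → u'' ∈ lt s t → s ∈ Z
  chain : ∀ B : T → Set P, (∀ t, Down (B t)) → (∀ t, B t ⊆ A t) →
    (∀ u ≤ q0, ∀ s t, u ∈ B s → u ∈ B t → s = t ∨ ∃ u' ≤ u, u' ∈ lt s t ∨ u' ∈ lt t s) →
    ∀ u ≤ q0, ∃ u' ≤ u, ∃ Z : Set T, Z.Countable ∧ ∀ t ∉ Z, ∀ u'' ≤ u', u'' ∉ B t

/-- `q` forces that the finite set `F` is a partial function which does not take the same value at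
two comparable points -/
def SpecF {P : Type} [Preorder P] {T : Type} (q0 : P) (A : T → Set P) (lt : T → T → Set P)
    (F : Finset (T × ℕ)) : Set P :=
  {u | u ≤ q0 ∧ (∀ x ∈ F, u ∈ A x.1) ∧ (∀ x ∈ F, ∀ y ∈ F, x.1 = y.1 → x.2 = y.2) ∧
    ∀ x ∈ F, ∀ y ∈ F, x.2 = y.2 → ∀ u' ≤ u, u' ∉ lt x.1 y.1}

/-- the theorem of Baumgartner, Malitz and Reinhardt in the extension -/
def S_bmr : Prop := ∀ (P : Type) [Preorder P] (T : Type) (q0 : P) (A : T → Set P)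
  (lt : T → T → Set P), Cov P → IsTree q0 A lt →
  ∀ Φ : Finset (T × ℕ) → Set P, (∀ F, Down (Φ F)) → (∀ F, Φ F ⊆ SpecF q0 A lt F) →
    (∀ F F', F ≠ F' → ∀ u ∈ Φ F, u ∈ Φ F' → ∀ G, F ⊆ G → F' ⊆ G → u ∉ SpecF q0 A lt G) →
    ∀ q ≤ q0, ∃ q' ≤ q, ∃ Z : Set (Finset (T × ℕ)), Z.Countable ∧ ∀ F ∉ Z, ∀ u ≤ q', u ∉ Φ F

/-- boundedness of countable sequences in `ω₁` if `ω₁` is preserved -/
def S_bl : Prop := ∀ (R : Type) [Preorder R] (r0 : R), (∀ r ≤ r0, r ∈ OmegaOnePreserved R) →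
  ∀ Φ : ℕ → Om1 → Set R, (∀ n δ, Down (Φ n δ)) →
    (∀ n, ∀ r ≤ r0, ∃ r' ≤ r, ∃ δ, r' ∈ Φ n δ) →
    ∃ r ≤ r0, ∃ δ0 : Om1, ∀ n, ∀ r' ≤ r, ∃ r'' ≤ r', ∃ δ ≤ δ0, r'' ∈ Φ n δ

/-- in a preorder with coverings `ω₁` is preserved -/
def S_om1 : Prop := ∀ (P : Type) [Preorder P], Cov P → ∀ p : P, p ∈ OmegaOnePreserved P

/-! ### Consequences -/

/-- specializing functions -/
def S_spec : Prop := ∀ (κ : Cardinal.{0}) [Cod (Kp κ)], Supercompact κ →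
  ∀ (T : Type) (q0 : PP (Kp κ) (Wp κ)) (A : T → Set (PP (Kp κ) (Wp κ)))
    (lt : T → T → Set (PP (Kp κ) (Wp κ))), #T < κ → IsTree q0 A lt →
    ∃ σ : T → ℕ → Set (PP (Kp κ) (Wp κ)), (∀ t n, Down (σ t n)) ∧
      (∀ t, ∀ u ≤ q0, u ∈ A t → ∃ u' ≤ u, ∃ n, u' ∈ σ t n) ∧
      ∀ s t n, ∀ u ≤ q0, u ∈ σ s n → u ∈ σ t n → u ∉ lt s t

/-- sets of size less than `κ` have size at most `ℵ₁` in the extension -/
def S_coll : Prop := ∀ (κ : Cardinal.{0}) [Cod (Kp κ)], Supercompact κ →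
  ∀ Z : Type, Nonempty Z → #Z < κ → ∃ g : Om1 → Z → Set (PP (Kp κ) (Wp κ)),
    ∀ u, u ∈ IsFun g ∧ u ∈ IsOnto g

def S_ma : Prop := ∀ (κ : Cardinal.{0}) [Cod (Kp κ)], Supercompact κ →
  ∀ u : PP (Kp κ) (Wp κ), u ∈ MAN (PP (Kp κ) (Wp κ))

def S_big : Prop := ∀ (κ : Cardinal.{0}) [Cod (Kp κ)], Supercompact κ →
  ∀ u : PP (Kp κ) (Wp κ), u ∈ BigContinuumN (PP (Kp κ) (Wp κ))

/-- almost all models guess -/
def S_guess : Prop := ∀ (κ : Cardinal.{0}) [Cod (Kp κ)] [Nonempty (Kp κ)], Supercompact κ →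
  ∀ (L : Type) (U : Ultrafilter (Set (Uni (Kp κ) (Wp κ) L))), NormalFine κ _ U →
    ∀ᶠ X in (U : Filter (Set (Uni (Kp κ) (Wp κ) L))), (trU X).Guess

def S_igmp : Prop := ∀ (κ : Cardinal.{0}) [Cod (Kp κ)], Supercompact κ →
  ∀ u : PP (Kp κ) (Wp κ), u ∈ IGMPN (PP (Kp κ) (Wp κ))

end Pool.Agent.H915
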