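import Mathlib
import Pool.Agent.H915.Stmts2

/-!
# Statements, part 3: the guessing theorem and the tree of restrictions
-/

set_option autoImplicit false

namespace Pool.Agent.H915

open Cardinal Set Pool.Agent.Helper669.Forcing
open Pool.Agent.W910.LC (Supercompact)
open Pool.Agent.W873.Tp (NormalFine)
open Pool.Agent.W684.FM (OmegaOnePreserved)
open Pool.Agent.W905.HalfCohen (PosetName)

/-! ### The guessing theorem -/

section
variable {K W L : Type} [LinearOrder K] [WellFoundedLT K] [Cod K] [LinearOrder W] [WellFoundedLT W]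
  [Nonempty K]

/-- For almost all models, `m` and `s` force that `d ∩ D = B ∩ D` is possible. -/
def TT (U : Ultrafilter (Set (Uni K W L))) (p : Set (Uni K W L) → PP K W)
    (d : Set (Uni K W L) → L → Set (PP K W)) (s : Set (Uni K W L) → C0 K) (D : Set L)
    (B : L → Set (PP K W)) (m : PP K W) : Prop :=
  ∀ᶠ X in (U : Filter (Set (Uni K W L))), Psi (trU X) (p X) (d X) m (s X) D B

/-- the situation in the proof of the guessing theorem -/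
structure Setup (κ : Cardinal.{0}) (U : Ultrafilter (Set (Uni K W L)))
    (p : Set (Uni K W L) → PP K W) (d : Set (Uni K W L) → L → Set (PP K W))
    (s : Set (Uni K W L) → C0 K) (m1 : PP K W) : Prop where
  nf : NormalFine κ _ U
  ok : ∀ᶠ X in (U : Filter (Set (Uni K W L))), (trU X).Ok
  mem : ∀ᶠ X in (U : Filter (Set (Uni K W L))),
    ∀ m : PP K W, Sum.inr (Sum.inl m) ∈ X ↔ (trU X).In m
  ctb : ∀ᶠ X in (U : Filter (Set (Uni K W L))),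
    ∀ a : Set L, a.Countable → a ⊆ (trU X).mL → Sum.inr (Sum.inr (Sum.inr (Sum.inl a))) ∈ X
  al : ∀ᶠ X in (U : Filter (Set (Uni K W L))), (trU X).α ∈ (p X).1.base.A
  cmp : ∀ᶠ X in (U : Filter (Set (Uni K W L))), Comp (trU X) m1 (s X)
  one : ∀ᶠ X in (U : Filter (Set (Uni K W L))), ∀ a : Set L, a.Countable → a ⊆ (trU X).mL →
    ∀ m ≤ m1, (trU X).In m → ∃ m' ≤ m, (trU X).In m' ∧ ∃ y ∈ (trU X).mN,
      Psi (trU X) (p X) (d X) m' (s X) a y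

end

/-- if the guessing theorem fails -/
def S_setup : Prop := ∀ (κ : Cardinal.{0}) [Cod (Kp κ)] [Nonempty (Kp κ)], Supercompact κ →
  ∀ (L : Type) (U : Ultrafilter (Set (Uni (Kp κ) (Wp κ) L))), NormalFine κ _ U →
    (¬ ∀ᶠ X in (U : Filter (Set (Uni (Kp κ) (Wp κ) L))), (trU X).Guess) →
    ∃ p d s m1, Setup κ U p d s m1 ∧
      ∀ᶠ X in (U : Filter (Set (Uni (Kp κ) (Wp κ) L))), ∀ q ≤ p X, ∀ y ∈ (trU X).mN,
        ¬ EqOn q (trU X).mL (d X) y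

/-- the elementary properties of `TT` -/
def S_tt : Prop := ∀ (κ : Cardinal.{0}) [Cod (Kp κ)] [Nonempty (Kp κ)], Supercompact κ →
  ∀ (L : Type) (U : Ultrafilter (Set (Uni (Kp κ) (Wp κ) L))) p d s m1, Setup κ U p d s m1 →
    (∀ (D : Set L) B m m', m' ≤ m → TT U p d s D B m → TT U p d s D B m') ∧
    (∀ (D D' : Set L) B m, D' ⊆ D → TT U p d s D B m → TT U p d s D' B m) ∧
    (∀ (D : Set L) B B' m, EqOn m D B B' → TT U p d s D B m → TT U p d s D B' m) ∧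
    (∀ (D : Set L) B m, (∀ m' ≤ m, ∃ m'' ≤ m', TT U p d s D B m'') → TT U p d s D B m) ∧
    (∀ D : Set L, #D < κ → ∀ m ≤ m1, ∃ m2 ≤ m, ∃ C : Set (L → Set (PP (Kp κ) (Wp κ))),
      C.Countable ∧ ∀ m' ≤ m2, ∀ B, TT U p d s D B m' → ∃ m'' ≤ m', ∃ B' ∈ C,
        EqOn m'' D B B') ∧
    (∀ D : Set L, D.Countable → ∀ m ≤ m1, ∃ m' ≤ m, ∃ B, TT U p d s D B m') ∧
    (∀ D : Set L, D.Countable → ∃ B, TT U p d s D B m1)

/-- countably many indices capture all (for the ultrafilter) -/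
def S_ttgc : Prop := ∀ (κ : Cardinal.{0}) [Cod (Kp κ)] [Nonempty (Kp κ)], Supercompact κ →
  ∀ (L : Type) (U : Ultrafilter (Set (Uni (Kp κ) (Wp κ) L))) p d s m1, Setup κ U p d s m1 →
    ∀ (Z : Type) (A : Z → Set (PP (Kp κ) (Wp κ)))
      (a : Z → Set L) (y : Z → L → Set (PP (Kp κ) (Wp κ))), #Z < κ → (∀ z, Down (A z)) →
      (∀ z, TT U p d s (a z) (y z) m1) → ∀ m ≤ m1, ∃ m2 ≤ m, ∃ Z0 : Set Z, Z0.Countable ∧
        ∀ m' ≤ m2, ∀ z, m' ∈ A z → ∃ z' ∈ Z0, ∃ v ≤ m', v ∈ A z' ∧ EqOn v (a z ∩ a z') (y z) (y z')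

/-- passing from countable sets to arbitrary sets (for the ultrafilter) -/
def S_ttst : Prop := ∀ (κ : Cardinal.{0}) [Cod (Kp κ)] [Nonempty (Kp κ)], Supercompact κ →
  ∀ (L : Type) (U : Ultrafilter (Set (Uni (Kp κ) (Wp κ) L))) p d s m1, Setup κ U p d s m1 →
    ∀ (B : L → Set (PP (Kp κ) (Wp κ))), ∀ m ≤ m1,
      (∀ D : Set L, (∀ a : Set L, a.Countable → a ⊆ D → ∀ m' ≤ m, ∃ m'' ≤ m', TT U p d s a B m'') →
        #D < κ → TT U p d s D B m) ∧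
      ((∀ a : Set L, a.Countable → TT U p d s a B m) →
        ∀ᶠ X in (U : Filter (Set (Uni (Kp κ) (Wp κ) L))),
          Psi (trU X) (p X) (d X) m (s X) (trU X).mL B)

/-- there are branches of size less than `κ` -/
def S_T5 : Prop := ∀ (κ : Cardinal.{0}) [Cod (Kp κ)] [Nonempty (Kp κ)], Supercompact κ →
  ∀ (L : Type) (U : Ultrafilter (Set (Uni (Kp κ) (Wp κ) L))) p d s m1, Setup κ U p d s m1 →
    ∀ D : Set L, #D < κ → ∀ m ≤ m1, ∃ m' ≤ m, ∃ B, TT U p d s D B m'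

/-! ### The tree of restrictions -/

section
variable {K W L : Type} [LinearOrder K] [WellFoundedLT K] [Cod K] [LinearOrder W] [WellFoundedLT W]

/-- an enumeration of the elements of a model -/
structure Dat (K W L : Type) [LinearOrder K] [Cod K] [LinearOrder W] [WellFoundedLT W] where
  t : Trace K W L
  τ : K
  h : K → L ⊕ (L → Set (PP K W))

variable (D : Dat K W L)

structure Dat.Ok : Prop where
  tr : Tr D.τ
  hL : ∀ l ∈ D.t.mL, ∃ k < D.τ, D.h k = Sum.inl l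
  hN : ∀ y ∈ D.t.mN, ∃ k < D.τ, D.h k = Sum.inr y
  hL' : ∀ k < D.τ, ∀ l, D.h k = Sum.inl l → l ∈ D.t.mL
  hN' : ∀ k < D.τ, ∀ y, D.h k = Sum.inr y → y ∈ D.t.mN
  guess : D.t.Guess

/-- the countable set of the elements of `L` with indices in `N` -/
def Dat.aN (N : Set K) : Set L := {l | ∃ k ∈ N, D.h k = Sum.inl l}

/-- `u` forces that the names with indices `ξ` and `η` agree on `aN N` -/
def Dat.Rep (u : PP K W) (N : Set K) (ξ η : K) : Prop :=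
  ∃ y y', D.h ξ = Sum.inr y ∧ D.h η = Sum.inr y' ∧ EqOn u (D.aN N) y y'

/-- the rank of `ξ'` is less than the rank of `ξ` -/
def Dat.Lt (ξ' ξ : K) : Set (PP K W) := {u | ∃ N, u ∈ CT D.τ N ∧ ξ' ∈ N ∧ ξ ∉ N}

/-- the nodes (before restriction) -/
abbrev Dat.T : Type := {x : Set K × K // x.1.Countable ∧ x.1 ⊆ Iio D.τ ∧ x.2 < D.τ}

/-- the nodes of the tree: canonical indices of restrictions, at jumps of the rank -/
def Dat.A (x : D.T) : Set (PP K W) :=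
  {u | u ∈ CT D.τ x.1.1 ∧ (∃ y, D.h x.1.2 = Sum.inr y) ∧
    (∀ u' ≤ u, ∀ ξ, u' ∈ D.Lt ξ x.1.2 → ¬ D.Rep u' x.1.1 ξ x.1.2) ∧
    (∀ u' ≤ u, ∀ ξ < x.1.2, D.Rep u' x.1.1 ξ x.1.2 → ∃ u'' ≤ u', u'' ∈ D.Lt x.1.2 ξ) ∧
    ∀ u' ≤ u, ∀ N : Set K, N.Countable → cd N ∈ x.1.1 → u' ∈ CT D.τ N →
      ∃ u'' ≤ u', ∃ ξ, u'' ∈ D.Lt ξ x.1.2 ∧ D.Rep u'' N ξ x.1.2}

/-- the order of the tree -/
def Dat.lt (x y : D.T) : Set (PP K W) :=
  {u | u ∈ CT D.τ x.1.1 ∧ u ∈ CT D.τ y.1.1 ∧ cd x.1.1 ∈ y.1.1 ∧ D.Rep u x.1.1 x.1.2 y.1.2}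

end

def S_isTree : Prop := ∀ (K W L : Type) [LinearOrder K] [WellFoundedLT K] [Cod K] [LinearOrder W]
  [WellFoundedLT W] (D : Dat K W L), D.Ok → ∀ q0 : PP K W, IsTree q0 D.A D.lt

/-- A specialized tree of restrictions gives guessing in each extension which preserves `ω₁`. -/
def S_ind : Prop := ∀ (K W L : Type) [LinearOrder K] [WellFoundedLT K] [Cod K] [LinearOrder W]
  [WellFoundedLT W] (D : Dat K W L), D.Ok → ∀ q0 : PP K W,
  ∀ σ : D.T → ℕ → Set (PP K W), (∀ t n, Down (σ t n)) →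
    (∀ t, ∀ u ≤ q0, u ∈ D.A t → ∃ u' ≤ u, ∃ n, u' ∈ σ t n) →
    (∀ s t n, ∀ u ≤ q0, u ∈ σ s n → u ∈ σ t n → u ∉ D.lt s t) →
    ∀ (Q : PosetName (PP K W)) (p' : PP K W), p' ≤ q0 →
      (∀ x : Q.Iter, x.fst ≤ p' → x ∈ OmegaOnePreserved Q.Iter) →
      ∀ x : Q.Iter, x.fst ≤ p' → ∀ d : L → Set Q.Iter,
        (∀ a : Set L, a.Countable → a ⊆ D.t.mL → ∀ x' ≤ x, ∃ x'' ≤ x', ∃ y ∈ D.t.mN,
          EqOn x'' a d (liftN y)) →
        ∀ x' ≤ x, ∃ x'' ≤ x', ∃ y ∈ D.t.mN, EqOn x'' D.t.mL d (liftN y)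

/-- the family of subsets of `L` given by a model -/
def S_family : Prop := ∀ (κ : Cardinal.{0}) [Cod (Kp κ)], Supercompact κ →
  ∀ (L : Type) (F : FnN L (PP (Kp κ) (Wp κ))) (q0 : PP (Kp κ) (Wp κ)),
    ∃ (mL : Set L) (mN : Set (L → Set (PP (Kp κ) (Wp κ)))) (Y : Om1 → L → Set (PP (Kp κ) (Wp κ))),
      (∀ y ∈ mN, ∀ u, ∃ u' ≤ u, ∃ j, u' ∈ SEq (Y j) y) ∧
      (∀ j u, ∃ u' ≤ u, ∃ y ∈ mN, u' ∈ SEq (Y j) y) ∧
      (∀ i n s, (∀ k, s k ∈ mN) → F i n s ∈ mN) ∧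
      (∀ y ∈ mN, ∀ l u, u ∈ SEq y (sing l) → l ∈ mL) ∧
      (∀ a : Set L, a.Countable → a ⊆ mL → (fun l : L => {_u | l ∈ a}) ∈ mN) ∧
      ∀ (Q : PosetName (PP (Kp κ) (Wp κ))) (p' : PP (Kp κ) (Wp κ)), p' ≤ q0 →
        (∀ x : Q.Iter, x.fst ≤ p' → x ∈ OmegaOnePreserved Q.Iter) →
        ∀ x : Q.Iter, x.fst ≤ p' → ∀ d : L → Set Q.Iter,
          (∀ a : Set L, a.Countable → a ⊆ mL → ∀ x' ≤ x, ∃ x'' ≤ x', ∃ y ∈ mN,
            EqOn x'' a d (liftN y)) →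
          ∀ x' ≤ x, ∃ x'' ≤ x', ∃ y ∈ mN, EqOn x'' mL d (liftN y)

end Pool.Agent.H915
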